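import Pool.Agent.LibQF.FS

/-!
# A large letter of side `s` survives
-/

namespace Pool.Agent.LibQF

universe u

namespace Sys

variable {X : Type u} {S : Sys X} {n : ℕ}

lemma keep_letter (hg : S.Good n) {s : Bool} {k : S.E} (hk : S.side k = s) :
    ∀ (N : ℕ) (Y V : List S.A) (e : S.E), S.wt (Y ++ .inr e :: V) = N →
      (∀ f, Sum.inr f ∈ Y → S.sz f < S.sz k) →
      S.L s (Y ++ S.o2l (S.par k)) = S.par k → S.Red s (.inr e :: V) →
      S.le (some e) (some k) → S.wt (Y ++ .inr e :: V) < n →
      ∀ Z, S.Steps s (Y ++ .inr e :: V) Z → S.Red s Z →
        ∃ f, Sum.inr f ∈ Z ∧ S.le (some f) (some k) := by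
  intro N
  induction N using Nat.strong_induction_on with
  | _ N ih =>
    intro Y V e hN hY hL hV he hw Z hZ hZr
    subst hN
    by_cases hr : S.Red s (Y ++ .inr e :: V)
    · have := Red_Steps S hr hZ
      rw [this]
      exact ⟨e, by simp, he⟩
    obtain ⟨a, c, b, h1, h2⟩ := step_of_not_red hr
    have hc := S.wt_par c
    have hek := le_sz he
    have hkp := S.wt_par k
    -- position of the redex
    have hpos : ∃ Y2, Y = a ++ .inr c :: Y2 ∧ b = Y2 ++ .inr e :: V := by
      rcases List.append_eq_append_iff.1 h1 with ⟨d, hd1, hd2⟩ | ⟨d, hd1, hd2⟩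
      · exfalso
        subst hd1
        rcases h2 with h2 | h2
        · exact noR1_after hg hL hV he (by omega) hd2 h2
        · exact ((red_iff.1 hV) _ _ _ hd2).2 h2
      · rcases d with _ | ⟨d0, d⟩
        · exfalso
          simp at hd1 hd2
          subst hd1
          rcases h2 with h2 | h2
          · have := noR1_after hg (Y := Y) (a := []) (b := b) (c := c) hL hV he (by omega)
              (by simp [hd2])
            simp at this
            exact this h2
          · exact ((red_iff.1 hV) [] c b (by simp [hd2])).2 h2
        · simp at hd2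
          obtain ⟨rfl, rfl⟩ := hd2
          exact ⟨d, hd1, rfl⟩
    obtain ⟨Y2, rfl, rfl⟩ := hpos
    have hwR := S.wt_Rt s (.inr e :: V)
    have hce : S.sz c < S.sz k := hY c (by simp)
    -- the reduced word is a reduct
    have h3 : S.Step s (a ++ .inr c :: (Y2 ++ .inr e :: V))
        (a ++ (S.o2l (S.par c) ++ (Y2 ++ .inr e :: V))) := Pre.Step.mk a c _ h2
    have h4 : S.Steps s (a ++ (S.o2l (S.par c) ++ (Y2 ++ .inr e :: V))) Z := by
      apply steps_of_red hg.conf (w := a ++ .inr c :: (Y2 ++ .inr e :: V)) (by simpa using hw)
        (Relation.ReflTransGen.single h3) (by simpa using hZ) hZr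
    have hstep : S.Step s (a ++ .inr c :: (Y2 ++ S.o2l (S.par k)))
        (a ++ (S.o2l (S.par c) ++ (Y2 ++ S.o2l (S.par k)))) := by
      apply Pre.Step.mk
      rcases h2 with h2 | h2
      · exact Or.inl h2
      right
      by_contra hcon
      unfold Pre.IsR2 at h2 hcon
      have h5 : S.le (S.Rt s (.inr e :: V)) (some e) := by
        have := p5R hg (s := s) (u := [.inr e]) (v := V) (by simp at hw ⊢; omega)
        simpa using this
      have h6 := p3R hg (s := s) (u := S.o2l (S.par c) ++ Y2) (v := .inr e :: V)
        (by simp at hw ⊢; omega)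
      rw [List.append_assoc] at h6
      rw [h6] at h2
      obtain ⟨g, h7, h8, h9, h10, h11, _⟩ := crossR hg (s := s) (e := S.Rt s (.inr e :: V))
        (P := S.par k) (Z := S.o2l (S.par c) ++ Y2) (q := c)
        (le_trans h5 (le_trans he (le_par k))) (by simp at hw hwR ⊢; omega) h2
        (by simpa using hcon)
      have hgk : S.le (some g) (some k) := by
        rcases le_total_above h7 (le_trans h5 he) with h12 | h12
        · exact h12
        · rcases le_cases h12 with h13 | h13
          · rw [h13]; exact S.le_refl _
          · exact absurd (le_trans h8 h13) (not_par_le g)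
      have hsg := le_wt h7
      simp at hsg
      have hwo := S.wt_opr s (.inr g)
      simp at hwo
      obtain ⟨e', V', h12, h13⟩ := first_opr hg (s := s) hk hgk (by simp at hw hwR; omega)
      have hRo := S.Red_opr s (.inr g)
      rw [h12] at hwo hRo h11
      obtain ⟨f, h14, h15⟩ := ih (S.wt ((S.o2l (S.par c) ++ Y2) ++ .inr e' :: V')) (by
          simp at hwo hwR ⊢; omega) (S.o2l (S.par c) ++ Y2) V' e' rfl (by
          intro f hf
          simp at hf
          rcases hf with hf | hf
          · cases hpc : S.par c with
            | none => rw [hpc] at hf; simp at hf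
            | some p =>
              rw [hpc] at hf hc
              simp at hf hc
              subst hf
              omega
          · exact hY f (by simp [hf])) (by
          apply le_antisymm
          · have := p5L hg (s := s) (u := S.o2l (S.par c) ++ Y2) (v := S.o2l (S.par k))
              (by simp at hw ⊢; omega)
            simpa using this
          · have e1 := p5L hg (s := s) (u := a) (v := .inr c :: (Y2 ++ S.o2l (S.par k)))
              (by simp at hw ⊢; omega)
            have e2 := monoL hg (s := s) (e := some c) (f := S.par c)
              (Z := Y2 ++ S.o2l (S.par k)) (le_par c) (by simp at hw ⊢; omega)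
            simp at e1 e2 hL ⊢
            rw [hL] at e1
            exact le_trans e1 e2) hRo h13 (by simp at hw hwo hwR ⊢; omega) _ h11
          (S.Red_opr s _)
      have h16 := le_sz h15
      rcases S.mem_opr h14 with ⟨_, h17⟩ | ⟨_, h17⟩
      · subst h17
        omega
      · omega
    have hL' : S.L s ((a ++ (S.o2l (S.par c) ++ Y2)) ++ S.o2l (S.par k)) = S.par k := by
      have h5 := L_step1 hg.inv (by simp at hw ⊢; omega) hstep
      simp at h5 hL ⊢
      rw [← h5]
      exact hL
    exact ih (S.wt ((a ++ (S.o2l (S.par c) ++ Y2)) ++ .inr e :: V)) (by simp; omega)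
      (a ++ (S.o2l (S.par c) ++ Y2)) V e rfl (by
        intro f hf
        simp at hf
        rcases hf with hf | hf | hf
        · exact hY f (by simp [hf])
        · cases hpc : S.par c with
          | none => rw [hpc] at hf; simp at hf
          | some p =>
            rw [hpc] at hf hc
            simp at hf hc
            subst hf
            omega
        · exact hY f (by simp [hf])) hL' hV he (by simp at hw ⊢; omega) Z
      (by simpa using h4) hZr

end Sys

end Pool.Agent.LibQF
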