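import Pool.Agent.LibQF.Good

/-!
# All statements without size bounds, and equality of words

`H : ∀ n, S.Good n`.  `Eqv s w w'`: the words `w`, `w'` have a common reduct.
-/

namespace Pool.Agent.LibQF

universe u

namespace Sys

variable {X : Type u} {S : Sys X}

/-- equality in the monoid -/
def Eqv (S : Sys X) (s : Bool) (w w' : List S.A) : Prop := ∃ z, S.Steps s w z ∧ S.Steps s w' z

lemma Eqv.refl {s : Bool} (w : List S.A) : S.Eqv s w w :=
  ⟨w, Relation.ReflTransGen.refl, Relation.ReflTransGen.refl⟩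

lemma Eqv.of_eq {s : Bool} {w w' : List S.A} (h : w = w') : S.Eqv s w w' := h ▸ Eqv.refl w

lemma Eqv.symm {s : Bool} {a b : List S.A} (h : S.Eqv s a b) : S.Eqv s b a := by
  obtain ⟨z, h1, h2⟩ := h
  exact ⟨z, h2, h1⟩

lemma Eqv.of_steps {s : Bool} {a b : List S.A} (h : S.Steps s a b) : S.Eqv s a b :=
  ⟨b, h, Relation.ReflTransGen.refl⟩

lemma Eqv.of_step {s : Bool} {a b : List S.A} (h : S.Step s a b) : S.Eqv s a b :=
  Eqv.of_steps (Relation.ReflTransGen.single h)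

lemma Eqv.rev {s : Bool} {a b : List S.A} (h : S.Eqv s a b) :
    S.Eqv (!s) a.reverse b.reverse := by
  obtain ⟨z, h1, h2⟩ := h
  exact ⟨z.reverse, Steps_rev S h1, Steps_rev S h2⟩

lemma Eqv.rev' {s : Bool} {a b : List S.A} (h : S.Eqv (!s) a.reverse b.reverse) :
    S.Eqv s a b := by
  have := Eqv.rev h
  simpa using this

lemma eqv_red {s : Bool} {a b : List S.A} (h : S.Eqv s a b) (ha : S.Red s a) (hb : S.Red s b) :
    a = b := by
  obtain ⟨z, h1, h2⟩ := h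
  rw [← Red_Steps S ha h1, ← Red_Steps S hb h2]

section
variable (H : ∀ n, S.Good n)
include H

lemma Eqv.trans {s : Bool} {a b c : List S.A} (h1 : S.Eqv s a b) (h2 : S.Eqv s b c) :
    S.Eqv s a c := by
  obtain ⟨z1, h3, h4⟩ := h1
  obtain ⟨z2, h5, h6⟩ := h2
  obtain ⟨z, h7, h8⟩ := church_rosser (H (S.wt b + 1)).conf (Nat.lt_succ_self _) h4 h5
  exact ⟨z, h3.trans h7, h6.trans h8⟩

lemma eqv_steps_red {s : Bool} {a b : List S.A} (h : S.Eqv s a b) (hb : S.Red s b) :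
    S.Steps s a b := by
  obtain ⟨z, h1, h2⟩ := h
  rw [Red_Steps S hb h2] at h1
  exact h1

lemma steps_app {s : Bool} {a b : List S.A} (c d : List S.A) (h : S.Steps s a b) :
    S.Steps s (c ++ a ++ d) (c ++ b ++ d) :=
  steps_append (H (S.wt (c ++ a ++ d))) c d h le_rfl

lemma step_app {s : Bool} {a b : List S.A} (c d : List S.A) (h : S.Step s a b) :
    S.Step s (c ++ a ++ d) (c ++ b ++ d) :=
  step_append (H (S.wt (c ++ a ++ d))) c d h le_rfl

/-- congruence -/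
lemma Eqv.app {s : Bool} {a b : List S.A} (c d : List S.A) (h : S.Eqv s a b) :
    S.Eqv s (c ++ a ++ d) (c ++ b ++ d) := by
  obtain ⟨z, h1, h2⟩ := h
  exact ⟨c ++ z ++ d, steps_app H c d h1, steps_app H c d h2⟩

lemma Eqv.app_left {s : Bool} {a b : List S.A} (c : List S.A) (h : S.Eqv s a b) :
    S.Eqv s (c ++ a) (c ++ b) := by
  have := Eqv.app H c [] h
  simpa using this

lemma Eqv.app_right {s : Bool} {a b : List S.A} (d : List S.A) (h : S.Eqv s a b) :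
    S.Eqv s (a ++ d) (b ++ d) := by
  have := Eqv.app H [] d h
  simpa using this

lemma eqvL {s : Bool} {a b : List S.A} (h : S.Eqv s a b) : S.L s a = S.L s b := by
  obtain ⟨z, h1, h2⟩ := h
  rw [L_steps (H (S.wt a + 1)).inv (Nat.lt_succ_self _) h1,
    L_steps (H (S.wt b + 1)).inv (Nat.lt_succ_self _) h2]

lemma eqvR {s : Bool} {a b : List S.A} (h : S.Eqv s a b) : S.Rt s a = S.Rt s b := by
  obtain ⟨z, h1, h2⟩ := h
  rw [Rt_steps (H (S.wt a + 1)).inv (Nat.lt_succ_self _) h1,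
    Rt_steps (H (S.wt b + 1)).inv (Nat.lt_succ_self _) h2]

/-! ## the basic statements -/

lemma aP3L (s : Bool) (u v : List S.A) : S.L s (u ++ v) = S.L s (S.o2l (S.L s u) ++ v) :=
  p3L (H (S.wt (u ++ v) + 1)) (Nat.lt_succ_self _)

lemma aP3R (s : Bool) (u v : List S.A) : S.Rt s (u ++ v) = S.Rt s (u ++ S.o2l (S.Rt s v)) :=
  p3R (H (S.wt (u ++ v) + 1)) (Nat.lt_succ_self _)

lemma aP5L (s : Bool) (u v : List S.A) : S.le (S.L s (u ++ v)) (S.L s v) :=
  p5L (H (S.wt (u ++ v) + 1)) (Nat.lt_succ_self _)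

lemma aP5R (s : Bool) (u v : List S.A) : S.le (S.Rt s (u ++ v)) (S.Rt s u) :=
  p5R (H (S.wt (u ++ v) + 1)) (Nat.lt_succ_self _)

lemma aMonoL {s : Bool} {e f : Option S.E} (Z : List S.A) (hef : S.le e f) :
    S.le (S.L s (S.o2l e ++ Z)) (S.L s (S.o2l f ++ Z)) :=
  monoL (H (S.wt (S.o2l e ++ Z) + 1)) hef (Nat.lt_succ_self _)

lemma aMonoR {s : Bool} {e f : Option S.E} (Z : List S.A) (hef : S.le e f) :
    S.le (S.Rt s (Z ++ S.o2l e)) (S.Rt s (Z ++ S.o2l f)) :=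
  monoR (H (S.wt (Z ++ S.o2l e) + 1)) hef (Nat.lt_succ_self _)

lemma aFixL {s : Bool} {u : List S.A} {g : S.E}
    (h1 : S.le (some g) (S.L s (u ++ S.o2l (S.par g)))) : S.L s (u ++ [.inr g]) = some g :=
  fixL (H (S.wt (u ++ [.inr g]) + 1)) (Nat.lt_succ_self _) h1

lemma aFixR {s : Bool} {v : List S.A} {g : S.E}
    (h1 : S.le (some g) (S.Rt s (S.o2l (S.par g) ++ v))) : S.Rt s (.inr g :: v) = some g :=
  fixR (H (S.wt (.inr g :: v) + 1)) (Nat.lt_succ_self _) h1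

lemma aSplL {s : Bool} {u v : List S.A} {g : S.E}
    (h1 : S.Rt s v = some g) (h2 : S.L s (u ++ [.inr g]) = some g) : S.L s (u ++ v) = S.L s v :=
  splL (H (S.wt (u ++ v) + 1)) (Nat.lt_succ_self _) h1 h2

lemma aSplR {s : Bool} {u v : List S.A} {g : S.E}
    (h1 : S.L s u = some g) (h2 : S.Rt s (.inr g :: v) = some g) :
    S.Rt s (u ++ v) = S.Rt s u :=
  splR (H (S.wt (u ++ v) + 1)) (Nat.lt_succ_self _) h1 h2

lemma aMF (s : Bool) (a : S.A) (Z : List S.A) :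
    S.L s (a :: Z) = S.L s (S.up a ++ Z) ∨
    ∃ κ : S.E, S.L s (a :: Z) = some κ ∧ S.par κ = S.L s (S.up a ++ Z) ∧
      S.Steps s (S.op s a ++ Z) (S.op s (.inr κ)) ∧
      (S.op s (.inr κ)).head? = (S.op s a).head? :=
  mfL (H (S.wt (a :: Z) + 1)) (Nat.lt_succ_self _)

lemma aTTL {s : Bool} {y : List S.A} {z : S.A} {q : S.E}
    (hq : S.side q ≠ s) (h1 : S.le (S.L s (y ++ [z])) (some q))
    (h2 : ∀ e, z = .inr e → ¬ S.le (some e) (some q)) :
    ∃ e, z = .inr e ∧ S.le (some q) (some e) ∧ S.le (S.L s y) (some q) :=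
  ttL (H (S.wt (y ++ [z]) + 1)) (Nat.lt_succ_self _) hq h1 h2

lemma aTTR {s : Bool} {y : List S.A} {z : S.A} {q : S.E}
    (hq : S.side q = s) (h1 : S.le (S.Rt s (z :: y)) (some q))
    (h2 : ∀ e, z = .inr e → ¬ S.le (some e) (some q)) :
    ∃ e, z = .inr e ∧ S.le (some q) (some e) ∧ S.le (S.Rt s y) (some q) :=
  ttR (H (S.wt (z :: y) + 1)) (Nat.lt_succ_self _) hq h1 h2

lemma aCrossL {s : Bool} {e P : Option S.E} {Z : List S.A} {q : S.E}
    (heP : S.le e P) (h1 : S.le (S.L s (S.o2l e ++ Z)) (some q))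
    (h2 : ¬ S.le (S.L s (S.o2l P ++ Z)) (some q)) :
    ∃ g : S.E, S.le e (some g) ∧ S.le (S.par g) P ∧ S.L s (.inr g :: Z) = some q ∧
      S.L s (S.o2l (S.par g) ++ Z) = S.par q ∧
      S.Steps s (S.op s (.inr g) ++ Z) (S.op s (.inr q)) ∧
      (S.op s (.inr q)).head? = (S.op s (.inr g)).head? :=
  crossL (H (S.wt (S.o2l e ++ Z) + 1)) heP (Nat.lt_succ_self _) h1 h2

lemma aCrossR {s : Bool} {e P : Option S.E} {Z : List S.A} {q : S.E}
    (heP : S.le e P) (h1 : S.le (S.Rt s (Z ++ S.o2l e)) (some q))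
    (h2 : ¬ S.le (S.Rt s (Z ++ S.o2l P)) (some q)) :
    ∃ g : S.E, S.le e (some g) ∧ S.le (S.par g) P ∧ S.Rt s (Z ++ [.inr g]) = some q ∧
      S.Rt s (Z ++ S.o2l (S.par g)) = S.par q ∧
      S.Steps s (Z ++ S.opr s (.inr g)) (S.opr s (.inr q)) ∧
      (S.opr s (.inr q)).getLast? = (S.opr s (.inr g)).getLast? :=
  crossR (H (S.wt (Z ++ S.o2l e) + 1)) heP (Nat.lt_succ_self _) h1 h2

lemma aAbsorbL {s : Bool} {u : List S.A} {f : Option S.E} (h1 : S.le (S.L s u) f) :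
    S.L s (u ++ S.o2l f) = S.L s u :=
  absorbL (H (S.wt (u ++ S.o2l f) + 1)) h1 (Nat.lt_succ_self _)

lemma aAbsorbR {s : Bool} {v : List S.A} {f : Option S.E} (h1 : S.le (S.Rt s v) f) :
    S.Rt s (S.o2l f ++ v) = S.Rt s v :=
  absorbR (H (S.wt (S.o2l f ++ v) + 1)) h1 (Nat.lt_succ_self _)

lemma aFixdownL {s : Bool} {u : List S.A} {g : S.E} {q : Option S.E}
    (h : S.le (some g) q) (h1 : S.le (some g) (S.L s (u ++ S.o2l q))) :
    S.L s (u ++ [.inr g]) = some g :=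
  fixdownL (H (S.wt (u ++ [.inr g]) + 1)) h h1 (Nat.lt_succ_self _)

lemma aFixdownR {s : Bool} {v : List S.A} {g : S.E} {q : Option S.E}
    (h : S.le (some g) q) (h1 : S.le (some g) (S.Rt s (S.o2l q ++ v))) :
    S.Rt s (.inr g :: v) = some g :=
  fixdownR (H (S.wt (.inr g :: v) + 1)) h h1 (Nat.lt_succ_self _)

lemma aLastT {s : Bool} {y : List S.A} {z : S.A} {q : S.E}
    (hr : S.Red s (y ++ [z])) (hq : S.side q ≠ s)
    (h : S.le (S.L s (y ++ [z])) (some q)) : ∃ e, z = .inr e ∧ S.le (some e) (some q) :=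
  lastT (H (S.wt (y ++ [z]) + 1)) hr (Nat.lt_succ_self _) hq h

lemma aFirstT {s : Bool} {y : List S.A} {z : S.A} {q : S.E}
    (hr : S.Red s (z :: y)) (hq : S.side q = s)
    (h : S.le (S.Rt s (z :: y)) (some q)) : ∃ e, z = .inr e ∧ S.le (some e) (some q) :=
  firstT (H (S.wt (z :: y) + 1)) hr (Nat.lt_succ_self _) hq h

lemma aStepsR1 {s : Bool} (u z : List S.A) {f0 G : Option S.E} (h : S.le f0 G)
    (h1 : S.le (S.L s (u ++ S.o2l G)) f0) :
    S.Steps s (u ++ S.o2l f0 ++ z) (u ++ S.o2l G ++ z) :=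
  stepsR1 (H (S.wt (u ++ S.o2l f0 ++ z))) h h1 le_rfl

lemma aStepsR2 {s : Bool} (u z : List S.A) {f0 G : Option S.E} (h : S.le f0 G)
    (h1 : S.le (S.Rt s (S.o2l G ++ z)) f0) :
    S.Steps s (u ++ S.o2l f0 ++ z) (u ++ S.o2l G ++ z) :=
  stepsR2 (H (S.wt (u ++ S.o2l f0 ++ z))) h h1 le_rfl

/-- `u f = u` if `L u ≤ f` -/
lemma eqv_absorbL {s : Bool} (u z : List S.A) {f : Option S.E} (h : S.le (S.L s u) f) :
    S.Eqv s (u ++ S.o2l f ++ z) (u ++ z) := by
  have h1 := aStepsR1 H u z (f0 := f) (G := none) (s := s) (le_none f)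
    (by simpa using h)
  have h2 := Eqv.of_steps h1
  simpa using h2

/-- `f v = v` if `Rt v ≤ f` -/
lemma eqv_absorbR {s : Bool} (u v : List S.A) {f : Option S.E} (h : S.le (S.Rt s v) f) :
    S.Eqv s (u ++ S.o2l f ++ v) (u ++ v) := by
  have h1 := aStepsR2 H u v (f0 := f) (G := none) (s := s) (le_none f)
    (by simpa using h)
  have h2 := Eqv.of_steps h1
  simpa using h2

/-- `e f = e` for `e ≤ f` -/
lemma eqv_ef {s : Bool} (u z : List S.A) {e f : Option S.E} (h : S.le e f) :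
    S.Eqv s (u ++ S.o2l e ++ S.o2l f ++ z) (u ++ S.o2l e ++ z) := by
  cases e with
  | none =>
    rw [none_le h]
    simp
    exact Eqv.refl _
  | some e0 =>
    have h1 := eqv_absorbL H (s := s) ([.inr e0]) z (f := f)
      (by rw [S.L_single]; exact h)
    have h2 := Eqv.app_left H u h1
    simpa using h2

/-- `f e = e` for `e ≤ f` -/
lemma eqv_fe {s : Bool} (u z : List S.A) {e f : Option S.E} (h : S.le e f) :
    S.Eqv s (u ++ S.o2l f ++ S.o2l e ++ z) (u ++ S.o2l e ++ z) := by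
  have h1 := eqv_ef H (s := !s) z.reverse u.reverse h
  have h2 := Eqv.rev h1
  simpa using h2

end

end Sys

end Pool.Agent.LibQF
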