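import Pool.Agent.LibQF.ConfS

/-!
# `MF` for words of size `n`
-/

namespace Pool.Agent.LibQF

universe u

namespace Sys

variable {X : Type u} {S : Sys X} {n : ℕ}

lemma op_of_ns {s : Bool} {a : S.A} (h : S.NS s [a]) : S.op s a = [a] := by
  cases a with
  | inl x => rfl
  | inr e =>
    have h1 : S.side e ≠ s := h
    simp [Pre.op, h1]

/-- first letter not of side `s` -/
lemma mf0 (hg : S.Good n) (hi : S.Inv (n + 1)) {s : Bool} {a : S.A} {Z : List S.A}
    (hw : S.wt (a :: Z) ≤ n) (hn : S.NS s [a]) :
    S.L s (a :: Z) = S.L s (S.up a ++ Z) ∨
    ∃ κ : S.E, S.L s (a :: Z) = some κ ∧ S.par κ = S.L s (S.up a ++ Z) ∧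
      S.Steps s (a :: Z) (S.op s (Sum.inr κ)) ∧ (S.op s (Sum.inr κ)).head? = some a := by
  have hua := S.wt_up a
  by_cases hZ : Z = []
  · subst hZ
    right
    cases a with
    | inl x =>
      obtain ⟨k, h1, h2, h3, h4⟩ := S.L_top s (Sum.inl x) [] (S.Red_gen s x) (by simp [Pre.NS])
        (by
          rintro ⟨u, v, g, h1, h2, h3, -⟩
          have h4 := congrArg List.length h1
          have h5 := List.length_pos_iff.2 h2
          have h6 := List.length_pos_iff.2 h3
          simp at h4
          omega) (by simp)
      have hop : S.op s (Sum.inr k) = [Sum.inl x] := by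
        simp only [Pre.op, h1, if_true]
        exact h2
      refine ⟨k, h4, h3, ?_, ?_⟩
      · rw [hop]
      · rw [hop]
        rfl
    | inr e =>
      have hop := op_of_ns hn
      refine ⟨e, S.L_single s e, by simp, ?_, ?_⟩
      · rw [hop]
      · rw [hop]
        rfl
  by_cases hr : S.Red s (a :: Z)
  · have hns : S.NS s (a :: Z) := by
      cases a with
      | inl x => simp [Pre.NS]
      | inr e => exact hn
    by_cases hsp : S.Split s (a :: Z)
    · left
      exact S.L_split s a Z hr hns hsp
    · right
      obtain ⟨k, h1, h2, h3, h4⟩ := S.L_top s a Z hr hns hsp (by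
        intro e he
        simp only [List.cons.injEq] at he
        exact hZ he.2)
      have hop : S.op s (Sum.inr k) = a :: Z := by
        simp only [Pre.op, h1, if_true]
        exact h2
      refine ⟨k, h4, h3, ?_, ?_⟩
      · rw [hop]
      · rw [hop]
        rfl
  · obtain ⟨u, k, v, huv, hR⟩ := step_of_not_red hr
    have hk := S.wt_par k
    have hstep := Pre.Step.mk (S := S.toPre) (s := s) u k v hR
    rw [← huv] at hstep
    have hL1 := hi s _ _ (by omega) hstep
    rcases u with _ | ⟨a', Z1⟩
    · simp only [List.nil_append, List.cons.injEq] at huv hL1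
      obtain ⟨h1, h2⟩ := huv
      subst h1
      subst h2
      left
      exact hL1
    · simp only [List.cons_append, List.cons.injEq] at huv hL1 hstep
      obtain ⟨h1, h2⟩ := huv
      subst h1
      subst h2
      have hwt : S.wt (a :: (Z1 ++ Sum.inr k :: v)) =
          S.wtA a + (S.wt Z1 + (S.sz k + S.wt v)) := by simp
      rw [hwt] at hw
      by_cases hc : S.IsR1 s (S.up a ++ Z1) k ∨ S.IsR2 s k v
      · -- raised in both words
        have hst2 := Pre.Step.mk (S := S.toPre) (s := s) (S.up a ++ Z1) k v hc
        have hL2 := hi s _ _ (by simp; omega) hst2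
        simp only [List.append_assoc] at hL2
        rcases hg.mf s a (Z1 ++ (S.o2l (S.par k) ++ v)) (by simp; omega) with
          h | ⟨κ, h1, h2, h3, h4⟩
        · left
          rw [hL1, h, ← hL2]
        · right
          rw [op_of_ns hn] at h3 h4
          refine ⟨κ, by rw [hL1, h1], by rw [h2, ← hL2], ?_, by simpa using h4⟩
          exact Relation.ReflTransGen.head hstep (by simpa using h3)
      · push Not at hc
        obtain ⟨hc1, hc2⟩ := hc
        have hR1 := hR.resolve_right hc2
        left
        unfold Pre.IsR1 at hR1 hc1
        simp only [List.cons_append, List.append_assoc] at hR1 hc1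
        rcases hg.mf s a (Z1 ++ S.o2l (S.par k)) (by simp; omega) with
          h | ⟨κ, h1, h2, h3, h4⟩
        · rw [h] at hR1
          exact absurd hR1 hc1
        · rw [h1] at hR1
          rcases le_cases hR1 with h5 | h5
          · have hκ : κ = k := (Option.some.inj h5).symm
            subst hκ
            have h6 := hg.fix s (S.up a ++ Z1) κ (by simp; omega) (by
              rw [List.append_assoc, ← h2]
              exact le_par κ)
            have h7 := hg.p3 s (a :: (Z1 ++ S.o2l (S.par κ))) v (by simp; omega)
            have h8 := hg.p3 s (S.up a ++ Z1 ++ [Sum.inr κ]) v (by simp; omega)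
            rw [h1] at h7
            rw [h6] at h8
            simp only [List.append_assoc, List.cons_append, List.nil_append] at h7 h8
            rw [hL1, h7, h8]
          · rw [h2] at h5
            exact absurd h5 hc1

lemma mf_succ (hg : S.Good n) (hi : S.Inv (n + 1)) (hp : S.P3 (n + 1)) : S.MF (n + 1) := by
  intro s a Z hw
  by_cases hn : S.NS s [a]
  · rcases mf0 hg hi (Z := Z) (by omega) hn with h | ⟨κ, h1, h2, h3, h4⟩
    · exact Or.inl h
    · right
      refine ⟨κ, h1, h2, ?_, ?_⟩
      · rw [op_of_ns hn]
        simpa using h3
      · rw [op_of_ns hn, h4]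
        rfl
  · cases a with
    | inl x => exact absurd (by simp [Pre.NS]) hn
    | inr c =>
      have hc : S.side c = s := by
        by_contra h
        exact hn h
      subst hc
      have hop : S.op (S.side c) (Sum.inr c) = S.om c := by simp [Pre.op]
      have hsz : S.wt (S.om c) = S.sz c := (S.sz_om c).symm
      have h1 : S.L (S.side c) (Sum.inr c :: Z) = S.L (S.side c) (S.om c ++ Z) := by
        have := hp (S.side c) (S.om c) Z (by simp at hw ⊢; omega)
        rw [S.L_om] at this
        simpa using this.symm
      have hns := S.om_ns c
      cases hom : S.om c with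
      | nil => exact absurd hom (S.om_ne_nil c)
      | cons c1 c' =>
        rw [hom] at h1 hns hsz
        have hup := S.wt_up c1
        have hns' : S.NS (S.side c) [c1] := by
          cases c1 with
          | inl x => simp [Pre.NS]
          | inr e => exact hns
        have hpar := S.om_par hom
        have h2 := hp (S.side c) (S.up c1 ++ c') Z (by simp at hw hsz ⊢; omega)
        rw [← hpar] at h2
        rw [List.append_assoc] at h2
        rcases mf0 hg hi (s := S.side c) (a := c1) (Z := c' ++ Z)
          (by simp at hw hsz ⊢; omega) hns' with h | ⟨κ, h3, h4, h5, h6⟩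
        · left
          rw [h1]
          simp only [List.cons_append]
          rw [h, h2]
          rfl
        · right
          refine ⟨κ, ?_, ?_, ?_, ?_⟩
          · rw [h1]
            simpa using h3
          · rw [h4, h2]
            rfl
          · rw [hop, hom]
            simpa using h5
          · rw [hop, hom, h6]
            rfl

end Sys

end Pool.Agent.LibQF
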