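import Pool.Agent.LibQF.ConfS

/-!
# `Spl` and `P3` for words of size `n`
-/

namespace Pool.Agent.LibQF

universe u

namespace Sys

variable {X : Type u} {S : Sys X} {n : ℕ}

lemma ns_append {s : Bool} {u : List S.A} (v : List S.A) (hu : u ≠ []) :
    S.NS s (u ++ v) ↔ S.NS s u := by
  cases u with
  | nil => exact absurd rfl hu
  | cons a u => cases a <;> exact Iff.rfl

lemma ns_cases (s : Bool) (w : List S.A) :
    S.NS s w ∨ ∃ (c : S.E) (w' : List S.A), w = Sum.inr c :: w' ∧ S.side c = s := by
  cases w with
  | nil => exact Or.inl trivial
  | cons a w =>
    cases a with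
    | inl x => exact Or.inl trivial
    | inr c =>
      by_cases h : S.side c = s
      · exact Or.inr ⟨c, w, rfl, h⟩
      · exact Or.inl h

lemma fixdown_succ (hg : S.Good n) (hf : S.Fix (n + 1)) {s : Bool} {u : List S.A} {g : S.E}
    {q : Option S.E} (h : S.le (some g) q) (hne : some g ≠ q)
    (h1 : S.le (some g) (S.L s (u ++ S.o2l q))) (hw : S.wt (u ++ [Sum.inr g]) ≤ n) :
    S.L s (u ++ [Sum.inr g]) = some g := by
  apply hf s u g (by omega)
  have hpg := S.wt_par g
  have hgq : S.le (S.par g) q := le_cases' h (Ne.symm hne)
  rcases le_cases h1 with h2 | h2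
  · have h3 := stepsR1 hg (s := s) (u := u) (z := []) (f0 := S.par g) (G := q) hgq
      (by rw [h2]; exact le_par g) (by simp at hw ⊢; omega)
    have h4 := L_steps hg.inv (by simp at hw ⊢; omega) h3
    simp only [List.append_nil] at h4
    rw [h4]
    exact h1
  · cases hp : S.par g with
    | none =>
      rw [hp] at hgq
      rw [none_le hgq] at h1
      exact h1
    | some g1 =>
      rw [hp] at hgq h2 hpg
      have h3 := fixdownL hg (s := s) (u := u) (g := g1) (q := q) hgq h2
        (by simp at hw hpg ⊢; omega)
      simp only [o2l_some]
      rw [h3, ← hp]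
      exact le_par g

/-- the largest `G ≥ g` with `g ≤ L (u G)` -/
lemma exists_maxG {s : Bool} {u : List S.A} {g : S.E}
    (h : S.le (some g) (S.L s (u ++ [Sum.inr g]))) :
    ∃ G : Option S.E, S.le (some g) G ∧ S.le (some g) (S.L s (u ++ S.o2l G)) ∧
      ∀ G0 : S.E, G = some G0 → ¬ S.le (some g) (S.L s (u ++ S.o2l (S.par G0))) := by
  have key : ∀ (k : ℕ) (G : Option S.E), S.wt (S.o2l G) = k → S.le (some g) G →
      S.le (some g) (S.L s (u ++ S.o2l G)) →
      ∃ G : Option S.E, S.le (some g) G ∧ S.le (some g) (S.L s (u ++ S.o2l G)) ∧
      ∀ G0 : S.E, G = some G0 → ¬ S.le (some g) (S.L s (u ++ S.o2l (S.par G0))) := by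
    intro k
    induction k using Nat.strong_induction_on with
    | _ k ih =>
      intro G hk h1 h2
      cases G with
      | none => exact ⟨none, h1, h2, by intro G0 h3; cases h3⟩
      | some G1 =>
        by_cases h3 : S.le (some g) (S.L s (u ++ S.o2l (S.par G1)))
        · have h4 := S.wt_par G1
          exact ih _ (by rw [← hk]; simpa using h4) (S.par G1) rfl (le_trans h1 (le_par G1)) h3
        · refine ⟨some G1, h1, h2, ?_⟩
          intro G0 h4
          have h5 : G1 = G0 := by simpa using h4
          rw [← h5]
          exact h3
  exact key _ (some g) rfl (S.le_refl _) h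

/-- the split rule for words whose first letter is not of side `s` -/
lemma sp0 (hg : S.Good n) (hf : S.Fix (n + 1)) (hi : S.Inv (n + 1)) {s : Bool}
    {u v : List S.A} {g : S.E} (hw : S.wt (u ++ v) ≤ n) (hn : S.NS s u)
    (hR : S.Rt s v = some g) (hL : S.L s (u ++ [Sum.inr g]) = some g) :
    S.L s (u ++ v) = S.L s v := by
  induction hl : u.length using Nat.strong_induction_on generalizing u v g with
  | _ l ih =>
    subst hl
    by_cases hu0 : u = []
    · subst hu0
      rfl
    have hupos := S.wt_pos_of_ne hu0
    have hgv : S.sz g ≤ S.wt v := by
      have := S.wt_Rt s v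
      rw [hR] at this
      simpa using this
    have hgpos := S.sz_pos g
    have hv0 : v ≠ [] := by
      rintro rfl
      rw [Rt_nil] at hR
      cases hR
    simp only [wt_append] at hw
    -- (1) `u` is reduced
    by_cases hur : S.Red s u
    swap
    · unfold Pre.Red at hur
      push Not at hur
      obtain ⟨u', hu'⟩ := hur
      have e1 := Step_wt S hu'
      have h1 := hi s _ _ (by simp; omega)
        (step_append_right hg [Sum.inr g] hu' (by simp; omega))
      have h2 := hi s _ _ (by simp; omega) (step_append_right hg v hu' (by simp; omega))
      rw [h2]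
      exact splL hg (by simp; omega) hR (by rw [← h1]; exact hL)
    -- (2) `v` is reduced
    by_cases hvr : S.Red s v
    swap
    · unfold Pre.Red at hvr
      push Not at hvr
      obtain ⟨v', hv'⟩ := hvr
      have e1 := Step_wt S hv'
      have h1 := hi s _ _ (by simp; omega) (step_append_left hg u hv' (by simp; omega))
      have h2 := Rt_step1 hg.inv (by omega) hv'
      have h3 := L_step1 hg.inv (by omega) hv'
      rw [h1, h3]
      exact splL hg (by simp; omega) (by rw [← h2]; exact hR) hL
    -- (3) no `R2` redex of `u` before `v`
    by_cases h3 : ∃ (u1 : List S.A) (k : S.E) (u2 : List S.A), u = u1 ++ Sum.inr k :: u2 ∧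
        S.IsR2 s k (u2 ++ v)
    · obtain ⟨u1, k, u2, rfl, hk⟩ := h3
      have e1 := S.wt_par k
      have e2 := S.sz_pos k
      simp only [wt_append, wt_cons, wtA_inr] at hw
      have hk' : S.IsR2 s k (u2 ++ [Sum.inr g]) := by
        unfold Pre.IsR2 at hk ⊢
        have h4 := p3R hg (s := s) (u := S.o2l (S.par k) ++ u2) (v := v) (by simp; omega)
        rw [hR] at h4
        simp only [List.append_assoc, o2l_some] at h4 hk ⊢
        rw [← h4]
        exact hk
      have h4 := hi s _ _ (by simp; omega) (Pre.Step.mk (S := S.toPre) (s := s) u1 k
        (u2 ++ [Sum.inr g]) (Or.inr hk'))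
      have h5 := hi s _ _ (by simp; omega) (Pre.Step.mk (S := S.toPre) (s := s) u1 k
        (u2 ++ v) (Or.inr hk))
      have h6 := splL hg (s := s) (u := u1 ++ (S.o2l (S.par k) ++ u2)) (v := v) (g := g)
        (by simp; omega) hR (by
          simp only [List.append_assoc, List.cons_append] at h4 hL ⊢
          rw [← h4]
          exact hL)
      simp only [List.append_assoc, List.cons_append] at h5 h6 ⊢
      rw [h5, h6]
    push Not at h3
    -- the largest `G`
    obtain ⟨G, hgG, hG, hmax⟩ := exists_maxG (S := S) (s := s) (u := u) (g := g)
      (by rw [hL]; exact S.le_refl _)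
    have hGsz : S.wt (S.o2l G) ≤ S.sz g := by simpa using le_wt hgG
    have hredG : S.Red s (u ++ S.o2l G) := by
      rw [red_iff]
      intro a k b hab
      rcases List.append_eq_append_iff.1 hab with ⟨a', ha1, ha2⟩ | ⟨c', hc1, hc2⟩
      · -- `k = G`
        cases G with
        | none => simp at ha2
        | some G0 =>
          simp only [o2l_some] at ha2
          obtain ⟨rfl, hk, rfl⟩ : a' = [] ∧ G0 = k ∧ b = [] := by
            cases a' with
            | nil =>
              simp only [List.nil_append, List.cons.injEq, Sum.inr.injEq] at ha2
              exact ⟨rfl, ha2.1, ha2.2.symm⟩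
            | cons x a' => simp at ha2
          subst hk
          rw [List.append_nil] at ha1
          subst ha1
          have e1 := S.wt_par G0
          simp only [o2l_some, wt_cons, wtA_inr, wt_nil, add_zero] at hGsz
          constructor
          · intro h4
            have h5 := hi s _ _ (by simp; omega) (Pre.Step.mk (S := S.toPre) (s := s) a G0 []
              (Or.inl h4))
            apply hmax G0 rfl
            simp only [List.append_nil] at h5
            rw [← h5]
            exact hG
          · intro h4
            unfold Pre.IsR2 at h4
            rw [List.append_nil, Rt_o2l] at h4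
            exact not_par_le G0 h4
      · rcases c' with _ | ⟨c0, c'⟩
        · -- `k = G` again
          simp only [List.nil_append] at hc2
          rw [List.append_nil] at hc1
          subst hc1
          cases G with
          | none => simp at hc2
          | some G0 =>
            simp only [o2l_some, List.cons.injEq, Sum.inr.injEq] at hc2
            obtain ⟨hk, rfl⟩ := hc2
            subst hk
            have e1 := S.wt_par k
            simp only [o2l_some, wt_cons, wtA_inr, wt_nil, add_zero] at hGsz
            constructor
            · intro h4
              have h5 := hi s _ _ (by simp; omega) (Pre.Step.mk (S := S.toPre) (s := s) u k []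
                (Or.inl h4))
              apply hmax k rfl
              simp only [List.append_nil] at h5
              rw [← h5]
              exact hG
            · intro h4
              unfold Pre.IsR2 at h4
              rw [List.append_nil, Rt_o2l] at h4
              exact not_par_le k h4
        · simp only [List.cons_append, List.cons.injEq] at hc2
          obtain ⟨rfl, rfl⟩ := hc2
          constructor
          · exact ((red_iff.1 hur) a k c' hc1).1
          · intro h4
            apply h3 a k c' hc1
            have e1 := S.wt_par k
            have e2 := S.sz_pos k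
            rw [hc1] at hw
            simp only [wt_append, wt_cons, wtA_inr] at hw
            unfold Pre.IsR2 at h4 ⊢
            have h5 := p3R hg (s := s) (u := S.o2l (S.par k) ++ c') (v := v) (by simp; omega)
            have h6 := monoR hg (s := s) (e := some g) (f := G) (Z := S.o2l (S.par k) ++ c') hgG
              (by simp; omega)
            rw [hR] at h5
            simp only [List.append_assoc] at h4 h5 h6 ⊢
            rw [h5]
            exact le_trans h6 h4
    by_cases hsp : S.Split s (u ++ S.o2l G)
    · -- (A)
      obtain ⟨u', v'', γ, h4, hu'0, hv''0, hRγ, hγ⟩ := hsp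
      have e0 := congrArg S.wt h4
      simp only [wt_append] at e0
      have hγv : S.sz γ ≤ S.wt v'' := by
        have := S.wt_Rt s v''
        rw [hRγ] at this
        simpa using this
      have h5 : S.L s (u' ++ [Sum.inr γ]) = some γ := hf s u' γ (by simp; omega) hγ
      have hcase : ∀ G0 : S.E, G = some G0 → u' = u → v'' = [Sum.inr G0] → False := by
        intro G0 h6 h7 h8
        subst h7
        rw [h8, Rt_single] at hRγ
        have h9 : G0 = γ := by simpa using hRγ
        subst h9
        apply hmax G0 h6
        rw [h6] at hgG
        exact le_trans hgG hγ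
      obtain ⟨v1, hv1, hu1, hv''⟩ : ∃ v1, v1 ≠ [] ∧ u = u' ++ v1 ∧ v'' = v1 ++ S.o2l G := by
        rcases List.append_eq_append_iff.1 h4 with ⟨a', ha1, ha2⟩ | ⟨c', hc1, hc2⟩
        · exfalso
          cases G with
          | none =>
            simp only [o2l_none] at ha2
            have := ha2.symm
            simp only [List.append_eq_nil_iff] at this
            exact hv''0 this.2
          | some G0 =>
            cases a' with
            | nil =>
              simp only [o2l_some, List.nil_append] at ha2
              exact hcase G0 rfl (by rw [ha1]; simp) ha2.symm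
            | cons x a' =>
              simp only [o2l_some, List.cons_append, List.cons.injEq] at ha2
              have := ha2.2.symm
              simp only [List.append_eq_nil_iff] at this
              exact hv''0 this.2
        · by_cases hc0 : c' = []
          · exfalso
            subst hc0
            cases G with
            | none =>
              simp only [o2l_none, List.append_nil] at hc2
              exact hv''0 hc2
            | some G0 =>
              exact hcase G0 rfl (by rw [hc1]; simp) (by rw [hc2]; rfl)
          · exact ⟨c', hc0, hc1, hc2⟩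
      have hu'pos := S.wt_pos_of_ne hu'0
      have hv1pos := S.wt_pos_of_ne hv1
      rw [hu1] at hw
      simp only [wt_append] at hw
      rw [hv''] at hRγ
      -- `g' = R (v1 v)`
      have r1 : S.Rt s (v1 ++ v) = S.Rt s (v1 ++ [Sum.inr g]) := by
        rw [p3R hg (by simp; omega), hR]
        rfl
      have r2 : S.le (S.Rt s (v1 ++ [Sum.inr g])) (some γ) := by
        have := monoR hg (s := s) (e := some g) (f := G) (Z := v1) hgG (by simp; omega)
        rw [hRγ] at this
        exact this
      obtain ⟨g', hg'⟩ : ∃ g', S.Rt s (v1 ++ [Sum.inr g]) = some g' := by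
        cases h6 : S.Rt s (v1 ++ [Sum.inr g]) with
        | none =>
          rw [h6] at r2
          cases none_le r2
        | some g' => exact ⟨g', rfl⟩
      rw [hg'] at r1 r2
      have hg'sz : S.sz g' ≤ S.wt v1 + S.sz g := by
        have := S.wt_Rt s (v1 ++ [Sum.inr g])
        rw [hg'] at this
        simpa using this
      have h6 : S.L s (u' ++ [Sum.inr g']) = some g' := by
        by_cases h7 : g' = γ
        · rw [h7]
          exact h5
        · exact fixdown_succ hg hf r2 (by simpa using h7) (by simp only [o2l_some]; rw [h5]; exact r2)
            (by simp; omega)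
      have hn' : S.NS s u' := by
        rw [hu1] at hn
        exact (ns_append v1 hu'0).1 hn
      have hlen : u'.length < u.length := by
        rw [hu1]
        have := List.length_pos_iff.2 hv1
        simp
        omega
      have h7 := ih u'.length hlen (u := u') (v := v1 ++ v) (g := g') (by simp; omega) hn' r1 h6 rfl
      have h8 := ih u'.length hlen (u := u') (v := v1 ++ [Sum.inr g]) (g := g') (by simp; omega)
        hn' hg' h6 rfl
      have h9 : S.L s (v1 ++ [Sum.inr g]) = some g := by
        rw [← h8, ← List.append_assoc, ← hu1]
        exact hL
      rw [hu1, List.append_assoc, h7]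
      exact splL hg (by simp; omega) hR h9
    · -- (B)
      obtain ⟨a, u', hau⟩ : ∃ a u', u = a :: u' := by
        cases u with
        | nil => exact absurd rfl hu0
        | cons a u' => exact ⟨a, u', rfl⟩
      by_cases hsing : ∃ e, u ++ S.o2l G = [Sum.inr e]
      · exfalso
        obtain ⟨e, he⟩ := hsing
        have hue : u = [Sum.inr e] ∧ G = none := by
          cases G with
          | none => exact ⟨by simpa using he, rfl⟩
          | some G0 =>
            rw [hau] at he
            simp at he
        obtain ⟨hue, hGn⟩ := hue
        apply h3 [] e [] (by rw [hue]; rfl)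
        unfold Pre.IsR2
        have e1 := S.wt_par e
        rw [hue] at hw
        simp only [wt_cons, wtA_inr, wt_nil, add_zero] at hw
        rw [hue, hGn] at hG
        simp only [o2l_none, List.append_nil, L_single'] at hG
        have h4 := p3R hg (s := s) (u := S.o2l (S.par e)) (v := v) (by simp; omega)
        rw [hR] at h4
        have h5 := absorbR hg (s := s) (v := [Sum.inr g]) (f := S.par e)
          (by simpa using le_trans hG (le_par e)) (by simp; omega)
        simp only [List.nil_append, o2l_some] at h4 ⊢
        rw [h4, h5, Rt_single]
        exact hG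
      push Not at hsing
      have hnsG : S.NS s (u ++ S.o2l G) := (ns_append _ hu0).2 hn
      have hau' : u ++ S.o2l G = a :: (u' ++ S.o2l G) := by rw [hau]; rfl
      rw [hau'] at hredG hnsG hsp hsing
      obtain ⟨μ, hμs, hμo, _, hμL⟩ := S.L_top s a (u' ++ S.o2l G) hredG hnsG hsp hsing
      rw [← hau'] at hμo hμL
      rw [hμL] at hG
      have hμsz : S.sz μ = S.wt u + S.wt (S.o2l G) := by
        have := S.sz_om μ
        change S.sz μ = S.wt (S.om μ) at this
        rw [this, hμo, wt_append]
      have hvpos := S.wt_pos_of_ne hv0
      obtain ⟨z, v', hzv⟩ : ∃ z v', v = z :: v' := by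
        cases v with
        | nil => exact absurd rfl hv0
        | cons z v' => exact ⟨z, v', rfl⟩
      obtain ⟨v1, rfl, hv1⟩ := firstT hg (s := s) (y := v') (z := z) (q := μ)
        (by rw [← hzv]; exact hvr) (by rw [← hzv]; omega) hμs (by rw [← hzv, hR]; exact hG)
      have hv1sz := le_sz hv1
      rw [hzv] at hw
      simp only [wt_cons, wtA_inr] at hw
      have hμG : S.le (some μ) G := by
        have := p5L hg (s := s) (u := u) (v := S.o2l G) (by simp; omega)
        rw [hμL, L_o2l] at this
        exact this
      have hμGne : some μ ≠ G := by
        intro h4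
        rw [← h4] at hμsz
        simp only [o2l_some, wt_cons, wtA_inr, wt_nil] at hμsz
        omega
      by_cases hvμ : v1 = μ
      · subst hvμ
        have h4 := stepsR1 hg (s := s) (u := u) (z := v') (f0 := some v1) (G := G) hμG
          (by rw [hμL]; exact S.le_refl _) (by simp; omega)
        have h5 := L_steps hi (by simp; omega) h4
        have h6 := le_wt_lt hμG hμGne
        simp only [o2l_some, wt_cons, wtA_inr, wt_nil, add_zero] at h6
        have h7 := p3L hg (s := s) (u := u ++ S.o2l G) (v := v') (by simp; omega)
        rw [hμL] at h7
        rw [hzv]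
        simp only [List.append_assoc, o2l_some, List.cons_append, List.nil_append] at h5 h7 ⊢
        rw [h5, h7]
      · -- `v1 < μ`
        have hp1 : S.le (S.par v1) (some μ) := le_cases' hv1 (by simpa using Ne.symm hvμ)
        obtain ⟨y, hy⟩ : ∃ y, S.par v1 = some y := by
          cases h4 : S.par v1 with
          | none =>
            rw [h4] at hp1
            cases none_le hp1
          | some y => exact ⟨y, rfl⟩
        have e1 := S.wt_par v1
        rw [hy] at hp1 e1
        simp only [o2l_some, wt_cons, wtA_inr, wt_nil, add_zero] at e1
        have hred : S.Red s (u ++ v) := by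
          rw [red_iff]
          intro a1 k b1 hab
          rcases List.append_eq_append_iff.1 hab with ⟨a', ha1, ha2⟩ | ⟨c', hc1, hc2⟩
          · refine ⟨?_, ((red_iff.1 hvr) a' k b1 ha2).2⟩
            intro h4
            cases a' with
            | nil =>
              rw [hzv] at ha2
              simp only [List.nil_append, List.cons.injEq, Sum.inr.injEq] at ha2
              obtain ⟨hk, _⟩ := ha2
              subst hk
              rw [List.append_nil] at ha1
              subst ha1
              have h5 := fixdownL hg (s := s) (u := a1) (g := y) (q := G) (le_trans hp1 hμG)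
                (by rw [hμL]; exact hp1) (by simp; omega)
              unfold Pre.IsR1 at h4
              rw [hy, o2l_some, h5, ← hy] at h4
              exact not_par_le v1 h4
            | cons x a' =>
              rw [hzv] at ha2
              simp only [List.cons_append, List.cons.injEq] at ha2
              obtain ⟨hx, ha3⟩ := ha2
              subst hx
              have hk0 := S.wt_par k
              rw [ha3] at hw
              simp only [wt_append, wt_cons, wtA_inr] at hw
              have h5 := fixdownL hg (s := s) (u := u) (g := v1) (q := G) (le_trans hv1 hμG)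
                (by rw [hμL]; exact hv1) (by simp; omega)
              have h6 := p3L hg (s := s) (u := u ++ [Sum.inr v1]) (v := a' ++ S.o2l (S.par k))
                (by simp; omega)
              rw [h5] at h6
              apply ((red_iff.1 hvr) (Sum.inr v1 :: a') k b1 (by rw [hzv, ha3]; rfl)).1
              unfold Pre.IsR1 at h4 ⊢
              rw [ha1] at h4
              simp only [List.append_assoc, List.cons_append, List.nil_append, o2l_some] at h4 h6 ⊢
              rw [← h6]
              exact h4
          · cases c' with
            | nil =>
              simp only [List.nil_append] at hc2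
              rw [List.append_nil] at hc1
              subst hc1
              rw [hzv] at hc2
              simp only [List.cons.injEq, Sum.inr.injEq] at hc2
              obtain ⟨hk, hb⟩ := hc2
              rw [hk, hb]
              refine ⟨?_, ((red_iff.1 hvr) [] v1 v' (by rw [hzv]; rfl)).2⟩
              intro h4
              have h5 := fixdownL hg (s := s) (u := u) (g := y) (q := G) (le_trans hp1 hμG)
                (by rw [hμL]; exact hp1) (by simp; omega)
              unfold Pre.IsR1 at h4
              rw [hy, o2l_some, h5, ← hy] at h4
              exact not_par_le v1 h4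
            | cons x c' =>
              simp only [List.cons_append, List.cons.injEq] at hc2
              obtain ⟨rfl, rfl⟩ := hc2
              exact ⟨((red_iff.1 hur) a1 k c' hc1).1, h3 a1 k c' hc1⟩
        have hgv1 : S.le (some g) (some v1) := by
          have := p5R hg (s := s) (u := [Sum.inr v1]) (v := v') (by simp; omega)
          rw [Rt_single] at this
          rw [hzv] at hR
          simp only [List.cons_append, List.nil_append] at this
          rwa [hR] at this
        have hp2 : S.le (S.par g) (some μ) := by
          apply le_cases' hG
          intro h4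
          apply hvμ
          have h5 : μ = g := by simpa using h4
          subst h5
          have := le_antisymm hv1 hgv1
          simpa using this
        obtain ⟨y2, hy2⟩ : ∃ y2, S.par g = some y2 := by
          cases h4 : S.par g with
          | none =>
            rw [h4] at hp2
            cases none_le hp2
          | some y2 => exact ⟨y2, rfl⟩
        have e2 := S.wt_par g
        rw [hy2] at hp2 e2
        simp only [o2l_some, wt_cons, wtA_inr, wt_nil, add_zero] at e2
        rw [hzv] at hgv
        simp only [wt_cons, wtA_inr] at hgv
        have h5 := fixdownL hg (s := s) (u := u) (g := y2) (q := G) (le_trans hp2 hμG)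
          (by rw [hμL]; exact hp2) (by simp; omega)
        have hgy2 : S.le (some g) (some y2) := by
          rw [← hy2]
          exact le_par g
        have hsplit : S.Split s (u ++ v) := by
          refine ⟨u, v, g, rfl, hu0, hv0, hR, ?_⟩
          rw [hy2, o2l_some, h5]
          exact hgy2
        have hnsv : S.NS s (u ++ v) := (ns_append _ hu0).2 hn
        have huv : u ++ v = a :: (u' ++ v) := by rw [hau]; rfl
        have hsp2 := S.L_split s a (u' ++ v) (by rw [← huv]; exact hred) (by rw [← huv]; exact hnsv)
          (by rw [← huv]; exact hsplit)
        have ea := S.wt_up a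
        have hwa : S.wt u = S.wtA a + S.wt u' := by rw [hau, wt_cons]
        have hwv : S.wt v = S.sz v1 + S.wt v' := by rw [hzv, wt_cons, wtA_inr]
        have h6 : S.le (some g) (S.L s (S.up a ++ u' ++ S.o2l (S.par g))) := by
          rw [hy2, o2l_some]
          refine le_trans hgy2 ?_
          rw [← h5, hau]
          cases a with
          | inl x =>
            have := p5L hg (s := s) (u := [Sum.inl x]) (v := u' ++ [Sum.inr y2]) (by
              simp at hwa ⊢
              omega)
            simpa using this
          | inr e =>
            have := monoL hg (s := s) (e := some e) (f := S.par e) (Z := u' ++ [Sum.inr y2])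
              (le_par e) (by simp at hwa ⊢; omega)
            simpa using this
        have h7 := fixL hg (s := s) (u := S.up a ++ u') (g := g) (by simp; omega) h6
        have h8 := splL hg (s := s) (u := S.up a ++ u') (v := v) (g := g) (by simp; omega) hR h7
        rw [huv, hsp2, ← List.append_assoc, h8]

lemma p30 (hg : S.Good n) (hf : S.Fix (n + 1)) (hi : S.Inv (n + 1)) {s : Bool}
    {u v : List S.A} (hw : S.wt (u ++ v) ≤ n) (hn : S.NS s u) :
    S.L s (u ++ v) = S.L s (S.o2l (S.L s u) ++ v) := by
  by_cases hv0 : v = []
  · subst hv0
    simp
  by_cases hu0 : u = []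
  · subst hu0
    simp
  have hupos := S.wt_pos_of_ne hu0
  have hvpos := S.wt_pos_of_ne hv0
  have hLu := S.wt_L s u
  simp only [wt_append] at hw
  by_cases hur : S.Red s u
  swap
  · unfold Pre.Red at hur
    push Not at hur
    obtain ⟨u', hu'⟩ := hur
    have e1 := Step_wt S hu'
    have h1 := hi s _ _ (by simp; omega) (step_append_right hg v hu' (by simp; omega))
    have h2 := hi s _ _ (by omega) hu'
    rw [h1, h2]
    exact p3L hg (by simp; omega)
  by_cases hvr : S.Red s v
  swap
  · unfold Pre.Red at hvr
    push Not at hvr
    obtain ⟨v', hv'⟩ := hvr
    have e1 := Step_wt S hv'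
    have h1 := hi s _ _ (by simp; omega) (step_append_left hg u hv' (by simp; omega))
    have h2 := hi s _ _ (by simp; omega)
      (step_append_left hg (S.o2l (S.L s u)) hv' (by simp; omega))
    rw [h1, h2]
    exact p3L hg (by simp; omega)
  by_cases h3 : ∃ (v1 : List S.A) (k : S.E) (v2 : List S.A), v = v1 ++ Sum.inr k :: v2 ∧
      S.IsR1 s (u ++ v1) k
  · obtain ⟨v1, k, v2, rfl, hk⟩ := h3
    have e1 := S.wt_par k
    simp only [wt_append, wt_cons, wtA_inr] at hw
    have hk' : S.IsR1 s (S.o2l (S.L s u) ++ v1) k := by
      unfold Pre.IsR1 at hk ⊢
      have h4 := p3L hg (s := s) (u := u) (v := v1 ++ S.o2l (S.par k)) (by simp; omega)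
      simp only [List.append_assoc] at h4 hk ⊢
      rw [← h4]
      exact hk
    have h4 := hi s _ _ (by simp; omega) (Pre.Step.mk (S := S.toPre) (s := s) (u ++ v1) k v2
      (Or.inl hk))
    have h5 := hi s _ _ (by simp; omega) (Pre.Step.mk (S := S.toPre) (s := s)
      (S.o2l (S.L s u) ++ v1) k v2 (Or.inl hk'))
    have h6 := p3L hg (s := s) (u := u) (v := v1 ++ (S.o2l (S.par k) ++ v2)) (by simp; omega)
    simp only [List.append_assoc] at h4 h5 h6 ⊢
    rw [h4, h5, h6]
  push Not at h3
  by_cases hsp : S.Split s u
  · obtain ⟨u1, v1, g1, h4, hu10, hv10, hR1, hg1⟩ := hsp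
    have e0 := congrArg S.wt h4
    simp only [wt_append] at e0
    have hu1pos := S.wt_pos_of_ne hu10
    have hv1pos := S.wt_pos_of_ne hv10
    have hg1sz : S.sz g1 ≤ S.wt v1 := by
      have := S.wt_Rt s v1
      rw [hR1] at this
      simpa using this
    have h5 : S.L s (u1 ++ [Sum.inr g1]) = some g1 := hf s u1 g1 (by simp; omega) hg1
    have r2 : S.le (S.Rt s (v1 ++ v)) (some g1) := by
      have := p5R hg (s := s) (u := v1) (v := v) (by simp; omega)
      rwa [hR1] at this
    obtain ⟨g', hg'⟩ : ∃ g', S.Rt s (v1 ++ v) = some g' := by
      cases h6 : S.Rt s (v1 ++ v) with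
      | none =>
        rw [h6] at r2
        cases none_le r2
      | some g' => exact ⟨g', rfl⟩
    rw [hg'] at r2
    have hg'sz : S.sz g' ≤ S.wt v1 + S.wt v := by
      have := S.wt_Rt s (v1 ++ v)
      rw [hg'] at this
      simpa using this
    have h6 : S.L s (u1 ++ [Sum.inr g']) = some g' := by
      by_cases h7 : g' = g1
      · rw [h7]
        exact h5
      · exact fixdown_succ hg hf r2 (by simpa using h7) (by simp only [o2l_some]; rw [h5]; exact r2)
          (by simp; omega)
    have hn' : S.NS s u1 := by
      rw [h4] at hn
      exact (ns_append v1 hu10).1 hn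
    have h7 := sp0 hg hf hi (s := s) (u := u1) (v := v1 ++ v) (g := g') (by simp; omega) hn' hg' h6
    have h8 := splL hg (s := s) (u := u1) (v := v1) (g := g1) (by simp; omega) hR1 h5
    have h9 := p3L hg (s := s) (u := v1) (v := v) (by simp; omega)
    rw [h4, List.append_assoc, h7, h9, h8]
  · by_cases hsing : ∃ e, u = [Sum.inr e]
    · obtain ⟨e, he⟩ := hsing
      rw [he]
      simp
    push Not at hsing
    obtain ⟨a, u', hau⟩ : ∃ a u', u = a :: u' := by
      cases u with
      | nil => exact absurd rfl hu0
      | cons a u' => exact ⟨a, u', rfl⟩
    have hur' := hur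
    have hn' := hn
    rw [hau] at hur' hn' hsp hsing
    obtain ⟨κ, hκs, hκo, _, hκL⟩ := S.L_top s a u' hur' hn' hsp hsing
    rw [← hau] at hκo hκL
    have hκsz : S.sz κ = S.wt u := by
      have := S.sz_om κ
      change S.sz κ = S.wt (S.om κ) at this
      rw [this, hκo]
    rw [hκL]
    simp only [o2l_some, List.cons_append, List.nil_append]
    by_cases hκr : S.Red s (Sum.inr κ :: v)
    · rw [S.L_open s κ v hκr hκs hv0, hκo]
    · -- only `R2` of `κ`
      have hR2 : S.IsR2 s κ v := by
        obtain ⟨a1, k, b1, hab, hk⟩ := step_of_not_red hκr
        cases a1 with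
        | nil =>
          simp only [List.nil_append, List.cons.injEq, Sum.inr.injEq] at hab
          obtain ⟨hk1, hk2⟩ := hab
          subst hk1
          subst hk2
          rcases hk with hk | hk
          · unfold Pre.IsR1 at hk
            rw [List.nil_append, L_o2l] at hk
            exact absurd hk (not_par_le κ)
          · exact hk
        | cons x a1 =>
          exfalso
          simp only [List.cons_append, List.cons.injEq] at hab
          obtain ⟨hx, hab⟩ := hab
          subst hx
          rcases hk with hk | hk
          · apply h3 a1 k b1 hab
            have e1 := S.wt_par k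
            rw [hab] at hw
            simp only [wt_append, wt_cons, wtA_inr] at hw
            have h4 := p3L hg (s := s) (u := u) (v := a1 ++ S.o2l (S.par k)) (by simp; omega)
            rw [hκL] at h4
            unfold Pre.IsR1 at hk ⊢
            simp only [List.append_assoc, o2l_some, List.cons_append, List.nil_append] at h4 hk ⊢
            rw [h4]
            exact hk
          · exact ((red_iff.1 hvr) a1 k b1 hab).2 hk
      have hRv : S.le (S.Rt s v) (some κ) := by
        unfold Pre.IsR2 at hR2
        cases hp : S.par κ with
        | none =>
          rw [hp] at hR2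
          simpa using hR2
        | some y =>
          rw [hp] at hR2
          have e1 := S.sz_par κ y hp
          obtain ⟨_, _, _, h4⟩ := ttR hg (s := s) (y := v) (z := Sum.inr y) (q := κ)
            (by simp; omega) hκs hR2 (by
              intro e he
              simp only [Sum.inr.injEq] at he
              subst he
              rw [← hp]
              exact not_par_le κ)
          exact h4
      have h4 := stepsR2 hg (s := s) (u := []) (z := v) (f0 := some κ) (G := none) (le_none _)
        (by simpa using hRv) (by simp; omega)
      have h5 := L_steps hi (by simp; omega) h4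
      simp only [List.nil_append, o2l_some, List.cons_append, o2l_none] at h5
      rw [h5]
      obtain ⟨g, hgv⟩ : ∃ g, S.Rt s v = some g := by
        cases h6 : S.Rt s v with
        | none =>
          rw [h6] at hRv
          cases none_le hRv
        | some g => exact ⟨g, rfl⟩
      rw [hgv] at hRv
      have hgsz : S.sz g ≤ S.wt v := by
        have := S.wt_Rt s v
        rw [hgv] at this
        simpa using this
      have h6 := fixdown_succ hg hf (s := s) (u := u) (g := g) (q := none) (le_none _) (by simp)
        (by simp only [o2l_none, List.append_nil]; rw [hκL]; exact hRv) (by simp; omega)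
      exact sp0 hg hf hi (by simp; omega) hn hgv h6

/-- opening the first letter -/
lemma open_succ (hg : S.Good n) (hf : S.Fix (n + 1)) (hi : S.Inv (n + 1)) {s : Bool} {c : S.E}
    {Z : List S.A} (hc : S.side c = s) (hw : S.wt (Sum.inr c :: Z) ≤ n) :
    S.L s (Sum.inr c :: Z) = S.L s (S.om c ++ Z) := by
  have h0 := S.sz_om c
  change S.sz c = S.wt (S.om c) at h0
  have h1 := S.om_ns c
  have h2 := S.L_om c
  rw [hc] at h1 h2
  have h3 := p30 hg hf hi (s := s) (u := S.om c) (v := Z) (by simp at hw ⊢; omega) h1
  rw [h2] at h3
  rw [h3]
  rfl

lemma p3_succ (hg : S.Good n) (hf : S.Fix (n + 1)) (hi : S.Inv (n + 1)) : S.P3 (n + 1) := by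
  intro s u v hw
  rcases ns_cases s u with hn | ⟨c, u', rfl, hc⟩
  · exact p30 hg hf hi (by omega) hn
  · have h0 := S.sz_om c
    change S.sz c = S.wt (S.om c) at h0
    simp only [List.cons_append, wt_cons, wt_append, wtA_inr] at hw
    have h1 := open_succ hg hf hi (Z := u' ++ v) hc (by simp; omega)
    have h2 := open_succ hg hf hi (Z := u') hc (by simp; omega)
    have h3 : S.NS s (S.om c ++ u') := by
      have h4 := S.om_ns c
      rw [hc] at h4
      exact (ns_append _ (S.om_ne_nil c)).2 h4
    have h4 := p30 hg hf hi (s := s) (u := S.om c ++ u') (v := v) (by simp; omega) h3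
    rw [List.cons_append, h1, h2, ← List.append_assoc, h4]

lemma spl_succ (hg : S.Good n) (hf : S.Fix (n + 1)) (hi : S.Inv (n + 1)) : S.Spl (n + 1) := by
  intro s u v g hw hR hL
  rcases ns_cases s u with hn | ⟨c, u', rfl, hc⟩
  · exact sp0 hg hf hi (by omega) hn hR hL
  · have h0 := S.sz_om c
    change S.sz c = S.wt (S.om c) at h0
    simp only [List.cons_append, wt_cons, wt_append, wtA_inr] at hw
    have hgsz : S.sz g ≤ S.wt v := by
      have := S.wt_Rt s v
      rw [hR] at this
      simpa using this
    have h1 := open_succ hg hf hi (Z := u' ++ v) hc (by simp; omega)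
    have h2 := open_succ hg hf hi (Z := u' ++ [Sum.inr g]) hc (by simp; omega)
    have h3 : S.NS s (S.om c ++ u') := by
      have h4 := S.om_ns c
      rw [hc] at h4
      exact (ns_append _ (S.om_ne_nil c)).2 h4
    rw [List.cons_append] at hL
    rw [h2, ← List.append_assoc] at hL
    have h4 := sp0 hg hf hi (s := s) (u := S.om c ++ u') (v := v) (g := g) (by simp; omega) h3 hR hL
    rw [List.cons_append, h1, ← List.append_assoc, h4]

end Sys

end Pool.Agent.LibQF
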