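import Pool.Agent.LibQF.ConfS

/-!
# `TT` for words of size `n`
-/

namespace Pool.Agent.LibQF

universe u

namespace Sys

variable {X : Type u} {S : Sys X} {n : ℕ}

/-- a tail without letters below `q` consists of elements above `q` -/
lemma tt_tail (hg : S.Good n) {s : Bool} {q : S.E} (hq : S.side q ≠ s) (W : List S.A) :
    ∀ b : List S.A, S.wt (W ++ b) < n → S.le (S.L s (W ++ b)) (some q) →
      (∀ e, Sum.inr e ∈ b → ¬ S.le (some e) (some q)) →
      (∀ a ∈ b, ∃ e, a = Sum.inr e ∧ S.le (some q) (some e)) ∧ S.le (S.L s W) (some q) := by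
  intro b
  induction b using List.reverseRecOn with
  | nil =>
    intro _ h _
    exact ⟨by simp, by simpa using h⟩
  | append_singleton b c ih =>
    intro hw h hb
    have h1 := ttL hg (s := s) (y := W ++ b) (z := c) (q := q) (by simpa using hw) hq
      (by simpa using h) (by
        intro e he
        subst he
        exact hb e (by simp))
    obtain ⟨e, rfl, h2, h3⟩ := h1
    obtain ⟨h4, h5⟩ := ih (by simp at hw ⊢; omega) h3 (fun e he => hb e (by simp [he]))
    refine ⟨?_, h5⟩
    intro a ha
    rcases List.mem_append.1 ha with h6 | h6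
    · exact h4 a h6
    · simp at h6
      exact ⟨e, h6, h2⟩

/-- letters above the first one are absorbed -/
lemma L_chain (hg : S.Good n) {s : Bool} {c : S.E} : ∀ b : List S.A,
    S.wt (Sum.inr c :: b) < n → (∀ a ∈ b, ∃ e, a = Sum.inr e ∧ S.le (some c) (some e)) →
      S.L s (Sum.inr c :: b) = some c := by
  intro b
  induction b using List.reverseRecOn with
  | nil => intro _ _; simp
  | append_singleton b a ih =>
    intro hw hb
    obtain ⟨e, rfl, h1⟩ := hb a (by simp)
    have h2 := ih (by simp at hw ⊢; omega) (fun a ha => hb a (by simp [ha]))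
    have h3 := absorbL hg (s := s) (u := Sum.inr c :: b) (f := some e) (by rw [h2]; exact h1)
      (by simp at hw ⊢; omega)
    rw [h2] at h3
    simpa using h3

/-- the word has a redex -/
lemma tt_step (hg : S.Good n) (hi : S.Inv (n + 1)) {s : Bool} {y : List S.A} {z : S.A} {q : S.E}
    (hw : S.wt (y ++ [z]) ≤ n) (hq : S.side q ≠ s) (h : S.le (S.L s (y ++ [z])) (some q))
    (hz : ∀ e, z = Sum.inr e → ¬ S.le (some e) (some q)) (hr : ¬ S.Red s (y ++ [z])) :
    ∃ e, z = Sum.inr e ∧ S.le (some q) (some e) ∧ S.le (S.L s y) (some q) := by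
  have hzp := S.wtA_pos z
  by_cases hA : ∃ k, z = Sum.inr k ∧ S.IsR1 s y k
  · obtain ⟨k, rfl, hk⟩ := hA
    have hk0 := S.wt_par k
    have hst := Pre.Step.mk (S := S.toPre) (s := s) y k [] (Or.inl hk)
    have hL := hi s _ _ (by omega) hst
    rw [List.append_nil] at hL
    rw [hL] at h
    unfold Pre.IsR1 at hk
    have hqk : S.le (some q) (some k) := by
      rcases le_total_above h hk with h1 | h1
      · exact h1
      · exact absurd h1 (hz k rfl)
    refine ⟨k, rfl, hqk, ?_⟩
    cases hK : S.par k with
    | none =>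
      rw [hK] at h
      simpa using h
    | some K =>
      rw [hK] at h hk0
      have h1 : ¬ S.le (some K) (some q) := by
        intro h2
        apply hz k rfl
        refine le_trans (le_par k) ?_
        rw [hK]
        exact h2
      obtain ⟨e, _, _, h3⟩ := ttL hg (s := s) (y := y) (z := Sum.inr K) (q := q)
        (by simp at hw hk0 ⊢; omega) hq h (by
          intro e he
          simp at he
          subst he
          exact h1)
      exact h3
  by_cases hy : S.Red s y
  swap
  · unfold Pre.Red at hy
    push Not at hy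
    obtain ⟨y', hy'⟩ := hy
    have h1 := Step_wt S hy'
    have h2 := step_append_right hg (s := s) [z] hy' hw
    have h3 := hi s _ _ (by omega) h2
    rw [h3] at h
    obtain ⟨e, h4, h5, h6⟩ := ttL hg (s := s) (y := y') (z := z) (q := q)
      (by simp at hw ⊢; omega) hq h hz
    refine ⟨e, h4, h5, ?_⟩
    rw [L_step1 hg.inv (by simp at hw; omega) hy']
    exact h6
  -- the last letter of `y` raised by `R2`
  exfalso
  have hex : ∃ l : ℕ, ∃ (y1 : List S.A) (k : S.E) (y2 : List S.A), y2.length = l ∧
      y = y1 ++ Sum.inr k :: y2 ∧ S.IsR2 s k (y2 ++ [z]) := by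
    obtain ⟨u, k, v, h1, h2⟩ := step_of_not_red hr
    rcases List.eq_nil_or_concat' v with rfl | ⟨v', t, rfl⟩
    · exfalso
      have h3 : y = u ∧ z = Sum.inr k := by
        have := List.append_inj' h1 rfl
        simpa using this
      obtain ⟨rfl, rfl⟩ := h3
      rcases h2 with h2 | h2
      · exact hA ⟨k, rfl, h2⟩
      · unfold Pre.IsR2 at h2
        simp at h2
        exact not_par_le k h2
    · have h3 : y = u ++ Sum.inr k :: v' ∧ z = t := by
        have h4 : y ++ [z] = (u ++ Sum.inr k :: v') ++ [t] := by rw [h1]; simp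
        have := List.append_inj' h4 rfl
        simpa using this
      obtain ⟨h4, rfl⟩ := h3
      refine ⟨_, u, k, v', rfl, h4, ?_⟩
      rcases h2 with h2 | h2
      · exfalso
        rw [h4] at hy
        exact ((red_iff.1 hy) u k v' rfl).1 h2
      · exact h2
  classical
  obtain ⟨y1, k, y2, hl, rfl, hk⟩ := Nat.find_spec hex
  have hlast : ∀ (a : List S.A) (k' : S.E) (b : List S.A), y2 = a ++ Sum.inr k' :: b →
      ¬ S.IsR2 s k' (b ++ [z]) := by
    intro a k' b hab hk'
    have h1 : b.length < Nat.find hex := by
      rw [← hl, hab]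
      simp
      omega
    apply Nat.find_min hex h1
    exact ⟨y1 ++ Sum.inr k :: a, k', b, rfl, by rw [hab]; simp, hk'⟩
  have hk0 := S.wt_par k
  have hwt : S.wt ((y1 ++ Sum.inr k :: y2) ++ [z]) =
      S.wt y1 + (S.sz k + S.wt y2) + S.wtA z := by simp; omega
  rw [hwt] at hw
  have hst := Pre.Step.mk (S := S.toPre) (s := s) y1 k (y2 ++ [z]) (Or.inr hk)
  have hL := hi s _ _ (by simp; omega) hst
  have h' : S.le (S.L s ((y1 ++ S.o2l (S.par k) ++ y2) ++ [z])) (some q) := by
    have e1 : (y1 ++ Sum.inr k :: y2) ++ [z] = y1 ++ Sum.inr k :: (y2 ++ [z]) := by simp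
    have e2 : (y1 ++ S.o2l (S.par k) ++ y2) ++ [z] =
        y1 ++ (S.o2l (S.par k) ++ (y2 ++ [z])) := by simp
    rw [e2, ← hL, ← e1]
    exact h
  obtain ⟨e, rfl, hqe, hW⟩ := ttL hg (s := s) (y := y1 ++ S.o2l (S.par k) ++ y2) (z := z) (q := q)
    (by simp; omega) hq h' hz
  have hep := S.wt_par e
  simp only [wtA_inr] at hw hwt
  -- raising `e`: it is enough that some suffix of `y` has `L ≤ e`
  have hR1 : ∀ (a : List S.A) (c : S.E) (b : List S.A), y1 ++ Sum.inr k :: y2 = a ++ Sum.inr c :: b →
      (∀ t ∈ b, ∃ f, t = Sum.inr f ∧ S.le (some c) (some f)) → S.le (some c) (some e) → False := by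
    intro a c b hab hb hce
    apply hA
    refine ⟨e, rfl, ?_⟩
    unfold Pre.IsR1
    have hw2 : S.wt (a ++ Sum.inr c :: b) = S.wt y1 + (S.sz k + S.wt y2) := by
      rw [← hab]; simp
    simp only [wt_append, wt_cons, wtA_inr] at hw2
    rw [hab]
    have h1 := p5L hg (s := s) (u := a) (v := Sum.inr c :: b ++ S.o2l (S.par e))
      (by simp; omega)
    have h2 := L_chain hg (s := s) (c := c) b (by simp; omega) hb
    have h3 := absorbL hg (s := s) (u := Sum.inr c :: b) (f := S.par e)
      (by rw [h2]; exact le_trans hce (le_par e)) (by simp; omega)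
    rw [h3, h2] at h1
    have e3 : a ++ Sum.inr c :: b ++ S.o2l (S.par e) =
        a ++ (Sum.inr c :: b ++ S.o2l (S.par e)) := by simp
    rw [e3]
    exact le_trans h1 hce
  have hno : ∀ f, Sum.inr f ∈ y2 → ¬ S.le (some f) (some q) := by
    by_contra hcon
    push Not at hcon
    have hex2 : ∃ l : ℕ, ∃ (a : List S.A) (f : S.E) (b : List S.A), b.length = l ∧
        y2 = a ++ Sum.inr f :: b ∧ S.le (some f) (some q) := by
      obtain ⟨f, h1, h2⟩ := hcon
      obtain ⟨a, b, h3⟩ := List.append_of_mem h1
      exact ⟨_, a, f, b, rfl, h3, h2⟩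
    obtain ⟨a, f, b, hlb, hab, hf⟩ := Nat.find_spec hex2
    have hb : ∀ g, Sum.inr g ∈ b → ¬ S.le (some g) (some q) := by
      intro g hg1 hg2
      obtain ⟨b1, b2, h3⟩ := List.append_of_mem hg1
      have h1 : b2.length < Nat.find hex2 := by
        rw [← hlb, h3]
        simp
        omega
      apply Nat.find_min hex2 h1
      exact ⟨a ++ Sum.inr f :: b1, g, b2, rfl, by rw [hab, h3]; simp, hg2⟩
    have h4 := tt_tail hg hq (y1 ++ S.o2l (S.par k) ++ a ++ [Sum.inr f]) b (by
      have : S.wt y2 = S.wt a + (S.sz f + S.wt b) := by rw [hab]; simp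
      simp
      omega) (by
      have e1 : y1 ++ S.o2l (S.par k) ++ a ++ [Sum.inr f] ++ b = y1 ++ S.o2l (S.par k) ++ y2 := by
        rw [hab]; simp
      rw [e1]
      exact hW) hb
    refine hR1 (y1 ++ Sum.inr k :: a) f b (by rw [hab]; simp) ?_ (le_trans hf hqe)
    intro t ht
    obtain ⟨g, h5, h6⟩ := h4.1 t ht
    exact ⟨g, h5, le_trans hf h6⟩
  obtain ⟨hy2, hyk⟩ := tt_tail hg hq (y1 ++ S.o2l (S.par k)) y2 (by simp; omega) hW hno
  rcases List.eq_nil_or_concat' y2 with rfl | ⟨y3, c, rfl⟩
  · -- `y2 = []`
    simp only [List.nil_append] at hk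
    have hk' := hk
    unfold Pre.IsR2 at hk'
    have hyr := ((red_iff.1 hy) y1 k [] rfl).1
    -- `e ≤ k` is impossible
    have hek : ¬ S.le (some e) (some k) := by
      intro h1
      apply hyr
      unfold Pre.IsR1
      exact le_trans hyk (le_trans hqe h1)
    cases hK : S.par k with
    | none =>
      rw [hK] at hk'
      simp at hk'
      exact hek hk'
    | some K =>
      rw [hK] at hk' hyk hk0
      simp only [o2l_some, wt_cons, wt_nil, wtA_inr] at hk0
      by_cases hKq : S.le (some K) (some q)
      · refine hR1 y1 k [] rfl (by simp) ?_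
        refine le_trans (le_par k) ?_
        rw [hK]
        exact le_trans hKq hqe
      · obtain ⟨K', hK', hqK, _⟩ := ttL hg (s := s) (y := y1) (z := Sum.inr K) (q := q)
          (by simp at hw ⊢; omega) hq hyk (by
            intro f hf
            simp at hf
            subst hf
            exact hKq)
        simp at hK'
        subst hK'
        rcases le_total_above hqe hqK with h1 | h1
        · have h2 := absorbR hg (s := s) (v := [Sum.inr e]) (f := some K) (by simpa using h1)
            (by simp at hw ⊢; omega)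
          rw [h2] at hk'
          simp at hk'
          exact hek hk'
        · have h2 := R_above hg (s := s) (e := K) (f := some e) h1 (by simp at hw ⊢; omega)
          simp only [o2l_some, List.singleton_append] at hk' h2
          rw [h2, ← hK] at hk'
          exact not_par_le k hk'
  · -- the last letter of `y2`
    obtain ⟨f, rfl, hqf⟩ := hy2 c (by simp)
    have hf0 := S.wt_par f
    rcases le_total_above hqf hqe with h1 | h1
    · exact hR1 (y1 ++ Sum.inr k :: y3) f [] (by simp) (by simp) h1
    · apply hlast y3 f [] rfl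
      unfold Pre.IsR2
      have h2 := absorbR hg (s := s) (v := [Sum.inr e]) (f := S.par f)
        (by simpa using le_trans h1 (le_par f)) (by simp at hw ⊢; omega)
      simp only [List.nil_append]
      rw [h2]
      simpa using h1

/-- the word is reduced and its first letter is not of side `s` -/
lemma tt_red (hg : S.Good n) {s : Bool} {a : S.A} {y : List S.A} {z : S.A} {q : S.E}
    (hw : S.wt (a :: y ++ [z]) ≤ n) (hq : S.side q ≠ s) (h : S.le (S.L s (a :: y ++ [z])) (some q))
    (hz : ∀ e, z = Sum.inr e → ¬ S.le (some e) (some q)) (hr : S.Red s (a :: y ++ [z]))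
    (hn : S.NS s (a :: y ++ [z])) :
    ∃ e, z = Sum.inr e ∧ S.le (some q) (some e) ∧ S.le (S.L s (a :: y)) (some q) := by
  have hzp := S.wtA_pos z
  have ha := S.wt_up a
  have hwt : S.wt (a :: y ++ [z]) = S.wtA a + S.wt y + S.wtA z := by simp; omega
  rw [hwt] at hw
  have h1 : S.le (S.L s ((S.up a ++ y) ++ [z])) (some q) := by
    have e1 : (S.up a ++ y) ++ [z] = S.up a ++ (y ++ [z]) := by simp
    rw [e1]
    by_cases hsp : S.Split s (a :: (y ++ [z]))
    · rw [← S.L_split s a (y ++ [z]) hr hn hsp]
      exact h
    · obtain ⟨k, h1, _, h3, h4⟩ := S.L_top s a (y ++ [z]) hr hn hsp (by simp)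
      rw [← h3]
      have h5 : S.le (some k) (some q) := by
        rw [← h4]
        exact h
      refine le_cases' h5 ?_
      intro h6
      simp at h6
      subst h6
      exact hq h1
  obtain ⟨e, h2, h3, h4⟩ := ttL hg (s := s) (y := S.up a ++ y) (z := z) (q := q)
    (by simp; omega) hq h1 hz
  refine ⟨e, h2, h3, le_trans ?_ h4⟩
  cases a with
  | inl x =>
    have := p5L hg (s := s) (u := [Sum.inl x]) (v := y) (by simp at hw ⊢; omega)
    simpa using this
  | inr f =>
    have := monoL hg (s := s) (e := some f) (f := S.par f) (Z := y) (le_par f)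
      (by simp at hw ⊢; omega)
    simpa using this

lemma tt_succ (hg : S.Good n) (hi : S.Inv (n + 1)) (hp : S.P3 (n + 1)) : S.TT (n + 1) := by
  intro s y z q hw hq h hz
  have hw' : S.wt (y ++ [z]) ≤ n := by omega
  have hzp := S.wtA_pos z
  rcases y with _ | ⟨c, y⟩
  · exfalso
    cases z with
    | inl x =>
      obtain ⟨k, h1, _, h3, h4⟩ := S.L_top s (Sum.inl x) [] (S.Red_gen s x) (by simp [Pre.NS])
        (by
          rintro ⟨u, v, g, h1, h2, h3, -⟩
          have h4 := congrArg List.length h1
          have h5 := List.length_pos_iff.2 h2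
          have h6 := List.length_pos_iff.2 h3
          simp at h4
          omega) (by simp)
      simp only [List.nil_append] at h
      rw [h4] at h
      rcases le_cases h with h5 | h5
      · simp at h5
        subst h5
        exact hq h1
      · rw [h3] at h5
        simp at h5
        exact absurd (none_le h5) (by simp)
    | inr e =>
      simp at h
      exact hz e rfl h
  · by_cases hr : S.Red s (c :: y ++ [z])
    swap
    · exact tt_step hg hi hw' hq h hz hr
    by_cases hc : S.NS s (c :: y ++ [z])
    · exact tt_red hg hw' hq h hz hr hc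
    -- the first letter is of side `s`
    cases c with
    | inl x => exact absurd trivial hc
    | inr c =>
      have hcs : S.side c = s := by
        by_contra h1
        exact hc h1
      have hom := S.sz_om c
      change S.sz c = S.wt (S.om c) at hom
      have hwt : S.wt (Sum.inr c :: y ++ [z]) = S.sz c + S.wt y + S.wtA z := by simp; omega
      rw [hwt] at hw'
      have hLom : S.L s (S.om c) = some c := by
        have := S.L_om c
        rw [hcs] at this
        exact this
      have h1 : S.L s (S.om c ++ (y ++ [z])) = S.L s (Sum.inr c :: y ++ [z]) := by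
        rw [hp s (S.om c) (y ++ [z]) (by simp; omega), hLom]
        simp
      have h2 : S.L s (S.om c ++ y) = S.L s (Sum.inr c :: y) := by
        rw [p3L hg (s := s) (u := S.om c) (v := y) (by simp; omega), hLom]
        simp
      obtain ⟨a, v, hav⟩ : ∃ a v, S.om c = a :: v := by
        cases hv : S.om c with
        | nil => exact absurd hv (S.om_ne_nil c)
        | cons a v => exact ⟨a, v, rfl⟩
      have hns := S.om_ns c
      rw [hcs, hav] at hns
      rw [hav] at h1 h2 hom
      rw [← h1] at h
      rw [← h2]
      have e1 : a :: v ++ (y ++ [z]) = a :: (v ++ y) ++ [z] := by simp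
      have e2 : a :: v ++ y = a :: (v ++ y) := by simp
      rw [e1] at h
      rw [e2]
      simp only [wt_cons] at hom
      have hw2 : S.wt (a :: (v ++ y) ++ [z]) ≤ n := by simp; omega
      by_cases hr2 : S.Red s (a :: (v ++ y) ++ [z])
      · refine tt_red hg hw2 hq h hz hr2 ?_
        cases a with
        | inl x => trivial
        | inr f => exact hns
      · exact tt_step hg hi hw2 hq h hz hr2

end Sys

end Pool.Agent.LibQF
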