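import Pool.Agent.LibQF.All

/-!
# Words with a large first letter, and Lemma X
-/

namespace Pool.Agent.LibQF

universe u

namespace Sys

variable {X : Type u} {S : Sys X}

/-- the first split of a reduced word -/
def FSall (S : Sys X) : Prop := ∀ (s : Bool) (a : S.A) (Z : List S.A), S.Red s (a :: Z) →
  S.NS s (a :: Z) → S.Split s (a :: Z) →
  ∃ (u v : List S.A) (g : S.E) (G : Option S.E), a :: Z = u ++ v ∧ u ≠ [] ∧ v ≠ [] ∧
    S.Rt s v = some g ∧ S.le (S.par g) G ∧ S.le (some g) (S.L s (u ++ S.o2l G)) ∧
    S.Red s (u ++ S.o2l G) ∧ ¬ S.Split s (u ++ S.o2l G)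

lemma side_not {s : Bool} {e : S.E} (h : S.side e ≠ s) : S.side e = !s := by
  cases h1 : S.side e <;> cases s <;> simp_all

lemma side_ne_not {s : Bool} {e : S.E} (h : S.side e = s) : S.side e ≠ !s := by
  cases s <;> simp [h]

/-- `op` on a letter of the other side -/
lemma op_ne {s : Bool} {e : S.E} (h : S.side e ≠ s) : S.op s (.inr e) = [.inr e] := by
  simp [Pre.op, h]

lemma op_eq {s : Bool} {e : S.E} (h : S.side e = s) : S.op s (.inr e) = S.om e := by
  simp [Pre.op, h]

lemma opr_om {s : Bool} {e : S.E} (h : S.side e = !s) : S.opr s (.inr e) = (S.om e).reverse := by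
  simp [Pre.opr, Pre.op, h]

variable (H : ∀ n, S.Good n) (FS : S.FSall)
include H FS

lemma lemN {s : Bool} {h : S.E} {V : List S.A} (hs : S.side h ≠ s)
    (hr : S.Red s (Sum.inr h :: V)) (hV : ∀ e, Sum.inr e ∈ V → S.sz e ≤ S.sz h) :
    ¬ S.Split s (Sum.inr h :: V) := by
  intro hsp
  obtain ⟨u, v, g, G, h1, h2, h3, h4, h5, h6, h7, h8⟩ := FS s (Sum.inr h) V hr hs hsp
  obtain ⟨a, u', rfl⟩ := List.exists_cons_of_ne_nil h2
  have ha : a = Sum.inr h := by
    have := congrArg List.head? h1
    simpa using this.symm
  subst ha
  have hVe : V = u' ++ v := by simpa using h1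
  by_cases hsingle : u' ++ S.o2l G = []
  · obtain ⟨hu', hG⟩ := List.append_eq_nil_iff.1 hsingle
    subst hu'
    rw [hG] at h6
    simp only [List.append_nil, L_single'] at h6
    have hVv : V = v := by simpa using hVe
    subst hVv
    apply (red_iff.1 hr [] h V rfl).2
    unfold Pre.IsR2
    rw [aAbsorbR H (by rw [h4]; exact le_trans h6 (le_par h)), h4]
    exact h6
  · obtain ⟨μ, hμ1, hμ2, _, hμ4⟩ := S.L_top s (Sum.inr h) (u' ++ S.o2l G) (by simpa using h7) hs
      (by simpa using h8) (by
        intro e he
        apply hsingle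
        simp only [List.cons.injEq] at he
        exact he.2)
    have h6' : S.le (some g) (some μ) := by
      rw [← hμ4]
      simpa using h6
    have hsz : S.sz h < S.sz μ := by
      have e1 : S.sz μ = S.wt (S.om μ) := S.sz_om μ
      have e2 := S.wt_pos_of_ne hsingle
      rw [hμ2] at e1
      simp only [wt_cons, wtA_inr] at e1
      omega
    obtain ⟨b, v', rfl⟩ := List.exists_cons_of_ne_nil h3
    have hrv : S.Red s (b :: v') := by
      have := red_right (H (S.wt (Sum.inr h :: V))) (s := s) (c := Sum.inr h :: u') (w := b :: v')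
        (by rw [← h1]; exact hr) (by rw [← h1])
      exact this
    obtain ⟨e, rfl, he⟩ := aFirstT H hrv hμ1 (by rw [h4]; exact h6')
    have h9 := le_sz he
    have h10 := hV e (by rw [hVe]; simp)
    omega

lemma lemN2 {s : Bool} {h : S.E} {Y : List S.A} (hs : S.side h ≠ s)
    (hY : ∀ e, Sum.inr e ∈ Y → S.sz e < S.sz h)
    (hR : ¬ S.le (S.Rt s (S.o2l (S.par h) ++ Y)) (some h)) :
    ∃ κ : S.E, S.L s (Sum.inr h :: Y) = some κ ∧ S.sz h ≤ S.sz κ := by
  induction hm : S.wt Y using Nat.strong_induction_on generalizing Y with
  | _ n ih =>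
    subst hm
    by_cases hr : S.Red s (Sum.inr h :: Y)
    · by_cases hY0 : Y = []
      · subst hY0
        exact ⟨h, S.L_single s h, le_rfl⟩
      · have h1 := lemN H FS hs hr (fun e he => (hY e he).le)
        obtain ⟨κ, hκ1, hκ2, _, hκ4⟩ := S.L_top s (Sum.inr h) Y hr hs h1 (by
          intro e he
          apply hY0
          simp only [List.cons.injEq] at he
          exact he.2)
        refine ⟨κ, hκ4, ?_⟩
        have e1 : S.sz κ = S.wt (S.om κ) := S.sz_om κ
        rw [hκ2] at e1
        simp only [wt_cons, wtA_inr] at e1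
        omega
    · obtain ⟨u, k, v, h1, h2⟩ := step_of_not_red hr
      rcases u with _ | ⟨a, Y1⟩
      · simp only [List.nil_append, List.cons.injEq, Sum.inr.injEq] at h1
        obtain ⟨rfl, rfl⟩ := h1
        exfalso
        rcases h2 with h2 | h2
        · unfold Pre.IsR1 at h2
          simp only [List.nil_append, L_o2l] at h2
          exact not_par_le h h2
        · exact hR h2
      · simp only [List.cons_append, List.cons.injEq] at h1
        obtain ⟨rfl, rfl⟩ := h1
        have hk := hY k (by simp)
        have hkp := S.wt_par k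
        -- the new word
        have hY' : ∀ e, Sum.inr e ∈ Y1 ++ (S.o2l (S.par k) ++ v) → S.sz e < S.sz h := by
          intro e he
          rcases List.mem_append.1 he with he | he
          · exact hY e (by simp [he])
          rcases List.mem_append.1 he with he | he
          · cases hp : S.par k with
            | none => rw [hp] at he; simp at he
            | some p =>
              rw [hp] at he
              simp only [o2l_some, List.mem_singleton, Sum.inr.injEq] at he
              subst he
              have := S.sz_par k e hp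
              omega
          · exact hY e (by simp [he])
        have hstep : S.Step s (Sum.inr h :: (Y1 ++ Sum.inr k :: v))
            (Sum.inr h :: (Y1 ++ (S.o2l (S.par k) ++ v))) := by
          have := Pre.Step.mk (S := S.toPre) (s := s) (Sum.inr h :: Y1) k v h2
          simpa using this
        have hstep' : S.Step s (S.o2l (S.par h) ++ (Y1 ++ Sum.inr k :: v))
            (S.o2l (S.par h) ++ (Y1 ++ (S.o2l (S.par k) ++ v))) := by
          have h3 : S.IsR1 s (S.o2l (S.par h) ++ Y1) k ∨ S.IsR2 s k v := by
            rcases h2 with h2 | h2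
            · left
              unfold Pre.IsR1 at h2 ⊢
              by_contra hcon
              obtain ⟨g, hg1, hg2, _, _, _, hg6⟩ := aCrossL H (s := s) (e := some h)
                (P := S.par h) (Z := Y1 ++ S.o2l (S.par k)) (q := k) (le_par h)
                (by simpa using h2) (by simpa using hcon)
              have hgh : g = h := by
                rcases le_cases hg1 with h5 | h5
                · simpa using h5
                · exact absurd (le_trans hg2 h5) (not_par_le g)
              subst hgh
              rw [op_ne hs] at hg6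
              have h7 : Sum.inr g ∈ S.op s (Sum.inr k) := by
                cases ho : S.op s (Sum.inr k) with
                | nil => exact absurd ho (S.op_ne_nil s _)
                | cons b w =>
                  rw [ho] at hg6
                  simp only [List.head?_cons, Option.some.injEq] at hg6
                  rw [hg6]
                  simp
              rcases S.mem_op h7 with ⟨_, h8⟩ | ⟨_, h8⟩
              · rw [h8] at hk
                omega
              · omega
            · exact Or.inr h2
          have := Pre.Step.mk (S := S.toPre) (s := s) (S.o2l (S.par h) ++ Y1) k v h3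
          simpa using this
        have hR' : ¬ S.le (S.Rt s (S.o2l (S.par h) ++ (Y1 ++ (S.o2l (S.par k) ++ v)))) (some h) := by
          rw [← eqvR H (Eqv.of_step hstep')]
          exact hR
        obtain ⟨κ, hκ1, hκ2⟩ := ih (S.wt (Y1 ++ (S.o2l (S.par k) ++ v)))
          (by simp only [wt_append, wt_cons, wtA_inr] at hkp ⊢; omega) hY' hR' rfl
        refine ⟨κ, ?_, hκ2⟩
        rw [eqvL H (Eqv.of_step hstep)]
        exact hκ1

lemma X0 {s : Bool} {μ q Q : S.E} {G : Option S.E} {m : List S.A} (hμ : S.side μ ≠ s)
    (ho : S.opr s (Sum.inr μ) = S.o2l G ++ (m ++ [Sum.inr q])) (hq : S.side q = s)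
    (hQ : S.par q = some Q) : S.L s (Sum.inr μ :: (m ++ [Sum.inr Q])) ≠ some Q := by
  have hμs := side_not hμ
  have hom : S.om μ = Sum.inr q :: (m.reverse ++ S.o2l G) := by
    rw [opr_om hμs] at ho
    have := congrArg List.reverse ho
    simpa using this
  have hwt : S.sz μ = S.wt (S.o2l G) + (S.wt m + S.sz q) := by
    have h1 := S.wt_opr s (Sum.inr μ)
    rw [ho] at h1
    simp only [wt_append, wt_cons, wt_nil, wtA_inr] at h1
    omega
  have hszQ := S.sz_par q Q hQ
  have hpar : S.par μ = S.Rt s (S.o2l G ++ (m ++ [Sum.inr Q])) := by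
    have h1 := S.om_par hom
    rw [h1, hμs]
    unfold Pre.Rt
    congr 1
    simp [hQ]
  have hle : S.le (some μ) G := by
    have h1 := aP5R H s (S.o2l G) (m ++ [Sum.inr q])
    rw [← ho, S.Rt_opr, Rt_o2l] at h1
    exact h1
  have hne : G ≠ some μ := by
    rintro rfl
    simp only [o2l_some, wt_cons, wtA_inr, wt_nil] at hwt
    have := S.sz_pos q
    change 0 < S.sz q at this
    omega
  have hle' : S.le (S.par μ) G := le_cases' hle hne
  have hR : S.Rt s (S.o2l (S.par μ) ++ (m ++ [Sum.inr Q])) = S.par μ := by
    cases hp : S.par μ with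
    | none =>
      rw [hp] at hle' hpar
      rw [none_le hle'] at hpar
      rw [← hpar]
    | some p =>
      rw [hp] at hle' hpar
      have := aFixdownR H (s := s) (v := m ++ [Sum.inr Q]) hle' (by rw [← hpar]; exact S.le_refl _)
      simpa using this
  obtain ⟨κ, hκ1, hκ2⟩ := lemN2 H FS (s := s) (h := μ) (Y := m ++ [Sum.inr Q]) hμ (by
      intro e he
      rcases List.mem_append.1 he with he | he
      · obtain ⟨a, b, hab⟩ := List.append_of_mem he
        rw [hab] at hwt
        simp only [wt_append, wt_cons, wtA_inr] at hwt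
        have := S.sz_pos q
        change 0 < S.sz q at this
        omega
      · simp only [List.mem_singleton, Sum.inr.injEq] at he
        subst he
        change S.sz e < S.sz q at hszQ
        omega) (by
      rw [hR]
      exact not_par_le μ)
  rw [hκ1]
  intro h
  have h1 : κ = Q := by simpa using h
  subst h1
  change S.sz κ < S.sz q at hszQ
  omega

lemma lemX {s : Bool} {w : List S.A} {q Q : S.E} (hr : S.Red s (w ++ [Sum.inr q]))
    (hq : S.side q = s) (hQ : S.par q = some Q) (hL : S.L s (w ++ [Sum.inr Q]) = some Q) :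
    ¬ S.Split (!s) (w ++ [Sum.inr q]).reverse := by
  intro hsp
  have hrr : S.Red (!s) (Sum.inr q :: w.reverse) := by
    have := Red_rev S hr
    simpa using this
  have hsp' : S.Split (!s) (Sum.inr q :: w.reverse) := by simpa using hsp
  obtain ⟨u0, v0, g, G, h1, h2, h3, h4, h5, h6, h7, h8⟩ :=
    FS (!s) (Sum.inr q) w.reverse hrr (side_ne_not hq) hsp'
  obtain ⟨a, u0', rfl⟩ := List.exists_cons_of_ne_nil h2
  simp only [List.cons_append, List.cons.injEq] at h1
  obtain ⟨rfl, h1⟩ := h1
  have hw : w = v0.reverse ++ u0'.reverse := by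
    have := congrArg List.reverse h1
    simpa using this
  have hLv : S.L s v0.reverse = some g := by
    unfold Pre.Rt at h4
    simpa using h4
  have hLg : S.L s (Sum.inr g :: (u0'.reverse ++ [Sum.inr Q])) = some Q := by
    rw [← hL, hw, List.append_assoc, aP3L H s v0.reverse, hLv]
    rfl
  by_cases hsingle : u0' ++ S.o2l G = []
  · obtain ⟨hu', hG⟩ := List.append_eq_nil_iff.1 hsingle
    subst hu'
    rw [hG] at h6
    simp only [List.append_nil, L_single'] at h6
    have h9 := aAbsorbL H (s := s) (u := [Sum.inr g]) (f := some Q) (by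
      rw [L_single', ← hQ]
      exact le_trans h6 (le_par q))
    simp only [List.reverse_nil, List.nil_append] at hLg
    simp only [o2l_some, List.singleton_append, L_single'] at h9
    rw [hLg] at h9
    rw [← h9, ← hQ] at h6
    exact not_par_le q h6
  · obtain ⟨μ, hμ1, hμ2, _, hμ4⟩ := S.L_top (!s) (Sum.inr q) (u0' ++ S.o2l G) (by simpa using h7)
      (side_ne_not hq) (by simpa using h8) (by
        intro e he
        apply hsingle
        simp only [List.cons.injEq] at he
        exact he.2)
    have h6' : S.le (some g) (some μ) := by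
      rw [← hμ4]
      simpa using h6
    have hopr : S.opr s (Sum.inr μ) = S.o2l G ++ (u0'.reverse ++ [Sum.inr q]) := by
      rw [opr_om hμ1, hμ2]
      simp
    have hμs : S.side μ ≠ s := by
      rw [hμ1]
      cases s <;> simp
    apply X0 H FS hμs hopr hq hQ
    apply le_antisymm
    · have := aP5L H s (Sum.inr μ :: u0'.reverse) [Sum.inr Q]
      simpa using this
    · have := aMonoL H (s := s) (u0'.reverse ++ [Sum.inr Q]) h6'
      simp only [o2l_some, List.singleton_append] at this
      rw [hLg] at this
      exact this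

lemma lemX' {s : Bool} {w : List S.A} {q Q : S.E} (hr : S.Red s (w ++ [Sum.inr q])) (hw : w ≠ [])
    (hq : S.side q = s) (hQ : S.par q = some Q) (hL : S.L s (w ++ [Sum.inr Q]) = some Q) :
    ∃ β : S.E, S.side β ≠ s ∧ S.opr s (Sum.inr β) = w ++ [Sum.inr q] ∧
      S.par β = S.Rt s (w ++ [Sum.inr Q]) ∧ S.Rt s (w ++ [Sum.inr q]) = some β := by
  have h1 := lemX H FS hr hq hQ hL
  have hrr : S.Red (!s) (Sum.inr q :: w.reverse) := by
    have := Red_rev S hr
    simpa using this
  obtain ⟨β, hβ1, hβ2, hβ3, hβ4⟩ := S.L_top (!s) (Sum.inr q) w.reverse hrr (side_ne_not hq)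
    (by simpa using h1) (by
      intro e he
      apply hw
      simp only [List.cons.injEq, List.reverse_eq_nil_iff] at he
      exact he.2)
  refine ⟨β, ?_, ?_, ?_, ?_⟩
  · rw [hβ1]
    cases s <;> simp
  · rw [opr_om hβ1, hβ2]
    simp
  · rw [hβ3]
    unfold Pre.Rt
    congr 1
    simp [hQ]
  · unfold Pre.Rt
    rw [← hβ4]
    congr 1
    simp

end Sys

end Pool.Agent.LibQF
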