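import Pool.Agent.LibQF.FixS
import Pool.Agent.LibQF.SpS
import Pool.Agent.LibQF.MFS
import Pool.Agent.LibQF.TTS
import Pool.Agent.LibQF.XX

/-!
# All statements hold for words of every size
-/

namespace Pool.Agent.LibQF

universe u

namespace Sys

variable {X : Type u}

theorem good_all (S : Sys X) (n : ℕ) : S.Good n := by
  induction n with
  | zero =>
    exact
      { conf := fun s w w1 w2 h => absurd h (Nat.not_lt_zero _)
        inv := fun s w w' h => absurd h (Nat.not_lt_zero _)
        fix := fun s u g h => absurd h (Nat.not_lt_zero _)
        spl := fun s u v g h => absurd h (Nat.not_lt_zero _)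
        p3 := fun s u v h => absurd h (Nat.not_lt_zero _)
        mf := fun s a Z h => absurd h (Nat.not_lt_zero _)
        tt := fun s y z q h => absurd h (Nat.not_lt_zero _) }
  | succ n hg =>
    have hi := inv_succ hg
    have hf := fix_succ hg
    have hp := p3_succ hg hf hi
    exact
      { conf := conf_succ hg
        inv := hi
        fix := hf
        spl := spl_succ hg hf hi
        p3 := hp
        mf := mf_succ hg hi hp
        tt := tt_succ hg hi hp }

theorem fs_all (S : Sys X) : S.FSall := fun _ _ _ hr _ hs =>
  first_split (good_all S _) le_rfl hr hs

end Sys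

end Pool.Agent.LibQF
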