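import Pool.Agent.LibQF.Sys

namespace Pool.Agent.LibQF

universe u

namespace Sys

variable {X : Type u} (S : Sys X)

/-! ## sizes -/

lemma wtA_pos (a : S.A) : 0 < S.wtA a := by
  cases a with
  | inl x => simp [Pre.wtA]
  | inr e => exact S.sz_pos e

@[simp] lemma wt_nil : S.wt [] = 0 := rfl

@[simp] lemma wt_cons (a : S.A) (w : List S.A) : S.wt (a :: w) = S.wtA a + S.wt w := by
  simp [Pre.wt]

@[simp] lemma wt_append (u v : List S.A) : S.wt (u ++ v) = S.wt u + S.wt v := by
  simp [Pre.wt]

@[simp] lemma wt_reverse (u : List S.A) : S.wt u.reverse = S.wt u := by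
  simp [Pre.wt]

@[simp] lemma wtA_inr (e : S.E) : S.wtA (.inr e) = S.sz e := rfl

@[simp] lemma wtA_inl (x : X) : S.wtA (.inl x) = 1 := rfl

@[simp] lemma o2l_none : S.o2l none = [] := rfl

@[simp] lemma o2l_some (e : S.E) : S.o2l (some e) = [.inr e] := rfl

@[simp] lemma up_inl (x : X) : S.up (.inl x) = [] := rfl

@[simp] lemma up_inr (e : S.E) : S.up (.inr e) = S.o2l (S.par e) := rfl

@[simp] lemma o2l_reverse (o : Option S.E) : (S.o2l o).reverse = S.o2l o := by
  cases o <;> simp

lemma wt_pos_of_ne {w : List S.A} (h : w ≠ []) : 0 < S.wt w := by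
  cases w with
  | nil => exact absurd rfl h
  | cons a w =>
    have := S.wtA_pos a
    simp
    omega

lemma wt_eq_zero {w : List S.A} (h : S.wt w = 0) : w = [] := by
  by_contra h0
  have := S.wt_pos_of_ne h0
  omega

lemma wt_par (e : S.E) : S.wt (S.o2l (S.par e)) < S.sz e := by
  cases h : S.par e with
  | none => simpa using S.sz_pos e
  | some p => simpa using S.sz_par e p h

lemma wt_up (a : S.A) : S.wt (S.up a) < S.wtA a := by
  cases a with
  | inl x => simp
  | inr e => exact S.wt_par e

lemma wt_L (s : Bool) (w : List S.A) : S.wt (S.o2l (S.L s w)) ≤ S.wt w := by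
  cases h : S.L s w with
  | none => simp
  | some e => simpa using S.L_size s w e h

lemma wt_Rt (s : Bool) (w : List S.A) : S.wt (S.o2l (S.Rt s w)) ≤ S.wt w := by
  have := S.wt_L (!s) w.reverse
  simpa [Pre.Rt] using this

lemma om_ne_nil (e : S.E) : S.om e ≠ [] := by
  intro h
  have h1 := S.sz_om e
  have h2 := S.sz_pos e
  change S.sz e = S.wt (S.om e) at h1
  rw [h] at h1
  simp at h1
  omega

/-! ## the order -/

@[simp] lemma parO_none : S.parO none = none := rfl

@[simp] lemma parO_some (e : S.E) : S.parO (some e) = S.par e := rfl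

lemma le_refl (a : Option S.E) : S.le a a := ⟨0, rfl⟩

variable {S}

lemma le_trans {a b c : Option S.E} (h1 : S.le a b) (h2 : S.le b c) : S.le a c := by
  obtain ⟨n, rfl⟩ := h1
  obtain ⟨m, rfl⟩ := h2
  exact ⟨m + n, by rw [Function.iterate_add_apply]⟩

lemma le_par (e : S.E) : S.le (some e) (S.par e) := ⟨1, rfl⟩

lemma le_parO (a : Option S.E) : S.le a (S.parO a) := ⟨1, rfl⟩

lemma le_none (a : Option S.E) : S.le a none := by
  induction h : S.wt (S.o2l a) using Nat.strong_induction_on generalizing a with
  | _ n ih =>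
    cases a with
    | none => exact S.le_refl none
    | some e =>
      have h1 := S.wt_par e
      simp at h
      exact le_trans (le_par e) (ih _ (by omega) (S.par e) rfl)

lemma none_le {b : Option S.E} (h : S.le none b) : b = none := by
  obtain ⟨n, rfl⟩ := h
  induction n with
  | zero => rfl
  | succ n ih => rw [Function.iterate_succ_apply]; exact ih

lemma le_wt {a b : Option S.E} (h : S.le a b) : S.wt (S.o2l b) ≤ S.wt (S.o2l a) := by
  obtain ⟨n, rfl⟩ := h
  induction n generalizing a with
  | zero => simp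
  | succ n ih =>
    rw [Function.iterate_succ_apply]
    refine (ih (a := S.parO a)).trans ?_
    cases a with
    | none => simp
    | some e => simpa using (S.wt_par e).le

lemma le_wt_lt {a b : Option S.E} (h : S.le a b) (hne : a ≠ b) :
    S.wt (S.o2l b) < S.wt (S.o2l a) := by
  obtain ⟨n, rfl⟩ := h
  cases n with
  | zero => exact absurd rfl hne
  | succ n =>
    cases a with
    | none =>
      exfalso
      apply hne
      exact (none_le ⟨n + 1, rfl⟩).symm
    | some e =>
      rw [Function.iterate_succ_apply]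
      have h1 : S.le (S.par e) (S.parO^[n] (S.par e)) := ⟨n, rfl⟩
      have h2 := le_wt h1
      have h3 := S.wt_par e
      simp only [parO_some, o2l_some, wt_cons, wtA_inr, wt_nil, add_zero]
      omega

lemma le_antisymm {a b : Option S.E} (h1 : S.le a b) (h2 : S.le b a) : a = b := by
  by_contra h
  have h3 := le_wt_lt h1 h
  have h4 := le_wt h2
  omega

lemma le_sz {a b : S.E} (h : S.le (some a) (some b)) : S.sz b ≤ S.sz a := by
  simpa using le_wt h

lemma le_sz_lt {a b : S.E} (h : S.le (some a) (some b)) (hne : a ≠ b) : S.sz b < S.sz a := by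
  simpa using le_wt_lt h (by simpa using hne)

/-- elements above a given one form a chain -/
lemma le_total_above {a b c : Option S.E} (h1 : S.le a b) (h2 : S.le a c) : S.le b c ∨ S.le c b := by
  obtain ⟨n, rfl⟩ := h1
  obtain ⟨m, rfl⟩ := h2
  rcases Nat.le_total n m with h | h
  · left
    obtain ⟨k, rfl⟩ := Nat.exists_eq_add_of_le h
    exact ⟨k, by rw [Nat.add_comm, Function.iterate_add_apply]⟩
  · right
    obtain ⟨k, rfl⟩ := Nat.exists_eq_add_of_le h
    exact ⟨k, by rw [Nat.add_comm, Function.iterate_add_apply]⟩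

lemma le_cases {e : S.E} {b : Option S.E} (h : S.le (some e) b) : b = some e ∨ S.le (S.par e) b := by
  obtain ⟨n, rfl⟩ := h
  cases n with
  | zero => left; rfl
  | succ n => right; exact ⟨n, by rw [Function.iterate_succ_apply]; rfl⟩

lemma le_cases' {e : S.E} {b : Option S.E} (h : S.le (some e) b) (hne : b ≠ some e) :
    S.le (S.par e) b := (le_cases h).resolve_left hne

lemma not_par_le (e : S.E) : ¬ S.le (S.par e) (some e) := by
  intro h
  have h1 := le_wt h
  have h2 := S.wt_par e
  simp at h1
  omega

lemma par_ne (e : S.E) : S.par e ≠ some e := by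
  intro h
  exact not_par_le e (h ▸ S.le_refl _)

/-- if `a ≤ q`, `a ≤ b` and not `b ≤ q` then `q < b` -/
lemma lt_of_not_le {a q b : Option S.E} (h1 : S.le a q) (h2 : S.le a b) (h : ¬ S.le b q) :
    S.le q b ∧ q ≠ b := by
  rcases le_total_above h1 h2 with h3 | h3
  · exact ⟨h3, fun h4 => h (h4 ▸ S.le_refl _)⟩
  · exact absurd h3 h

/-! ## reversal -/

variable (S)

@[simp] lemma Rt_nil (s : Bool) : S.Rt s [] = none := by
  simp only [Pre.Rt, List.reverse_nil]
  exact S.L_nil _

@[simp] lemma L_nil' (s : Bool) : S.L s [] = none := S.L_nil s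

@[simp] lemma L_o2l (s : Bool) (o : Option S.E) : S.L s (S.o2l o) = o := by
  cases o with
  | none => exact S.L_nil s
  | some e => exact S.L_single s e

@[simp] lemma L_single' (s : Bool) (e : S.E) : S.L s [Sum.inr e] = some e := S.L_single s e

@[simp] lemma Rt_o2l (s : Bool) (o : Option S.E) : S.Rt s (S.o2l o) = o := by
  simp [Pre.Rt]

@[simp] lemma Rt_single (s : Bool) (e : S.E) : S.Rt s [Sum.inr e] = some e := by
  simp [Pre.Rt]

lemma Rt_not (s : Bool) (w : List S.A) : S.Rt (!s) w.reverse = S.L s w := by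
  simp [Pre.Rt]

lemma L_not (s : Bool) (w : List S.A) : S.L (!s) w.reverse = S.Rt s w := rfl

lemma L_not' (s : Bool) (w : List S.A) : S.L (!s) w = S.Rt s w.reverse := by
  simp [Pre.Rt]

lemma isR1_not (s : Bool) (k : S.E) (v : List S.A) : S.IsR1 (!s) v.reverse k ↔ S.IsR2 s k v := by
  unfold Pre.IsR1 Pre.IsR2
  rw [← L_not]
  simp

lemma isR2_not (s : Bool) (k : S.E) (u : List S.A) : S.IsR2 (!s) k u.reverse ↔ S.IsR1 s u k := by
  have := isR1_not S (!s) k u.reverse
  simpa using this.symm

lemma Step_rev {s : Bool} {w w' : List S.A} (h : S.Step s w w') :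
    S.Step (!s) w.reverse w'.reverse := by
  cases h with
  | mk u k v h =>
    have := Pre.Step.mk (S := S.toPre) (s := !s) v.reverse k u.reverse
      (by
        rcases h with h | h
        · right; exact (isR2_not S s k u).2 h
        · left; exact (isR1_not S s k v).2 h)
    simpa using this

lemma Step_rev_iff {s : Bool} {w w' : List S.A} :
    S.Step (!s) w.reverse w'.reverse ↔ S.Step s w w' := by
  constructor
  · intro h
    have := Step_rev S h
    simpa using this
  · exact Step_rev S

lemma Steps_rev {s : Bool} {w w' : List S.A} (h : S.Steps s w w') :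
    S.Steps (!s) w.reverse w'.reverse := by
  induction h with
  | refl => exact Relation.ReflTransGen.refl
  | tail _ h2 ih => exact ih.tail (Step_rev S h2)

lemma Steps_rev_iff {s : Bool} {w w' : List S.A} :
    S.Steps (!s) w.reverse w'.reverse ↔ S.Steps s w w' := by
  constructor
  · intro h
    have := Steps_rev S h
    simpa using this
  · exact Steps_rev S

lemma Red_rev {s : Bool} {w : List S.A} (h : S.Red s w) : S.Red (!s) w.reverse := by
  intro w' hw'
  have := Step_rev S hw'
  simp at this
  exact h _ this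

lemma Red_rev_iff {s : Bool} {w : List S.A} : S.Red (!s) w.reverse ↔ S.Red s w := by
  constructor
  · intro h
    have := Red_rev S h
    simpa using this
  · exact Red_rev S

lemma Step_wt {s : Bool} {w w' : List S.A} (h : S.Step s w w') : S.wt w' < S.wt w := by
  cases h with
  | mk u k v h =>
    have := S.wt_par k
    simp
    omega

lemma Steps_wt {s : Bool} {w w' : List S.A} (h : S.Steps s w w') : S.wt w' ≤ S.wt w := by
  induction h with
  | refl => exact le_rfl
  | tail _ h2 ih => exact (Step_wt S h2).le.trans ih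

lemma exists_red (s : Bool) (w : List S.A) : ∃ z, S.Steps s w z ∧ S.Red s z := by
  induction h : S.wt w using Nat.strong_induction_on generalizing w with
  | _ n ih =>
    by_cases hr : S.Red s w
    · exact ⟨w, Relation.ReflTransGen.refl, hr⟩
    · unfold Pre.Red at hr
      push Not at hr
      obtain ⟨w', hw'⟩ := hr
      obtain ⟨z, hz1, hz2⟩ := ih _ (h ▸ Step_wt S hw') w' rfl
      exact ⟨z, Relation.ReflTransGen.head hw' hz1, hz2⟩

lemma Red_Steps {s : Bool} {w z : List S.A} (h : S.Red s w) (hz : S.Steps s w z) : z = w := by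
  rcases Relation.ReflTransGen.cases_head hz with h1 | ⟨c, h1, _⟩
  · exact h1.symm
  · exact absurd h1 (h c)

lemma Red_single (s : Bool) (e : S.E) : S.Red s [Sum.inr e] := by
  intro w' h
  generalize hw : [Sum.inr e] = w at h
  cases h with
  | mk u k v h =>
    have h1 : u = [] ∧ k = e ∧ v = [] := by
      rcases u with _ | ⟨a, u⟩
      · simp at hw
        exact ⟨rfl, hw.1.symm, hw.2⟩
      · simp at hw
    obtain ⟨rfl, rfl, rfl⟩ := h1
    rcases h with h | h
    · unfold Pre.IsR1 at h
      simp at h
      exact not_par_le _ h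
    · unfold Pre.IsR2 at h
      simp at h
      exact not_par_le _ h

lemma Red_gen (s : Bool) (x : X) : S.Red s [Sum.inl x] := by
  intro w' h
  generalize hw : [Sum.inl x] = w at h
  cases h with
  | mk u k v h =>
    rcases u with _ | ⟨a, u⟩
    · simp at hw
    · simp at hw

/-! ## openings -/

lemma mem_om_lt {e f : S.E} (h : Sum.inr f ∈ S.om e) : S.sz f < S.sz e := by
  obtain ⟨a, b, hab⟩ := List.append_of_mem h
  have h1 := S.sz_om e
  change S.sz e = S.wt (S.om e) at h1
  rw [hab] at h1
  simp at h1
  have h2 : a ≠ [] ∨ b ≠ [] := by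
    by_contra h3
    push Not at h3
    have := S.om_single e f
    rw [hab, h3.1, h3.2] at this
    exact this rfl
  rcases h2 with h2 | h2
  · have := S.wt_pos_of_ne h2
    omega
  · have := S.wt_pos_of_ne h2
    omega

lemma wt_op (s : Bool) (a : S.A) : S.wt (S.op s a) = S.wtA a := by
  cases a with
  | inl x => simp [Pre.op]
  | inr e =>
    simp only [Pre.op]
    split
    · exact (S.sz_om e).symm
    · simp

lemma wt_opr (s : Bool) (a : S.A) : S.wt (S.opr s a) = S.wtA a := by
  simp [Pre.opr, wt_op]

/-- `L (om e) = e` -/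
lemma L_om (e : S.E) : S.L (S.side e) (S.om e) = some e := by
  cases h : S.om e with
  | nil => exact absurd h (S.om_ne_nil e)
  | cons a v =>
    have h1 := S.om_red e
    have h2 := S.om_ns e
    have h3 := S.om_split e
    have h4 := S.om_single e
    rw [h] at h1 h2 h3 h4
    obtain ⟨k, hk1, hk2, hk3, hk4⟩ := S.L_top (S.side e) a v h1 h2 h3 h4
    have : k = e := S.ext k e hk1 (by rw [hk2, h])
    rw [hk4, this]

lemma om_par {e : S.E} {a : S.A} {v : List S.A} (h : S.om e = a :: v) :
    S.par e = S.L (S.side e) (S.up a ++ v) := by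
  have h1 := S.om_red e
  have h2 := S.om_ns e
  have h3 := S.om_split e
  have h4 := S.om_single e
  rw [h] at h1 h2 h3 h4
  obtain ⟨k, hk1, hk2, hk3, hk4⟩ := S.L_top (S.side e) a v h1 h2 h3 h4
  have : k = e := S.ext k e hk1 (by rw [hk2, h])
  rw [← this]
  rw [hk3, this]

lemma L_op (s : Bool) (e : S.E) : S.L s (S.op s (.inr e)) = some e := by
  simp only [Pre.op]
  split
  · rename_i h
    subst h
    exact S.L_om e
  · exact S.L_single s e

lemma Red_op (s : Bool) (a : S.A) : S.Red s (S.op s a) := by
  cases a with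
  | inl x => exact S.Red_gen s x
  | inr e =>
    simp only [Pre.op]
    split
    · rename_i h
      subst h
      exact S.om_red e
    · exact S.Red_single s e

lemma NS_op (s : Bool) (a : S.A) : S.NS s (S.op s a) := by
  cases a with
  | inl x => simp [Pre.op, Pre.NS]
  | inr e =>
    simp only [Pre.op]
    split
    · rename_i h
      subst h
      exact S.om_ns e
    · rename_i h
      exact h

lemma op_ne_nil (s : Bool) (a : S.A) : S.op s a ≠ [] := by
  intro h
  have h1 := S.wt_op s a
  rw [h] at h1
  have := S.wtA_pos a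
  simp at h1
  omega

lemma Rt_opr (s : Bool) (e : S.E) : S.Rt s (S.opr s (.inr e)) = some e := by
  simp only [Pre.Rt, Pre.opr, List.reverse_reverse]
  exact S.L_op (!s) e

lemma Red_opr (s : Bool) (a : S.A) : S.Red s (S.opr s a) := by
  have := Red_rev S (S.Red_op (!s) a)
  simpa [Pre.opr] using this

lemma opr_ne_nil (s : Bool) (a : S.A) : S.opr s a ≠ [] := by
  simp only [Pre.opr]
  intro h
  exact S.op_ne_nil (!s) a (by simpa using h)

/-- letters of `op`/`opr` -/
lemma mem_op {s : Bool} {e f : S.E} (h : Sum.inr f ∈ S.op s (.inr e)) :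
    (S.side e ≠ s ∧ f = e) ∨ (S.side e = s ∧ S.sz f < S.sz e) := by
  simp only [Pre.op] at h
  split at h
  · rename_i h1
    exact Or.inr ⟨h1, S.mem_om_lt h⟩
  · rename_i h1
    simp at h
    exact Or.inl ⟨h1, h⟩

lemma mem_opr {s : Bool} {e f : S.E} (h : Sum.inr f ∈ S.opr s (.inr e)) :
    (S.side e = s ∧ f = e) ∨ (S.side e ≠ s ∧ S.sz f < S.sz e) := by
  simp only [Pre.opr, List.mem_reverse] at h
  rcases S.mem_op h with ⟨h1, h2⟩ | ⟨h1, h2⟩
  · left
    refine ⟨?_, h2⟩
    cases h3 : S.side e <;> cases s <;> simp_all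
  · right
    refine ⟨?_, h2⟩
    cases h3 : S.side e <;> cases s <;> simp_all

end Sys

end Pool.Agent.LibQF
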