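import Pool.Agent.LibQF.Good

/-!
# Local confluence for words of size `n`
-/

namespace Pool.Agent.LibQF

universe u

namespace Sys

variable {X : Type u} {S : Sys X} {n : ℕ}

/-- joinable words -/
def Join (S : Sys X) (s : Bool) (a b : List S.A) : Prop := ∃ z, S.Steps s a z ∧ S.Steps s b z

lemma Join.symm {s : Bool} {a b : List S.A} (h : S.Join s a b) : S.Join s b a := by
  obtain ⟨z, h1, h2⟩ := h
  exact ⟨z, h2, h1⟩

lemma Join.trans (hc : S.Conf n) {s : Bool} {a b c : List S.A} (hb : S.wt b < n)
    (h1 : S.Join s a b) (h2 : S.Join s b c) : S.Join s a c := by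
  obtain ⟨z1, h3, h4⟩ := h1
  obtain ⟨z2, h5, h6⟩ := h2
  obtain ⟨z, h7, h8⟩ := church_rosser hc hb h4 h5
  exact ⟨z, h3.trans h7, h6.trans h8⟩

lemma Join.rev {s : Bool} {a b : List S.A} (h : S.Join s a b) : S.Join (!s) a.reverse b.reverse := by
  obtain ⟨z, h1, h2⟩ := h
  exact ⟨z.reverse, Steps_rev S h1, Steps_rev S h2⟩

lemma le_par_par {a b : S.E} (h : S.le (some a) (some b)) : S.le (S.par a) (S.par b) := by
  rcases le_cases h with h1 | h1
  · have : b = a := by simpa using h1
    rw [this]
    exact S.le_refl _
  · exact le_trans h1 (le_par b)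

/-- both steps survive -/
lemma join_both {s : Bool} {u m v : List S.A} {p q : S.E}
    (hp : S.IsR1 s u p ∨ S.IsR2 s p (m ++ (S.o2l (S.par q) ++ v)))
    (hq : S.IsR1 s (u ++ (S.o2l (S.par p) ++ m)) q ∨ S.IsR2 s q v) :
    S.Join s (u ++ (S.o2l (S.par p) ++ (m ++ .inr q :: v)))
      (u ++ .inr p :: (m ++ (S.o2l (S.par q) ++ v))) := by
  refine ⟨u ++ (S.o2l (S.par p) ++ (m ++ (S.o2l (S.par q) ++ v))), ?_, ?_⟩
  · apply Relation.ReflTransGen.single
    have := Pre.Step.mk (S := S.toPre) (s := s) (u ++ (S.o2l (S.par p) ++ m)) q v hq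
    simpa using this
  · apply Relation.ReflTransGen.single
    exact Pre.Step.mk (S := S.toPre) (s := s) u p (m ++ (S.o2l (S.par q) ++ v)) hp

lemma join_R1R1 (hg : S.Good n) {s : Bool} {u m v : List S.A} {p q : S.E}
    (hw : S.wt (u ++ .inr p :: (m ++ .inr q :: v)) ≤ n)
    (hp : S.IsR1 s u p) (hq : S.IsR1 s (u ++ .inr p :: m) q) :
    S.Join s (u ++ (S.o2l (S.par p) ++ (m ++ .inr q :: v)))
      (u ++ .inr p :: (m ++ (S.o2l (S.par q) ++ v))) := by
  apply join_both (Or.inl hp)
  left
  have h1 := S.wt_par q
  have h2 : S.Step s (u ++ .inr p :: (m ++ S.o2l (S.par q)))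
      (u ++ (S.o2l (S.par p) ++ (m ++ S.o2l (S.par q)))) := Pre.Step.mk u p _ (Or.inl hp)
  have h3 := L_step1 hg.inv (by simp at hw ⊢; omega) h2
  unfold Pre.IsR1 at hq ⊢
  simp only [List.append_assoc, List.cons_append] at hq h3 ⊢
  rw [← h3]
  exact hq

lemma join_R2R2 (hg : S.Good n) {s : Bool} {u m v : List S.A} {p q : S.E}
    (hw : S.wt (u ++ .inr p :: (m ++ .inr q :: v)) ≤ n)
    (hp : S.IsR2 s p (m ++ .inr q :: v)) (hq : S.IsR2 s q v) :
    S.Join s (u ++ (S.o2l (S.par p) ++ (m ++ .inr q :: v)))
      (u ++ .inr p :: (m ++ (S.o2l (S.par q) ++ v))) := by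
  apply join_both _ (Or.inr hq)
  right
  have h1 := S.wt_par p
  have h2 : S.Step s ((S.o2l (S.par p) ++ m) ++ .inr q :: v)
      ((S.o2l (S.par p) ++ m) ++ (S.o2l (S.par q) ++ v)) := Pre.Step.mk _ q _ (Or.inr hq)
  have h3 := Rt_step1 hg.inv (by simp at hw ⊢; omega) h2
  unfold Pre.IsR2 at hp ⊢
  simp only [List.append_assoc] at hp h3 ⊢
  rw [← h3]
  exact hp

/-- no letter of `m` is a redex of `u p m q v` -/
def NoRed (S : Sys X) (s : Bool) (a m b : List S.A) : Prop :=
  ∀ (m1 : List S.A) (k : S.E) (m2 : List S.A), m = m1 ++ .inr k :: m2 →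
    ¬ S.IsR1 s (a ++ m1) k ∧ ¬ S.IsR2 s k (m2 ++ b)

/-- raise the first letter by `R2` until the word is reduced -/
lemma red_top (hg : S.Good n) {s : Bool} {P : Option S.E} {W : List S.A}
    (hw : S.wt (S.o2l P ++ W) ≤ n) (h : S.NoRed s (S.o2l P) W []) :
    ∃ P1, S.le P P1 ∧ S.Steps s (S.o2l P ++ W) (S.o2l P1 ++ W) ∧ S.Red s (S.o2l P1 ++ W) := by
  induction hm : S.wt (S.o2l P) using Nat.strong_induction_on generalizing P with
  | _ m ih =>
    subst hm
    by_cases hr : S.Red s (S.o2l P ++ W)
    · exact ⟨P, S.le_refl _, Relation.ReflTransGen.refl, hr⟩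
    · obtain ⟨a, k, b, h1, h2⟩ := step_of_not_red hr
      cases P with
      | none =>
        simp at h1
        have h3 := h a k b h1
        simp at h3
        rcases h2 with h2 | h2
        · exact absurd h2 h3.1
        · exact absurd h2 h3.2
      | some p =>
        simp only [o2l_some, List.singleton_append] at h1
        rcases a with _ | ⟨a0, a⟩
        · simp at h1
          obtain ⟨rfl, rfl⟩ := h1
          have h3 : S.IsR2 s p W := by
            rcases h2 with h2 | h2
            · exfalso
              unfold Pre.IsR1 at h2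
              simp at h2
              exact not_par_le p h2
            · exact h2
          have h4 : S.Step s ([] ++ .inr p :: W) ([] ++ (S.o2l (S.par p) ++ W)) :=
            Pre.Step.mk [] p W (Or.inr h3)
          have h5 := S.wt_par p
          obtain ⟨P1, h6, h7, h8⟩ := ih (S.wt (S.o2l (S.par p))) (by simpa using h5)
            (P := S.par p) (by simp at hw ⊢; omega) (by
              intro m1 k m2 hm
              have h6 := h m1 k m2 hm
              refine ⟨?_, h6.2⟩
              intro h7
              apply h6.1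
              unfold Pre.IsR1 at h7 ⊢
              refine le_trans ?_ h7
              have h8 := S.wt_par k
              have := monoL hg (s := s) (e := some p) (f := S.par p)
                (Z := m1 ++ S.o2l (S.par k)) (le_par p) (by
                  rw [hm] at hw
                  simp at hw ⊢
                  omega)
              simpa using this) rfl
          refine ⟨P1, le_trans (le_par p) h6, ?_, h8⟩
          refine Relation.ReflTransGen.head ?_ h7
          simpa using h4
        · simp at h1
          obtain ⟨h3, h4⟩ := h1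
          have h5 := h a k b h4
          subst h3
          rcases h2 with h2 | h2
          · exact absurd (by simpa using h2) h5.1
          · exact absurd (by simpa using h2) h5.2

/-- types in the crossing lemma -/
lemma typ (hg : S.Good n) {s : Bool} {u m v : List S.A} {p q : S.E}
    (hw : S.wt (u ++ .inr p :: (m ++ .inr q :: v)) ≤ n)
    (hq : S.IsR1 s (u ++ .inr p :: m) q)
    (hm : S.NoRed s (u ++ [.inr p]) m (.inr q :: v))
    (h2 : ¬ S.le (S.L s (S.o2l (S.par p) ++ (m ++ S.o2l (S.par q)))) (some q))
    (hqs : S.side q ≠ s) : (m = [] ∧ p = q) ∨ S.IsR1 s u p := by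
  have e1 := S.wt_par p
  have e2 := S.wt_par q
  have hA : S.le (S.L s (u ++ .inr p :: m)) (some q) := by
    unfold Pre.IsR1 at hq
    cases hQ : S.par q with
    | none => rw [hQ] at hq; simpa using hq
    | some Q0 =>
      rw [hQ] at hq e2
      simp at e2
      obtain ⟨e, _, _, h3⟩ := ttL hg (s := s) (y := u ++ .inr p :: m) (z := .inr Q0) (q := q)
        (by simp at hw ⊢; omega) hqs hq (by
          intro e he h3
          simp at he
          subst he
          rw [← hQ] at h3
          exact not_par_le q h3)
      exact h3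
  rcases List.eq_nil_or_concat' m with rfl | ⟨m', t, rfl⟩
  · by_cases hpq : S.le (some p) (some q)
    · rcases le_cases hpq with h3 | h3
      · left
        exact ⟨rfl, by simpa using h3.symm⟩
      · exfalso
        apply h2
        have h4 := absorbL hg (s := s) (u := S.o2l (S.par p)) (f := S.par q)
          (by simpa using le_trans h3 (le_par q)) (by simp at hw ⊢; omega)
        simp only [List.nil_append]
        rw [h4]
        simpa using h3
    · right
      obtain ⟨e, h3, h4, h5⟩ := ttL hg (s := s) (y := u) (z := .inr p) (q := q)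
        (by simp at hw ⊢; omega) hqs (by simpa using hA) (by
          intro e he
          simp at he
          subst he
          exact hpq)
      simp at h3
      subst h3
      unfold Pre.IsR1
      have h6 := absorbL hg (s := s) (u := u) (f := S.par p)
        (le_trans h5 (le_trans h4 (le_par p))) (by simp at hw ⊢; omega)
      rw [h6]
      exact le_trans h5 h4
  · exfalso
    have e3 := S.wtA_pos t
    by_cases ht : ∃ e, t = .inr e ∧ S.le (some e) (some q)
    · obtain ⟨e, rfl, h3⟩ := ht
      apply h2
      have h4 : S.le (S.L s (S.o2l (S.par p) ++ m' ++ [.inr e])) (some e) := by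
        have := p5L hg (s := s) (u := S.o2l (S.par p) ++ m') (v := [.inr e])
          (by simp at hw ⊢; omega)
        simpa using this
      have h5 := absorbL hg (s := s) (u := S.o2l (S.par p) ++ m' ++ [.inr e]) (f := S.par q)
        (le_trans h4 (le_trans h3 (le_par q))) (by simp at hw ⊢; omega)
      have h6 : S.o2l (S.par p) ++ (m' ++ [Sum.inr e] ++ S.o2l (S.par q)) =
          S.o2l (S.par p) ++ m' ++ [.inr e] ++ S.o2l (S.par q) := by simp
      rw [h6, h5]
      exact le_trans h4 h3
    · push Not at ht
      obtain ⟨e, rfl, h4, h5⟩ := ttL hg (s := s) (y := u ++ .inr p :: m') (z := t) (q := q)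
        (by simp at hw ⊢; omega) hqs (by simpa using hA) (by
          intro e he
          exact ht e he)
      have h6 := S.wt_par e
      apply (hm m' e [] (by simp)).1
      unfold Pre.IsR1
      have h7 := absorbL hg (s := s) (u := u ++ .inr p :: m') (f := S.par e)
        (le_trans h5 (le_trans h4 (le_par e))) (by simp at hw ⊢; omega)
      simp at h7 ⊢
      rw [h7]
      exact le_trans h5 h4

/-- after a context `Y` with `L (Y k⁺) = k⁺`, a reduced word with first letter `≤ k` has no `R1`
redexes -/
lemma noR1_after (hg : S.Good n) {s : Bool} {Y V : List S.A} {k e : S.E}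
    (hK : S.L s (Y ++ S.o2l (S.par k)) = S.par k) (hV : S.Red s (.inr e :: V))
    (he : S.le (some e) (some k)) (hw : S.wt (Y ++ .inr e :: V) ≤ n)
    {a b : List S.A} {c : S.E} (hab : .inr e :: V = a ++ .inr c :: b) : ¬ S.IsR1 s (Y ++ a) c := by
  intro h
  rw [red_iff] at hV
  have h0 := (hV a c b hab).1
  rcases a with _ | ⟨a0, a⟩
  · simp at hab
    obtain ⟨rfl, rfl⟩ := hab
    unfold Pre.IsR1 at h
    cases hc : S.par e with
    | none =>
      have h1 := le_par_par he
      rw [hc] at h1 h
      have h2 := none_le h1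
      rw [h2] at hK
      simp at hK h
      rw [hK] at h
      exact absurd (none_le h) (by simp)
    | some c0 =>
      have h1 := le_par_par he
      have h3 := S.sz_par e c0 hc
      rw [hc] at h1 h
      have h2 := fixdownL hg (s := s) (u := Y) (g := c0) (q := S.par k) h1 (by rw [hK]; exact h1)
        (by simp at hw ⊢; omega)
      simp only [o2l_some, List.append_nil] at h
      rw [h2, ← hc] at h
      exact not_par_le e h
  · simp at hab
    obtain ⟨rfl, hab⟩ := hab
    apply h0
    unfold Pre.IsR1 at h ⊢
    have h5 := S.wt_par c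
    have h6 := S.sz_pos c
    have h7 : S.wt (Y ++ [.inr e]) < n := by
      rw [hab] at hw
      simp at hw ⊢
      omega
    have h2 := fixdownL hg (s := s) (u := Y) (g := e) (q := S.par k)
      (le_trans he (le_par k)) (by rw [hK]; exact le_trans he (le_par k)) h7
    have h3 := p3L hg (s := s) (u := Y ++ [.inr e]) (v := a ++ S.o2l (S.par c)) (by
      rw [hab] at hw
      simp at hw ⊢
      omega)
    rw [h2] at h3
    simp at h h3 ⊢
    rw [h3] at h
    exact h

/-- the size argument: `q` is smaller than `p` -/
lemma claimA (hg : S.Good n) {s : Bool} {u m v : List S.A} {p q : S.E}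
    (hw : S.wt (u ++ .inr p :: (m ++ .inr q :: v)) ≤ n)
    (hp : S.IsR2 s p (m ++ .inr q :: v)) (hq : S.IsR1 s (u ++ .inr p :: m) q)
    (hm : S.NoRed s (u ++ [.inr p]) m (.inr q :: v))
    (h1 : ¬ S.le (S.Rt s (S.o2l (S.par p) ++ (m ++ S.o2l (S.par q)))) (some p))
    (h2 : ¬ S.le (S.L s (S.o2l (S.par p) ++ (m ++ S.o2l (S.par q)))) (some q))
    (hqs : S.side q = s) (hps : S.side p ≠ s) : S.sz q < S.sz p := by
  have e1 := S.wt_par p
  have e2 := S.wt_par q
  -- the left context
  have hwe := S.wt_L s (u ++ [.inr p])
  have hep : S.le (S.L s (u ++ [.inr p])) (some p) := by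
    have := p5L hg (s := s) (u := u) (v := [.inr p]) (by simp at hw ⊢; omega)
    simpa using this
  have hQ : S.L s (S.o2l (S.par p) ++ (m ++ S.o2l (S.par q))) = S.par q := by
    have h3 : S.le (S.L s (S.o2l (S.L s (u ++ [.inr p])) ++ (m ++ S.o2l (S.par q)))) (some q) := by
      have h4 := p3L hg (s := s) (u := u ++ [.inr p]) (v := m ++ S.o2l (S.par q))
        (by simp at hw ⊢; omega)
      rw [← h4]
      unfold Pre.IsR1 at hq
      simpa using hq
    obtain ⟨g, h5, h6, h7, h8, _, _⟩ := crossL hg (s := s) (e := S.L s (u ++ [.inr p]))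
      (P := S.par p) (Z := m ++ S.o2l (S.par q)) (q := q) (le_trans hep (le_par p))
      (by simp at hw hwe ⊢; omega) h3 h2
    apply le_antisymm
    · have := p5L hg (s := s) (u := S.o2l (S.par p) ++ m) (v := S.o2l (S.par q))
        (by simp at hw ⊢; omega)
      simpa using this
    · have h9 := S.wt_par g
      have h10 := le_wt h5
      have h11 := monoL hg (s := s) (Z := m ++ S.o2l (S.par q)) h6
        (by simp at hw hwe h10 ⊢; omega)
      rw [h8] at h11
      exact h11
  -- the right context
  have hwf := S.wt_Rt s (.inr q :: v)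
  have hfq : S.le (S.Rt s (.inr q :: v)) (some q) := by
    have := p5R hg (s := s) (u := [.inr q]) (v := v) (by simp at hw ⊢; omega)
    simpa using this
  have hp' : S.le (S.Rt s (S.o2l (S.par p) ++ m ++ S.o2l (S.Rt s (.inr q :: v)))) (some p) := by
    have h4 := p3R hg (s := s) (u := S.o2l (S.par p) ++ m) (v := .inr q :: v)
      (by simp at hw ⊢; omega)
    rw [← h4]
    unfold Pre.IsR2 at hp
    simpa using hp
  obtain ⟨h, h5, h6, h7, h8, h9, _⟩ := crossR hg (s := s) (e := S.Rt s (.inr q :: v))
    (P := S.par q) (Z := S.o2l (S.par p) ++ m) (q := p) (le_trans hfq (le_par q))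
    (by simp at hw hwf ⊢; omega) hp' (by simpa using h1)
  have hhq : S.le (some h) (some q) := by
    rcases le_total_above h5 hfq with h10 | h10
    · exact h10
    · rcases le_cases h10 with h11 | h11
      · rw [h11]; exact S.le_refl _
      · exact absurd (le_trans h6 h11) (not_par_le h)
  have hsh := le_wt h5
  simp at hsh hwf
  have hop := S.wt_opr s (.inr h)
  simp at hop
  obtain ⟨e, V, h10, h11⟩ := first_opr hg (s := s) hqs hhq (by simp at hw; omega)
  have hRo := S.Red_opr s (.inr h)
  have hno : S.NoRed s (S.o2l (S.par p)) (m ++ S.opr s (.inr h)) [] := by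
    intro m1 k m2 hmk
    rw [List.append_nil]
    have hk1 := S.wt_par k
    rcases List.append_eq_append_iff.1 hmk with ⟨a', ha1, ha2⟩ | ⟨c', hc1, hc2⟩
    · -- position in `opr h`
      subst ha1
      constructor
      · rw [← List.append_assoc]
        rw [h10] at ha2 hop hRo
        exact noR1_after hg (Y := S.o2l (S.par p) ++ m) (k := q) (by simpa using hQ) hRo h11
          (by simp at hw hop ⊢; omega) ha2
      · exact ((red_iff.1 hRo) _ _ _ ha2).2
    · rcases c' with _ | ⟨c0, c'⟩
      · -- position at the start of `opr h`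
        simp at hc2 hc1
        subst hc1
        constructor
        · rw [h10] at hc2 hop hRo
          have := noR1_after hg (Y := S.o2l (S.par p) ++ m) (k := q) (by simpa using hQ) hRo h11
            (by simp at hw hop ⊢; omega) (a := []) (b := m2) (c := k) (by simpa using hc2.symm)
          simpa using this
        · exact ((red_iff.1 hRo) [] k m2 (by simpa using hc2.symm)).2
      · -- position in `m`
        simp at hc2
        obtain ⟨rfl, rfl⟩ := hc2
        have h12 := hm m1 k c' hc1
        constructor
        · intro h13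
          apply h12.1
          unfold Pre.IsR1 at h13 ⊢
          refine le_trans ?_ h13
          have h14 := p3L hg (s := s) (u := u ++ [.inr p]) (v := m1 ++ S.o2l (S.par k))
            (by rw [hc1] at hw; simp at hw ⊢; omega)
          have h15 := monoL hg (s := s) (e := S.L s (u ++ [.inr p])) (f := S.par p)
            (Z := m1 ++ S.o2l (S.par k)) (le_trans hep (le_par p))
            (by rw [hc1] at hw; simp at hw hwe ⊢; omega)
          simp at h14 h15 ⊢
          rw [h14]
          exact h15
        · intro h13
          apply h12.2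
          unfold Pre.IsR2 at h13 ⊢
          refine le_trans ?_ h13
          have h14 := p3R hg (s := s) (u := S.o2l (S.par k) ++ c') (v := .inr q :: v)
            (by rw [hc1] at hw; simp at hw ⊢; omega)
          have h15 := p3R hg (s := s) (u := S.o2l (S.par k) ++ c') (v := S.opr s (.inr h))
            (by rw [hc1] at hw; simp at hw ⊢; omega)
          rw [S.Rt_opr] at h15
          have h16 := monoR hg (s := s) (f := some h) (Z := S.o2l (S.par k) ++ c') h5
            (by rw [hc1] at hw; simp at hw ⊢; omega)
          simp at h14 h15 h16 ⊢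
          rw [h14, h15]
          exact h16
  obtain ⟨P1, _, h13, h14⟩ := red_top hg (W := m ++ S.opr s (.inr h))
    (by simp at hw ⊢; omega) hno
  have h15 := red_unique hg.conf (s := s) (w := S.o2l (S.par p) ++ (m ++ S.opr s (.inr h)))
    (by simp at hw ⊢; omega) (by simpa using h9) h13 (S.Red_opr s _) h14
  have h16 : Sum.inr e ∈ S.opr s (.inr p) := by
    rw [h15, h10]
    simp
  rcases S.mem_opr h16 with ⟨h17, _⟩ | ⟨_, h17⟩
  · exact absurd h17 hps
  · exact lt_of_le_of_lt (le_sz h11) h17

lemma join_pp (hg : S.Good n) {s : Bool} {u v : List S.A} {p : S.E}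
    (hw : S.wt (u ++ .inr p :: .inr p :: v) ≤ n) :
    S.Join s (u ++ (S.o2l (S.par p) ++ ([] ++ .inr p :: v)))
      (u ++ .inr p :: ([] ++ (S.o2l (S.par p) ++ v))) := by
  have e1 := S.wt_par p
  have e2 := S.sz_pos p
  refine ⟨u ++ .inr p :: v, ?_, ?_⟩
  · have h1 := p5R hg (s := s) (u := [.inr p]) (v := v) (by simp at hw ⊢; omega)
    have h2 := stepsR2 hg (s := s) (u := u) (z := .inr p :: v) (f0 := S.par p) (G := none)
      (le_none _) (by
        simp at h1 ⊢
        exact le_trans h1 (le_par p)) (by simp at hw ⊢; omega)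
    simpa using h2
  · have h1 := p5L hg (s := s) (u := u) (v := [.inr p]) (by simp at hw ⊢; omega)
    have h2 := stepsR1 hg (s := s) (u := u ++ [.inr p]) (z := v) (f0 := S.par p) (G := none)
      (le_none _) (by
        simp at h1 ⊢
        exact le_trans h1 (le_par p)) (by simp at hw ⊢; omega)
    simpa using h2

/-- two redexes at different places -/
lemma join_two (hg : S.Good n) {s : Bool} : ∀ (l : ℕ) (u m v : List S.A) (p q : S.E),
    m.length = l → S.wt (u ++ .inr p :: (m ++ .inr q :: v)) ≤ n →
    (S.IsR1 s u p ∨ S.IsR2 s p (m ++ .inr q :: v)) →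
    (S.IsR1 s (u ++ .inr p :: m) q ∨ S.IsR2 s q v) →
    S.Join s (u ++ (S.o2l (S.par p) ++ (m ++ .inr q :: v)))
      (u ++ .inr p :: (m ++ (S.o2l (S.par q) ++ v))) := by
  intro l
  induction l using Nat.strong_induction_on with
  | _ l ih =>
    intro u m v p q hl hw hp hq
    have e1 := S.wt_par p
    have e2 := S.wt_par q
    by_cases hq2 : S.IsR2 s q v
    · rcases hp with hp | hp
      · exact join_both (Or.inl hp) (Or.inr hq2)
      · exact join_R2R2 hg hw hp hq2
    have hq1 : S.IsR1 s (u ++ .inr p :: m) q := hq.resolve_right hq2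
    by_cases hp1 : S.IsR1 s u p
    · exact join_R1R1 hg hw hp1 hq1
    have hp2 : S.IsR2 s p (m ++ .inr q :: v) := hp.resolve_left hp1
    by_cases hm : S.NoRed s (u ++ [.inr p]) m (.inr q :: v)
    · by_cases h1 : S.le (S.Rt s (S.o2l (S.par p) ++ (m ++ S.o2l (S.par q)))) (some p)
      · apply join_both
        · right
          unfold Pre.IsR2
          refine le_trans ?_ h1
          have := p5R hg (s := s) (u := S.o2l (S.par p) ++ (m ++ S.o2l (S.par q))) (v := v)
            (by simp at hw ⊢; omega)
          simpa using this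
        · left
          have h3 : S.Step s (u ++ .inr p :: (m ++ S.o2l (S.par q)))
              (u ++ (S.o2l (S.par p) ++ (m ++ S.o2l (S.par q)))) :=
            Pre.Step.mk u p _ (Or.inr h1)
          have h4 := L_step1 hg.inv (by simp at hw ⊢; omega) h3
          unfold Pre.IsR1 at hq1 ⊢
          simp at hq1 h4 ⊢
          rw [← h4]
          exact hq1
      by_cases h2 : S.le (S.L s (S.o2l (S.par p) ++ (m ++ S.o2l (S.par q)))) (some q)
      · apply join_both
        · right
          have h3 : S.Step s ((S.o2l (S.par p) ++ m) ++ .inr q :: v)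
              ((S.o2l (S.par p) ++ m) ++ (S.o2l (S.par q) ++ v)) :=
            Pre.Step.mk _ q _ (Or.inl (by unfold Pre.IsR1; simpa using h2))
          have h4 := Rt_step1 hg.inv (by simp at hw ⊢; omega) h3
          unfold Pre.IsR2 at hp2 ⊢
          simp at hp2 h4 ⊢
          rw [← h4]
          exact hp2
        · left
          unfold Pre.IsR1
          refine le_trans ?_ h2
          have := p5L hg (s := s) (u := u) (v := S.o2l (S.par p) ++ (m ++ S.o2l (S.par q)))
            (by simp at hw ⊢; omega)
          simpa using this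
      -- the mirrored data
      have hwr : S.wt (v.reverse ++ .inr q :: (m.reverse ++ .inr p :: u.reverse)) ≤ n := by
        simp at hw ⊢; omega
      have hp2r : S.IsR1 (!s) (v.reverse ++ .inr q :: m.reverse) p := by
        have := (isR1_not S s p (m ++ .inr q :: v)).2 hp2
        simpa using this
      have hq1r : S.IsR2 (!s) q (m.reverse ++ .inr p :: u.reverse) := by
        have := (isR2_not S s q (u ++ .inr p :: m)).2 hq1
        simpa using this
      have hmr : S.NoRed (!s) (v.reverse ++ [.inr q]) m.reverse (.inr p :: u.reverse) := by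
        intro m1 k m2 hk
        have hk' : m = m2.reverse ++ .inr k :: m1.reverse := by
          have := congrArg List.reverse hk
          simpa using this
        obtain ⟨h3, h4⟩ := hm _ k _ hk'
        constructor
        · intro h5
          apply h4
          rw [← isR1_not]
          simpa using h5
        · intro h5
          apply h3
          rw [← isR2_not]
          simpa using h5
      have h1r : ¬ S.le (S.L (!s) (S.o2l (S.par q) ++ (m.reverse ++ S.o2l (S.par p)))) (some p) := by
        intro h3
        apply h1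
        unfold Pre.Rt
        simpa using h3
      have h2r : ¬ S.le (S.Rt (!s) (S.o2l (S.par q) ++ (m.reverse ++ S.o2l (S.par p)))) (some q) := by
        intro h3
        apply h2
        unfold Pre.Rt at h3
        simpa using h3
      by_cases hqs : S.side q = s
      · by_cases hps : S.side p = s
        · rcases typ hg hwr hp2r hmr h1r (by cases s <;> simp [hps]) with ⟨hm0, hpq⟩ | h3
          · -- `m = []`, `p = q`
            subst hpq
            have hm0' : m = [] := by simpa using hm0
            subst hm0'
            exact join_pp hg (by simpa using hw)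
          · exact absurd ((isR1_not S s q v).1 h3) hq2
        · have h3 := claimA hg hw hp2 hq1 hm h1 h2 hqs hps
          have h4 := claimA hg hwr hq1r hp2r hmr h2r h1r (by cases s <;> cases h : S.side p <;> simp_all)
            (by cases s <;> simp [hqs])
          exfalso
          omega
      · rcases typ hg hw hq1 hm h2 hqs with ⟨hm0, hpq⟩ | h3
        · subst hpq
          subst hm0
          exact join_pp hg (by simpa using hw)
        · exact absurd h3 hp1
    · -- a redex inside `m`
      unfold NoRed at hm
      push Not at hm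
      obtain ⟨m1, k, m2, hmk, hk⟩ := hm
      have hk' : S.IsR1 s (u ++ .inr p :: m1) k ∨ S.IsR2 s k (m2 ++ .inr q :: v) := by
        by_cases h3 : S.IsR1 s (u ++ .inr p :: m1) k
        · exact Or.inl h3
        · right
          apply hk
          simpa using h3
      subst hmk
      have e3 := S.wt_par k
      have j1 := ih m1.length (by simp at hl; omega) u m1 (m2 ++ .inr q :: v) p k rfl
        (by simpa using hw) (Or.inr (by simpa using hp2)) hk'
      have j2 := ih m2.length (by simp at hl; omega) (u ++ .inr p :: m1) m2 v k q rfl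
        (by simpa using hw) hk' (Or.inl (by simpa using hq1))
      have j3 := Join.trans hg.conf (s := s) (b := u ++ .inr p :: (m1 ++ (S.o2l (S.par k) ++ (m2 ++ .inr q :: v))))
        (by simp at hw ⊢; omega) j1 (by simpa using j2)
      simpa using j3

lemma join_pos (hg : S.Good n) {s : Bool} {u1 v1 u2 v2 : List S.A} {k1 k2 : S.E}
    (he : u1 ++ .inr k1 :: v1 = u2 ++ .inr k2 :: v2) (hw : S.wt (u1 ++ .inr k1 :: v1) ≤ n)
    (h1 : S.IsR1 s u1 k1 ∨ S.IsR2 s k1 v1) (h2 : S.IsR1 s u2 k2 ∨ S.IsR2 s k2 v2)
    (a : List S.A) (ha : u2 = u1 ++ a) (ha' : Sum.inr k1 :: v1 = a ++ .inr k2 :: v2) :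
    S.Join s (u1 ++ (S.o2l (S.par k1) ++ v1)) (u2 ++ (S.o2l (S.par k2) ++ v2)) := by
  rcases a with _ | ⟨a0, m⟩
  · simp at ha ha'
    obtain ⟨rfl, rfl⟩ := ha'
    subst ha
    exact ⟨_, Relation.ReflTransGen.refl, Relation.ReflTransGen.refl⟩
  · simp at ha'
    obtain ⟨rfl, rfl⟩ := ha'
    subst ha
    have := join_two hg (s := s) m.length u1 m v2 k1 k2 rfl hw h1 h2
    simpa using this

/-- local confluence for words of size `≤ n` -/
lemma conf_succ (hg : S.Good n) : S.Conf (n + 1) := by
  intro s w w1 w2 hw h1 h2
  obtain ⟨u1, k1, v1, h3⟩ := h1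
  generalize hx : u1 ++ Sum.inr k1 :: v1 = x at h2 hw
  obtain ⟨u2, k2, v2, h4⟩ := h2
  have hw' : S.wt (u1 ++ Sum.inr k1 :: v1) ≤ n := by rw [hx]; omega
  rcases List.append_eq_append_iff.1 hx with ⟨a, ha, ha'⟩ | ⟨a, ha, ha'⟩
  · exact join_pos hg hx hw' h3 h4 a ha ha'
  · have := join_pos hg hx.symm (by rw [← hx]; exact hw') h4 h3 a ha ha'
    exact this.symm

lemma inv_succ (hg : S.Good n) : S.Inv (n + 1) := by
  intro s w w' hw h
  have h0 : ¬ S.Red s w := fun hr => hr _ h
  obtain ⟨w2, h1, h2⟩ := S.L_step s w h0
  obtain ⟨z, h3, h4⟩ := conf_succ hg s w w' w2 hw h h1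
  have e1 := Step_wt S h
  have e2 := Step_wt S h1
  rw [h2, L_steps hg.inv (by omega) h4, ← L_steps hg.inv (by omega) h3]

end Sys

end Pool.Agent.LibQF
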