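import Pool.Agent.LibQF.A1

/-!
# The crossing lemma used for `Fix`
-/

namespace Pool.Agent.LibQF

universe u

namespace Sys

variable {X : Type u} {S : Sys X} {n : ℕ}

lemma sz_le_wt {f : S.E} {w : List S.A} (h : Sum.inr f ∈ w) : S.sz f ≤ S.wt w := by
  obtain ⟨a, b, rfl⟩ := List.append_of_mem h
  simp
  omega

lemma par_of_top (hg : S.Good n) {s : Bool} {Y : List S.A} {κ : S.E} {G : Option S.E}
    (hw : S.wt (Y ++ S.o2l (S.par κ)) < n) (hp : S.par κ = S.L s (Y ++ S.o2l G))
    (hle : S.le (some κ) G) (hne : S.wt (S.o2l G) < S.sz κ) :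
    S.L s (Y ++ S.o2l (S.par κ)) = S.par κ := by
  have h1 : S.le (S.par κ) G := by
    rcases le_cases hle with h2 | h2
    · rw [h2] at hne; simp at hne
    · exact h2
  cases hpk : S.par κ with
  | none =>
    rw [hpk] at h1 hp
    rw [none_le h1] at hp
    exact hp.symm
  | some c =>
    rw [hpk] at h1 hp hw
    have := fixdownL hg (s := s) (u := Y) (g := c) (q := G) h1 (by rw [← hp]; exact S.le_refl _)
      (by simpa using hw)
    simpa using this

lemma lemDS (hg : S.Good n) {s : Bool} {b h Q : S.E} {y : List S.A} (hb : S.side b ≠ s)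
    (hw : S.wt (.inr b :: (y ++ [.inr h])) ≤ n)
    (h1 : S.Steps s (S.o2l (S.par b) ++ (y ++ S.opr s (.inr h))) (S.opr s (.inr b)))
    (h2 : S.Rt s (S.o2l (S.par b) ++ (y ++ S.o2l (S.par h))) = S.par b)
    (hy : S.NoRed s [.inr b] y [.inr h])
    (hQ : S.le (S.par h) (some Q)) : S.L s (Sum.inr b :: (y ++ [Sum.inr Q])) ≠ some Q := by
  intro hL
  obtain ⟨Q1, h3, h4, h5⟩ := exists_top
    (fun G => S.L s (.inr b :: (y ++ S.o2l G)) = some Q) (g := some Q) (by simpa using hL)
  have hbp := S.wt_par b
  have hhp := S.wt_par h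
  have hsQ := le_wt hQ
  have hsQ1 := le_wt h3
  have hbpos := S.sz_pos b
  have hhQ1 : S.le (some h) Q1 := le_trans (le_par h) (le_trans hQ h3)
  simp at hw hsQ hsQ1
  have hRw : ¬ S.le (S.Rt s (S.o2l (S.par b) ++ (y ++ S.o2l Q1))) (some b) := by
    intro h6
    have h7 := monoR hg (s := s) (Z := S.o2l (S.par b) ++ y) (le_trans hQ h3) (by simp; omega)
    simp only [List.append_assoc] at h7
    rw [h2] at h7
    exact not_par_le b (le_trans h7 h6)
  have hwo := S.wt_opr s (.inr h)
  simp at hwo
  -- the word `b y Q1` is reduced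
  have hred : S.Red s (.inr b :: (y ++ S.o2l Q1)) := by
    rw [red_iff]
    intro a k c hac
    rcases a with _ | ⟨a0, a⟩
    · simp at hac
      obtain ⟨rfl, rfl⟩ := hac
      constructor
      · intro h6
        unfold Pre.IsR1 at h6
        simp at h6
        exact not_par_le b h6
      · exact hRw
    · simp at hac
      obtain ⟨rfl, hac⟩ := hac
      have hk := S.wt_par k
      have hcase : (∃ d, y = a ++ .inr k :: d ∧ c = d ++ S.o2l Q1) ∨
          (a = y ∧ Q1 = some k ∧ c = []) := by
        rcases List.append_eq_append_iff.1 hac with ⟨d, hd1, hd2⟩ | ⟨d, hd1, hd2⟩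
        · cases Q1 with
          | none => simp at hd2
          | some Q0 =>
            rcases d with _ | ⟨d0, d⟩
            · simp at hd1 hd2
              right
              exact ⟨hd1, by rw [hd2.1], hd2.2⟩
            · simp at hd2
        · rcases d with _ | ⟨d0, d⟩
          · simp at hd1 hd2
            cases Q1 with
            | none => simp at hd2
            | some Q0 =>
              simp at hd2
              right
              exact ⟨hd1.symm, by rw [hd2.1], hd2.2⟩
          · simp at hd2
            obtain ⟨rfl, rfl⟩ := hd2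
            exact Or.inl ⟨d, hd1, rfl⟩
      rcases hcase with ⟨d, hd1, hd2⟩ | ⟨hd1, hd2, hd3⟩
      · have h6 := hy a k d hd1
        refine ⟨by simpa using h6.1, ?_⟩
        intro h7
        apply h6.2
        rw [hd1] at hw
        simp at hw
        have h8 := monoR hg (s := s) (Z := S.o2l (S.par k) ++ d) hhQ1 (by simp; omega)
        unfold Pre.IsR2 at h7 ⊢
        rw [hd2] at h7
        simp at h7 h8 ⊢
        exact le_trans h8 h7
      · subst hd1 hd2
        constructor
        · intro h6
          have h7 : S.Step s ((.inr b :: a) ++ .inr k :: []) ((.inr b :: a) ++ (S.o2l (S.par k) ++ [])) :=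
            Pre.Step.mk _ k [] (Or.inl h6)
          have h8 := L_step1 hg.inv (by simp at hsQ1 ⊢; omega) h7
          have h9 := h5 (S.par k) (le_par k) (by
            show S.L s (.inr b :: (a ++ S.o2l (S.par k))) = some Q
            simp at h8 h4
            rw [← h8]
            exact h4)
          exact par_ne k h9
        · intro h6
          unfold Pre.IsR2 at h6
          rw [hd3] at h6
          simp at h6
          exact not_par_le k h6
  have hns : S.NS s (.inr b :: (y ++ S.o2l Q1)) := hb
  have hend : ∀ (κ : S.E) (y' V : List S.A) (e : S.E), S.side κ = s →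
      S.sz b ≤ S.sz κ → (∀ f, Sum.inr f ∈ y' → S.sz f < S.sz κ) →
      S.L s ((S.o2l (S.par b) ++ y') ++ S.o2l (S.par κ)) = S.par κ →
      S.Red s (.inr e :: V) → S.le (some e) (some κ) →
      S.wt ((S.o2l (S.par b) ++ y') ++ .inr e :: V) < n →
      S.Steps s ((S.o2l (S.par b) ++ y') ++ .inr e :: V) (S.opr s (.inr b)) → False := by
    intro κ y' V e hκ hsz hy' hL' hV he hw' hst
    obtain ⟨f, h7, h8⟩ := keep_letter hg hκ _ (S.o2l (S.par b) ++ y') V e rfl (by
      intro f hf
      simp at hf
      rcases hf with hf | hf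
      · cases hpb : S.par b with
        | none => rw [hpb] at hf; simp at hf
        | some p =>
          rw [hpb] at hf hbp
          simp at hf hbp
          subst hf
          omega
      · exact hy' f hf) hL' hV he hw' _ hst (S.Red_opr s _)
    have h9 := le_sz h8
    rcases S.mem_opr h7 with ⟨h10, _⟩ | ⟨_, h10⟩
    · exact hb h10
    · omega
  by_cases hsp : S.Split s (.inr b :: (y ++ S.o2l Q1))
  · obtain ⟨u, v, g, G, e1, e2, e3, e4, e5, e6, e7, e8⟩ := first_split hg (by simp; omega) hred hsp
    rcases u with _ | ⟨b', y'⟩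
    · exact e2 rfl
    simp at e1
    obtain ⟨rfl, e1⟩ := e1
    have hwv := S.wt_Rt s v
    rw [e4] at hwv
    simp at hwv
    have hwe := congrArg S.wt e1
    simp at hwe
    have hwG := le_wt e5
    have hwg := S.wt_par g
    -- shape of `v`
    have hsh : ∃ vr, y = y' ++ vr ∧ v = vr ++ S.o2l Q1 := by
      rcases List.append_eq_append_iff.1 e1 with ⟨d, hd1, hd2⟩ | ⟨d, hd1, hd2⟩
      · cases Q1 with
        | none => simp at hd2; exact absurd hd2.2 e3
        | some Q0 =>
          rcases d with _ | ⟨d0, d⟩
          · simp at hd1 hd2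
            exact ⟨[], by simp [hd1], by simp [← hd2]⟩
          · simp at hd2
            exact absurd hd2.2.2 e3
      · exact ⟨d, hd1, hd2⟩
    obtain ⟨vr, hvr1, hvr2⟩ := hsh
    -- the top of `u G`
    have hμ : ∃ μ : S.E, S.side μ = s ∧ S.om μ = .inr b :: (y' ++ S.o2l G) ∧
        S.par μ = S.L s (S.o2l (S.par b) ++ (y' ++ S.o2l G)) ∧
        S.L s (.inr b :: (y' ++ S.o2l G)) = some μ := by
      apply S.L_top s (.inr b) (y' ++ S.o2l G) e7 hb e8
      intro e he
      simp at he
      obtain ⟨rfl, he1, he2⟩ := he
      have hG : G = none := by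
        cases G with
        | none => rfl
        | some G0 => simp at he2
      subst he1 hG
      simp at e6 hvr1
      apply hRw
      rw [hvr1, ← hvr2]
      have h6 := absorbR hg (s := s) (v := v) (f := S.par b)
        (by rw [e4]; exact le_trans e6 (le_par b)) (by simp; omega)
      rw [h6, e4]
      exact e6
    obtain ⟨μ, m1, m2, m3, m4⟩ := hμ
    have hsμ := S.sz_om μ
    rw [m2] at hsμ
    simp at hsμ
    have hgμ : S.le (some g) (some μ) := by
      simp only [List.cons_append] at e6
      rw [m4] at e6
      exact e6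
    -- the reduced form of `vr ω(h)`
    obtain ⟨V, hV1, hV2⟩ := S.exists_red s (vr ++ S.opr s (.inr h))
    have hwy := congrArg S.wt hvr1
    simp at hwy
    have hwV := Steps_wt S hV1
    simp [hwo] at hwV
    have hRV : S.le (S.Rt s V) (some μ) := by
      rw [← Rt_steps hg.inv (by simp [hwo]; omega) hV1, p3R hg (by simp [hwo]; omega), S.Rt_opr]
      have h6 := monoR hg (s := s) (Z := vr) hhQ1 (by simp; omega)
      rw [← hvr2, e4] at h6
      exact le_trans h6 hgμ
    rcases V with _ | ⟨z, V⟩
    · simp [Pre.Rt, S.L_nil] at hRV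
      exact absurd (none_le hRV) (by simp)
    obtain ⟨e, rfl, h7⟩ := firstT hg hV2 (by omega) m1 hRV
    have hse := le_sz h7
    simp at hwV
    have hgG : S.le (some μ) G := by
      have h8 := p5L hg (s := s) (u := .inr b :: y') (v := S.o2l G) (by simp; omega)
      simp only [List.cons_append] at h8
      rw [m4] at h8
      simpa using h8
    have hκp := S.wt_par μ
    apply hend μ y' V e m1 (by omega) (by
      intro f hf
      have := sz_le_wt hf
      omega) ?_ hV2 h7 (by simp; omega) ?_
    · apply par_of_top hg (G := G) (by simp; omega) (by simpa using m3) hgG (by omega)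
    · have h8 := steps_append_left hg (S.o2l (S.par b) ++ y') hV1 (by simp [hwo]; omega)
      apply steps_of_red hg.conf (w := S.o2l (S.par b) ++ (y ++ S.opr s (.inr h)))
        (by simp [hwo]; omega) ?_ h1 (S.Red_opr s _)
      rw [hvr1]
      simpa using h8
  · -- no split
    have hκ : ∃ κ : S.E, S.side κ = s ∧ S.om κ = .inr b :: (y ++ S.o2l Q1) ∧
        S.par κ = S.L s (S.o2l (S.par b) ++ (y ++ S.o2l Q1)) ∧
        S.L s (.inr b :: (y ++ S.o2l Q1)) = some κ := by
      apply S.L_top s (.inr b) (y ++ S.o2l Q1) hred hns hsp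
      intro e he
      simp at he
      obtain ⟨rfl, he1, he2⟩ := he
      have hQn : Q1 = none := by
        cases Q1 with
        | none => rfl
        | some G0 => simp at he2
      subst he1 hQn
      simp at h4
      subst h4
      have h6 := Rt_steps hg.inv (s := s) (by simp [hwo]; omega) h1
      rw [S.Rt_opr] at h6
      have h7 := absorbR hg (s := s) (v := S.opr s (.inr h)) (f := S.par b)
        (by rw [S.Rt_opr]; exact le_trans (le_par h) (le_trans hQ (le_par b)))
        (by simp [hwo]; omega)
      simp at h6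
      rw [h7, S.Rt_opr] at h6
      simp at h6
      subst h6
      exact not_par_le h hQ
    obtain ⟨κ, k1, k2, k3, k4⟩ := hκ
    have hκQ : κ = Q := by
      have h6 : S.L s (.inr b :: (y ++ S.o2l Q1)) = some Q := h4
      rw [k4] at h6
      simpa using h6
    subst hκQ
    have hsκ := S.sz_om κ
    rw [k2] at hsκ
    simp at hsκ
    obtain ⟨e, V, h6, h7⟩ := first_opr hg (s := s) (h := h) k1
      (le_trans (le_par h) hQ) (by omega)
    have hRo := S.Red_opr s (.inr h)
    rw [h6] at hwo hRo h1
    simp at hwo
    have hκp := S.wt_par κ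
    apply hend κ y V e k1 (by omega) (by
      intro f hf
      have := sz_le_wt hf
      omega) ?_ hRo h7 (by simp; omega) (by simpa using h1)
    apply par_of_top hg (G := Q1) (by simp; omega) (by simpa using k3) h3 (by omega)

end Sys

end Pool.Agent.LibQF
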