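import Mathlib

/-!
# The class Q: M-avoiding amiable semigroups
-/

namespace Pool.Agent.LibQF

universe u v

/-! ## literal definitions -/

section defs

variable (S : Type u) [Semigroup S]

/-- the relation `L*`: `x u = x v` iff `y u = y v`, for all `u`, `v` in `S` with an identity
adjoined (the case where `v` is the adjoined identity is written separately) -/
def LStar (x y : S) : Prop :=
  (∀ u v : S, x * u = x * v ↔ y * u = y * v) ∧ (∀ u : S, x * u = x ↔ y * u = y)

/-- the relation `R*` -/
def RStar (x y : S) : Prop :=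
  (∀ u v : S, u * x = v * x ↔ u * y = v * y) ∧ (∀ u : S, u * x = x ↔ u * y = y)

/-- amiable: every `L*`-class and every `R*`-class contains exactly one idempotent -/
def Amiable : Prop :=
  (∀ x : S, ∃! e : S, e * e = e ∧ LStar S x e) ∧ (∀ x : S, ∃! e : S, e * e = e ∧ RStar S x e)

end defs

/-- the four elements of `M = ⟨a, b | a² = a, b² = b, aba = bab = ab⟩` -/
inductive M4 : Type
  | a | b | ab | ba
  deriving DecidableEq

/-- multiplication table of `M` -/
def M4.mul : M4 → M4 → M4
  | .a, .a => .a
  | .a, .b => .ab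
  | .a, .ab => .ab
  | .a, .ba => .ab
  | .b, .a => .ba
  | .b, .b => .b
  | .b, .ab => .ab
  | .b, .ba => .ba
  | .ab, _ => .ab
  | .ba, .a => .ba
  | .ba, .b => .ab
  | .ba, .ab => .ab
  | .ba, .ba => .ab

/-- `S` avoids `M`: no subsemigroup of `S` is isomorphic to `M` -/
def AvoidsM (S : Type u) [Semigroup S] : Prop :=
  ¬ ∃ f : M4 → S, Function.Injective f ∧ ∀ x y, f (x.mul y) = f x * f y

/-- `(S, ·, l, r)` belongs to the class `Q`: `S` is amiable and avoids `M`, `l x` is the idempotent
of the `L*`-class of `x` and `r x` the idempotent of its `R*`-class -/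
structure InQ (S : Type u) [Semigroup S] (l r : S → S) : Prop where
  amiable : Amiable S
  avoids : AvoidsM S
  l_spec : ∀ x, l x * l x = l x ∧ LStar S x (l x)
  r_spec : ∀ x, r x * r x = r x ∧ RStar S x (r x)

/-- the quasi-identities of `Q` -/
structure QuasiQ (S : Type u) [Semigroup S] (l r : S → S) : Prop where
  l_idem : ∀ x, l x * l x = l x
  r_idem : ∀ x, r x * r x = r x
  mul_l : ∀ x, x * l x = x
  r_mul : ∀ x, r x * x = x
  lc : ∀ x y z, x * y = x * z → l x * y = l x * z
  rc : ∀ x y z, y * x = z * x → y * r x = z * r x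
  uniq1 : ∀ x y : S, x * x = x → y * y = y → x * y = x → y * x = y → x = y
  uniq2 : ∀ x y : S, x * x = x → y * y = y → x * y = y → y * x = x → x = y
  av1 : ∀ x y : S, x * x = x → y * y = y → x * y * x = x * y → x * y = y * x
  av2 : ∀ x y : S, x * x = x → y * y = y → x * y * x = y * x → x * y = y * x

section equiv

variable {S : Type u} [Semigroup S]

theorem M4.mul_assoc (x y z : M4) : (x.mul y).mul z = x.mul (y.mul z) := by
  cases x <;> cases y <;> cases z <;> rfl

theorem lStar_refl (x : S) : LStar S x x := ⟨fun _ _ => Iff.rfl, fun _ => Iff.rfl⟩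

theorem rStar_refl (x : S) : RStar S x x := ⟨fun _ _ => Iff.rfl, fun _ => Iff.rfl⟩

theorem lStar_symm {x y : S} (h : LStar S x y) : LStar S y x :=
  ⟨fun u v => (h.1 u v).symm, fun u => (h.2 u).symm⟩

theorem rStar_symm {x y : S} (h : RStar S x y) : RStar S y x :=
  ⟨fun u v => (h.1 u v).symm, fun u => (h.2 u).symm⟩

theorem lStar_trans {x y z : S} (h : LStar S x y) (h' : LStar S y z) : LStar S x z :=
  ⟨fun u v => (h.1 u v).trans (h'.1 u v), fun u => (h.2 u).trans (h'.2 u)⟩

theorem rStar_trans {x y z : S} (h : RStar S x y) (h' : RStar S y z) : RStar S x z :=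
  ⟨fun u v => (h.1 u v).trans (h'.1 u v), fun u => (h.2 u).trans (h'.2 u)⟩

theorem lStar_of_idem {x y : S} (h1 : x * y = x) (h2 : y * x = y) : LStar S x y := by
  constructor
  · intro u v
    constructor
    · intro h
      rw [← h2, mul_assoc, mul_assoc, h]
    · intro h
      rw [← h1, mul_assoc, mul_assoc, h]
  · intro u
    constructor
    · intro h
      have : y * (x * u) = y * x := by rw [h]
      rwa [← mul_assoc, h2] at this
    · intro h
      have : x * (y * u) = x * y := by rw [h]
      rwa [← mul_assoc, h1] at this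

theorem rStar_of_idem {x y : S} (h1 : x * y = y) (h2 : y * x = x) : RStar S x y := by
  constructor
  · intro u v
    constructor
    · intro h
      rw [← h1, ← mul_assoc, ← mul_assoc, h]
    · intro h
      rw [← h2, ← mul_assoc, ← mul_assoc, h]
  · intro u
    constructor
    · intro h
      have : (u * x) * y = x * y := by rw [h]
      rwa [mul_assoc, h1] at this
    · intro h
      have : (u * y) * x = y * x := by rw [h]
      rwa [mul_assoc, h2] at this

/-- map from `M` given by two elements -/
def M4.lift (a b : S) : M4 → S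
  | .a => a
  | .b => b
  | .ab => a * b
  | .ba => b * a

theorem avoids_rel (hM : AvoidsM S) {a b : S} (ha : a * a = a) (hb : b * b = b)
    (h1 : a * b * a = a * b) (h2 : b * a * b = a * b) : a * b = b * a := by
  by_contra hne
  apply hM
  refine ⟨M4.lift a b, ?_, ?_⟩
  · have e1 : a ≠ b := by
      rintro rfl
      exact hne rfl
    have e2 : a ≠ a * b := by
      intro h
      apply hne
      calc a * b = b * a * b := h2.symm
        _ = b * (a * b) := mul_assoc _ _ _
        _ = b * a := by rw [← h]
    have e3 : b ≠ a * b := by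
      intro h
      apply hne
      calc a * b = a * b * a := h1.symm
        _ = b * a := by rw [← h]
    have e4 : a ≠ b * a := by
      intro h
      apply e2
      calc a = a * a := ha.symm
        _ = a * (b * a) := by rw [← h]
        _ = a * b * a := (mul_assoc _ _ _).symm
        _ = a * b := h1
    have e5 : b ≠ b * a := by
      intro h
      apply e3
      calc b = b * b := hb.symm
        _ = b * a * b := by rw [← h]
        _ = a * b := h2
    intro x y hxy
    cases x <;> cases y <;>
      first
      | rfl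
      | exact absurd hxy e1
      | exact absurd hxy e2
      | exact absurd hxy e3
      | exact absurd hxy e4
      | exact absurd hxy e5
      | exact absurd hxy hne
      | exact absurd hxy.symm e1
      | exact absurd hxy.symm e2
      | exact absurd hxy.symm e3
      | exact absurd hxy.symm e4
      | exact absurd hxy.symm e5
      | exact absurd hxy.symm hne
  · have ha' : ∀ z, a * (a * z) = a * z := fun z => by rw [← mul_assoc, ha]
    have hb' : ∀ z, b * (b * z) = b * z := fun z => by rw [← mul_assoc, hb]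
    have h1' : a * (b * a) = a * b := by rw [← mul_assoc, h1]
    have h2' : b * (a * b) = a * b := by rw [← mul_assoc, h2]
    intro x y
    cases x <;> cases y <;>
      simp only [M4.mul, M4.lift, mul_assoc, ha, hb, ha', hb', h1', h2']

theorem InQ.quasi {l r : S → S} (h : InQ S l r) : QuasiQ S l r := by
  have u1 : ∀ x y : S, x * x = x → y * y = y → x * y = x → y * x = y → x = y := by
    intro x y hx hy h1 h2
    exact (h.amiable.1 x).unique ⟨hx, lStar_refl x⟩ ⟨hy, lStar_of_idem h1 h2⟩
  have u2 : ∀ x y : S, x * x = x → y * y = y → x * y = y → y * x = x → x = y := by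
    intro x y hx hy h1 h2
    exact (h.amiable.2 x).unique ⟨hx, rStar_refl x⟩ ⟨hy, rStar_of_idem h1 h2⟩
  refine ⟨fun x => (h.l_spec x).1, fun x => (h.r_spec x).1, ?_, ?_, ?_, ?_, u1, u2, ?_, ?_⟩
  · intro x
    exact ((h.l_spec x).2.2 (l x)).2 (h.l_spec x).1
  · intro x
    exact ((h.r_spec x).2.2 (r x)).2 (h.r_spec x).1
  · intro x y z hyz
    exact ((h.l_spec x).2.1 y z).1 hyz
  · intro x y z hyz
    exact ((h.r_spec x).2.1 y z).1 hyz
  · intro e f he hf h1
    -- `g = e f`, `k = f e f`
    have hg : (e * f) * (e * f) = e * f := by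
      rw [← mul_assoc, h1, mul_assoc, hf]
    have hk : (f * (e * f)) * (f * (e * f)) = f * (e * f) := by
      calc (f * (e * f)) * (f * (e * f)) = f * (e * (f * f) * (e * f)) := by simp only [mul_assoc]
        _ = f * ((e * f) * (e * f)) := by rw [hf]
        _ = f * (e * f) := by rw [hg]
    have h3 : (e * f) * (f * (e * f)) = e * f := by
      calc (e * f) * (f * (e * f)) = (e * (f * f)) * (e * f) := by simp only [mul_assoc]
        _ = e * f := by rw [hf, hg]
    have h4 : (f * (e * f)) * (e * f) = f * (e * f) := by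
      rw [mul_assoc, hg]
    have h5 := u1 _ _ hg hk h3 h4
    have h6 : f * e * f = e * f := by
      rw [mul_assoc]
      exact h5.symm
    exact avoids_rel h.avoids he hf h1 h6
  · intro e f he hf h1
    have hg : (f * e) * (f * e) = f * e := by
      calc (f * e) * (f * e) = f * (e * f * e) := by simp only [mul_assoc]
        _ = (f * f) * e := by rw [h1, mul_assoc]
        _ = f * e := by rw [hf]
    have hk : (f * e * f) * (f * e * f) = f * e * f := by
      calc (f * e * f) * (f * e * f) = (f * e) * ((f * f) * e) * f := by simp only [mul_assoc]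
        _ = ((f * e) * (f * e)) * f := by rw [hf]
        _ = f * e * f := by rw [hg]
    have h3 : (f * e) * (f * e * f) = f * e * f := by
      rw [← mul_assoc, hg]
    have h4 : (f * e * f) * (f * e) = f * e := by
      calc (f * e * f) * (f * e) = (f * e) * ((f * f) * e) := by simp only [mul_assoc]
        _ = f * e := by rw [hf, hg]
    have h5 := u2 _ _ hg hk h3 h4
    exact (avoids_rel h.avoids hf he h5.symm h1).symm

theorem QuasiQ.lStar {l r : S → S} (h : QuasiQ S l r) (x : S) : LStar S x (l x) := by
  constructor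
  · intro u v
    constructor
    · exact h.lc x u v
    · intro h1
      have : x * (l x * u) = x * (l x * v) := by rw [h1]
      rwa [← mul_assoc, ← mul_assoc, h.mul_l] at this
  · intro u
    constructor
    · intro h1
      have := h.lc x u (l x) (by rw [h1, h.mul_l])
      rw [this, h.l_idem]
    · intro h1
      have : x * (l x * u) = x * l x := by rw [h1]
      rwa [← mul_assoc, h.mul_l] at this

theorem QuasiQ.rStar {l r : S → S} (h : QuasiQ S l r) (x : S) : RStar S x (r x) := by
  constructor
  · intro u v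
    constructor
    · exact h.rc x u v
    · intro h1
      have : (u * r x) * x = (v * r x) * x := by rw [h1]
      rwa [mul_assoc, mul_assoc, h.r_mul] at this
  · intro u
    constructor
    · intro h1
      have := h.rc x u (r x) (by rw [h1, h.r_mul])
      rw [this, h.r_idem]
    · intro h1
      have : (u * r x) * x = r x * x := by rw [h1]
      rwa [mul_assoc, h.r_mul] at this

theorem QuasiQ.inQ {l r : S → S} (h : QuasiQ S l r) : InQ S l r := by
  refine ⟨⟨?_, ?_⟩, ?_, fun x => ⟨h.l_idem x, h.lStar x⟩, fun x => ⟨h.r_idem x, h.rStar x⟩⟩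
  · intro x
    refine ⟨l x, ⟨h.l_idem x, h.lStar x⟩, ?_⟩
    rintro e ⟨he, hs⟩
    have hs' : LStar S e (l x) := lStar_trans (lStar_symm hs) (h.lStar x)
    apply h.uniq1 e (l x) he (h.l_idem x)
    · exact (hs'.2 (l x)).2 (h.l_idem x)
    · exact (hs'.2 e).1 he
  · intro x
    refine ⟨r x, ⟨h.r_idem x, h.rStar x⟩, ?_⟩
    rintro e ⟨he, hs⟩
    have hs' : RStar S e (r x) := rStar_trans (rStar_symm hs) (h.rStar x)
    apply h.uniq2 e (r x) he (h.r_idem x)
    · exact (hs'.2 e).1 he
    · exact (hs'.2 (r x)).2 (h.r_idem x)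
  · rintro ⟨f, hf, hm⟩
    have haa : f .a * f .a = f .a := (hm .a .a).symm
    have hbb : f .b * f .b = f .b := (hm .b .b).symm
    have hab : f .a * f .b = f .ab := (hm .a .b).symm
    have hba : f .b * f .a = f .ba := (hm .b .a).symm
    have haba : f .ab * f .a = f .ab := (hm .ab .a).symm
    have h1 := h.av1 (f .a) (f .b) haa hbb (by rw [hab, haba])
    rw [hab, hba] at h1
    have := hf h1
    cases this

end equiv

/-! ## monoids of class Q, without reference to sides -/

/-- a monoid with two maps `l`, `r` satisfying the quasi-identities of `Q` -/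
structure QM (M : Type v) where
  mul : M → M → M
  one : M
  l : M → M
  r : M → M
  assoc : ∀ x y z, mul (mul x y) z = mul x (mul y z)
  one_mul : ∀ x, mul one x = x
  mul_one : ∀ x, mul x one = x
  l_idem : ∀ x, mul (l x) (l x) = l x
  r_idem : ∀ x, mul (r x) (r x) = r x
  mul_l : ∀ x, mul x (l x) = x
  r_mul : ∀ x, mul (r x) x = x
  lc : ∀ x y z, mul x y = mul x z → mul (l x) y = mul (l x) z
  rc : ∀ x y z, mul y x = mul z x → mul y (r x) = mul z (r x)
  uniq1 : ∀ x y, mul x x = x → mul y y = y → mul x y = x → mul y x = y → x = y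
  uniq2 : ∀ x y, mul x x = x → mul y y = y → mul x y = y → mul y x = x → x = y
  av1 : ∀ x y, mul x x = x → mul y y = y → mul (mul x y) x = mul x y → mul x y = mul y x
  av2 : ∀ x y, mul x x = x → mul y y = y → mul (mul x y) x = mul y x → mul x y = mul y x

namespace QM

variable {M : Type v}

/-- the opposite -/
def op (Q : QM M) : QM M where
  mul x y := Q.mul y x
  one := Q.one
  l := Q.r
  r := Q.l
  assoc x y z := (Q.assoc z y x).symm
  one_mul := Q.mul_one
  mul_one := Q.one_mul
  l_idem := Q.r_idem
  r_idem := Q.l_idem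
  mul_l := Q.r_mul
  r_mul := Q.mul_l
  lc x y z h := Q.rc x y z h
  rc x y z h := Q.lc x y z h
  uniq1 x y hx hy h1 h2 := Q.uniq2 x y hx hy h2 h1
  uniq2 x y hx hy h1 h2 := Q.uniq1 x y hx hy h2 h1
  av1 x y hx hy h := (Q.av2 x y hx hy ((Q.assoc x y x).trans h)).symm
  av2 x y hx hy h := (Q.av1 x y hx hy ((Q.assoc x y x).trans h)).symm

/-- the structure seen from side `s` (`true`: unchanged) -/
def sd (Q : QM M) : Bool → QM M
  | true => Q
  | false => Q.op

theorem sd_not_mul (Q : QM M) (s : Bool) (x y : M) : (Q.sd (!s)).mul x y = (Q.sd s).mul y x := by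
  cases s <;> rfl

theorem sd_not_l (Q : QM M) (s : Bool) (x : M) : (Q.sd (!s)).l x = (Q.sd s).r x := by
  cases s <;> rfl

theorem sd_one (Q : QM M) (s : Bool) : (Q.sd s).one = Q.one := by
  cases s <;> rfl

variable (Q : QM M)

/-- order on idempotents (and arbitrary elements): `e f = e = f e` -/
def Le (e f : M) : Prop := Q.mul e f = e ∧ Q.mul f e = e

theorem sd_le (s : Bool) (e f : M) : (Q.sd s).Le e f ↔ Q.Le e f := by
  cases s
  · exact and_comm
  · exact Iff.rfl

theorem l_one : Q.l Q.one = Q.one := by
  have := Q.mul_l Q.one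
  rwa [Q.one_mul] at this

theorem r_one : Q.r Q.one = Q.one := Q.op.l_one

/-- idempotent -/
def Id (e : M) : Prop := Q.mul e e = e

theorem id_l (x : M) : Q.Id (Q.l x) := Q.l_idem x

theorem id_r (x : M) : Q.Id (Q.r x) := Q.r_idem x

theorem id_one : Q.Id Q.one := Q.one_mul _

theorem le_refl {e : M} (h : Q.Id e) : Q.Le e e := ⟨h, h⟩

theorem le_one (e : M) : Q.Le e Q.one := ⟨Q.mul_one e, Q.one_mul e⟩

theorem le_trans {a b c : M} (h1 : Q.Le a b) (h2 : Q.Le b c) : Q.Le a c := by
  constructor
  · rw [← h1.1, Q.assoc, h2.1]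
  · rw [← h1.2, ← Q.assoc, h2.2]

theorem le_antisymm {a b : M} (h1 : Q.Le a b) (h2 : Q.Le b a) : a = b := by
  rw [← h1.1, h2.2]

/-- `e f = e` suffices for `e ≤ f` -/
theorem le_of_mul {e f : M} (he : Q.Id e) (hf : Q.Id f) (h : Q.mul e f = e) : Q.Le e f := by
  have h1 := Q.av1 e f he hf (by rw [h, he])
  exact ⟨h, by rw [← h1, h]⟩

theorem le_of_mul' {e f : M} (he : Q.Id e) (hf : Q.Id f) (h : Q.mul f e = e) : Q.Le e f := by
  have h1 := Q.av2 e f he hf (by rw [Q.assoc, h, he])
  exact ⟨by rw [h1, h], h⟩

/-- idempotents are projections -/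
theorem l_of_id {e : M} (he : Q.Id e) : Q.l e = e := by
  have h1 : Q.mul e e = Q.mul e (Q.l e) := by rw [Q.mul_l, he]
  have h2 := Q.lc e e (Q.l e) h1
  rw [Q.l_idem] at h2
  exact (Q.uniq1 e (Q.l e) he (Q.l_idem e) (Q.mul_l e) h2).symm

theorem r_of_id {e : M} (he : Q.Id e) : Q.r e = e := Q.op.l_of_id he

/-- `L(x y) = L(L(x) y)` -/
theorem l_mul (x y : M) : Q.l (Q.mul x y) = Q.l (Q.mul (Q.l x) y) := by
  apply Q.uniq1 _ _ (Q.l_idem _) (Q.l_idem _)
  · apply (Q.lc (Q.mul x y) _ (Q.l (Q.mul x y)) _).trans (Q.l_idem _)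
    rw [Q.mul_l]
    have h := Q.mul_l (Q.mul (Q.l x) y)
    have h2 : Q.mul x (Q.mul (Q.mul (Q.l x) y) (Q.l (Q.mul (Q.l x) y))) =
        Q.mul x (Q.mul (Q.l x) y) := by rw [h]
    rwa [← Q.assoc, ← Q.assoc, Q.mul_l] at h2
  · apply (Q.lc (Q.mul (Q.l x) y) _ (Q.l (Q.mul (Q.l x) y)) _).trans (Q.l_idem _)
    rw [Q.mul_l]
    have h := Q.mul_l (Q.mul x y)
    rw [Q.assoc] at h
    have h2 := Q.lc x _ _ h
    rw [← Q.assoc] at h2
    exact h2

theorem r_mul' (x y : M) : Q.r (Q.mul x y) = Q.r (Q.mul x (Q.r y)) := Q.op.l_mul y x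

/-- `L(x y) ≤ L(y)` -/
theorem l_mul_le (x y : M) : Q.Le (Q.l (Q.mul x y)) (Q.l y) := by
  apply Q.le_of_mul (Q.id_l _) (Q.id_l _)
  have h1 : Q.mul (Q.mul x y) (Q.l y) = Q.mul (Q.mul x y) (Q.l (Q.mul x y)) := by
    rw [Q.mul_l, Q.assoc, Q.mul_l]
  rw [Q.lc _ _ _ h1, Q.l_idem]

theorem r_mul_le (x y : M) : Q.Le (Q.r (Q.mul x y)) (Q.r x) := by
  have := Q.op.l_mul_le y x
  exact ⟨this.2, this.1⟩

/-- monotonicity -/
theorem l_mono {e f : M} (h : Q.Le e f) (Z : M) : Q.Le (Q.l (Q.mul e Z)) (Q.l (Q.mul f Z)) := by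
  have h1 : Q.mul e Z = Q.mul e (Q.mul f Z) := by rw [← Q.assoc, h.1]
  rw [h1]
  exact Q.l_mul_le _ _

/-- `L(x) ≤ e` means `x e = x` -/
theorem mul_of_l_le {x e : M} (h : Q.Le (Q.l x) e) : Q.mul x e = x := by
  have : Q.mul (Q.mul x (Q.l x)) e = Q.mul x (Q.l x) := by rw [Q.assoc, h.1]
  rwa [Q.mul_l] at this

theorem l_le_of_mul {x e : M} (he : Q.Id e) (h : Q.mul x e = x) : Q.Le (Q.l x) e := by
  apply Q.le_of_mul (Q.id_l _) he
  have h1 : Q.mul x e = Q.mul x (Q.l x) := by rw [h, Q.mul_l]
  rw [Q.lc _ _ _ h1, Q.l_idem]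

/-- first raise: `L(u p) ≤ k ≤ p` implies `u k = u p` -/
theorem raise1 {U K P : M} (h1 : Q.Le K P) (h2 : Q.Le (Q.l (Q.mul U P)) K) :
    Q.mul U K = Q.mul U P := by
  have h3 := Q.mul_of_l_le h2
  rw [Q.assoc, h1.2] at h3
  exact h3

/-- second raise -/
theorem raise2 {V K P : M} (h1 : Q.Le K P) (h2 : Q.Le (Q.r (Q.mul P V)) K) :
    Q.mul K V = Q.mul P V := by
  have h1' : Q.op.Le K P := ⟨h1.2, h1.1⟩
  have h2' : Q.op.Le (Q.op.l (Q.op.mul V P)) K := ⟨h2.2, h2.1⟩
  exact Q.op.raise1 h1' h2'

/-- the split test is correct -/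
theorem split_val {U V P : M} (h1 : Q.Le (Q.r V) P) (h2 : Q.Le (Q.r V) (Q.l (Q.mul U P))) :
    Q.l (Q.mul U V) = Q.l V := by
  have e1 : Q.mul P V = V := by
    have : Q.mul P (Q.mul (Q.r V) V) = Q.mul (Q.r V) V := by rw [← Q.assoc, h1.2]
    rwa [Q.r_mul] at this
  have e2 : Q.mul (Q.l (Q.mul U P)) V = V := by
    have : Q.mul (Q.l (Q.mul U P)) (Q.mul (Q.r V) V) = Q.mul (Q.r V) V := by
      rw [← Q.assoc, h2.2]
    rwa [Q.r_mul] at this
  calc Q.l (Q.mul U V) = Q.l (Q.mul (Q.mul U P) V) := by rw [Q.assoc, e1]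
    _ = Q.l (Q.mul (Q.l (Q.mul U P)) V) := Q.l_mul _ _
    _ = Q.l V := by rw [e2]

end QM

/-! ## adjoining an identity -/

/-- an algebra of class `Q` with an identity adjoined -/
noncomputable def QuasiQ.toQM {S : Type u} [Semigroup S] {l r : S → S} (h : QuasiQ S l r) :
    QM (WithOne S) where
  mul x y := x * y
  one := 1
  l := WithOne.recOneCoe 1 (fun x => ((l x : S) : WithOne S))
  r := WithOne.recOneCoe 1 (fun x => ((r x : S) : WithOne S))
  assoc := mul_assoc
  one_mul := one_mul
  mul_one := mul_one
  l_idem x := by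
    induction x using WithOne.recOneCoe with
    | one => simp
    | coe x => simp [← WithOne.coe_mul, h.l_idem]
  r_idem x := by
    induction x using WithOne.recOneCoe with
    | one => simp
    | coe x => simp [← WithOne.coe_mul, h.r_idem]
  mul_l x := by
    induction x using WithOne.recOneCoe with
    | one => simp
    | coe x => simp [← WithOne.coe_mul, h.mul_l]
  r_mul x := by
    induction x using WithOne.recOneCoe with
    | one => simp
    | coe x => simp [← WithOne.coe_mul, h.r_mul]
  lc x y z hxyz := by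
    induction x using WithOne.recOneCoe with
    | one => simpa using hxyz
    | coe x =>
      induction y using WithOne.recOneCoe with
      | one =>
        induction z using WithOne.recOneCoe with
        | one => rfl
        | coe z =>
          simp only [mul_one, ← WithOne.coe_mul, WithOne.coe_inj, WithOne.recOneCoe_coe] at hxyz ⊢
          exact ((h.lStar x).2 z).1 hxyz.symm |>.symm
      | coe y =>
        induction z using WithOne.recOneCoe with
        | one =>
          simp only [mul_one, ← WithOne.coe_mul, WithOne.coe_inj, WithOne.recOneCoe_coe] at hxyz ⊢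
          exact ((h.lStar x).2 y).1 hxyz
        | coe z =>
          simp only [← WithOne.coe_mul, WithOne.coe_inj, WithOne.recOneCoe_coe] at hxyz ⊢
          exact h.lc x y z hxyz
  rc x y z hxyz := by
    induction x using WithOne.recOneCoe with
    | one => simpa using hxyz
    | coe x =>
      induction y using WithOne.recOneCoe with
      | one =>
        induction z using WithOne.recOneCoe with
        | one => rfl
        | coe z =>
          simp only [one_mul, ← WithOne.coe_mul, WithOne.coe_inj, WithOne.recOneCoe_coe] at hxyz ⊢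
          exact ((h.rStar x).2 z).1 hxyz.symm |>.symm
      | coe y =>
        induction z using WithOne.recOneCoe with
        | one =>
          simp only [one_mul, ← WithOne.coe_mul, WithOne.coe_inj, WithOne.recOneCoe_coe] at hxyz ⊢
          exact ((h.rStar x).2 y).1 hxyz
        | coe z =>
          simp only [← WithOne.coe_mul, WithOne.coe_inj, WithOne.recOneCoe_coe] at hxyz ⊢
          exact h.rc x y z hxyz
  uniq1 x y hx hy h1 h2 := by
    induction x using WithOne.recOneCoe with
    | one => simpa using h1.symm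
    | coe x =>
      induction y using WithOne.recOneCoe with
      | one => simp at h2
      | coe y =>
        simp only [← WithOne.coe_mul, WithOne.coe_inj] at hx hy h1 h2 ⊢
        exact h.uniq1 x y hx hy h1 h2
  uniq2 x y hx hy h1 h2 := by
    induction x using WithOne.recOneCoe with
    | one => simpa using h2.symm
    | coe x =>
      induction y using WithOne.recOneCoe with
      | one => simp at h1
      | coe y =>
        simp only [← WithOne.coe_mul, WithOne.coe_inj] at hx hy h1 h2 ⊢
        exact h.uniq2 x y hx hy h1 h2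
  av1 x y hx hy h1 := by
    induction x using WithOne.recOneCoe with
    | one => simp
    | coe x =>
      induction y using WithOne.recOneCoe with
      | one => simp
      | coe y =>
        simp only [← WithOne.coe_mul, WithOne.coe_inj] at hx hy h1 ⊢
        exact h.av1 x y hx hy h1
  av2 x y hx hy h1 := by
    induction x using WithOne.recOneCoe with
    | one => simp
    | coe x =>
      induction y using WithOne.recOneCoe with
      | one => simp
      | coe y =>
        simp only [← WithOne.coe_mul, WithOne.coe_inj] at hx hy h1 ⊢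
        exact h.av2 x y hx hy h1

end Pool.Agent.LibQF
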