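import Pool.Agent.LibQF.Basic
import Pool.Agent.LibQF.QAlg

/-!
# Evaluation of letters and words in a monoid of the class

`QP M` collects what is used about the monoid `M` (the algebra with an identity adjoined):
`P true x = x_ℓ`, `P false x = x_r`.
-/

namespace Pool.Agent.LibQF

universe u v

/-- product in the orientation of the side `s` -/
def mulS {M : Type v} [Mul M] (s : Bool) (a b : M) : M := if s then a * b else b * a

/-- product of a list in the orientation of the side `s` -/
def prodS {M : Type v} [Monoid M] (s : Bool) (l : List M) : M :=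
  if s then l.prod else l.reverse.prod

/-- order on idempotents -/
def leM {M : Type v} [Mul M] (a b : M) : Prop := a * b = a ∧ b * a = a

/-- what is used about the monoid: `P true x = x_ℓ`, `P false x = x_r` -/
structure QP (M : Type v) [Monoid M] where
  P : Bool → M → M
  one : ∀ s, P s 1 = 1
  mulP : ∀ s x, mulS s x (P s x) = x
  PP : ∀ s t x, P s (P t x) = P t x
  P_mul : ∀ s x y, P s (mulS s (P s x) y) = P s (mulS s x y)
  P_le : ∀ s x y, leM (P s (mulS s x y)) (P s y)

section

variable {M : Type v} [Monoid M]

lemma mulS_assoc (s : Bool) (a b c : M) : mulS s (mulS s a b) c = mulS s a (mulS s b c) := by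
  cases s <;> simp [mulS, mul_assoc]

@[simp] lemma mulS_one (s : Bool) (a : M) : mulS s a 1 = a := by
  cases s <;> simp [mulS]

@[simp] lemma one_mulS (s : Bool) (a : M) : mulS s 1 a = a := by
  cases s <;> simp [mulS]

lemma mulS_not (s : Bool) (a b : M) : mulS (!s) a b = mulS s b a := by
  cases s <;> simp [mulS]

@[simp] lemma prodS_nil (s : Bool) : prodS s ([] : List M) = 1 := by
  cases s <;> simp [prodS]

@[simp] lemma prodS_cons (s : Bool) (a : M) (l : List M) :
    prodS s (a :: l) = mulS s a (prodS s l) := by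
  cases s <;> simp [prodS, mulS]

lemma prodS_append (s : Bool) (l m : List M) :
    prodS s (l ++ m) = mulS s (prodS s l) (prodS s m) := by
  cases s <;> simp [prodS, mulS]

lemma prodS_not (s : Bool) (l : List M) : prodS (!s) l.reverse = prodS s l := by
  cases s <;> simp [prodS]

lemma leM_iff (s : Bool) {a b : M} : leM a b ↔ mulS s a b = a ∧ mulS s b a = a := by
  cases s <;> simp [mulS, leM, and_comm]

lemma leM_trans {a b c : M} (h1 : leM a b) (h2 : leM b c) : leM a c := by
  obtain ⟨h1, h1'⟩ := h1
  obtain ⟨h2, h2'⟩ := h2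
  constructor
  · rw [← h1, mul_assoc, h2]
  · rw [← h1', ← mul_assoc, h2']

lemma leM_one (a : M) : leM a 1 := ⟨mul_one a, one_mul a⟩

namespace QP

variable (Q : QP M)

lemma idem (s t : Bool) (x : M) : mulS s (Q.P t x) (Q.P t x) = Q.P t x := by
  have h := Q.mulP s (Q.P t x)
  rwa [Q.PP] at h

lemma refl (t : Bool) (x : M) : leM (Q.P t x) (Q.P t x) := by
  rw [leM_iff true]
  exact ⟨Q.idem _ _ _, Q.idem _ _ _⟩

/-- `P s x ≤ e` implies `x e = x` -/
lemma mul_of_le {s : Bool} {x e : M} (h : leM (Q.P s x) e) : mulS s x e = x := by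
  conv_lhs => rw [← Q.mulP s x]
  rw [mulS_assoc, ((leM_iff s).1 h).1, Q.mulP]

end QP

end

/-- monotone iteration -/
lemma leM_antisymm {M : Type v} [Mul M] {a b : M} (h1 : leM a b) (h2 : leM b a) : a = b := by
  rw [← h1.1, h2.2]

section

variable {X : Type u} {M : Type v} [Monoid M]

/-- evaluation of letters with bounded depth -/
def evN (S : Pre X) (P : Bool → M → M) (φ : X → M) : ℕ → S.A → M
  | _, .inl x => φ x
  | 0, .inr _ => 1
  | n + 1, .inr e => P (S.side e) (prodS (S.side e) ((S.om e).map (evN S P φ n)))

/-- evaluation of letters -/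
def evA (S : Pre X) (P : Bool → M → M) (φ : X → M) (a : S.A) : M := evN S P φ (S.wtA a) a

/-- evaluation of idempotents and of the identity -/
def evO (S : Pre X) (P : Bool → M → M) (φ : X → M) : Option S.E → M
  | none => 1
  | some e => evA S P φ (.inr e)

/-- evaluation of words in the orientation of the side `s` -/
def evS (S : Pre X) (P : Bool → M → M) (φ : X → M) (s : Bool) (w : List S.A) : M :=
  prodS s (w.map (evA S P φ))

namespace Sys

variable (S : Sys X)

lemma evN_stable (P : Bool → M → M) (φ : X → M) (a : S.A) (n m : ℕ) (hn : S.wtA a ≤ n)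
    (hm : S.wtA a ≤ m) : evN S.toPre P φ n a = evN S.toPre P φ m a := by
  cases a with
  | inl x => cases n <;> cases m <;> rfl
  | inr e =>
    induction n generalizing m e with
    | zero =>
      have := S.sz_pos e
      simp only [Pre.wtA] at hn
      omega
    | succ n ih =>
      cases m with
      | zero =>
        have := S.sz_pos e
        simp only [Pre.wtA] at hm
        omega
      | succ m =>
        simp only [evN]
        congr 2
        apply List.map_congr_left
        intro b hb
        cases b with
        | inl x => cases n <;> cases m <;> rfl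
        | inr f =>
          have h1 := S.mem_om_lt hb
          simp only [Pre.wtA] at hn hm
          exact ih m f (by simp only [Pre.wtA]; omega) (by simp only [Pre.wtA]; omega)

variable (Q : QP M) (φ : X → M)

/-- evaluation of letters -/
abbrev eA : S.A → M := evA S.toPre Q.P φ
/-- evaluation of idempotents and of the identity -/
abbrev eO : Option S.E → M := evO S.toPre Q.P φ
/-- evaluation of words -/
abbrev eS : Bool → List S.A → M := evS S.toPre Q.P φ

@[simp] lemma eA_inl (x : X) : S.eA Q φ (.inl x) = φ x := rfl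

lemma eA_inr (e : S.E) :
    S.eA Q φ (.inr e) = Q.P (S.side e) (S.eS Q φ (S.side e) (S.om e)) := by
  have h1 : S.eA Q φ (.inr e) = evN S.toPre Q.P φ (S.sz e + 1) (.inr e) :=
    S.evN_stable Q.P φ _ _ _ le_rfl (by simp only [Pre.wtA]; omega)
  rw [h1]
  simp only [evN, eS, evS]
  congr 2
  apply List.map_congr_left
  intro b hb
  cases b with
  | inl x => cases h : S.sz e <;> rfl
  | inr f =>
    have h1 := S.mem_om_lt hb
    exact S.evN_stable Q.P φ _ _ _ (by simp only [Pre.wtA]; omega) (by simp only [Pre.wtA]; omega)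

@[simp] lemma eO_none : S.eO Q φ none = 1 := rfl

@[simp] lemma eO_some (e : S.E) : S.eO Q φ (some e) = S.eA Q φ (.inr e) := rfl

@[simp] lemma eS_nil (s : Bool) : S.eS Q φ s [] = 1 := by simp [eS, evS]

@[simp] lemma eS_cons (s : Bool) (a : S.A) (w : List S.A) :
    S.eS Q φ s (a :: w) = mulS s (S.eA Q φ a) (S.eS Q φ s w) := by
  simp [eS, evS]

lemma eS_append (s : Bool) (u w : List S.A) :
    S.eS Q φ s (u ++ w) = mulS s (S.eS Q φ s u) (S.eS Q φ s w) := by
  simp [eS, evS, prodS_append]

lemma eS_not (s : Bool) (w : List S.A) : S.eS Q φ (!s) w.reverse = S.eS Q φ s w := by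
  simp only [eS, evS, List.map_reverse]
  exact prodS_not s _

@[simp] lemma eS_o2l (s : Bool) (o : Option S.E) : S.eS Q φ s (S.o2l o) = S.eO Q φ o := by
  cases o <;> simp

/-- projections are fixed -/
lemma P_eA (s : Bool) (e : S.E) : Q.P s (S.eA Q φ (.inr e)) = S.eA Q φ (.inr e) := by
  rw [eA_inr, Q.PP]

lemma P_eO (s : Bool) (o : Option S.E) : Q.P s (S.eO Q φ o) = S.eO Q φ o := by
  cases o with
  | none => exact Q.one s
  | some e => exact S.P_eA Q φ s e

/-- the value of `L` for words of size `< n` -/
def EvL (n : ℕ) : Prop := ∀ (s : Bool) (w : List S.A), S.wt w < n →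
  S.eO Q φ (S.L s w) = Q.P s (S.eS Q φ s w)

/-- letters are below their parents, size `< n` -/
def EvP (n : ℕ) : Prop := ∀ e : S.E, S.sz e < n → leM (S.eA Q φ (.inr e)) (S.eO Q φ (S.par e))

variable {S Q φ} {n : ℕ}

lemma EvL.rt (h : S.EvL Q φ n) {s : Bool} {w : List S.A} (hw : S.wt w < n) :
    S.eO Q φ (S.Rt s w) = Q.P (!s) (S.eS Q φ s w) := by
  have h1 := h (!s) w.reverse (by simpa using hw)
  rw [eS_not] at h1
  exact h1

lemma EvP.le (h : S.EvP Q φ n) {a b : Option S.E} (hab : S.le a b) (ha : S.wt (S.o2l a) < n) :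
    leM (S.eO Q φ a) (S.eO Q φ b) := by
  obtain ⟨m, rfl⟩ := hab
  induction m generalizing a with
  | zero =>
    have h1 := S.P_eO Q φ true a
    have h2 := Q.refl true (S.eO Q φ a)
    rw [h1] at h2
    exact h2
  | succ m ih =>
    rw [Function.iterate_succ_apply]
    cases a with
    | none => exact ih ha
    | some e =>
      have h1 := S.wt_par e
      simp at ha
      exact leM_trans (h e ha) (ih (a := S.par e) (by omega))

/-- a letter absorbs its parent -/
lemma EvP.up (h : S.EvP Q φ n) (s : Bool) (a : S.A) (ha : S.wtA a < n) :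
    mulS s (S.eA Q φ a) (S.eS Q φ s (S.up a)) = S.eA Q φ a := by
  cases a with
  | inl x => simp
  | inr e =>
    rw [up_inr, eS_o2l]
    exact ((leM_iff s).1 (h e ha)).1

/-- one raise does not change the value -/
lemma ev_step (hL : S.EvL Q φ n) (hP : S.EvP Q φ (n + 1)) {s : Bool} {w w' : List S.A}
    (hw : S.wt w ≤ n) (h : S.Step s w w') : S.eS Q φ s w = S.eS Q φ s w' := by
  cases h with
  | mk u k v h =>
    have h0 := S.wt_par k
    simp at hw
    have hk := hP k (by omega)
    rw [leM_iff s] at hk
    rcases h with h | h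
    · unfold Pre.IsR1 at h
      have h1 := hP.le h (lt_of_le_of_lt (S.wt_L s _) (by simp; omega))
      have h2 := hL s (u ++ S.o2l (S.par k)) (by simp; omega)
      rw [h2] at h1
      have h3 := Q.mul_of_le h1
      rw [eS_append, eS_o2l, mulS_assoc, eO_some, hk.2] at h3
      rw [eS_append, eS_append, eS_cons, eS_append, eS_o2l, ← mulS_assoc, ← mulS_assoc, h3]
    · unfold Pre.IsR2 at h
      have h1 := hP.le h (lt_of_le_of_lt (S.wt_Rt s _) (by simp; omega))
      have h2 := hL.rt (s := s) (w := S.o2l (S.par k) ++ v) (by simp; omega)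
      rw [h2] at h1
      have h3 := Q.mul_of_le h1
      rw [mulS_not, eS_append, eS_o2l, ← mulS_assoc, eO_some, hk.1] at h3
      rw [eS_append, eS_append, eS_cons, eS_append, eS_o2l, h3]

/-- the value of `L` on words whose first letter is not of side `s` -/
lemma ev_ns (hL : S.EvL Q φ n) (hP : S.EvP Q φ (n + 1)) {s : Bool} {w : List S.A}
    (hw : S.wt w ≤ n) (hns : S.NS s w) : S.eO Q φ (S.L s w) = Q.P s (S.eS Q φ s w) := by
  by_cases hr : S.Red s w
  · cases w with
    | nil => simp [Q.one]
    | cons a v =>
      by_cases h1 : ∃ e, a :: v = [Sum.inr e]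
      · obtain ⟨e, he⟩ := h1
        rw [he]
        simp [S.P_eA]
      push Not at h1
      have hup := S.wt_up a
      simp only [wt_cons] at hw
      by_cases hsp : S.Split s (a :: v)
      · rw [S.L_split s a v hr hns hsp]
        obtain ⟨u', v', g, h2, h3, h4, h5, h6⟩ := hsp
        rw [hL s _ (by simp; omega)]
        obtain ⟨u0, rfl, rfl⟩ : ∃ u0, u' = a :: u0 ∧ v = u0 ++ v' := by
          cases u' with
          | nil => exact absurd rfl h3
          | cons b u0 =>
            simp only [List.cons_append, List.cons.injEq] at h2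
            exact ⟨u0, by rw [h2.1], h2.2⟩
        simp only [wt_append] at hw
        have hav := S.wtA_pos a
        -- the value of the right part
        have h7 := hL.rt (s := s) (w := v') (by omega)
        rw [h5, eO_some] at h7
        have hg := S.L_size (!s) v'.reverse g h5
        change S.sz g ≤ S.wt v'.reverse at hg
        rw [wt_reverse] at hg
        have hgp := S.wt_par g
        have h8 := hP.le h6 (by simp; omega)
        rw [hL s _ (by simp; omega), eO_some] at h8
        have hk := hP g (by omega)
        rw [leM_iff s] at hk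
        -- `P (u g) = g`
        have h9 : Q.P s (mulS s (S.eS Q φ s (a :: u0)) (S.eA Q φ (.inr g))) =
            S.eA Q φ (.inr g) := by
          have h10 : mulS s (S.eS Q φ s (a :: u0)) (S.eA Q φ (.inr g)) =
              mulS s (S.eS Q φ s ((a :: u0) ++ S.o2l (S.par g))) (S.eA Q φ (.inr g)) := by
            rw [eS_append, eS_o2l, mulS_assoc, hk.2]
          rw [h10, ← Q.P_mul, ((leM_iff s).1 h8).2, S.P_eA]
        -- `g v' = v'`
        have h11 : mulS s (S.eA Q φ (.inr g)) (S.eS Q φ s v') = S.eS Q φ s v' := by
          rw [h7, ← mulS_not]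
          exact Q.mulP _ _
        have h12 : Q.P s (S.eS Q φ s (a :: (u0 ++ v'))) = Q.P s (S.eS Q φ s v') := by
          have h13 : S.eS Q φ s (a :: (u0 ++ v')) =
              mulS s (mulS s (S.eS Q φ s (a :: u0)) (S.eA Q φ (.inr g))) (S.eS Q φ s v') := by
            rw [mulS_assoc, h11, ← eS_append]
            rfl
          rw [h13, ← Q.P_mul, h9, h11]
        have h14 : leM (Q.P s (S.eS Q φ s (a :: (u0 ++ v'))))
            (Q.P s (S.eS Q φ s (S.up a ++ (u0 ++ v')))) := by
          have h15 : S.eS Q φ s (a :: (u0 ++ v')) =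
              mulS s (S.eA Q φ a) (S.eS Q φ s (S.up a ++ (u0 ++ v'))) := by
            rw [eS_append, ← mulS_assoc, hP.up s a (by omega), ← eS_cons]
          rw [h15]
          exact Q.P_le s _ _
        have h16 : leM (Q.P s (S.eS Q φ s (S.up a ++ (u0 ++ v')))) (Q.P s (S.eS Q φ s v')) := by
          rw [← List.append_assoc, eS_append]
          exact Q.P_le s _ _
        rw [← h12] at h16
        exact leM_antisymm h16 h14
      · obtain ⟨k, hk1, hk2, hk3, hk4⟩ := S.L_top s a v hr hns hsp h1
        rw [hk4, eO_some, eA_inr, hk1, hk2]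
  · obtain ⟨w', h1, h2⟩ := S.L_step s w hr
    have h3 := Step_wt S h1
    rw [h2, ev_step hL hP hw h1]
    exact hL s w' (by omega)

/-- the value of `L` -/
lemma ev_word (hL : S.EvL Q φ n) (hP : S.EvP Q φ (n + 1)) {s : Bool} {w : List S.A}
    (hw : S.wt w ≤ n) : S.eO Q φ (S.L s w) = Q.P s (S.eS Q φ s w) := by
  by_cases hns : S.NS s w
  · exact ev_ns hL hP hw hns
  by_cases hr : S.Red s w
  · cases w with
    | nil => simp [Q.one]
    | cons a v =>
      cases a with
      | inl x => exact absurd trivial hns
      | inr e =>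
        have hs : S.side e = s := by
          by_contra h
          exact hns h
        by_cases hv : v = []
        · subst hv
          simp [S.P_eA]
        rw [S.L_open s e v hr hs hv]
        have h1 := S.sz_om e
        change S.sz e = S.wt (S.om e) at h1
        have h2 : S.NS s (S.om e ++ v) := by
          have h3 := S.om_ns e
          rw [hs] at h3
          cases h4 : S.om e with
          | nil => exact absurd h4 (S.om_ne_nil e)
          | cons b z =>
            rw [h4] at h3
            cases b with
            | inl x => trivial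
            | inr f => exact h3
        rw [ev_ns hL hP (by simp at hw ⊢; omega) h2, eS_append, ← Q.P_mul, eS_cons, eA_inr, hs]
  · obtain ⟨w', h1, h2⟩ := S.L_step s w hr
    have h3 := Step_wt S h1
    rw [h2, ev_step hL hP hw h1]
    exact hL s w' (by omega)

/-- a letter is below its parent -/
lemma ev_par (hL : S.EvL Q φ n) (hP : S.EvP Q φ n) {e : S.E} (he : S.sz e ≤ n) :
    leM (S.eA Q φ (.inr e)) (S.eO Q φ (S.par e)) := by
  cases h : S.om e with
  | nil => exact absurd h (S.om_ne_nil e)
  | cons a v =>
    have h0 := S.sz_om e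
    change S.sz e = S.wt (S.om e) at h0
    rw [h] at h0
    simp only [wt_cons] at h0
    have hup := S.wt_up a
    rw [S.om_par h, hL _ _ (by simp; omega), eA_inr, h]
    have h15 : S.eS Q φ (S.side e) (a :: v) =
        mulS (S.side e) (S.eA Q φ a) (S.eS Q φ (S.side e) (S.up a ++ v)) := by
      rw [eS_append, ← mulS_assoc]
      cases a with
      | inl x => simp
      | inr f =>
        have h1 : S.sz f < S.sz e := S.mem_om_lt (by rw [h]; simp)
        rw [hP.up _ _ (by simp; omega), ← eS_cons]
    rw [h15]
    exact Q.P_le _ _ _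

variable (S Q φ)

lemma ev_all (n : ℕ) : S.EvL Q φ n ∧ S.EvP Q φ n := by
  induction n with
  | zero => exact ⟨fun s w h => absurd h (by omega), fun e h => absurd h (by omega)⟩
  | succ n ih =>
    have hP : S.EvP Q φ (n + 1) := fun e he => ev_par ih.1 ih.2 (by omega)
    exact ⟨fun s w hw => ev_word ih.1 hP (by omega), hP⟩

/-- `ev (L w) = (ev w)_ℓ` -/
theorem ev_L (s : Bool) (w : List S.A) : S.eO Q φ (S.L s w) = Q.P s (S.eS Q φ s w) :=
  (S.ev_all Q φ (S.wt w + 1)).1 s w (by omega)

theorem ev_Rt (s : Bool) (w : List S.A) : S.eO Q φ (S.Rt s w) = Q.P (!s) (S.eS Q φ s w) :=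
  (S.ev_all Q φ (S.wt w + 1)).1.rt (by omega)

/-- letters are below their parents -/
theorem ev_le_par (e : S.E) : leM (S.eA Q φ (.inr e)) (S.eO Q φ (S.par e)) :=
  (S.ev_all Q φ (S.sz e + 1)).2 e (by omega)

/-- order is preserved -/
theorem ev_le {a b : Option S.E} (h : S.le a b) : leM (S.eO Q φ a) (S.eO Q φ b) :=
  (S.ev_all Q φ (S.wt (S.o2l a) + 1)).2.le h (by omega)

/-- raising does not change the value -/
theorem ev_Step {s : Bool} {w w' : List S.A} (h : S.Step s w w') :
    S.eS Q φ s w = S.eS Q φ s w' :=
  ev_step (S.ev_all Q φ (S.wt w)).1 (S.ev_all Q φ (S.wt w + 1)).2 le_rfl h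

theorem ev_Steps {s : Bool} {w w' : List S.A} (h : S.Steps s w w') :
    S.eS Q φ s w = S.eS Q φ s w' := by
  induction h with
  | refl => rfl
  | tail _ h2 ih => rw [ih]; exact S.ev_Step Q φ h2

end Sys

end

/-! ## the projections of a monoid of the class -/

/-- the projections of an algebra of the class with an identity adjoined -/
noncomputable def QuasiQ.toQP {S : Type u} [Semigroup S] {l r : S → S} (h : QuasiQ S l r) :
    QP (WithOne S) where
  P s x := if s then h.toQM.l x else h.toQM.r x
  one s := by
    cases s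
    · exact h.toQM.r_one
    · exact h.toQM.l_one
  mulP s x := by
    cases s
    · exact h.toQM.r_mul x
    · exact h.toQM.mul_l x
  PP s t x := by
    have h1 : h.toQM.Id (if t then h.toQM.l x else h.toQM.r x) := by
      cases t
      · exact h.toQM.id_r x
      · exact h.toQM.id_l x
    cases s
    · exact h.toQM.r_of_id h1
    · exact h.toQM.l_of_id h1
  P_mul s x y := by
    cases s
    · exact (h.toQM.op.l_mul x y).symm
    · exact (h.toQM.l_mul x y).symm
  P_le s x y := by
    cases s
    · exact ⟨(h.toQM.op.l_mul_le x y).2, (h.toQM.op.l_mul_le x y).1⟩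
    · exact h.toQM.l_mul_le x y

end Pool.Agent.LibQF
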