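import Pool.Agent.LibQF.ConfS

/-!
# The first split of a reduced word
-/

namespace Pool.Agent.LibQF

universe u

namespace Sys

variable {X : Type u} {S : Sys X} {n : ℕ}

/-- the highest element with a given property -/
lemma exists_top (P : Option S.E → Prop) {g : Option S.E} (h : P g) :
    ∃ G, S.le g G ∧ P G ∧ ∀ G', S.le G G' → P G' → G' = G := by
  induction hm : S.wt (S.o2l g) using Nat.strong_induction_on generalizing g with
  | _ m ih =>
    subst hm
    by_cases h1 : ∀ G', S.le g G' → P G' → G' = g
    · exact ⟨g, S.le_refl _, h, h1⟩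
    · push Not at h1
      obtain ⟨G', h2, h3, h4⟩ := h1
      obtain ⟨G, h5, h6, h7⟩ := ih _ (le_wt_lt h2 (Ne.symm h4)) h3 rfl
      exact ⟨G, le_trans h2 h5, h6, h7⟩

lemma first_split (hg : S.Good n) {s : Bool} {W : List S.A} (hw : S.wt W ≤ n)
    (hr : S.Red s W) (hs : S.Split s W) :
    ∃ (u v : List S.A) (g : S.E) (G : Option S.E), W = u ++ v ∧ u ≠ [] ∧ v ≠ [] ∧
      S.Rt s v = some g ∧ S.le (S.par g) G ∧ S.le (some g) (S.L s (u ++ S.o2l G)) ∧
      S.Red s (u ++ S.o2l G) ∧ ¬ S.Split s (u ++ S.o2l G) := by
  -- the shortest `u`
  have hex : ∃ l : ℕ, ∃ (u v : List S.A) (g : S.E), u.length = l ∧ W = u ++ v ∧ u ≠ [] ∧ v ≠ [] ∧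
      S.Rt s v = some g ∧ S.le (some g) (S.L s (u ++ S.o2l (S.par g))) := by
    obtain ⟨u, v, g, h1, h2, h3, h4, h5⟩ := hs
    exact ⟨_, u, v, g, rfl, h1, h2, h3, h4, h5⟩
  classical
  obtain ⟨u, v, g, hl, h1, h2, h3, h4, h5⟩ := Nat.find_spec hex
  have hmin : ∀ (u' v' : List S.A) (g' : S.E), W = u' ++ v' → u' ≠ [] → v' ≠ [] →
      S.Rt s v' = some g' → S.le (some g') (S.L s (u' ++ S.o2l (S.par g'))) →
      u.length ≤ u'.length := by
    intro u' v' g' a1 a2 a3 a4 a5
    rw [hl]
    exact Nat.find_min' hex ⟨u', v', g', rfl, a1, a2, a3, a4, a5⟩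
  obtain ⟨G, h6, h7, h8⟩ := exists_top (fun G => S.le (some g) (S.L s (u ++ S.o2l G))) h5
  have hgv := S.wt_Rt s v
  rw [h4] at hgv
  simp at hgv
  have hpg := S.wt_par g
  have hG := le_wt h6
  have hwu := wt_pos_of_ne S h2
  subst h1
  simp at hw
  have hred : S.Red s (u ++ S.o2l G) := by
    rw [red_iff]
    intro a k b hab
    rw [red_iff] at hr
    rcases List.append_eq_append_iff.1 hab with ⟨c, hc1, hc2⟩ | ⟨c, hc1, hc2⟩
    · -- `k` is the letter `G`
      cases G with
      | none => simp at hc2
      | some G0 =>
        have hk := S.wt_par G0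
        rcases c with _ | ⟨c0, c⟩
        · simp at hc1 hc2
          obtain ⟨rfl, rfl⟩ := hc2
          subst hc1
          constructor
          · intro h9
            unfold Pre.IsR1 at h9
            have h10 := h8 (S.par G0) (le_par G0) (by
              have h11 : S.Step s (a ++ .inr G0 :: []) (a ++ (S.o2l (S.par G0) ++ [])) :=
                Pre.Step.mk a G0 [] (Or.inl h9)
              have h12 := L_step1 hg.inv (by simp at hG ⊢; omega) h11
              simp at h12 h7
              show S.le (some g) (S.L s (a ++ S.o2l (S.par G0)))
              rw [← h12]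
              exact h7)
            exact par_ne G0 h10
          · intro h9
            unfold Pre.IsR2 at h9
            simp at h9
            exact not_par_le G0 h9
        · simp at hc2
    · -- `k` is in `u`
      rcases c with _ | ⟨c0, c⟩
      · simp at hc1 hc2
        cases G with
        | none => simp at hc2
        | some G0 =>
          simp at hc2
          obtain ⟨rfl, rfl⟩ := hc2
          subst hc1
          have hk := S.wt_par k
          constructor
          · intro h9
            unfold Pre.IsR1 at h9
            have h10 := h8 (S.par k) (le_par k) (by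
              have h11 : S.Step s (u ++ .inr k :: []) (u ++ (S.o2l (S.par k) ++ [])) :=
                Pre.Step.mk u k [] (Or.inl h9)
              have h12 := L_step1 hg.inv (by simp at hG ⊢; omega) h11
              simp at h12 h7
              show S.le (some g) (S.L s (u ++ S.o2l (S.par k)))
              rw [← h12]
              exact h7)
            exact par_ne k h10
          · intro h9
            unfold Pre.IsR2 at h9
            simp at h9
            exact not_par_le k h9
      · simp at hc2
        obtain ⟨rfl, rfl⟩ := hc2
        have h9 := hr a k (c ++ v) (by rw [hc1]; simp)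
        refine ⟨h9.1, ?_⟩
        intro h10
        apply h9.2
        have hk := S.wt_par k
        rw [hc1] at hw
        simp at hw
        unfold Pre.IsR2 at h10 ⊢
        have h11 := p3R hg (s := s) (u := S.o2l (S.par k) ++ c) (v := v) (by simp; omega)
        rw [h4] at h11
        have h12 := monoR hg (s := s) (Z := S.o2l (S.par k) ++ c) (le_trans (le_par g) h6)
          (by simp; omega)
        rw [List.append_assoc] at h11
        rw [h11]
        refine le_trans h12 ?_
        simpa using h10
  refine ⟨u, v, g, G, rfl, h2, h3, h4, h6, h7, hred, ?_⟩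
  rintro ⟨u', w', γ, a1, a2, a3, a4, a5⟩
  have hγ := S.wt_Rt s w'
  rw [a4] at hγ
  simp at hγ
  have hwt := congrArg S.wt a1
  simp at hwt
  -- `u = u' ++ v1`, `w' = v1 ++ o2l G`, `v1 ≠ []`
  have key : ∃ v1, u = u' ++ v1 ∧ v1 ≠ [] ∧ w' = v1 ++ S.o2l G := by
    rcases List.append_eq_append_iff.1 a1 with ⟨c, hc1, hc2⟩ | ⟨c, hc1, hc2⟩
    · exfalso
      cases G with
      | none =>
        simp at hc2
        exact a3 hc2.2
      | some G0 =>
        rcases c with _ | ⟨c0, c⟩
        · simp at hc1 hc2
          subst hc1
          rw [← hc2] at a4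
          simp at a4
          subst a4
          have h10 := h8 (S.par G0) (le_par G0) (by
            show S.le (some g) (S.L s (u' ++ S.o2l (S.par G0)))
            exact le_trans (le_trans (le_par g) h6) a5)
          exact par_ne G0 h10
        · simp at hc2
          exact a3 hc2.2.2
    · refine ⟨c, hc1, ?_, hc2⟩
      rintro rfl
      simp at hc1 hc2
      cases G with
      | none => simp at hc2; exact a3 hc2
      | some G0 =>
        subst hc2
        subst hc1
        simp at a4
        subst a4
        have h10 := h8 (S.par G0) (le_par G0) (by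
          show S.le (some g) (S.L s (u ++ S.o2l (S.par G0)))
          exact le_trans (le_trans (le_par g) h6) a5)
        exact par_ne G0 h10
  obtain ⟨v1, b1, b2, b3⟩ := key
  have hwv1 := wt_pos_of_ne S b2
  subst b1 b3
  simp at hw hwt hγ hG
  have hwu' := wt_pos_of_ne S a2
  -- `g' = Rt (v1 v) ≤ γ`
  have h10 : S.le (S.Rt s (v1 ++ v)) (some γ) := by
    have h11 := p3R hg (s := s) (u := v1) (v := v) (by simp; omega)
    rw [h4] at h11
    rw [h11, ← a4]
    exact monoR hg (le_trans (le_par g) h6) (by simp; omega)
  cases hg' : S.Rt s (v1 ++ v) with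
  | none => rw [hg'] at h10; exact absurd (none_le h10) (by simp)
  | some g' =>
    rw [hg'] at h10
    have hwg' := S.wt_Rt s (v1 ++ v)
    rw [hg'] at hwg'
    simp at hwg'
    have hpg' := S.wt_par g'
    have h12 : S.L s (u' ++ [.inr γ]) = some γ := fixL hg (by simp; omega) a5
    have h13 : S.le (some g') (S.L s (u' ++ S.o2l (S.par g'))) := by
      rcases le_cases h10 with h14 | h14
      · simp at h14
        subst h14
        exact a5
      · by_cases h15 : S.par g' = some γ
        · rw [h15]
          simp only [o2l_some]
          rw [h12]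
          exact h10
        · cases hp : S.par g' with
          | none => rw [hp] at h14; exact absurd (none_le h14) (by simp)
          | some p =>
            rw [hp] at h14 hpg'
            simp at hpg'
            have h16 := fixdownL hg (s := s) (u := u') (g := p) (q := some γ) h14
              (by simp only [o2l_some]; rw [h12]; exact h14) (by simp; omega)
            simp only [o2l_some]
            rw [h16, ← hp]
            exact le_par g'
    have h17 := hmin u' (v1 ++ v) g' (by simp) a2 (by simp [b2]) hg' h13
    simp at h17
    exact b2 (by simpa using h17)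

end Sys

end Pool.Agent.LibQF
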