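import Pool.Agent.LibQF.PropW

/-!
# Cancellation
-/

namespace Pool.Agent.LibQF

universe u

namespace Sys

variable {X : Type u} {S : Sys X}

/-- cancellation for the word `l a` -/
def LC2 (S : Sys X) (s : Bool) (l : Option S.E) (a : S.A) (σ τ : List S.A) : Prop :=
  S.Eqv s (S.o2l l ++ a :: σ) (S.o2l l ++ a :: τ) →
    S.Eqv s (S.o2l (S.L s (S.o2l l ++ [a])) ++ σ) (S.o2l (S.L s (S.o2l l ++ [a])) ++ τ)

/-- least upper bounds -/
lemma join_exists (x y : Option S.E) :
    ∃ j, S.le x j ∧ S.le y j ∧ ∀ k, S.le x k → S.le y k → S.le j k := by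
  classical
  have hex : ∃ n : ℕ, S.le y (S.parO^[n] x) := by
    obtain ⟨n, hn⟩ := le_none x
    exact ⟨n, hn ▸ le_none y⟩
  refine ⟨S.parO^[Nat.find hex] x, ⟨_, rfl⟩, Nat.find_spec hex, ?_⟩
  rintro k ⟨m, rfl⟩ hy
  have h1 : Nat.find hex ≤ m := Nat.find_min' hex hy
  obtain ⟨d, rfl⟩ := Nat.exists_eq_add_of_le h1
  exact ⟨d, by rw [Nat.add_comm, Function.iterate_add_apply]⟩

lemma first_prefix {α : Type u} (Q : List α → Prop) (w : List α) (h0 : ¬ Q []) (h1 : Q w) :
    ∃ w' z w'', w = w' ++ z :: w'' ∧ ¬ Q w' ∧ Q (w' ++ [z]) := by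
  induction w using List.reverseRecOn with
  | nil => exact absurd h1 h0
  | append_singleton v z ih =>
    by_cases hv : Q v
    · obtain ⟨w', z', w'', h2, h3, h4⟩ := ih hv
      exact ⟨w', z', w'' ++ [z], by rw [h2]; simp, h3, h4⟩
    · exact ⟨v, z, [], by simp, hv, h1⟩

section
variable (H : ∀ n, S.Good n)
include H

lemma mfR (s : Bool) (a : S.A) (Z : List S.A) :
    S.Rt s (Z ++ [a]) = S.Rt s (Z ++ S.up a) ∨
    ∃ κ : S.E, S.Rt s (Z ++ [a]) = some κ ∧ S.par κ = S.Rt s (Z ++ S.up a) ∧
      S.Steps s (Z ++ S.opr s a) (S.opr s (.inr κ)) ∧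
      (S.opr s (.inr κ)).getLast? = (S.opr s a).getLast? := by
  have hup : (S.up a).reverse = S.up a := by cases a <;> simp
  rcases aMF H (!s) a Z.reverse with h | ⟨κ, h1, h2, h3, h4⟩
  · left
    simpa [Pre.Rt, hup] using h
  · right
    refine ⟨κ, by simpa [Pre.Rt] using h1, by simpa [Pre.Rt, hup] using h2, ?_, ?_⟩
    · have h5 := Steps_rev S h3
      simpa [Pre.opr] using h5
    · simpa [Pre.opr] using h4

/-- a normal word with one more letter in front -/
lemma nrm_consL {s : Bool} {l : Option S.E} {a : S.A} {t : List S.A}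
    (ht : S.Nrm s (S.L s (S.o2l l ++ [a])) t)
    (ha : ∀ k, a = Sum.inr k → ¬ S.IsR1 s (S.o2l l) k ∧ ¬ S.IsR2 s k t) : S.Nrm s l (a :: t) := by
  rw [nrm_iff]
  intro u k v hw
  rcases u with _ | ⟨a', u'⟩
  · simp only [List.nil_append, List.cons.injEq] at hw
    obtain ⟨h1, h2⟩ := hw
    subst h2
    have := ha k h1
    simpa using this
  · simp only [List.cons_append, List.cons.injEq] at hw
    obtain ⟨h1, h2⟩ := hw
    subst h1
    obtain ⟨h3, h4⟩ := (nrm_iff.1 ht) u' k v h2
    refine ⟨?_, h4⟩
    intro h5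
    apply h3
    unfold Pre.IsR1 at h5 ⊢
    have h6 := aP3L H s (S.o2l l ++ [a]) (u' ++ S.o2l (S.par k))
    simp only [List.append_assoc, List.cons_append, List.nil_append] at h5 h6 ⊢
    rw [← h6]
    exact h5

/-- `l f ρ = l ρ` for `l ≤ f` -/
lemma eqv_ef' {s : Bool} (ρ : List S.A) {l f : Option S.E} (h : S.le l f) :
    S.Eqv s (S.o2l l ++ S.o2l f ++ ρ) (S.o2l l ++ ρ) := by
  have := eqv_ef H (s := s) [] ρ h
  simpa using this

/-- `f e ρ = e ρ` for `e ≤ f` -/
lemma eqv_fe' {s : Bool} (u ρ : List S.A) {e f : Option S.E} (h : S.le e f) :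
    S.Eqv s (u ++ S.o2l f ++ (S.o2l e ++ ρ)) (u ++ (S.o2l e ++ ρ)) := by
  have := eqv_fe H (s := s) u ρ h
  simpa using this

/-- common left factor `a` (a single letter) -/
lemma core {s : Bool} {l p b : Option S.E} {a : S.A} {σ τ : List S.A} {y0 : Option S.E}
    (hlp : S.le l p) (hbp : S.le b p)
    (hσ : S.Eqv s (S.o2l (S.L s (S.o2l p ++ [a])) ++ σ) (S.o2l y0 ++ σ))
    (hτ : S.Eqv s (S.o2l (S.L s (S.o2l p ++ [a])) ++ τ) (S.o2l y0 ++ τ))
    (hy : S.le (S.Rt s (S.o2l p ++ a :: S.o2l y0)) b)
    (h1 : S.Eqv s (S.o2l (S.L s (S.o2l l ++ [a])) ++ σ) (S.o2l (S.L s (S.o2l l ++ [a])) ++ τ))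
    (hIH : ∀ o : Option S.E, S.le o (S.L s (S.o2l p ++ [a])) →
      S.Eqv s (S.o2l o ++ S.o2l y0 ++ σ) (S.o2l o ++ S.o2l y0 ++ τ) →
      S.Eqv s (S.o2l (S.L s (S.o2l o ++ S.o2l y0)) ++ σ)
        (S.o2l (S.L s (S.o2l o ++ S.o2l y0)) ++ τ)) :
    S.Eqv s (S.o2l (S.L s (S.o2l l ++ S.o2l b)) ++ a :: σ)
      (S.o2l (S.L s (S.o2l l ++ S.o2l b)) ++ a :: τ) := by
  have hl'F : S.le (S.L s (S.o2l l ++ [a])) (S.L s (S.o2l p ++ [a])) := aMonoL H [a] hlp
  have key : ∀ ρ, S.Eqv s (S.o2l (S.L s (S.o2l p ++ [a])) ++ ρ) (S.o2l y0 ++ ρ) →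
      S.Eqv s (S.o2l (S.L s (S.o2l l ++ [a])) ++ ρ)
        (S.o2l (S.L s (S.o2l l ++ [a])) ++ S.o2l y0 ++ ρ) := by
    intro ρ hρ
    have h2 := (eqv_ef' H (s := s) ρ hl'F).symm
    have h3 := Eqv.app_left H (S.o2l (S.L s (S.o2l l ++ [a]))) hρ
    rw [List.append_assoc] at h2 ⊢
    exact Eqv.trans H h2 h3
  have h4 : S.Eqv s (S.o2l (S.L s (S.o2l l ++ [a])) ++ S.o2l y0 ++ σ)
      (S.o2l (S.L s (S.o2l l ++ [a])) ++ S.o2l y0 ++ τ) :=
    Eqv.trans H (key σ hσ).symm (Eqv.trans H h1 (key τ hτ))
  have h5 := hIH _ hl'F h4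
  have hcb : S.le (S.L s (S.o2l l ++ S.o2l b)) b := by
    have := aP5L H s (S.o2l l) (S.o2l b)
    simpa using this
  have hcp := le_trans hcb hbp
  have hcF : S.le (S.L s (S.o2l (S.L s (S.o2l l ++ S.o2l b)) ++ [a])) (S.L s (S.o2l p ++ [a])) :=
    aMonoL H [a] hcp
  -- the idempotent of `c a y0`
  have hlam : S.L s (S.o2l (S.L s (S.o2l l ++ S.o2l b)) ++ [a] ++ S.o2l y0) =
      S.L s (S.o2l (S.L s (S.o2l l ++ [a])) ++ S.o2l y0) := by
    have e1 := aP3L H s (S.o2l l ++ S.o2l b) ([a] ++ S.o2l y0)
    have e2 := aP3L H s (S.o2l l ++ [a]) (S.o2l y0)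
    rw [← e2, List.append_assoc, ← e1]
    apply eqvL H
    have q1 := eqv_ef H (s := s) (S.o2l l) ([a] ++ S.o2l y0) hbp
    have q2 := eqv_absorbR H (s := s) (S.o2l l) (S.o2l p ++ a :: S.o2l y0) hy
    have q3 := eqv_ef' H (s := s) ([a] ++ S.o2l y0) hlp
    refine Eqv.trans H q1.symm ?_
    have q4 : S.Eqv s (S.o2l l ++ S.o2l b ++ S.o2l p ++ ([a] ++ S.o2l y0))
        (S.o2l l ++ (S.o2l p ++ a :: S.o2l y0)) := by
      simpa using q2
    refine Eqv.trans H q4 ?_
    simpa using q3
  have key2 : ∀ ρ, S.Eqv s (S.o2l (S.L s (S.o2l p ++ [a])) ++ ρ) (S.o2l y0 ++ ρ) →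
      S.Eqv s (S.o2l (S.L s (S.o2l l ++ S.o2l b)) ++ a :: ρ)
        (S.o2l (S.L s (S.o2l l ++ S.o2l b)) ++ [a] ++ S.o2l y0 ++
          (S.o2l (S.L s (S.o2l (S.L s (S.o2l l ++ [a])) ++ S.o2l y0)) ++ ρ)) := by
    intro ρ hρ
    have q1 := (eqv_absorbL H (s := s) (S.o2l (S.L s (S.o2l l ++ S.o2l b)) ++ [a]) ρ hcF).symm
    have q2 := Eqv.app_left H (S.o2l (S.L s (S.o2l l ++ S.o2l b)) ++ [a]) hρ
    have q3 := (eqv_absorbL H (s := s)
      (S.o2l (S.L s (S.o2l l ++ S.o2l b)) ++ [a] ++ S.o2l y0) ρ (S.le_refl _)).symm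
    rw [hlam] at q3
    have q1' : S.Eqv s (S.o2l (S.L s (S.o2l l ++ S.o2l b)) ++ a :: ρ)
        (S.o2l (S.L s (S.o2l l ++ S.o2l b)) ++ [a] ++ (S.o2l (S.L s (S.o2l p ++ [a])) ++ ρ)) := by
      simpa using q1
    have q3' : S.Eqv s (S.o2l (S.L s (S.o2l l ++ S.o2l b)) ++ [a] ++ (S.o2l y0 ++ ρ))
        (S.o2l (S.L s (S.o2l l ++ S.o2l b)) ++ [a] ++ S.o2l y0 ++
          (S.o2l (S.L s (S.o2l (S.L s (S.o2l l ++ [a])) ++ S.o2l y0)) ++ ρ)) := by
      simpa using q3
    exact Eqv.trans H q1' (Eqv.trans H q2 q3')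
  have h6 := Eqv.app_left H
    (S.o2l (S.L s (S.o2l l ++ S.o2l b)) ++ [a] ++ S.o2l y0) h5
  exact Eqv.trans H (key2 σ hσ) (Eqv.trans H h6 (key2 τ hτ).symm)

/-- common left letter -/
lemma commonL {s : Bool} {N : ℕ}
    (P : ∀ (l : Option S.E) (a : S.A) (σ τ : List S.A), S.wt σ + S.wt τ < N → S.LC2 s l a σ τ)
    {l : Option S.E} {b : S.E} {a : S.A} {σ τ : List S.A} (hl : S.le l (S.par b))
    (hw : S.wt σ + S.wt τ < N)
    (h : S.Eqv s (S.o2l l ++ a :: σ) (S.o2l l ++ a :: τ))
    (hσ : S.le (S.Rt s (S.o2l (S.par b) ++ a :: σ)) (some b))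
    (hτ : S.le (S.Rt s (S.o2l (S.par b) ++ a :: τ)) (some b)) :
    S.Eqv s (S.o2l (S.L s (S.o2l l ++ S.o2l (some b))) ++ a :: σ)
      (S.o2l (S.L s (S.o2l l ++ S.o2l (some b))) ++ a :: τ) := by
  have hP1 := P l a σ τ hw h
  by_cases hR : S.le (S.Rt s (S.o2l (S.par b) ++ [a])) (some b)
  · apply core H (p := S.par b) (y0 := S.L s (S.o2l (S.par b) ++ [a])) hl (le_par b)
      (Eqv.refl _) (Eqv.refl _) _ hP1
    · intro o ho h2
      have e1 := eqv_ef' H (s := s) σ ho
      have e2 := eqv_ef' H (s := s) τ ho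
      have e3 : S.L s (S.o2l o ++ S.o2l (S.L s (S.o2l (S.par b) ++ [a]))) = o := by
        have := aAbsorbL H (s := s) (u := S.o2l o) (f := S.L s (S.o2l (S.par b) ++ [a]))
          (by simpa using ho)
        simpa using this
      rw [e3]
      exact Eqv.trans H e1.symm (Eqv.trans H h2 e2)
    · have e1 := eqv_absorbL H (s := s) (S.o2l (S.par b) ++ [a]) []
        (S.le_refl (S.L s (S.o2l (S.par b) ++ [a])))
      have e2 := eqvR H e1
      simp only [List.append_nil, List.append_assoc, List.cons_append, List.nil_append] at e2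
      rw [e2]
      exact hR
  · -- crossing
    have c1 : ∀ ρ, S.le (S.Rt s (S.o2l (S.par b) ++ a :: ρ)) (some b) →
        ∃ y : S.E, S.le (S.Rt s ρ) (some y) ∧
          S.Rt s (S.o2l (S.par b) ++ [a] ++ [Sum.inr y]) = some b ∧
          S.Steps s (S.o2l (S.par b) ++ [a] ++ S.opr s (Sum.inr y)) (S.opr s (Sum.inr b)) := by
      intro ρ hρ
      have e1 := aP3R H s (S.o2l (S.par b) ++ [a]) ρ
      have e2 : S.le (S.Rt s ((S.o2l (S.par b) ++ [a]) ++ S.o2l (S.Rt s ρ))) (some b) := by
        rw [← e1]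
        simpa using hρ
      obtain ⟨y, h1, h2, h3, h4, h5, h6⟩ := aCrossR H (s := s) (le_none (S.Rt s ρ)) e2
        (by simpa using hR)
      exact ⟨y, h1, h3, h5⟩
    obtain ⟨y1, ha1, hb1, hc1⟩ := c1 σ hσ
    obtain ⟨y2, ha2, hb2, hc2⟩ := c1 τ hτ
    have hsz : ∀ (ρ : List S.A) (y : S.E), S.le (S.Rt s ρ) (some y) →
        S.wt (S.opr s (Sum.inr y)) ≤ S.wt ρ := by
      intro ρ y hy
      rw [wt_opr]
      have q1 := le_wt hy
      have q2 := S.wt_Rt s ρ
      simp at q1 ⊢
      omega
    have hz1 := hsz σ y1 ha1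
    have hz2 := hsz τ y2 ha2
    have hE : S.Eqv s (S.o2l (S.par b) ++ a :: S.opr s (Sum.inr y1))
        (S.o2l (S.par b) ++ a :: S.opr s (Sum.inr y2)) := by
      have q1 := Eqv.of_steps hc1
      have q2 := Eqv.of_steps hc2
      have := Eqv.trans H q1 q2.symm
      simpa using this
    have hP2 := P (S.par b) a (S.opr s (Sum.inr y1)) (S.opr s (Sum.inr y2)) (by omega) hE
    have hRy : ∀ y : S.E, S.Rt s (S.o2l (S.L s (S.o2l (S.par b) ++ [a])) ++ S.opr s (Sum.inr y)) =
        S.Rt s (S.o2l (S.L s (S.o2l (S.par b) ++ [a])) ++ S.o2l (some y)) := by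
      intro y
      rw [aP3R H s, S.Rt_opr]
    have hy12 := eqvR H hP2
    rw [hRy, hRy] at hy12
    -- `y0`
    have hfy : ∀ (ρ : List S.A) (y : S.E), S.le (S.Rt s ρ) (some y) →
        S.Eqv s (S.o2l (S.L s (S.o2l (S.par b) ++ [a])) ++ ρ)
          (S.o2l (S.Rt s (S.o2l (S.L s (S.o2l (S.par b) ++ [a])) ++ S.o2l (some y))) ++ ρ) := by
      intro ρ y hy
      have q1 : S.le (S.Rt s (S.o2l (S.L s (S.o2l (S.par b) ++ [a])) ++ ρ))
          (S.Rt s (S.o2l (S.L s (S.o2l (S.par b) ++ [a])) ++ S.o2l (some y))) := by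
        rw [aP3R H s]
        exact aMonoR H _ hy
      have q2 := (eqv_absorbR H (s := s) [] (S.o2l (S.L s (S.o2l (S.par b) ++ [a])) ++ ρ) q1).symm
      have q3 : S.le (S.Rt s (S.o2l (S.L s (S.o2l (S.par b) ++ [a])) ++ S.o2l (some y)))
          (S.L s (S.o2l (S.par b) ++ [a])) := by
        have := aP5R H s (S.o2l (S.L s (S.o2l (S.par b) ++ [a]))) (S.o2l (some y))
        simpa using this
      have q4 := eqv_ef' H (s := s) ρ q3
      simp only [List.nil_append] at q2
      rw [← List.append_assoc] at q2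
      exact Eqv.trans H q2 q4
    apply core H (p := S.par b)
      (y0 := S.Rt s (S.o2l (S.L s (S.o2l (S.par b) ++ [a])) ++ S.o2l (some y1))) hl (le_par b)
      (hfy σ y1 ha1) _ _ hP1
    · intro o ho h2
      cases hy0 : S.Rt s (S.o2l (S.L s (S.o2l (S.par b) ++ [a])) ++ S.o2l (some y1)) with
      | none =>
        rw [hy0] at h2
        simpa using h2
      | some y =>
        rw [hy0] at h2
        have q := P o (Sum.inr y) σ τ hw
        unfold LC2 at q
        simp only [o2l_some, List.append_assoc, List.cons_append, List.nil_append] at h2 q ⊢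
        exact q h2
    · rw [hy12]
      exact hfy τ y2 ha2
    · -- `R (p a y0) = b`
      have q1 := aP3R H s (S.o2l (S.par b) ++ [a])
        (S.o2l (S.L s (S.o2l (S.par b) ++ [a])) ++ S.o2l (some y1))
      have q2 := eqv_absorbL H (s := s) (S.o2l (S.par b) ++ [a]) (S.o2l (some y1))
        (S.le_refl (S.L s (S.o2l (S.par b) ++ [a])))
      have q3 := eqvR H q2
      simp only [List.append_assoc, List.cons_append, List.nil_append, o2l_some] at q1 q3 hb1 ⊢
      rw [← q1, q3, hb1]
      exact S.le_refl _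


/-- the comparable cases -/
lemma lc2_of_le {s : Bool} {l : Option S.E} {b : S.E} {σ τ : List S.A}
    (h : S.le l (some b) ∨ S.le (some b) l) : S.LC2 s l (Sum.inr b) σ τ := by
  intro he
  have he' : S.Eqv s (S.o2l l ++ S.o2l (some b) ++ σ) (S.o2l l ++ S.o2l (some b) ++ τ) := by
    simpa using he
  rcases h with h | h
  · have e1 : S.L s (S.o2l l ++ [Sum.inr b]) = l := by
      have := aAbsorbL H (s := s) (u := S.o2l l) (f := some b) (by simpa using h)
      simpa using this
    rw [e1]
    exact Eqv.trans H (eqv_ef' H σ h).symm (Eqv.trans H he' (eqv_ef' H τ h))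
  · have e1 : S.L s (S.o2l l ++ [Sum.inr b]) = some b := by
      have q := eqv_fe' H (s := s) [] [] h
      have := eqvL H q
      simpa using this
    rw [e1]
    have q1 := eqv_fe' H (s := s) [] σ h
    have q2 := eqv_fe' H (s := s) [] τ h
    simp only [List.nil_append, List.append_assoc] at q1 q2 he'
    exact Eqv.trans H q1.symm (Eqv.trans H he' q2)

/-- normalisation of the two words -/
lemma lc2_of_nrm {s : Bool} {l : Option S.E} {a : S.A} {σ τ σ' τ' : List S.A}
    (hσ : ∀ w, S.le (S.L s w) (S.L s (S.o2l l ++ [a])) → S.Eqv s (w ++ σ) (w ++ σ'))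
    (hτ : ∀ w, S.le (S.L s w) (S.L s (S.o2l l ++ [a])) → S.Eqv s (w ++ τ) (w ++ τ'))
    (h : S.LC2 s l a σ' τ') : S.LC2 s l a σ τ := by
  intro he
  have q1 := hσ (S.o2l l ++ [a]) (S.le_refl _)
  have q2 := hτ (S.o2l l ++ [a]) (S.le_refl _)
  have q3 := h (by
    simp only [List.append_assoc, List.cons_append, List.nil_append] at q1 q2
    exact Eqv.trans H q1.symm (Eqv.trans H he q2))
  have q4 := hσ (S.o2l (S.L s (S.o2l l ++ [a]))) (by simpa using S.le_refl _)
  have q5 := hτ (S.o2l (S.L s (S.o2l l ++ [a]))) (by simpa using S.le_refl _)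
  exact Eqv.trans H q4 (Eqv.trans H q3 q5.symm)

/-- generators -/
lemma LC2_gen (s : Bool) (l : Option S.E) (x : X) (σ τ : List S.A) :
    S.LC2 s l (Sum.inl x) σ τ := by
  obtain ⟨t, ht, -, ht'⟩ := exists_nrm H s (S.L s (S.o2l l ++ [Sum.inl x])) σ
  obtain ⟨w, hw, -, hw'⟩ := exists_nrm H s (S.L s (S.o2l l ++ [Sum.inl x])) τ
  apply lc2_of_nrm H ht' hw'
  intro he
  have h1 : S.Nrm s l (Sum.inl x :: t) := nrm_consL H ht (by simp)
  have h2 : S.Nrm s l (Sum.inl x :: w) := nrm_consL H hw (by simp)
  have h3 := nrm_unique H h1 h2 he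
  simp only [List.cons.injEq, true_and] at h3
  rw [h3]
  exact Eqv.refl _

/-- `b` of side `s`, raised before `t`: the first letter of `t` is below `b` -/
lemma ltype_nrm {s : Bool} {l b c : S.E} {t : List S.A} (hb : S.side b = s)
    (hc : S.L s (S.o2l (some l) ++ S.o2l (some b)) = some c) (ht : S.Nrm s (some c) t)
    (hR : S.le (S.Rt s (S.o2l (S.par b) ++ t)) (some b)) : S.Nrm s (some l) t := by
  have hr := Nrm.red H ht
  have hRt : S.le (S.Rt s t) (some b) := by
    cases hp : S.par b with
    | none => rw [hp] at hR; simpa using hR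
    | some p =>
      rw [hp] at hR
      obtain ⟨e, h1, h2, h3⟩ := aTTR H (s := s) (y := t) (z := Sum.inr p) (q := b) hb
        (by simpa using hR) (by
          intro e he h4
          simp only [Sum.inr.injEq] at he
          subst he
          exact not_par_le b (hp ▸ h4))
      exact h3
  cases t with
  | nil =>
    exfalso
    simp at hRt
    have := none_le hRt
    simp at this
  | cons z y =>
    obtain ⟨e, rfl, he⟩ := aFirstT H hr hb hRt
    have hcb : S.le (some c) (some b) := by
      rw [← hc]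
      have := aP5L H s (S.o2l (some l)) (S.o2l (some b))
      simpa using this
    have hne : some e ≠ some b := by
      intro h
      simp only [Option.some.injEq] at h
      subst h
      exact Nrm.first H ht hcb
    apply (nrm_ctx H (s := s) (l := some l) he hne).1
    rw [hc]
    exact ht

end

variable (H : ∀ n, S.Good n) (FS : S.FSall)
include H FS

/-- cancellation for two letters, up to one case -/
lemma two_letters {s : Bool} {t w : List S.A} {f : Option S.E}
    (P : ∀ (l : Option S.E) (a : S.A) (σ τ : List S.A), S.wt σ + S.wt τ < S.wt t + S.wt w →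
      S.LC2 s l a σ τ)
    (Hd : ∀ l b c : S.E, S.side b ≠ s → S.le (some l) (S.par b) → some l ≠ S.par b →
      S.le (S.par b) f → ¬ S.le (some l) (some b) → ¬ S.le (some b) (some l) →
      S.L s (S.o2l (some l) ++ S.o2l (some b)) = some c → S.Nrm s (some c) t →
      S.Nrm s (some c) w → S.le (S.Rt s (S.o2l (S.par b) ++ t)) (some b) →
      S.le (S.Rt s (S.o2l (S.par b) ++ w)) (some b) →
      S.Eqv s (S.o2l (some l) ++ t) (S.o2l (some l) ++ w) →
      ¬ (S.Nrm s (some l) t ∧ S.Nrm s (some l) w) →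
      S.Eqv s (S.o2l (some c) ++ t) (S.o2l (some c) ++ w))
    (l : Option S.E) (b : S.E) (hl : S.le l f) (hb : S.le (some b) f) :
    S.LC2 s l (Sum.inr b) t w := by
  induction hm : S.sz b using Nat.strong_induction_on generalizing b with
  | _ m ih =>
    subst hm
    -- comparable
    by_cases hcomp : S.le l (some b) ∨ S.le (some b) l
    · exact lc2_of_le H hcomp
    push Not at hcomp
    obtain ⟨hlb, hbl⟩ := hcomp
    cases l with
    | none => exact absurd (le_none _) hbl
    | some l =>
    have hbf : S.le (S.par b) f := by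
      apply le_cases' hb
      rintro rfl
      exact hlb hl
    have hcb : S.le (S.L s (S.o2l (some l) ++ [Sum.inr b])) (some b) := by
      have := aP5L H s (S.o2l (some l)) (S.o2l (some b))
      simpa using this
    -- normal words
    by_cases htn : S.Nrm s (S.L s (S.o2l (some l) ++ [Sum.inr b])) t
    swap
    · obtain ⟨t', h1, h2, h3⟩ := exists_nrm H s (S.L s (S.o2l (some l) ++ [Sum.inr b])) t
      have h4 : S.wt t' < S.wt t := by
        rcases h2 with h2 | h2
        · subst h2; exact absurd h1 htn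
        · exact h2
      exact lc2_of_nrm H h3 (fun _ _ => Eqv.refl _) (P _ _ t' w (by omega))
    by_cases hwn : S.Nrm s (S.L s (S.o2l (some l) ++ [Sum.inr b])) w
    swap
    · obtain ⟨w', h1, h2, h3⟩ := exists_nrm H s (S.L s (S.o2l (some l) ++ [Sum.inr b])) w
      have h4 : S.wt w' < S.wt w := by
        rcases h2 with h2 | h2
        · subst h2; exact absurd h1 hwn
        · exact h2
      exact lc2_of_nrm H (fun _ _ => Eqv.refl _) h3 (P _ _ t w' (by omega))
    intro he
    -- `b` raised behind `l`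
    by_cases hR1 : S.IsR1 s (S.o2l (some l)) b
    · have hst : S.Step s (S.o2l (some l) ++ Sum.inr b :: []) (S.o2l (some l) ++ (S.o2l (S.par b) ++ [])) :=
        Pre.Step.mk _ b [] (Or.inl hR1)
      have e1 := Eqv.of_step hst
      have e2 := eqvL H e1
      have e3 := Eqv.app_right H t e1
      have e4 := Eqv.app_right H w e1
      simp only [List.append_nil, List.append_assoc, List.cons_append, List.nil_append] at e2 e3 e4
      rw [e2]
      have e5 := Eqv.trans H e3.symm (Eqv.trans H he e4)
      cases hp : S.par b with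
      | none =>
        rw [hp] at e5
        simpa using e5
      | some p =>
        rw [hp] at e5 hbf
        have := ih (S.sz p) (S.sz_par b p hp) p hbf rfl
        unfold LC2 at this
        exact this (by simpa using e5)
    obtain ⟨c, hc⟩ : ∃ c, S.L s (S.o2l (some l) ++ [Sum.inr b]) = some c := by
      cases h : S.L s (S.o2l (some l) ++ [Sum.inr b]) with
      | none =>
        rw [h] at hcb
        have := none_le hcb
        simp at this
      | some c => exact ⟨c, rfl⟩
    rw [hc] at hcb htn hwn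
    have hc' : S.L s [Sum.inr l, Sum.inr b] = some c := by simpa using hc
    by_cases hRt : S.IsR2 s b t
    · by_cases hRw : S.IsR2 s b w
      · -- both raised
        have fin : ∀ l' : S.E, S.le (some l') (S.par b) → some l' ≠ S.par b →
            ¬ S.le (some l') (some b) → ¬ S.le (some b) (some l') →
            S.L s (S.o2l (some l') ++ S.o2l (some b)) = some c →
            S.Eqv s (S.o2l (some l') ++ t) (S.o2l (some l') ++ w) →
            S.Eqv s (S.o2l (some c) ++ t) (S.o2l (some c) ++ w) := by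
          intro l' h1 h2 h3 h4 h5 h6
          by_cases hboth : S.Nrm s (some l') t ∧ S.Nrm s (some l') w
          · rw [nrm_unique H hboth.1 hboth.2 h6]
            exact Eqv.refl _
          · by_cases hside : S.side b = s
            · exfalso
              exact hboth ⟨ltype_nrm H hside h5 htn hRt, ltype_nrm H hside h5 hwn hRw⟩
            · exact Hd l' b c hside h1 h2 hbf h3 h4 h5 htn hwn hRt hRw h6 hboth
        rw [hc]
        have e1 := Eqv.of_step (Pre.Step.mk (S := S.toPre) (s := s) (S.o2l (some l)) b t (Or.inr hRt))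
        have e2 := Eqv.of_step (Pre.Step.mk (S := S.toPre) (s := s) (S.o2l (some l)) b w (Or.inr hRw))
        have e3 := Eqv.trans H e1.symm (Eqv.trans H he e2)
        cases hp : S.par b with
        | none =>
          rw [hp] at e3
          apply fin l (by rw [hp]; exact le_none _) (by rw [hp]; simp) hlb hbl (by simpa using hc)
          simpa using e3
        | some p =>
          rw [hp] at e3 hbf
          have q := ih (S.sz p) (S.sz_par b p hp) p hbf rfl
          unfold LC2 at q
          have q1 := q (by simpa using e3)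
          have hbp : S.le (some b) (some p) := hp ▸ le_par b
          have hl'p : S.le (S.L s (S.o2l (some l) ++ [Sum.inr p])) (some p) := by
            have := aP5L H s (S.o2l (some l)) (S.o2l (some p))
            simpa using this
          by_cases heq : S.L s (S.o2l (some l) ++ [Sum.inr p]) = some p
          · -- `l' = p`
            rw [heq] at q1
            have k1 : ∀ ρ : List S.A, S.Eqv s (S.o2l (some c) ++ ρ)
                (S.o2l (some c) ++ S.o2l (some b) ++ (S.o2l (some p) ++ ρ)) := by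
              intro ρ
              have r1 := (eqv_ef' H (s := s) ρ hcb).symm
              have r2 := (eqv_ef H (s := s) (S.o2l (some c)) ρ hbp).symm
              have r3 := Eqv.trans H r1 r2
              simpa using r3
            exact Eqv.trans H (k1 t) (Eqv.trans H (Eqv.app_left H _ q1) (k1 w).symm)
          · cases hl' : S.L s (S.o2l (some l) ++ [Sum.inr p]) with
            | none =>
              rw [hl'] at hl'p
              have := none_le hl'p
              simp at this
            | some l' =>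
              rw [hl'] at q1 hl'p heq
              have h3 : ¬ S.le (some l') (some b) := by
                intro h
                apply hR1
                unfold Pre.IsR1
                rw [hp]
                have : S.L s (S.o2l (some l) ++ S.o2l (some p)) = some l' := by simpa using hl'
                rw [this]
                exact h
              apply fin l' (by rw [hp]; exact hl'p) (by rw [hp]; exact heq) h3 _ _ q1
              · intro h
                rcases le_cases h with h5 | h5
                · exact h3 (h5 ▸ S.le_refl _)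
                · rw [hp] at h5
                  exact heq (le_antisymm hl'p h5)
              · have r1 := aP3L H s (S.o2l (some l) ++ [Sum.inr p]) (S.o2l (some b))
                rw [hl'] at r1
                rw [← r1]
                have r2 := eqvL H (eqv_fe' H (s := s) (S.o2l (some l)) [] hbp)
                simp only [o2l_some, List.cons_append, List.nil_append,
                  List.append_nil] at r2 hc ⊢
                rw [r2, hc]
      · exfalso
        exact lemOne H FS hlb hbl hc' hR1 htn hwn (by simpa using he) hRt hRw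
    · by_cases hRw : S.IsR2 s b w
      · exfalso
        exact lemOne H FS hlb hbl hc' hR1 hwn htn (by simpa using he.symm) hRw hRt
      · -- none raised
        have h1 : S.Nrm s (some l) (Sum.inr b :: t) := nrm_consL H (by rw [hc]; exact htn) (by
          intro k hk
          simp only [Sum.inr.injEq] at hk
          subst hk
          exact ⟨hR1, hRt⟩)
        have h2 : S.Nrm s (some l) (Sum.inr b :: w) := nrm_consL H (by rw [hc]; exact hwn) (by
          intro k hk
          simp only [Sum.inr.injEq] at hk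
          subst hk
          exact ⟨hR1, hRw⟩)
        have h3 := nrm_unique H h1 h2 he
        simp only [List.cons.injEq, true_and] at h3
        rw [h3]
        exact Eqv.refl _

omit H FS in
/-- same first letter, or comparable first letters -/
def FirstCmp (S : Sys X) (t w : List S.A) : Prop :=
  (∃ (a : S.A) (t' w' : List S.A), t = a :: t' ∧ w = a :: w') ∨
  ∃ (e1 e2 : S.E) (t' w' : List S.A), t = Sum.inr e1 :: t' ∧ w = Sum.inr e2 :: w' ∧
    (S.le (some e1) (some e2) ∨ S.le (some e2) (some e1))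

omit H FS in
/-- the remaining case -/
def Star (S : Sys X) (s : Bool) (l b : S.E) (t w : List S.A) : Prop :=
  ∃ (p t1 w1 g e0 e' : S.E) (M u wr Wp w2 : List S.A), S.par b = some p ∧
    t = Sum.inr t1 :: (M ++ u) ∧ w = Sum.inr w1 :: wr ∧
    ¬ S.le (some t1) (some w1) ∧ ¬ S.le (some w1) (some t1) ∧
    S.le (some t1) (some g) ∧ S.le (some w1) (some g) ∧ ¬ S.le (some p) (some g) ∧
    S.Nrm s (some p) (Sum.inr t1 :: M) ∧ S.Rt s (Sum.inr p :: Sum.inr t1 :: M) = some b ∧
    S.Nrm s (some l) w ∧ w = Wp ++ Sum.inr e0 :: w2 ∧ S.le (some e0) (some e') ∧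
    S.Rt s (Sum.inr p :: (Wp ++ [Sum.inr e'])) = some b ∧
    S.Eqv s (Sum.inr p :: (Wp ++ S.opr s (Sum.inr e'))) (Sum.inr p :: Sum.inr t1 :: M)

/-- the mixed case: `t` is not normal behind `l` -/
lemma mixed {s : Bool} {l b c : S.E} {t w : List S.A} (hb : S.side b ≠ s)
    (hl : S.le (some l) (S.par b)) (hlp : some l ≠ S.par b)
    (hlb : ¬ S.le (some l) (some b)) (hbl : ¬ S.le (some b) (some l))
    (hc : S.L s (S.o2l (some l) ++ S.o2l (some b)) = some c) (ht : S.Nrm s (some c) t)
    (hw : S.Nrm s (some c) w) (hRt : S.le (S.Rt s (S.o2l (S.par b) ++ t)) (some b))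
    (hRw : S.le (S.Rt s (S.o2l (S.par b) ++ w)) (some b))
    (he : S.Eqv s (S.o2l (some l) ++ t) (S.o2l (some l) ++ w))
    (hnt : ¬ S.Nrm s (some l) t) : S.FirstCmp t w ∨ S.Star s l b t w := by
  have hc' : S.L s [Sum.inr l, Sum.inr b] = some c := by simpa using hc
  have hcb : S.le (some c) (some b) := by
    rw [← hc]
    have := aP5L H s (S.o2l (some l)) (S.o2l (some b))
    simpa using this
  obtain ⟨p, m, q, u, P, hp, ht', hq, hRq, hopr, hpP, hfirst⟩ :=
    (lemS H FS hb hl hlp hlb hbl hc' ht hRt).resolve_left hnt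
  by_cases hwn : S.Nrm s (some l) w
  swap
  · -- both not normal
    left; left
    obtain ⟨p', m', q', u', P', hp', hw', hq', hRq', hopr', hpP', hfirst'⟩ :=
      (lemS H FS hb hl hlp hlb hbl hc' hw hRw).resolve_left hwn
    have hpp : p' = p := by
      rw [hp] at hp'
      exact (Option.some.inj hp').symm
    subst hpp
    rw [hopr] at hopr'
    have hfin : m ++ [Sum.inr q] = m' ++ [Sum.inr q'] →
        ∃ (a : S.A) (t' w' : List S.A), t = a :: t' ∧ w = a :: w' := by
      intro hmm
      have e1 : t = (m ++ [Sum.inr q]) ++ u := by rw [ht']; simp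
      have e2 : w = (m ++ [Sum.inr q]) ++ u' := by rw [hw', hmm]; simp
      cases hT : m ++ [Sum.inr q] with
      | nil => simp at hT
      | cons z M =>
        rw [hT] at e1 e2
        exact ⟨z, M ++ u, M ++ u', by rw [e1]; simp, by rw [e2]; simp⟩
    cases P with
    | none =>
      cases P' with
      | none => exact hfin (by simpa using hopr')
      | some P' =>
        exfalso
        simp only [o2l_none, List.nil_append, o2l_some, List.cons_append] at hopr'
        have e1 : t = Sum.inr P' :: ((m' ++ [Sum.inr q']) ++ u) := by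
          have : t = (m ++ [Sum.inr q]) ++ u := by rw [ht']; simp
          rw [this, hopr']; simp
        exact (hfirst P' _ e1).2 hpP'
    | some P =>
      cases P' with
      | none =>
        exfalso
        simp only [o2l_none, List.nil_append, o2l_some, List.cons_append] at hopr'
        have e1 : w = Sum.inr P :: ((m ++ [Sum.inr q]) ++ u') := by
          have : w = (m' ++ [Sum.inr q']) ++ u' := by rw [hw']; simp
          rw [this, ← hopr']; simp
        exact (hfirst' P _ e1).2 hpP
      | some P' =>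
        simp only [o2l_some, List.cons_append, List.nil_append, List.cons.injEq] at hopr'
        exact hfin hopr'.2
  -- `w` is normal behind `l`
  obtain ⟨z, M, hT⟩ : ∃ z M, m ++ [Sum.inr q] = z :: M := by
    cases hT : m ++ [Sum.inr q] with
    | nil => simp at hT
    | cons z M => exact ⟨z, M, rfl⟩
  have ht2 : t = z :: (M ++ u) := by
    have : t = (m ++ [Sum.inr q]) ++ u := by rw [ht']; simp
    rw [this, hT]; simp
  cases z with
  | inl x =>
    left; left
    rw [ht2] at he
    obtain ⟨w', hw'⟩ := first_X H hwn he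
    exact ⟨Sum.inl x, M ++ u, w', ht2, hw'⟩
  | inr t1 =>
  obtain ⟨ht1p, hpt1⟩ := hfirst t1 _ ht2
  -- the first prefix
  obtain ⟨Wp, z, w2, hwW, hQ1, hQ2⟩ := first_prefix
    (fun v => S.le (S.Rt s (Sum.inr p :: v)) (some b)) w
    (by
      intro h
      simp only [Rt_single] at h
      exact not_par_le b (hp ▸ h))
    (by
      rw [hp] at hRw
      simpa using hRw)
  have hRp : S.Rt s (Sum.inr p :: Wp) = some p := by
    have r1 := aP5R H s (Sum.inr p :: Wp) (z :: w2)
    have r2 : S.le (S.Rt s ((Sum.inr p :: Wp) ++ z :: w2)) (some b) := by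
      have : (Sum.inr p :: Wp) ++ z :: w2 = S.o2l (S.par b) ++ w := by rw [hp, hwW]; simp
      rw [this]
      exact hRw
    obtain ⟨r3, r4⟩ := lt_of_not_le r2 r1 hQ1
    have r5 := le_cases' r3 r4.symm
    rw [hp] at r5
    have r6 := aP5R H s [Sum.inr p] Wp
    simp only [List.cons_append, List.nil_append, Rt_single] at r6
    exact le_antisymm r6 r5
  cases z with
  | inl x =>
    exfalso
    rcases mfR H s (Sum.inl x) (Sum.inr p :: Wp) with h | ⟨κ, h1, h2, h3, h4⟩
    · simp only [up_inl, List.append_nil, List.cons_append] at h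
      rw [h, hRp] at hQ2
      exact not_par_le b (hp ▸ hQ2)
    · simp only [up_inl, List.append_nil, List.cons_append] at h1 h2
      rw [h1] at hQ2
      rw [hRp] at h2
      rcases le_cases hQ2 with h5 | h5
      · have hκ : κ = b := (Option.some.inj h5).symm
        subst hκ
        rw [hopr] at h4
        simp [Pre.opr, Pre.op] at h4
      · rw [h2] at h5
        exact not_par_le b (hp ▸ h5)
  | inr e0 =>
  obtain ⟨e', he0, -, he2, -, he4, -⟩ := aCrossR H (s := s) (e := some e0) (P := none)
    (Z := Sum.inr p :: Wp) (q := b) (le_none _) (by simpa using hQ2) (by simpa using hQ1)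
  have hst : S.Steps s (Sum.inr p :: (m ++ [Sum.inr q])) (S.opr s (Sum.inr b)) := by
    have := aStepsR2 H (s := s) [] (m ++ [Sum.inr q]) (f0 := some p) (G := P) hpP (by
      rw [← hopr, S.Rt_opr, ← hp]
      exact le_par b)
    rw [hopr]
    simpa using this
  have hsig : S.Eqv s (Sum.inr p :: (Wp ++ S.opr s (Sum.inr e'))) (Sum.inr p :: Sum.inr t1 :: M) := by
    have r1 := Eqv.of_steps he4
    have r2 := Eqv.of_steps hst
    rw [hT] at r2
    exact Eqv.trans H (by simpa using r1) r2.symm
  have hMn : S.Nrm s (some p) (Sum.inr t1 :: M) := by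
    have r1 := Nrm.mono H (le_trans hcb (hp ▸ le_par b)) ht
    rw [ht2] at r1
    exact Nrm.left H (u := Sum.inr t1 :: M) (v := u) (by simpa using r1)
  obtain ⟨w1, wr, hw1, hw1'⟩ : ∃ w1 wr, w = Sum.inr w1 :: wr ∧
      ((Wp = [] ∧ w1 = e0) ∨ ∃ W', Wp = Sum.inr w1 :: W') := by
    cases Wp with
    | nil => exact ⟨e0, w2, by simpa using hwW, Or.inl ⟨rfl, rfl⟩⟩
    | cons z' W' =>
      cases z' with
      | inl x =>
        exfalso
        obtain ⟨w', hw'⟩ := first_X H (l := some p) (x := x) (σ := W' ++ S.opr s (Sum.inr e')) hMn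
          (by simpa using hsig)
        simp at hw'
      | inr w1 => exact ⟨w1, W' ++ Sum.inr e0 :: w2, by simpa using hwW, Or.inr ⟨W', rfl⟩⟩
  by_cases hcmp : S.le (some t1) (some w1) ∨ S.le (some w1) (some t1)
  · left; right
    exact ⟨t1, w1, M ++ u, wr, ht2, hw1, hcmp⟩
  push Not at hcmp
  obtain ⟨htw, hwt⟩ := hcmp
  rw [hp] at hl hlp
  rw [hw1] at hwn
  have hlw1 : ¬ S.le (some l) (some w1) := Nrm.first H hwn
  have hpw1 : ¬ S.le (some p) (some w1) := fun h => hlw1 (le_trans hl h)
  have heq : S.Eqv s (Sum.inr l :: t) (Sum.inr l :: Sum.inr w1 :: wr) := by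
    rw [← hw1]
    simpa using he
  have hw1p : ¬ S.le (some w1) (some p) := by
    intro h
    obtain ⟨a, ρ, h1, h2⟩ := Rstar H (f := some p) hl hlp h (by
      intro h3
      simp only [Option.some.injEq] at h3
      subst h3
      exact hlw1 hl) hwn heq
    rw [ht2] at h1
    simp only [List.cons.injEq, Sum.inr.injEq] at h1
    obtain ⟨h1, -⟩ := h1
    subst h1
    rcases h2 with h2 | ⟨g, h2, h3, -⟩
    · exact hpt1 h2
    · exact ht1p (le_trans h3 (h2 ▸ le_par g))
  obtain ⟨f', hf1, hf2, hf3⟩ := join_exists (S := S) (some p) (some w1)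
  obtain ⟨a, ρ, h1, h2⟩ := Rstar H (f := f') (le_trans hl hf1) (by
      rintro rfl
      exact hlp (le_antisymm hl hf1)) hf2 (by
      rintro rfl
      exact hpw1 hf1) hwn heq
  rw [ht2] at h1
  simp only [List.cons.injEq, Sum.inr.injEq] at h1
  obtain ⟨h1, -⟩ := h1
  subst h1
  rcases h2 with h2 | ⟨g, hg1, hg2, hg3⟩
  · exact absurd (le_trans hf1 h2) hpt1
  have hgpar : ¬ (S.le (some p) (some g) ∧ S.le (some w1) (some g)) := by
    rintro ⟨h3, h4⟩
    have := hf3 (some g) h3 h4
    rw [← hg1] at this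
    exact not_par_le g this
  rcases hg3 with hg3 | hg3
  · -- the output
    right
    refine ⟨p, t1, w1, g, e0, e', M, u, wr, Wp, w2, hp, ht2, hw1, htw, hwt, hg2, hg3,
      fun h => hgpar ⟨h, hg3⟩, hMn, ?_, by rw [hw1]; exact hwn, hwW, he0, by simpa using he2, hsig⟩
    rw [hT] at hRq
    exact hRq
  · exfalso
    have hpg : S.le (some p) (some g) := by
      rcases le_total_above hl hg3 with h3 | h3
      · exact h3
      · rcases le_cases h3 with h4 | h4
        · rw [h4]; exact S.le_refl _
        · rw [hg1] at h4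
          exact absurd (le_trans hf2 h4) hw1p
    have hw1g : ¬ S.le (some w1) (some g) := fun h => hgpar ⟨hpg, h⟩
    obtain ⟨fp, hfp1, hfp2, hfp3⟩ := join_exists (S := S) (some p) (some t1)
    have hfpg := hfp3 (some g) hpg hg2
    have hsig2 : S.Eqv s (Sum.inr p :: (Wp ++ Sum.inr e' :: S.opr s (Sum.inr e')))
        (Sum.inr p :: Sum.inr t1 :: M) := by
      have r1 := eqv_absorbR H (s := s) (Sum.inr p :: Wp) (S.opr s (Sum.inr e')) (f := some e')
        (by rw [S.Rt_opr]; exact S.le_refl _)
      exact Eqv.trans H (by simpa using r1) hsig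
    obtain ⟨a, ρ, h3, h4⟩ := Rstar H (f := fp) hfp1 (by
      rintro rfl
      exact ht1p hfp2) hfp2 (by
      rintro rfl
      exact hpt1 hfp1) hMn hsig2
    have h5 : S.le fp (some a) ∨ S.le (some a) fp := by
      rcases h4 with h4 | ⟨g', h5, h6, -⟩
      · exact Or.inl h4
      · exact Or.inr (le_trans h6 (h5 ▸ le_par g'))
    rcases hw1' with ⟨hW, hwe⟩ | ⟨W', hW⟩
    · subst hW
      subst hwe
      simp only [List.nil_append, List.cons.injEq, Sum.inr.injEq] at h3 he2
      obtain ⟨h3, -⟩ := h3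
      subst h3
      rcases h5 with h5 | h5
      · have r1 := eqvR H (eqv_ef' H (s := s) [] (le_trans hfp1 h5))
        simp only [o2l_some, List.cons_append, List.nil_append, Rt_single] at r1 he2
        rw [r1] at he2
        exact par_ne b (by rw [hp, he2])
      · exact hw1g (le_trans he0 (le_trans h5 hfpg))
    · subst hW
      simp only [List.cons_append, List.cons.injEq, Sum.inr.injEq] at h3
      obtain ⟨h3, -⟩ := h3
      subst h3
      rcases h5 with h5 | h5
      · exact hpw1 (le_trans hfp1 h5)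
      · exact hw1g (le_trans h5 hfpg)

/-- cancellation behind letters below the join of the first letters -/
lemma cstar {s : Bool} {t w : List S.A}
    (P : ∀ (l : Option S.E) (a : S.A) (σ τ : List S.A), S.wt σ + S.wt τ < S.wt t + S.wt w →
      S.LC2 s l a σ τ) {t1 w1 : S.E} {t' w' : List S.A} (ht : t = Sum.inr t1 :: t')
    (hw : w = Sum.inr w1 :: w') (h1 : ¬ S.le (some t1) (some w1))
    (h2 : ¬ S.le (some w1) (some t1)) {f : Option S.E}
    (hf : ∀ k, S.le (some t1) k → S.le (some w1) k → S.le f k) (l : Option S.E) (b : S.E)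
    (hl : S.le l f) (hb : S.le (some b) f) : S.LC2 s l (Sum.inr b) t w := by
  apply two_letters H FS P _ l b hl hb
  intro l b c hside hl1 hl2 hpf hlb hbl hc htn hwn hRt hRw he hnot
  exfalso
  by_cases hnt : S.Nrm s (some l) t
  · have hnw : ¬ S.Nrm s (some l) w := fun h => hnot ⟨hnt, h⟩
    rcases mixed H FS hside hl1 hl2 hlb hbl hc hwn htn hRw hRt he.symm hnw with
      (⟨a, t2, w2, e1, e2⟩ | ⟨x1, x2, t2, w2, e1, e2, h3⟩) |
      ⟨p, x1, x2, g, e0, e', M, u, wr, Wp, w2, hp, e1, e2, -, -, h3, h4, h5, -⟩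
    · rw [hw] at e1
      rw [ht] at e2
      simp only [List.cons.injEq] at e1 e2
      obtain ⟨e1, -⟩ := e1
      obtain ⟨e2, -⟩ := e2
      rw [← e1] at e2
      simp only [Sum.inr.injEq] at e2
      subst e2
      exact h1 (S.le_refl _)
    · rw [hw] at e1
      rw [ht] at e2
      simp only [List.cons.injEq, Sum.inr.injEq] at e1 e2
      obtain ⟨e1, -⟩ := e1
      obtain ⟨e2, -⟩ := e2
      subst e1
      subst e2
      rcases h3 with h3 | h3
      · exact h2 h3
      · exact h1 h3
    · rw [hw] at e1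
      rw [ht] at e2
      simp only [List.cons.injEq, Sum.inr.injEq] at e1 e2
      obtain ⟨e1, -⟩ := e1
      obtain ⟨e2, -⟩ := e2
      subst e1
      subst e2
      rw [hp] at hpf
      exact h5 (le_trans hpf (hf _ h4 h3))
  · rcases mixed H FS hside hl1 hl2 hlb hbl hc htn hwn hRt hRw he hnt with
      (⟨a, t2, w2, e1, e2⟩ | ⟨x1, x2, t2, w2, e1, e2, h3⟩) |
      ⟨p, x1, x2, g, e0, e', M, u, wr, Wp, w2, hp, e1, e2, -, -, h3, h4, h5, -⟩
    · rw [ht] at e1
      rw [hw] at e2
      simp only [List.cons.injEq] at e1 e2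
      obtain ⟨e1, -⟩ := e1
      obtain ⟨e2, -⟩ := e2
      rw [← e1] at e2
      simp only [Sum.inr.injEq] at e2
      subst e2
      exact h1 (S.le_refl _)
    · rw [ht] at e1
      rw [hw] at e2
      simp only [List.cons.injEq, Sum.inr.injEq] at e1 e2
      obtain ⟨e1, -⟩ := e1
      obtain ⟨e2, -⟩ := e2
      subst e1
      subst e2
      rcases h3 with h3 | h3
      · exact h1 h3
      · exact h2 h3
    · rw [ht] at e1
      rw [hw] at e2
      simp only [List.cons.injEq, Sum.inr.injEq] at e1 e2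
      obtain ⟨e1, -⟩ := e1
      obtain ⟨e2, -⟩ := e2
      subst e1
      subst e2
      rw [hp] at hpf
      exact h5 (le_trans hpf (hf _ h3 h4))

/-- the case `Star` -/
lemma star_fin {s : Bool} {t w : List S.A}
    (P : ∀ (l : Option S.E) (a : S.A) (σ τ : List S.A), S.wt σ + S.wt τ < S.wt t + S.wt w →
      S.LC2 s l a σ τ) {l b : S.E}
    (hl : S.le (some l) (S.par b))
    (he : S.Eqv s (S.o2l (some l) ++ t) (S.o2l (some l) ++ w)) (hS : S.Star s l b t w) :
    S.Eqv s (S.o2l (S.L s (S.o2l (some l) ++ S.o2l (some b))) ++ t)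
      (S.o2l (S.L s (S.o2l (some l) ++ S.o2l (some b))) ++ w) := by
  obtain ⟨p, t1, w1, g, e0, e', M, u, wr, Wp, w2, hp, ht, hw, htw, hwt, htg, hwg, hpg, hMn, hRM,
    hwn, hwW, he0, hRe', hsig⟩ := hS
  obtain ⟨j, hj1, hj2, hj3⟩ := join_exists (S := S) (some t1) (some w1)
  obtain ⟨fs, rfl⟩ : ∃ fs, j = some fs := by
    cases j with
    | none =>
      have := none_le (hj3 _ htg hwg)
      simp at this
    | some fs => exact ⟨fs, rfl⟩
  have hne1 : some t1 ≠ some fs := by
    intro h
    exact hwt (h ▸ hj2)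
  have hne2 : some w1 ≠ some fs := by
    intro h
    exact htw (h ▸ hj1)
  have abt : ∀ v : List S.A, S.Eqv s (v ++ Sum.inr fs :: t) (v ++ t) := by
    intro v
    have := eqv_fe' H (s := s) v (M ++ u) hj1
    rw [ht]
    simpa using this
  have abw : ∀ v : List S.A, S.Eqv s (v ++ Sum.inr fs :: w) (v ++ w) := by
    intro v
    have := eqv_fe' H (s := s) v wr hj2
    rw [hw]
    simpa using this
  -- cancellation behind `l fs`
  have h1 : S.Eqv s (S.o2l (S.L s (S.o2l (some l) ++ [Sum.inr fs])) ++ t)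
      (S.o2l (S.L s (S.o2l (some l) ++ [Sum.inr fs])) ++ w) := by
    have hn : S.Nrm s (S.L s (S.o2l (some l) ++ S.o2l (some fs))) (Sum.inr w1 :: wr) :=
      (nrm_ctx H hj2 hne2).2 (by rw [← hw]; exact hwn)
    have q := propW H FS (s := s) (l := some l) (b := some fs) (σ := t) hj2 hne2 hn (by
      have r1 := abt (S.o2l (some l))
      have r2 := abw (S.o2l (some l))
      rw [← hw]
      simp only [o2l_some, List.cons_append, List.nil_append] at r1 r2 he ⊢
      exact Eqv.trans H r1 (Eqv.trans H he r2.symm))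
    rw [← hw] at q
    simpa using q
  have hFfs : S.le (S.L s (S.o2l (S.par b) ++ [Sum.inr fs])) (some fs) := by
    have := aP5L H s (S.o2l (S.par b)) (S.o2l (some fs))
    simpa using this
  suffices hgoal : S.Eqv s
      (S.o2l (S.L s (S.o2l (some l) ++ S.o2l (some b))) ++ Sum.inr fs :: t)
      (S.o2l (S.L s (S.o2l (some l) ++ S.o2l (some b))) ++ Sum.inr fs :: w) from
    Eqv.trans H (abt _).symm (Eqv.trans H hgoal (abw _))
  by_cases hR : S.le (S.Rt s (S.o2l (S.par b) ++ [Sum.inr fs])) (some b)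
  · apply core H (p := S.par b) (y0 := S.L s (S.o2l (S.par b) ++ [Sum.inr fs])) hl (le_par b)
      (Eqv.refl _) (Eqv.refl _) _ h1
    · intro o ho h2
      have e1 := eqv_ef' H (s := s) t ho
      have e2 := eqv_ef' H (s := s) w ho
      have e3 : S.L s (S.o2l o ++ S.o2l (S.L s (S.o2l (S.par b) ++ [Sum.inr fs]))) = o := by
        have := aAbsorbL H (s := s) (u := S.o2l o) (f := S.L s (S.o2l (S.par b) ++ [Sum.inr fs]))
          (by simpa using ho)
        simpa using this
      rw [e3]
      exact Eqv.trans H e1.symm (Eqv.trans H h2 e2)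
    · have e1 := eqv_absorbL H (s := s) (S.o2l (S.par b) ++ [Sum.inr fs]) []
        (S.le_refl (S.L s (S.o2l (S.par b) ++ [Sum.inr fs])))
      have e2 := eqvR H e1
      simp only [List.append_nil, List.append_assoc, List.cons_append, List.nil_append] at e2
      rw [e2]
      exact hR
  · rw [hp] at hR hFfs hl
    have hbp : S.le (some b) (some p) := hp ▸ le_par b
    -- behind `p fs`
    have hFM : S.Eqv s (S.o2l (S.L s (S.o2l (some p) ++ [Sum.inr fs])) ++
          (Wp ++ S.opr s (Sum.inr e')))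
        (S.o2l (S.L s (S.o2l (some p) ++ [Sum.inr fs])) ++ Sum.inr t1 :: M) := by
      have hn : S.Nrm s (S.L s (S.o2l (some p) ++ S.o2l (some fs))) (Sum.inr t1 :: M) :=
        (nrm_ctx H hj1 hne1).2 hMn
      have q := propW H FS (s := s) (l := some p) (b := some fs)
        (σ := Wp ++ S.opr s (Sum.inr e')) hj1 hne1 hn (by
          have r1 : S.Eqv s (S.o2l (some p) ++ S.o2l (some fs) ++ (Wp ++ S.opr s (Sum.inr e')))
              (Sum.inr p :: (Wp ++ S.opr s (Sum.inr e'))) := by
            cases Wp with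
            | nil =>
              rw [hw] at hwW
              simp only [List.nil_append, List.cons.injEq, Sum.inr.injEq] at hwW
              obtain ⟨hwe, -⟩ := hwW
              subst hwe
              have hle : S.le (some e') (some fs) := by
                rcases le_total_above he0 hj2 with h | h
                · exact h
                · exfalso
                  apply hR
                  have := aMonoR H (s := s) (S.o2l (some p)) h
                  simp only [o2l_some, List.cons_append, List.nil_append] at this hRe' ⊢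
                  rw [hRe'] at this
                  exact this
              have := eqv_absorbR H (s := s) (S.o2l (some p)) (S.opr s (Sum.inr e'))
                (f := some fs) (by rw [S.Rt_opr]; exact hle)
              simpa using this
            | cons z W' =>
              rw [hw] at hwW
              simp only [List.cons_append, List.cons.injEq] at hwW
              obtain ⟨hwe, -⟩ := hwW
              subst hwe
              have := eqv_fe' H (s := s) (S.o2l (some p)) (W' ++ S.opr s (Sum.inr e')) hj2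
              simpa using this
          have r2 : S.Eqv s (S.o2l (some p) ++ S.o2l (some fs) ++ Sum.inr t1 :: M)
              (Sum.inr p :: Sum.inr t1 :: M) := by
            have := eqv_fe' H (s := s) (S.o2l (some p)) M hj1
            simpa using this
          exact Eqv.trans H r1 (Eqv.trans H hsig r2.symm))
      simpa using q
    have hy0 := eqvR H hFM
    have hy0' : S.Rt s (S.o2l (S.L s (S.o2l (some p) ++ [Sum.inr fs])) ++ (Wp ++ [Sum.inr e'])) =
        S.Rt s (S.o2l (S.L s (S.o2l (some p) ++ [Sum.inr fs])) ++ Sum.inr t1 :: M) := by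
      rw [← hy0]
      have r1 := aP3R H s (S.o2l (S.L s (S.o2l (some p) ++ [Sum.inr fs])) ++ Wp)
        (S.opr s (Sum.inr e'))
      rw [S.Rt_opr] at r1
      simp only [List.append_assoc, o2l_some] at r1 ⊢
      exact r1.symm
    have hy0F : S.le (S.Rt s (S.o2l (S.L s (S.o2l (some p) ++ [Sum.inr fs])) ++ Sum.inr t1 :: M))
        (S.L s (S.o2l (some p) ++ [Sum.inr fs])) := by
      have := aP5R H s (S.o2l (S.L s (S.o2l (some p) ++ [Sum.inr fs]))) (Sum.inr t1 :: M)
      simpa using this
    have key : ∀ ρ : List S.A,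
        S.le (S.Rt s (S.o2l (S.L s (S.o2l (some p) ++ [Sum.inr fs])) ++ ρ))
          (S.Rt s (S.o2l (S.L s (S.o2l (some p) ++ [Sum.inr fs])) ++ Sum.inr t1 :: M)) →
        S.Eqv s (S.o2l (S.L s (S.o2l (some p) ++ [Sum.inr fs])) ++ ρ)
          (S.o2l (S.Rt s (S.o2l (S.L s (S.o2l (some p) ++ [Sum.inr fs])) ++ Sum.inr t1 :: M)) ++
            ρ) := by
      intro ρ q1
      have q2 := (eqv_absorbR H (s := s) [] (S.o2l (S.L s (S.o2l (some p) ++ [Sum.inr fs])) ++ ρ)
        q1).symm
      have q4 := eqv_ef' H (s := s) ρ hy0F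
      simp only [List.nil_append] at q2
      rw [← List.append_assoc] at q2
      exact Eqv.trans H q2 q4
    have c1 := core H (s := s) (l := some l) (p := some p) (b := some b) (a := Sum.inr fs)
      (σ := t) (τ := w)
      (y0 := S.Rt s (S.o2l (S.L s (S.o2l (some p) ++ [Sum.inr fs])) ++ Sum.inr t1 :: M)) hl hbp
    apply c1 _ _ _ h1
    · -- induction hypothesis
      intro o ho h2
      cases hy : S.Rt s (S.o2l (S.L s (S.o2l (some p) ++ [Sum.inr fs])) ++ Sum.inr t1 :: M) with
      | none =>
        rw [hy] at h2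
        simpa using h2
      | some y =>
        rw [hy] at h2 hy0F
        have q := cstar H FS P ht hw htw hwt (f := some fs) hj3 o y (le_trans ho hFfs)
          (le_trans hy0F hFfs)
        unfold LC2 at q
        simp only [o2l_some, List.append_assoc, List.cons_append, List.nil_append] at h2 q ⊢
        exact q h2
    · apply key
      rw [ht]
      have := aP5R H s (S.o2l (S.L s (S.o2l (some p) ++ [Sum.inr fs])) ++ Sum.inr t1 :: M) u
      simpa using this
    · apply key
      rw [← hy0', hwW]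
      have r1 := aP5R H s (S.o2l (S.L s (S.o2l (some p) ++ [Sum.inr fs])) ++ Wp ++ [Sum.inr e0]) w2
      have r2 := aMonoR H (s := s)
        (S.o2l (S.L s (S.o2l (some p) ++ [Sum.inr fs])) ++ Wp) he0
      simp only [List.append_assoc, o2l_some, List.cons_append, List.nil_append] at r1 r2 ⊢
      exact le_trans r1 r2
    · have r1 := aP3R H s (S.o2l (some p) ++ [Sum.inr fs])
        (S.o2l (S.L s (S.o2l (some p) ++ [Sum.inr fs])) ++ Sum.inr t1 :: M)
      have r2 := eqvR H (eqv_absorbL H (s := s) (S.o2l (some p) ++ [Sum.inr fs]) (Sum.inr t1 :: M)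
        (S.le_refl (S.L s (S.o2l (some p) ++ [Sum.inr fs]))))
      have r3 := eqvR H (eqv_fe' H (s := s) (S.o2l (some p)) M hj1)
      simp only [o2l_some, List.cons_append, List.nil_append] at r1 r2 r3 ⊢
      rw [← r1, r2, r3, hRM]
      exact S.le_refl _

/-- the handler of the main theorem -/
lemma handler {s : Bool} {t w : List S.A}
    (P : ∀ (l : Option S.E) (a : S.A) (σ τ : List S.A), S.wt σ + S.wt τ < S.wt t + S.wt w →
      S.LC2 s l a σ τ)
    {l b c : S.E} (hb : S.side b ≠ s)
    (hl : S.le (some l) (S.par b)) (hlp : some l ≠ S.par b)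
    (hlb : ¬ S.le (some l) (some b)) (hbl : ¬ S.le (some b) (some l))
    (hc : S.L s (S.o2l (some l) ++ S.o2l (some b)) = some c) (ht : S.Nrm s (some c) t)
    (hw : S.Nrm s (some c) w) (hRt : S.le (S.Rt s (S.o2l (S.par b) ++ t)) (some b))
    (hRw : S.le (S.Rt s (S.o2l (S.par b) ++ w)) (some b))
    (he : S.Eqv s (S.o2l (some l) ++ t) (S.o2l (some l) ++ w))
    (hnt : ¬ S.Nrm s (some l) t) :
    S.Eqv s (S.o2l (some c) ++ t) (S.o2l (some c) ++ w) := by
  have fin : ∀ (a : S.A) (σ τ : List S.A), (∀ v, S.Eqv s (v ++ a :: σ) (v ++ t)) →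
      (∀ v, S.Eqv s (v ++ a :: τ) (v ++ w)) → S.wt σ + S.wt τ < S.wt t + S.wt w →
      S.Eqv s (S.o2l (some c) ++ t) (S.o2l (some c) ++ w) := by
    intro a σ τ h1 h2 h3
    have q := commonL H P (l := some l) (b := b) hl h3
      (Eqv.trans H (h1 _) (Eqv.trans H he (h2 _).symm)) (by rw [eqvR H (h1 _)]; exact hRt)
      (by rw [eqvR H (h2 _)]; exact hRw)
    rw [hc] at q
    exact Eqv.trans H (h1 _).symm (Eqv.trans H q (h2 _))
  rcases mixed H FS hb hl hlp hlb hbl hc ht hw hRt hRw he hnt with
    (⟨a, t', w', e1, e2⟩ | ⟨x1, x2, t', w', e1, e2, h3 | h3⟩) | hS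
  · apply fin a t' w' (fun v => by rw [e1]; exact Eqv.refl _)
      (fun v => by rw [e2]; exact Eqv.refl _)
    have := S.wtA_pos a
    rw [e1, e2]
    simp
    omega
  · apply fin (Sum.inr x2) t w' _ (fun v => by rw [e2]; exact Eqv.refl _)
    · have := S.sz_pos x2
      rw [e2]
      simp
      omega
    · intro v
      have := eqv_fe' H (s := s) v t' h3
      rw [e1]
      simpa using this
  · apply fin (Sum.inr x1) t' w (fun v => by rw [e1]; exact Eqv.refl _)
    · intro v
      have := eqv_fe' H (s := s) v w' h3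
      rw [e2]
      simpa using this
    · have := S.sz_pos x1
      rw [e1]
      simp
      omega
  · have q := star_fin H FS P hl he hS
    rw [hc] at q
    exact q

/-- cancellation for two letters -/
theorem LC2_all (s : Bool) (l : Option S.E) (a : S.A) (σ τ : List S.A) : S.LC2 s l a σ τ := by
  induction hm : S.wt σ + S.wt τ using Nat.strong_induction_on generalizing l a σ τ with
  | _ m ih =>
    subst hm
    have P : ∀ (l : Option S.E) (a : S.A) (σ' τ' : List S.A),
        S.wt σ' + S.wt τ' < S.wt σ + S.wt τ → S.LC2 s l a σ' τ' :=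
      fun l a σ' τ' h => ih _ h l a σ' τ' rfl
    cases a with
    | inl x => exact LC2_gen H s l x σ τ
    | inr b =>
      apply two_letters H FS P (f := none) _ l b (le_none _) (le_none _)
      intro l b c hside hl1 hl2 hpf hlb hbl hc htn hwn hRt hRw he hnot
      by_cases hnt : S.Nrm s (some l) σ
      · have hnw : ¬ S.Nrm s (some l) τ := fun h => hnot ⟨hnt, h⟩
        exact (handler H FS (fun l a σ' τ' h => P l a σ' τ' (by omega)) hside hl1 hl2 hlb hbl hc
          hwn htn hRw hRt he.symm hnw).symm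
      · exact handler H FS P hside hl1 hl2 hlb hbl hc htn hwn hRt hRw he hnt

/-- left cancellation -/
theorem LCall (s : Bool) (w σ τ : List S.A) (h : S.Eqv s (w ++ σ) (w ++ τ)) :
    S.Eqv s (S.o2l (S.L s w) ++ σ) (S.o2l (S.L s w) ++ τ) := by
  induction w using List.reverseRecOn generalizing σ τ with
  | nil => simpa using h
  | append_singleton v a ih =>
    have h1 := ih (a :: σ) (a :: τ) (by simpa using h)
    have h2 := LC2_all H FS s (S.L s v) a σ τ h1
    have h3 := aP3L H s v [a]
    rw [h3]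
    exact h2

/-- right cancellation -/
theorem RCall (s : Bool) (w σ τ : List S.A) (h : S.Eqv s (σ ++ w) (τ ++ w)) :
    S.Eqv s (σ ++ S.o2l (S.Rt s w)) (τ ++ S.o2l (S.Rt s w)) := by
  have h1 := Eqv.rev h
  simp only [List.reverse_append] at h1
  have h2 := LCall H FS (!s) w.reverse σ.reverse τ.reverse h1
  have h3 := Eqv.rev h2
  simpa [Pre.Rt] using h3

end Sys

end Pool.Agent.LibQF
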