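import Pool.Agent.LibQF.FreeExt
import Pool.Agent.LibQF.LC

/-!
# Assembly of the final theorem
-/

namespace Pool.Agent.LibQF

universe u v

/-- the final theorem from the theory of letter systems -/
theorem final_of_good (X : Type u) (G : ∀ n, (theSys X).Good n) (FS : (theSys X).FSall) :
    ∃ (_ : Semigroup (FreeQ X)) (l r : FreeQ X → FreeQ X) (ι : X → FreeQ X),
      (∀ a b : FreeQ X, (a * b).1 = nfw (a.1 ++ b.1)) ∧
      (∀ a : FreeQ X, (l a).1 = (Lw true a.1).toList) ∧
      (∀ a : FreeQ X, (r a).1 = (Lw false a.1.reverse).toList) ∧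
      (∀ x, (ι x).1 = [Let.gen x]) ∧
      InQ (FreeQ X) l r ∧
      (∀ T : Set (FreeQ X), ClosedUnder l r ι T → ∀ a, a ∈ T) ∧
      (∀ (A : Type v) [Semigroup A] (l' r' : A → A), InQ A l' r' → ∀ φ : X → A,
        ∃! f : FreeQ X → A, IsExt l r ι l' r' φ f) :=
  final_of X G (fun s w u v h => Sys.LCall G FS s w u v h)

end Pool.Agent.LibQF
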