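import Pool.Agent.LibQF.ModelCore

/-!
# Stability of the recursion
-/

namespace Pool.Agent.LibQF

universe u

variable {X : Type u}

/-- the first letter is not a bracket of side `s` -/
def NSc (s : Bool) (w : List (Let X)) : Prop := ∀ c p v, w ≠ Let.br s c p :: v

theorem opn_of_NSc {s : Bool} {w : List (Let X)} (h : NSc s w) : opn s w = w := by
  cases w with
  | nil => simp [opn]
  | cons a v =>
    cases a using casesBr with
    | gen x => exact opn_gen s x v
    | br t c p =>
      apply opn_br_ne
      rintro rfl
      exact h c p v rfl

theorem NSc_of_opn {s : Bool} {w : List (Let X)} (h : opn s w = w) : NSc s w := by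
  intro c p v hw
  subst hw
  rw [opn_br_eq] at h
  have h2 : c ++ v = [Let.br s c p] ++ v := by simpa using h
  have h3 : c = [Let.br s c p] := List.append_cancel_right h2
  have h4 : Let.br s c p ∈ [Let.br s c p] := by simp
  rw [← h3] at h4
  exact br_not_mem h4

theorem NSc_append {s : Bool} {c v : List (Let X)} (h : NSc s c) (hc : c ≠ []) :
    NSc s (c ++ v) := by
  intro c' p' v' h'
  cases c with
  | nil => exact hc rfl
  | cons a c =>
    simp only [List.cons_append, List.cons.injEq] at h'
    exact h c' p' c (by rw [h'.1])

/-- structure of the inner word of a bracket -/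
structure Str (f : Bool → List (Let X) → Option (Let X)) (s : Bool) (c : List (Let X))
    (p : Option (Let X)) : Prop where
  long : Long c
  ns : NSc s c
  noscan : scan f s [] c = none
  nosplit : ¬ SplitT f s c
  par : ∃ a v, c = a :: v ∧ p = f s (a.up ++ v)

/-- induction statement -/
structure Good (X : Type u) (N : ℕ) : Prop where
  stab : ∀ (s : Bool) (w : List (Let X)) (n : ℕ), CanW w → wsize w < N → wsize w < n →
    Lf n s w = Lw s w
  vals : ∀ (s : Bool) (w : List (Let X)) (k : Let X), CanW w → wsize w < N → Lw s w = some k →
    Can k ∧ k.IsBr ∧ ParOK k ∧ k.size ≤ wsize w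
  par : ∀ a : Let X, Can a → a.size < N → ParOK a
  str : ∀ (s : Bool) (c : List (Let X)) (p : Option (Let X)), Can (.br s c p) → wsize c < N →
    Str (Lf (wsize c)) s c p

theorem size_le_of_mem {b : Let X} {w : List (Let X)} (h : b ∈ w) : b.size ≤ wsize w := by
  induction w with
  | nil => simp at h
  | cons a w ih =>
    rw [wsize_cons]
    rcases List.mem_cons.1 h with rfl | h
    · omega
    · have := ih h
      omega

theorem size_lt_of_mem {b : Let X} {w : List (Let X)} (hw : CanW w) (hL : Long w) (h : b ∈ w)
    (hb : b.IsBr) : b.size < wsize w := by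
  cases w with
  | nil => simp at h
  | cons a w =>
    cases w with
    | nil =>
      rw [List.mem_singleton] at h
      subst h
      cases b using casesBr with
      | gen x => exact hb.elim
      | br t c p => exact absurd rfl (hL.2 t c p)
    | cons a' w =>
      have h1 := canW_cons.1 hw
      have h2 := canW_cons.1 h1.2
      have h3 := size_pos_of_can h1.1
      have h4 := size_pos_of_can h2.1
      rw [wsize_cons]
      rcases List.mem_cons.1 h with rfl | h
      · rw [wsize_cons]
        omega
      · have := size_le_of_mem h
        omega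

theorem mem_opn {s : Bool} {w : List (Let X)} {b : Let X} (h : b ∈ opn s w) :
    b ∈ w ∨ ∃ c p v, w = Let.br s c p :: v ∧ b ∈ c := by
  cases w with
  | nil =>
    simp [opn] at h
  | cons a v =>
    cases a using casesBr with
    | gen x =>
      left
      rw [opn_gen] at h
      exact h
    | br t c p =>
      by_cases ht : t = s
      · subst ht
        rw [opn_br_eq] at h
        rcases List.mem_append.1 h with h | h
        · right
          exact ⟨c, p, v, rfl, h⟩
        · left
          simp [h]
      · left
        rw [opn_br_ne ht] at h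
        exact h

/-- letters of a long canonical word have good parents -/
theorem Good.parW_long {N : ℕ} (G : Good X N) {w : List (Let X)} (hw : CanW w) (hL : Long w)
    (hN : wsize w ≤ N) : ParW w := by
  intro b hb
  cases b using casesBr with
  | gen x => exact parOK_gen x
  | br t c p =>
    have := size_lt_of_mem hw hL hb (isBr_br _ _ _)
    exact G.par _ (hw _ hb) (by omega)

theorem Good.parW_opn {N : ℕ} (G : Good X N) {w : List (Let X)} (hw : CanW w) (hL : Long w)
    (hN : wsize w ≤ N) (s : Bool) : ParW (opn s w) := by
  intro b hb
  rcases mem_opn hb with h | ⟨c, p, v, h1, h2⟩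
  · exact G.parW_long hw hL hN b h
  · subst h1
    have h3 := size_lt_of_mem hw hL (b := Let.br s c p) (by simp) (isBr_br _ _ _)
    have h4 := size_le_of_mem h2
    rw [size_br] at h3
    have h5 := can_br_inv (canW_cons.1 hw).1
    exact G.par _ (h5.1 _ h2) (by omega)

theorem Good.agree {N : ℕ} (G : Good X N) {m M : ℕ} (hm : M ≤ m) (hM : M ≤ N) :
    Agree (X := X) (Lf m) Lw M := by
  intro s w hw hN
  exact G.stab s w m hw (by omega) (by omega)

theorem Good.valsLf {N : ℕ} (G : Good X N) {m M : ℕ} (hm : M ≤ m) (hM : M ≤ N) :
    Vals (X := X) (Lf m) M := by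
  intro s w k hw hN h
  rw [G.stab s w m hw (by omega) (by omega)] at h
  exact G.vals s w k hw (by omega) h

/-- structure of the inner word -/
theorem Good.strStep {N : ℕ} (G : Good X N) {s : Bool} {c : List (Let X)} {p : Option (Let X)}
    (h : Can (.br s c p)) (hN : wsize c ≤ N) : Str (Lf (wsize c)) s c p := by
  obtain ⟨hc, hL⟩ := can_br_inv h
  have hlong : Long c := by
    constructor
    · rintro rfl
      rw [Lw_nil] at hL
      cases hL
    · rintro t c' p' rfl
      rw [Lw_single] at hL
      simp only [Option.some.injEq, br_inj] at hL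
      have h3 : Let.br t c' p' ∈ [Let.br t c' p'] := by simp
      rw [← hL.2.1] at h3
      exact br_not_mem h3
  have hv := G.valsLf (m := wsize c) (M := wsize c) le_rfl hN
  have hp := G.parW_long hc hlong hN
  have hpo := G.parW_opn hc hlong hN s
  have ho := opn_ok s hc
  rw [Lw, Lf_succ, stepF_long _ _ hlong] at hL
  unfold stepL at hL
  have big : ∀ z : List (Let X), CanW z → wsize z < wsize c →
      Lf (wsize c) s z ≠ some (.br s c p) := by
    intro z hz1 hz2 hz3
    have := (hv s z _ hz1 hz2 hz3).2.2.2
    rw [size_br] at this
    omega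
  cases h1 : scan (Lf (wsize c)) s [] c with
  | some z =>
    rw [h1] at hL
    have hz := scan_ok hc hp h1
    exact absurd hL (big z hz.1 hz.2)
  | none =>
    rw [h1] at hL
    dsimp only at hL
    cases h2 : scan (Lf (wsize c)) s [] (opn s c) with
    | some z =>
      rw [h2] at hL
      have hz := scan_ok ho.1 hpo h2
      exact absurd hL (big z hz.1 (by omega))
    | none =>
      rw [h2] at hL
      dsimp only at hL
      cases h3 : opn s c with
      | nil =>
        rw [h3] at hL
        simp [topF] at hL
      | cons a v =>
        rw [h3] at hL ho hpo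
        have h4 := raise_ok (u := []) (v := v) (k := a) (by simpa using ho.1) (hpo a (by simp))
        simp only [List.nil_append] at h4
        by_cases hs : SplitT (Lf (wsize c)) s (a :: v)
        · rw [topF_cons_split hs] at hL
          exact absurd hL (big _ h4.1 (by omega))
        · rw [topF_cons_top hs] at hL
          simp only [Option.some.injEq, br_inj, true_and] at hL
          obtain ⟨h5, h6⟩ := hL
          have h7 : opn s c = c := by rw [h3, h5]
          refine ⟨hlong, NSc_of_opn h7, h1, ?_, a, v, h5.symm, h6.symm⟩
          rw [h5] at hs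
          exact hs

theorem Good.parStep {N : ℕ} (G : Good X N) {a : Let X} (h : Can a) (hN : a.size ≤ N) :
    ParOK a := by
  cases a using casesBr with
  | gen x => exact parOK_gen x
  | br s c p =>
    rw [size_br] at hN
    obtain ⟨hlong, hns, h1, h2, a, v, h3, h4⟩ := G.strStep h hN
    obtain ⟨hc, hL⟩ := can_br_inv h
    have hp := G.parW_long hc hlong hN
    intro q hq
    have hq' : p = some q := by
      rw [par_br] at hq
      exact hq
    rw [h4] at hq'
    subst h3
    have h5 := raise_ok (u := []) (v := v) (k := a) (by simpa using hc) (hp a (by simp))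
    simp only [List.nil_append] at h5
    have hv := G.valsLf (m := wsize (a :: v)) (M := wsize (a :: v)) le_rfl hN
    obtain ⟨h6, h7, h8, h9⟩ := hv s _ q h5.1 h5.2 hq'
    refine ⟨h6, h7, ?_⟩
    rw [size_br]
    omega

theorem Good.parW' {N : ℕ} (G : Good X N) {w : List (Let X)} (hw : CanW w) (hN : wsize w ≤ N) :
    ParW w := by
  intro b hb
  have := size_le_of_mem hb
  exact G.parStep (hw b hb) (by omega)

theorem Good.parW_opn' {N : ℕ} (G : Good X N) {w : List (Let X)} (hw : CanW w) (hN : wsize w ≤ N)
    (s : Bool) : ParW (opn s w) := by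
  have ho := opn_ok s hw
  exact G.parW' ho.1 (by omega)

/-- opening gives a word whose first letter is not of side `s` -/
theorem Good.opn_ns {N : ℕ} (G : Good X N) {w : List (Let X)} (hw : CanW w) (hN : wsize w ≤ N)
    (s : Bool) : NSc s (opn s w) := by
  by_cases h : NSc s w
  · rw [opn_of_NSc h]
    exact h
  · unfold NSc at h
    push Not at h
    obtain ⟨c, p, v, rfl⟩ := h
    rw [opn_br_eq]
    have h1 := (canW_cons.1 hw).1
    rw [wsize_cons, size_br] at hN
    have h2 := G.strStep h1 (by omega)
    exact NSc_append h2.ns h2.long.1

theorem Good.opn_long {N : ℕ} (G : Good X N) {w : List (Let X)} (hw : CanW w) (hL : Long w)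
    (hN : wsize w ≤ N) (s : Bool) : Long (opn s w) := by
  by_cases h : NSc s w
  · rw [opn_of_NSc h]
    exact hL
  · unfold NSc at h
    push Not at h
    obtain ⟨c, p, v, rfl⟩ := h
    rw [opn_br_eq]
    have h1 := (canW_cons.1 hw).1
    rw [wsize_cons, size_br] at hN
    have h2 := G.strStep h1 (by omega)
    have h3 : v ≠ [] := by
      rintro rfl
      exact hL.2 _ _ _ rfl
    constructor
    · simp [h3]
    · intro t c' p' h4
      have h5 := congrArg List.length h4
      rw [List.length_append] at h5
      have h6 : 0 < c.length := List.length_pos_iff.2 h2.long.1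
      have h7 : 0 < v.length := List.length_pos_iff.2 h3
      simp at h5
      omega

theorem Good.stabStep {N : ℕ} (G : Good X N) (s : Bool) (w : List (Let X)) (n : ℕ) (hw : CanW w)
    (hN : wsize w ≤ N) (hn : wsize w < n) : Lf n s w = Lw s w := by
  obtain ⟨m, rfl⟩ : ∃ m, n = m + 1 := ⟨n - 1, by omega⟩
  rw [Lw, Lf_succ, Lf_succ]
  have hv := G.valsLf (m := m) (M := wsize w) (by omega) hN
  apply stepF_congr (N := wsize w) _ hv hw (G.parW' hw hN) (G.parW_opn' hw hN s) le_rfl
  intro t z hz1 hz2
  rw [G.stab t z m hz1 (by omega) (by omega), G.stab t z (wsize w) hz1 (by omega) (by omega)]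

theorem Good.valsStep {N : ℕ} (G : Good X N) (s : Bool) (w : List (Let X)) (k : Let X)
    (hw : CanW w) (hN : wsize w ≤ N) (h : Lw s w = some k) :
    Can k ∧ k.IsBr ∧ ParOK k ∧ k.size ≤ wsize w := by
  by_cases hL : Long w
  · have hv := G.valsLf (m := wsize w) (M := wsize w) le_rfl hN
    have hp := G.parW' hw hN
    have hpo := G.parW_opn' hw hN s
    have ho := opn_ok s hw
    have hns := G.opn_ns hw hN s
    have hlo := G.opn_long hw hL hN s
    rw [Lw, Lf_succ, stepF_long _ _ hL] at h
    unfold stepL at h
    cases h1 : scan (Lf (wsize w)) s [] w with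
    | some z =>
      rw [h1] at h
      have hz := scan_ok hw hp h1
      have := hv s z k hz.1 hz.2 h
      exact ⟨this.1, this.2.1, this.2.2.1, by omega⟩
    | none =>
      rw [h1] at h
      dsimp only at h
      cases h2 : scan (Lf (wsize w)) s [] (opn s w) with
      | some z =>
        rw [h2] at h
        have hz := scan_ok ho.1 hpo h2
        have := hv s z k hz.1 (by omega) h
        exact ⟨this.1, this.2.1, this.2.2.1, by omega⟩
      | none =>
        rw [h2] at h
        dsimp only at h
        cases h3 : opn s w with
        | nil =>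
          rw [h3] at h
          simp [topF] at h
        | cons a v =>
          rw [h3] at h ho hpo h2 hns hlo
          have h4 := raise_ok (u := []) (v := v) (k := a) (by simpa using ho.1) (hpo a (by simp))
          simp only [List.nil_append] at h4
          by_cases hs : SplitT (Lf (wsize w)) s (a :: v)
          · rw [topF_cons_split hs] at h
            have := hv s _ k h4.1 (by omega) h
            exact ⟨this.1, this.2.1, this.2.2.1, by omega⟩
          · rw [topF_cons_top hs] at h
            simp only [Option.some.injEq] at h
            have hcan : Lw s (a :: v) = some (.br s (a :: v) (Lf (wsize w) s (a.up ++ v))) := by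
              rw [Lw, Lf_succ, stepF_long _ _ hlo]
              unfold stepL
              rw [ho.2, opn_of_NSc hns, h2]
              dsimp only
              rw [topF_cons_top hs]
            subst h
            refine ⟨Can.br s _ _ ho.1 hcan, isBr_br _ _ _, ?_, ?_⟩
            · intro q hq
              have hq' : Lf (wsize w) s (a.up ++ v) = some q := by
                rw [par_br] at hq
                exact hq
              obtain ⟨h6, h7, h8, h9⟩ := hv s _ q h4.1 (by omega) hq'
              refine ⟨h6, h7, ?_⟩
              rw [size_br]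
              omega
            · rw [size_br, ho.2]
  · unfold Long at hL
    push Not at hL
    by_cases h0 : w = []
    · subst h0
      rw [Lw_nil] at h
      cases h
    · obtain ⟨t, c, p, rfl⟩ := hL h0
      rw [Lw_single] at h
      cases h
      have h1 := (canW_cons.1 hw).1
      refine ⟨h1, isBr_br _ _ _, G.parW' hw hN _ (by simp), ?_⟩
      rw [wsize_cons, wsize_nil]
      omega

theorem good (X : Type u) (N : ℕ) : Good X N := by
  induction N with
  | zero =>
    refine ⟨?_, ?_, ?_, ?_⟩
    · intro s w n _ h
      omega
    · intro s w k _ h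
      omega
    · intro a _ h
      omega
    · intro s c p _ h
      omega
  | succ N G =>
    refine ⟨?_, ?_, ?_, ?_⟩
    · intro s w n hw h1 h2
      exact G.stabStep s w n hw (by omega) h2
    · intro s w k hw h1 h2
      exact G.valsStep s w k hw (by omega) h2
    · intro a h1 h2
      exact G.parStep h1 (by omega)
    · intro s c p h1 h2
      exact G.strStep h1 (by omega)

/-! ### final form -/

theorem parOK_of_can {a : Let X} (h : Can a) : ParOK a := (good X (a.size + 1)).par a h (by omega)

theorem parW_of_canW {w : List (Let X)} (h : CanW w) : ParW w := fun a ha => parOK_of_can (h a ha)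

theorem Lw_vals {s : Bool} {w : List (Let X)} {k : Let X} (hw : CanW w) (h : Lw s w = some k) :
    Can k ∧ k.IsBr ∧ k.size ≤ wsize w := by
  obtain ⟨h1, h2, _, h3⟩ := (good X (wsize w + 1)).vals s w k hw (by omega) h
  exact ⟨h1, h2, h3⟩

theorem valsLw (N : ℕ) : Vals (X := X) Lw N := by
  intro s w k hw hN h
  exact (good X N).vals s w k hw hN h

theorem agreeLw (N : ℕ) : Agree (X := X) (Lf N) Lw N := (good X N).agree le_rfl le_rfl

/-- the fixed point equation -/
theorem Lw_eq (s : Bool) {w : List (Let X)} (hw : CanW w) : Lw s w = stepF Lw s w := by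
  have h1 : Lw s w = stepF (Lf (wsize w)) s w := rfl
  rw [h1]
  exact stepF_congr (agreeLw (wsize w)) ((good X (wsize w)).valsLf le_rfl le_rfl) hw
    (parW_of_canW hw) (parW_of_canW (opn_ok s hw).1) le_rfl

theorem Lw_long (s : Bool) {w : List (Let X)} (hw : CanW w) (hL : Long w) :
    Lw s w = stepL Lw s w := by
  rw [Lw_eq s hw, stepF_long _ _ hL]

/-- structure of canonical brackets -/
theorem str_of_can {s : Bool} {c : List (Let X)} {p : Option (Let X)} (h : Can (.br s c p)) :
    Str Lw s c p := by
  have hc := (can_br_inv h).1
  obtain ⟨h1, h2, h3, h4, a, v, h5, h6⟩ := (good X (wsize c + 1)).str s c p h (by omega)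
  have hfg := agreeLw (X := X) (wsize c)
  have hv := (good X (wsize c)).valsLf (m := wsize c) (M := wsize c) le_rfl le_rfl
  refine ⟨h1, h2, ?_, ?_, a, v, h5, ?_⟩
  · rw [← h3]
    exact (scan_congr hfg (s := s) (u := []) (w := c) (by simpa using hc) (parW_of_canW hc)
      (by simp)).symm
  · intro h7
    exact h4 ((splitT_congr hfg hv hc le_rfl).2 h7)
  · rw [h6]
    subst h5
    have h8 := raise_ok (u := []) (v := v) (k := a) (by simpa using hc)
      (parW_of_canW hc a (by simp))
    simp only [List.nil_append] at h8
    exact hfg s _ h8.1 h8.2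

end Pool.Agent.LibQF
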