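import Pool.Agent.LibQF.Sys
import Pool.Agent.LibQF.ModelInd

/-!
# The explicit model is a letter system
-/

namespace Pool.Agent.LibQF

universe u

variable {X : Type u}

/-- canonical brackets -/
abbrev EB (X : Type u) : Type u := {k : Let X // Can k ∧ k.IsBr}

/-- letters of the system -> concrete letters -/
def toLet : X ⊕ EB X → Let X
  | .inl x => .gen x
  | .inr e => e.1

/-- canonical concrete letters -> letters of the system -/
def ofLet : (a : Let X) → Can a → X ⊕ EB X
  | .gen x, _ => .inl x
  | .one s n f, h => .inr ⟨.one s n f, h, trivial⟩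
  | .two s n f p, h => .inr ⟨.two s n f p, h, trivial⟩

/-- words of the system -> concrete words -/
def toW (w : List (X ⊕ EB X)) : List (Let X) := w.map toLet

/-- canonical concrete words -> words of the system -/
def ofW (w : List (Let X)) (h : CanW w) : List (X ⊕ EB X) := w.pmap ofLet h

theorem toLet_ofLet (a : Let X) (h : Can a) : toLet (ofLet a h) = a := by
  cases a <;> rfl

theorem can_toLet (a : X ⊕ EB X) : Can (toLet a) := by
  cases a with
  | inl x => exact Can.gen x
  | inr e => exact e.2.1

theorem canW_toW (w : List (X ⊕ EB X)) : CanW (toW w) := by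
  intro a ha
  obtain ⟨b, _, rfl⟩ := List.mem_map.1 ha
  exact can_toLet b

theorem toLet_injective : Function.Injective (toLet (X := X)) := by
  intro a b h
  cases a with
  | inl x =>
    cases b with
    | inl y =>
      simp only [toLet, Let.gen.injEq] at h
      rw [h]
    | inr e =>
      exfalso
      have := e.2.2
      simp only [toLet] at h
      rw [← h] at this
      exact this
  | inr e =>
    cases b with
    | inl y =>
      exfalso
      have := e.2.2
      simp only [toLet] at h
      rw [h] at this
      exact this
    | inr e' =>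
      simp only [toLet] at h
      rw [Subtype.ext h]

theorem toW_injective : Function.Injective (toW (X := X)) :=
  List.map_injective_iff.2 toLet_injective

theorem toW_nil : toW ([] : List (X ⊕ EB X)) = [] := rfl

theorem toW_cons (a : X ⊕ EB X) (w : List (X ⊕ EB X)) : toW (a :: w) = toLet a :: toW w := rfl

theorem toW_append (u v : List (X ⊕ EB X)) : toW (u ++ v) = toW u ++ toW v :=
  List.map_append

theorem toW_reverse (u : List (X ⊕ EB X)) : toW u.reverse = (toW u).reverse :=
  List.map_reverse

theorem toW_ofW (w : List (Let X)) (h : CanW w) : toW (ofW w h) = w := by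
  induction w with
  | nil => rfl
  | cons a w ih =>
    show toLet (ofLet a _) :: toW (ofW w (canW_cons.1 h).2) = a :: w
    rw [toLet_ofLet, ih]

theorem toW_eq_append {w : List (X ⊕ EB X)} {u v : List (Let X)} (h : toW w = u ++ v) :
    ∃ u' v', w = u' ++ v' ∧ toW u' = u ∧ toW v' = v := by
  obtain ⟨l1, l2, h1, h2, h3⟩ := List.map_eq_append_iff.1 h
  exact ⟨l1, l2, h1, h2, h3⟩

theorem toW_eq_cons {w : List (X ⊕ EB X)} {k : Let X} {v : List (Let X)} (h : toW w = k :: v) :
    ∃ a v', w = a :: v' ∧ toLet a = k ∧ toW v' = v := by
  obtain ⟨a, l, h1, h2, h3⟩ := List.map_eq_cons_iff.1 h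
  exact ⟨a, l, h1, h2, h3⟩

theorem toW_ne_nil {w : List (X ⊕ EB X)} (h : w ≠ []) : toW w ≠ [] := by
  intro h'
  exact h (List.map_eq_nil_iff.1 h')

/-! ### options -/

/-- value of an option of canonical brackets -/
def oval (o : Option (EB X)) : Option (Let X) := o.map Subtype.val

theorem oval_injective : Function.Injective (oval (X := X)) :=
  Option.map_injective Subtype.val_injective

/-- option of canonical brackets -/
def opm (o : Option (Let X)) (H : ∀ k ∈ o, Can k ∧ k.IsBr) : Option (EB X) :=
  o.pmap (fun k hk => ⟨k, hk⟩) H

theorem oval_opm (o : Option (Let X)) (H : ∀ k ∈ o, Can k ∧ k.IsBr) : oval (opm o H) = o := by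
  cases o <;> rfl

theorem word_canW (a : Let X) (h : Can a) : CanW a.word := by
  cases a using casesBr with
  | gen x => exact canW_nil
  | br s c p =>
    rw [word_br0]
    exact (can_br_inv h).1

theorem par_can (a : Let X) (h : Can a) : ∀ k ∈ a.par, Can k ∧ k.IsBr := by
  intro k hk
  have := parOK_of_can h k hk
  exact ⟨this.1, this.2.1⟩

theorem Lw_can (s : Bool) (w : List (X ⊕ EB X)) : ∀ k ∈ Lw s (toW w), Can k ∧ k.IsBr := by
  intro k hk
  have := Lw_vals (canW_toW w) hk
  exact ⟨this.1, this.2.1⟩

/-- the data of the model -/
noncomputable def thePre (X : Type u) : Pre X where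
  E := EB X
  side e := e.1.side
  om e := ofW e.1.word (word_canW e.1 e.2.1)
  par e := opm e.1.par (par_can e.1 e.2.1)
  sz e := e.1.size
  L s w := opm (Lw s (toW w)) (Lw_can s w)

theorem toW_eq_append' {w : List (thePre X).A} {u v : List (Let X)} (h : toW w = u ++ v) :
    ∃ u' v' : List (thePre X).A, w = u' ++ v' ∧ toW u' = u ∧ toW v' = v :=
  toW_eq_append h

theorem toW_eq_cons' {w : List (thePre X).A} {k : Let X} {v : List (Let X)}
    (h : toW w = k :: v) :
    ∃ (a : (thePre X).A) (v' : List (thePre X).A), w = a :: v' ∧ toLet a = k ∧ toW v' = v :=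
  toW_eq_cons h

theorem thePre_L (s : Bool) (w : List (thePre X).A) : oval ((thePre X).L s w) = Lw s (toW w) :=
  oval_opm _ _

theorem thePre_Rt (s : Bool) (w : List (thePre X).A) :
    oval ((thePre X).Rt s w) = Lw (!s) (toW w).reverse := by
  rw [Pre.Rt, thePre_L, ← toW_reverse]
  rfl

theorem thePre_par (e : (thePre X).E) : oval ((thePre X).par e) = e.1.par :=
  oval_opm _ _

theorem thePre_om (e : (thePre X).E) : toW ((thePre X).om e) = e.1.word :=
  toW_ofW _ _

theorem thePre_side (e : (thePre X).E) : (thePre X).side e = e.1.side := rfl

theorem thePre_sz (e : (thePre X).E) : (thePre X).sz e = e.1.size := rfl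

theorem thePre_o2l (o : Option (thePre X).E) : toW ((thePre X).o2l o) = (oval o).toList := by
  cases o <;> rfl

theorem toW_app (u v : List (thePre X).A) : toW (u ++ v) = toW u ++ toW v :=
  List.map_append

theorem toW_rev (u : List (thePre X).A) : toW u.reverse = (toW u).reverse :=
  List.map_reverse

theorem up_eq (k : Let X) : k.up = k.par.toList := rfl

theorem thePre_up (a : (thePre X).A) : toW ((thePre X).up a) = (toLet a).up := by
  cases a with
  | inl x => rfl
  | inr e =>
    show toW ((thePre X).o2l ((thePre X).par e)) = _
    rw [thePre_o2l, thePre_par]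
    rfl

theorem thePre_parO (o : Option (thePre X).E) :
    oval ((thePre X).parO o) = (oval o).bind Let.par := by
  cases o with
  | none => rfl
  | some e => exact thePre_par e

theorem thePre_le (a b : Option (thePre X).E) :
    (thePre X).le a b ↔ LeO (oval a) (oval b) := by
  have h : Function.Semiconj (oval (X := X)) (thePre X).parO (fun o => o.bind Let.par) :=
    fun o => thePre_parO o
  unfold Pre.le LeO
  constructor
  · rintro ⟨n, hn⟩
    exact ⟨n, (h.iterate_right n a).symm.trans (congrArg oval hn)⟩
  · rintro ⟨n, hn⟩
    refine ⟨n, ?_⟩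
    apply oval_injective
    rw [← hn]
    exact h.iterate_right n a

theorem thePre_canRaise (s : Bool) (u : List (thePre X).A) (k : (thePre X).E)
    (v : List (thePre X).A) :
    ((thePre X).IsR1 s u k ∨ (thePre X).IsR2 s k v) ↔ CanRaise Lw s (toW u) k.1 (toW v) := by
  unfold Pre.IsR1 Pre.IsR2 CanRaise
  rw [thePre_le, thePre_le, thePre_L, thePre_Rt, toW_app, toW_app, thePre_o2l, thePre_par]
  constructor
  · intro h
    exact ⟨k.2.2, h⟩
  · rintro ⟨_, h⟩
    exact h

/-- raising a letter, in the model -/
theorem thePre_step (s : Bool) (w w' : List (thePre X).A) :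
    (thePre X).Step s w w' ↔ ∃ (u : List (Let X)) (k : Let X) (v : List (Let X)),
      toW w = u ++ k :: v ∧ CanRaise Lw s u k v ∧ toW w' = u ++ (k.up ++ v) := by
  constructor
  · rintro ⟨u, k, v, h⟩
    refine ⟨toW u, k.1, toW v, ?_, (thePre_canRaise s u k v).1 h, ?_⟩
    · rw [toW_app]
      rfl
    · rw [toW_app, toW_app, thePre_o2l, thePre_par]
      rfl
  · rintro ⟨u, k, v, h1, h2, h3⟩
    obtain ⟨u', z, rfl, hu, hz⟩ := toW_eq_append' h1
    obtain ⟨a, v', rfl, ha, hv⟩ := toW_eq_cons' hz
    cases a with
    | inl x =>
      subst ha
      exact h2.1.elim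
    | inr e =>
      have hk : e.1 = k := ha
      subst hk hu hv
      have h4 := (thePre_canRaise s u' e v').2 h2
      have h5 : w' = u' ++ ((thePre X).o2l ((thePre X).par e) ++ v') := by
        apply toW_injective
        refine h3.trans ?_
        refine Eq.symm ((toW_app _ _).trans ?_)
        rw [toW_app, thePre_o2l, thePre_par]
        rfl
      rw [h5]
      exact Pre.Step.mk u' e v' h4

theorem exists_toW {u : List (Let X)} (h : CanW u) : ∃ w : List (thePre X).A, toW w = u :=
  ⟨ofW u h, toW_ofW u h⟩

theorem up_canW {k : Let X} (h : Can k) : CanW k.up := (parOK_of_can h).canW_up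

theorem thePre_red (s : Bool) (w : List (thePre X).A) :
    (thePre X).Red s w ↔ ∀ (u : List (Let X)) (k : Let X) (v : List (Let X)),
      toW w = u ++ k :: v → ¬ CanRaise Lw s u k v := by
  constructor
  · intro h u k v h1 h2
    have hc := canW_toW (X := X) w
    rw [h1] at hc
    have h3 := raise_ok hc (parOK_of_can (canW_cons.1 (canW_append.1 hc).2).1)
    obtain ⟨w', hw'⟩ := exists_toW h3.1
    exact h w' ((thePre_step s w w').2 ⟨u, k, v, h1, h2, hw'⟩)
  · intro h w' h1
    obtain ⟨u, k, v, h2, h3, _⟩ := (thePre_step s w w').1 h1
    exact h u k v h2 h3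

/-- the scan finds nothing iff the word is reduced -/
theorem thePre_scan_none (s : Bool) (w : List (thePre X).A) :
    scan Lw s [] (toW w) = none ↔ (thePre X).Red s w := by
  rw [scan_eq_none, thePre_red]
  simp only [List.nil_append]

/-- the scan raises a letter -/
theorem thePre_scan_some (s : Bool) (w : List (thePre X).A) {z : List (Let X)}
    (h : scan Lw s [] (toW w) = some z) :
    ∃ w' : List (thePre X).A, toW w' = z ∧ (thePre X).Step s w w' := by
  have hz := scan_ok (canW_toW w) (parW_of_canW (canW_toW w)) h
  obtain ⟨w', hw'⟩ := exists_toW hz.1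
  obtain ⟨w1, k, w2, h1, h2, h3⟩ := scan_eq_some h
  refine ⟨w', hw', (thePre_step s w w').2 ⟨w1, k, w2, h1, by simpa using h2, ?_⟩⟩
  rw [hw', h3]
  simp

theorem thePre_split (s : Bool) (w : List (thePre X).A) :
    (thePre X).Split s w ↔ SplitT Lw s (toW w) := by
  constructor
  · rintro ⟨u, v, g, h1, h2, h3, h4, h5⟩
    refine ⟨toW u, toW v, g.1, ?_, toW_ne_nil h2, toW_ne_nil h3, ?_, ?_⟩
    · rw [h1, toW_app]
    · rw [← thePre_Rt, h4]
      rfl
    · have h6 := (thePre_le _ _).1 h5
      rw [thePre_L, toW_app, thePre_o2l, thePre_par] at h6
      exact h6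
  · rintro ⟨u, v, g, h1, h2, h3, h4, h5⟩
    obtain ⟨u', v', rfl, hu, hv⟩ := toW_eq_append' h1
    subst hu hv
    have h6 := thePre_Rt (X := X) s v'
    rw [h4] at h6
    cases h7 : (thePre X).Rt s v' with
    | none =>
      rw [h7] at h6
      cases h6
    | some e =>
      rw [h7] at h6
      have hg : e.1 = g := Option.some.inj h6
      subst hg
      refine ⟨u', v', e, rfl, ?_, ?_, h7, ?_⟩
      · rintro rfl
        exact h2 rfl
      · rintro rfl
        exact h3 rfl
      · rw [thePre_le, thePre_L, toW_app, thePre_o2l, thePre_par]
        exact h5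

theorem thePre_ns (s : Bool) (w : List (thePre X).A) :
    (thePre X).NS s w ↔ NSc s (toW w) := by
  cases w with
  | nil =>
    constructor
    · intro _ c p v h
      cases h
    · intro _
      trivial
  | cons a v =>
    cases a with
    | inl x =>
      constructor
      · intro _ c p v' h
        have h1 := (List.cons.inj h).1
        exact absurd h1 gen_ne_br
      · intro _
        trivial
    | inr e =>
      obtain ⟨k, hk, hb⟩ := e
      cases k using casesBr with
      | gen x => exact hb.elim
      | br t c p =>
        constructor
        · intro h c' p' v' h1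
          have h2 : Let.br t c p = Let.br s c' p' := (List.cons.inj h1).1
          rw [br_inj] at h2
          apply h
          show (Let.br t c p).side = s
          rw [side_br]
          exact h2.1
        · intro h h1
          have h2 : t = s := by
            have h3 : (Let.br t c p).side = s := h1
            rwa [side_br] at h3
          subst h2
          exact h c p (toW v) rfl

theorem thePre_wtA (a : (thePre X).A) : (thePre X).wtA a = (toLet a).size := by
  cases a with
  | inl x => exact (size_gen x).symm
  | inr e => rfl

theorem thePre_wt (w : List (thePre X).A) : (thePre X).wt w = wsize (toW w) := by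
  unfold Pre.wt wsize toW
  rw [List.map_map]
  congr 1
  apply List.map_congr_left
  intro a _
  exact thePre_wtA a

/-- a word of the system which is not empty and not a single idempotent -/
theorem long_toW {w : List (thePre X).A} (h0 : w ≠ []) (h1 : ∀ e, w ≠ [Sum.inr e]) :
    Long (toW w) := by
  refine ⟨toW_ne_nil h0, ?_⟩
  intro t c p h
  obtain ⟨a, v', rfl, ha, hv⟩ := toW_eq_cons h
  have hv' : v' = [] := List.map_eq_nil_iff.1 hv
  subst hv'
  cases a with
  | inl x => exact absurd ha gen_ne_br
  | inr e => exact h1 e rfl

/-- a single letter is never raised -/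
theorem single_red (s : Bool) (e : (thePre X).E) : (thePre X).Red s [Sum.inr e] := by
  rw [thePre_red]
  intro u k v h
  have hu : u = [] := by
    cases u with
    | nil => rfl
    | cons a u =>
      have h' : ([toLet (Sum.inr e)] : List (Let X)) = a :: u ++ k :: v := h
      have := congrArg List.length h'
      simp at this
  subst hu
  have hkv : toLet (Sum.inr e) :: [] = k :: v := h
  have hk : e.1 = k := (List.cons.inj hkv).1
  have hv : v = [] := (List.cons.inj hkv).2.symm
  subst hv hk
  rintro ⟨_, h1⟩
  have key : ∀ t : Bool, ¬ LeO (Lw t e.1.up) (some e.1) := by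
    intro t ht
    have hle : Lw t e.1.up = e.1.par := by
      rw [up_eq]
      cases hp : e.1.par with
      | none => exact Lw_nil t
      | some q =>
        have := (parOK_of_can e.2.1 q hp).2.1
        cases q using casesBr with
        | gen x => exact this.elim
        | br t' c p => exact Lw_single t t' c p
    rw [hle] at ht
    obtain ⟨n, hn⟩ := ht
    have hsz : ∀ (n : ℕ) (o : Option (Let X)), (∀ q, o = some q → Can q ∧ q.size < e.1.size) →
        ∀ q, (fun o : Option (Let X) => o.bind Let.par)^[n] o = some q →
          Can q ∧ q.size < e.1.size := by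
      intro n
      induction n with
      | zero =>
        intro o ho q hq
        exact ho q hq
      | succ n ih =>
        intro o ho q hq
        rw [Function.iterate_succ_apply] at hq
        apply ih _ _ q hq
        intro q' hq'
        cases o with
        | none => cases hq'
        | some r =>
          have h1 := ho r rfl
          have h2 := parOK_of_can h1.1 q' hq'
          exact ⟨h2.1, by omega⟩
    have := (hsz n e.1.par (fun q hq => by
      have := parOK_of_can e.2.1 q hq
      exact ⟨this.1, this.2.2⟩) e.1 hn).2
    omega
  rcases h1 with h1 | h1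
  · exact key s (by simpa using h1)
  · apply key (!s)
    have : (e.1.up ++ []).reverse = e.1.up := by
      rw [List.append_nil, up_eq]
      cases e.1.par <;> rfl
    rw [this] at h1
    exact h1

theorem word_br {k : Let X} (h : k.IsBr) : k = .br k.side k.word k.par := by
  cases k using casesBr with
  | gen x => exact h.elim
  | br s c p => rw [side_br, word_br0, par_br]

theorem thePre_str (e : (thePre X).E) : Str Lw ((thePre X).side e) e.1.word e.1.par := by
  apply str_of_can
  have h1 := word_br e.2.2
  have h2 := e.2.1
  rw [h1] at h2
  exact h2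

/-- value of `L` on a long word -/
theorem thePre_long (s : Bool) {w : List (thePre X).A} (h0 : w ≠ []) (h1 : ∀ e, w ≠ [Sum.inr e]) :
    oval ((thePre X).L s w) = stepL Lw s (toW w) := by
  rw [thePre_L, Lw_long s (canW_toW w) (long_toW h0 h1)]

theorem stepL_none {f : Bool → List (Let X) → Option (Let X)} {s : Bool} {w : List (Let X)}
    (h : scan f s [] w = none) : stepL f s w = match scan f s [] (opn s w) with
      | some w' => f s w'
      | none => topF f s (opn s w) := by
  unfold stepL
  rw [h]
  rfl

theorem stepL_some {f : Bool → List (Let X) → Option (Let X)} {s : Bool} {w z : List (Let X)}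
    (h : scan f s [] w = some z) : stepL f s w = f s z := by
  unfold stepL
  rw [h]

theorem stepL_ns {f : Bool → List (Let X) → Option (Let X)} {s : Bool} {w : List (Let X)}
    (hn : NSc s w) (h : scan f s [] w = none) : stepL f s w = topF f s w := by
  rw [stepL_none h, opn_of_NSc hn, h]

theorem stepL_ns' {f : Bool → List (Let X) → Option (Let X)} {s : Bool} {w : List (Let X)}
    (hn : NSc s w) : stepL f s w = match scan f s [] w with
      | some w' => f s w'
      | none => topF f s w := by
  unfold stepL
  rw [opn_of_NSc hn]
  cases scan f s [] w <;> rfl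

/-- the letter system of the model -/
noncomputable def theSys (X : Type u) : Sys X where
  toPre := thePre X
  sz_pos e := size_pos_of_can e.2.1
  sz_par e p h := by
    have h1 := thePre_par e
    rw [h] at h1
    exact (parOK_of_can e.2.1 p.1 h1.symm).2.2
  sz_om e := by
    rw [thePre_wt, thePre_om, thePre_sz]
    have h1 := word_br e.2.2
    conv_lhs => rw [h1]
    rw [size_br]
  ext e f h1 h2 := by
    have h3 := word_br e.2.2
    have h4 := word_br f.2.2
    have h5 : e.1.word = f.1.word := by
      rw [← thePre_om, ← thePre_om, h2]
    have h6 : e.1.side = f.1.side := h1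
    have he := e.2.1
    have hf := f.2.1
    rw [h3] at he
    rw [h4] at hf
    have h7 := (can_br_inv he).2
    have h8 := (can_br_inv hf).2
    rw [← h3, h5, h6] at h7
    rw [← h4, h7] at h8
    exact Subtype.ext (Option.some.inj h8)
  om_ns e := by
    rw [thePre_ns, thePre_om]
    exact (thePre_str e).ns
  om_single e f h := by
    have h1 := (thePre_str e).long
    have h2 : e.1.word = [f.1] := by
      rw [← thePre_om, h]
      rfl
    rw [h2, word_br f.2.2] at h1
    exact h1.2 _ _ _ rfl
  om_red e := by
    rw [← thePre_scan_none, thePre_om]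
    exact (thePre_str e).noscan
  om_split e := by
    rw [thePre_split, thePre_om]
    exact (thePre_str e).nosplit
  L_size s w e h := by
    have h1 := thePre_L s w
    rw [h] at h1
    rw [thePre_wt]
    exact (Lw_vals (canW_toW w) h1.symm).2.2
  L_nil s := by
    apply oval_injective
    rw [thePre_L]
    rfl
  L_single s e := by
    apply oval_injective
    rw [thePre_L]
    show Lw s [e.1] = some e.1
    have h1 := Lw_single s e.1.side e.1.word e.1.par
    rw [← word_br e.2.2] at h1
    exact h1
  L_step s w h := by
    have h0 : w ≠ [] := by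
      rintro rfl
      apply h
      rw [thePre_red]
      intro u k v h1
      have h2 : ([] : List (Let X)) = u ++ k :: v := h1
      simp at h2
    have h1 : ∀ e, w ≠ [Sum.inr e] := by
      rintro e rfl
      exact h (single_red s e)
    have h2 := thePre_long s h0 h1
    cases h3 : scan Lw s [] (toW w) with
    | none => exact absurd ((thePre_scan_none s w).1 h3) h
    | some z =>
      obtain ⟨w', h4, h5⟩ := thePre_scan_some s w h3
      refine ⟨w', h5, ?_⟩
      apply oval_injective
      rw [h2, stepL_some h3, thePre_L, h4]
  L_open s e v h1 h2 h3 := by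
    have hlong := (thePre_str e).long
    have hns := (thePre_str e).ns
    rw [h2] at hns
    have e1 : toW (Sum.inr e :: v) = .br s e.1.word e.1.par :: toW v := by
      have h4 := word_br e.2.2
      have h5 : e.1.side = s := h2
      rw [h5] at h4
      conv_rhs => rw [← h4]
      rfl
    have e2 : toW ((thePre X).om e ++ v) = e.1.word ++ toW v := by
      rw [toW_app, thePre_om]
    apply oval_injective
    have hl1 : Long (toW (Sum.inr e :: v)) := by
      apply long_toW
      · simp
      · intro f h
        exact h3 (List.cons.inj h).2
    have hl2 : Long (toW ((thePre X).om e ++ v)) := by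
      rw [e2]
      constructor
      · simp [hlong.1]
      · intro t c p h4
        have h5 := congrArg List.length h4
        rw [List.length_append] at h5
        have h6 : 0 < e.1.word.length := List.length_pos_iff.2 hlong.1
        have h7 : 0 < (toW v).length := List.length_pos_iff.2 (toW_ne_nil h3)
        simp at h5
        omega
    have a1 : oval ((thePre X).L s (Sum.inr e :: v)) = stepL Lw s (toW (Sum.inr e :: v)) :=
      (thePre_L s _).trans (Lw_long s (canW_toW _) hl1)
    have a2 : oval ((thePre X).L s ((thePre X).om e ++ v)) =
        stepL Lw s (toW ((thePre X).om e ++ v)) :=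
      (thePre_L s _).trans (Lw_long s (canW_toW _) hl2)
    have a3 := (thePre_scan_none s _).2 h1
    have a4 := a1.trans (stepL_none a3)
    rw [e2, stepL_ns' (NSc_append hns hlong.1)] at a2
    refine a4.trans (Eq.trans ?_ a2.symm)
    have e3 : opn s (toW (Sum.inr e :: v)) = e.1.word ++ toW v := by
      refine (congrArg (opn s) e1).trans ?_
      rw [opn_br_eq]
    rw [e3]
  L_split s a v h1 h2 h3 := by
    have hl : Long (toW (a :: v)) := by
      apply long_toW
      · simp
      · rintro e h
        obtain ⟨u', v', g, h4, h5, h6, _⟩ := h3
        have h8 : [Sum.inr e] = u' ++ v' := h.symm.trans h4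
        have := congrArg List.length h8
        rw [List.length_append] at this
        have h6' : 0 < u'.length := List.length_pos_iff.2 h5
        have h7 : 0 < v'.length := List.length_pos_iff.2 h6
        simp at this
        omega
    apply oval_injective
    have h4 : SplitT Lw s (toLet a :: toW v) := (thePre_split s (a :: v)).1 h3
    have a1 : oval ((thePre X).L s (a :: v)) = stepL Lw s (toW (a :: v)) :=
      (thePre_L s _).trans (Lw_long s (canW_toW _) hl)
    have a2 := a1.trans (stepL_ns ((thePre_ns s _).1 h2) ((thePre_scan_none s _).2 h1))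
    have a3 := a2.trans (topF_cons_split h4)
    rw [a3, thePre_L, toW_app, thePre_up]
    rfl
  L_top s a v h1 h2 h3 h4 := by
    have hl : Long (toW (a :: v)) := by
      apply long_toW
      · simp
      · exact h4
    have h5 : ¬ SplitT Lw s (toLet a :: toW v) := fun h => h3 ((thePre_split s (a :: v)).2 h)
    have h6 : oval ((thePre X).L s (a :: v)) =
        some (.br s (toLet a :: toW v) (Lw s ((toLet a).up ++ toW v))) := by
      have a1 : oval ((thePre X).L s (a :: v)) = stepL Lw s (toW (a :: v)) :=
        (thePre_L s _).trans (Lw_long s (canW_toW _) hl)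
      have a2 := a1.trans (stepL_ns ((thePre_ns s _).1 h2) ((thePre_scan_none s _).2 h1))
      exact a2.trans (topF_cons_top h5)
    cases h7 : (thePre X).L s (a :: v) with
    | none =>
      rw [h7] at h6
      cases h6
    | some k =>
      rw [h7] at h6
      have h8 : k.1 = .br s (toLet a :: toW v) (Lw s ((toLet a).up ++ toW v)) :=
        Option.some.inj h6
      refine ⟨k, ?_, ?_, ?_, rfl⟩
      · rw [thePre_side, h8, side_br]
      · apply toW_injective
        refine (thePre_om k).trans ?_
        rw [h8, word_br0]
        rfl
      · apply oval_injective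
        refine (thePre_par k).trans ?_
        rw [h8, thePre_L, toW_app, thePre_up, par_br]

/-! ### bridge lemmas -/

theorem theSys_pre : (theSys X).toPre = thePre X := rfl

theorem theSys_E : (theSys X).E = EB X := rfl

theorem theSys_L (s : Bool) (w : List (theSys X).A) :
    ((theSys X).L s w).map Subtype.val = Lw s (w.map toLet) := thePre_L s w

theorem theSys_par (e : (theSys X).E) :
    ((theSys X).par e).map Subtype.val = e.1.par := thePre_par e

theorem theSys_om (e : (theSys X).E) : ((theSys X).om e).map toLet = e.1.word := thePre_om e

theorem theSys_side (e : (theSys X).E) : (theSys X).side e = e.1.side := rfl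

theorem theSys_sz (e : (theSys X).E) : (theSys X).sz e = e.1.size := rfl

theorem theSys_step (s : Bool) (w w' : List (theSys X).A) :
    (theSys X).Step s w w' ↔ ∃ (u : List (Let X)) (k : Let X) (v : List (Let X)),
      w.map toLet = u ++ k :: v ∧ CanRaise Lw s u k v ∧ w'.map toLet = u ++ (k.up ++ v) :=
  thePre_step s w w'

theorem theSys_red (s : Bool) (w : List (theSys X).A) :
    (theSys X).Red s w ↔ ∀ (u : List (Let X)) (k : Let X) (v : List (Let X)),
      w.map toLet = u ++ k :: v → ¬ CanRaise Lw s u k v :=
  thePre_red s w

theorem theSys_scan_none (s : Bool) (w : List (theSys X).A) :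
    scan Lw s [] (w.map toLet) = none ↔ (theSys X).Red s w := thePre_scan_none s w

theorem theSys_scan_some (s : Bool) (w : List (theSys X).A) {z : List (Let X)}
    (h : scan Lw s [] (w.map toLet) = some z) :
    ∃ w' : List (theSys X).A, w'.map toLet = z ∧ (theSys X).Step s w w' :=
  thePre_scan_some s w h

theorem theSys_wt (w : List (theSys X).A) : (theSys X).wt w = wsize (w.map toLet) := thePre_wt w

/-- canonical concrete words are the words of the system -/
theorem theSys_exists {u : List (Let X)} (h : ∀ a ∈ u, Can a) :
    ∃ w : List (theSys X).A, w.map toLet = u := exists_toW h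

theorem theSys_canW (w : List (theSys X).A) : ∀ a ∈ w.map toLet, Can a := canW_toW w

theorem theSys_map_injective :
    Function.Injective (fun w : List (theSys X).A => w.map toLet) := toW_injective

/-- normal forms: the word `nfF n` is reached by raising letters and is reduced if `n` is at least
the size of the word -/
theorem theSys_nfF (n : ℕ) (w : List (theSys X).A) (hn : wsize (w.map toLet) ≤ n) :
    ∃ w' : List (theSys X).A, w'.map toLet = nfF n (w.map toLet) ∧
      (theSys X).Steps true w w' ∧ (theSys X).Red true w' := by
  induction n generalizing w with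
  | zero =>
    refine ⟨w, rfl, Relation.ReflTransGen.refl, ?_⟩
    rw [← theSys_scan_none]
    cases h : scan Lw true [] (w.map toLet) with
    | none => rfl
    | some z =>
      have := scan_ok (theSys_canW w) (parW_of_canW (theSys_canW w)) h
      omega
  | succ n ih =>
    rw [nfF]
    cases h : scan Lw true [] (w.map toLet) with
    | none =>
      exact ⟨w, rfl, Relation.ReflTransGen.refl, (theSys_scan_none true w).1 h⟩
    | some z =>
      have h1 := scan_ok (theSys_canW w) (parW_of_canW (theSys_canW w)) h
      obtain ⟨w1, h2, h3⟩ := theSys_scan_some true w h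
      obtain ⟨w', h4, h5, h6⟩ := ih w1 (by rw [h2]; omega)
      refine ⟨w', ?_, Relation.ReflTransGen.head h3 h5, h6⟩
      rw [h4, h2]

theorem theSys_nfw (w : List (theSys X).A) :
    ∃ w' : List (theSys X).A, w'.map toLet = nfw (w.map toLet) ∧
      (theSys X).Steps true w w' ∧ (theSys X).Red true w' :=
  theSys_nfF _ w le_rfl

end Pool.Agent.LibQF
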