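import Pool.Agent.LibQF.FreeBase
import Pool.Agent.LibQF.ModelSys
import Pool.Agent.LibQF.QAlg

/-!
# The free algebra of `Q` on `X`, in explicit form
-/

namespace Pool.Agent.LibQF

universe u v

/-- the elements of the free algebra: nonempty words of canonical letters that are reduced -/
abbrev FreeQ (X : Type u) : Type u :=
  {w : List (Let X) // (∀ a ∈ w, Can a) ∧ nfw w = w ∧ w ≠ []}

/-- abstract form -/
abbrev FW {X : Type u} (S : Sys X) : Type u := {w : List S.A // S.Red true w ∧ w ≠ []}

variable {X : Type u}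

section

variable (G : ∀ n, (theSys X).Good n)

include G

theorem nfw_toW (w : List (theSys X).A) :
    nfw (w.map toLet) = ((theSys X).nf w).map toLet := by
  obtain ⟨w', h1, h2, h3⟩ := theSys_nfw w
  rw [← h1, Sys.nf_eq G h2 h3]

theorem red_iff_nfw (w : List (theSys X).A) :
    (theSys X).Red true w ↔ nfw (w.map toLet) = w.map toLet := by
  rw [nfw_toW G]
  constructor
  · intro h
    rw [Sys.nf_of_red h]
  · intro h
    have h1 : (theSys X).nf w = w := theSys_map_injective h
    rw [← h1]
    exact (theSys X).nf_red w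

/-- the bijection -/
noncomputable def freeEquiv : FW (theSys X) ≃ FreeQ X :=
  Equiv.ofBijective
    (fun w => ⟨w.1.map toLet, theSys_canW w.1, (red_iff_nfw G w.1).1 w.2.1, fun h =>
      w.2.2 (List.map_eq_nil_iff.1 h)⟩)
    (by
      constructor
      · intro a b h
        have h1 := congrArg Subtype.val h
        exact Subtype.ext (theSys_map_injective h1)
      · rintro ⟨u, h1, h2, h3⟩
        obtain ⟨w, rfl⟩ := theSys_exists h1
        refine ⟨⟨w, (red_iff_nfw G w).2 h2, ?_⟩, rfl⟩
        rintro rfl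
        exact h3 rfl)

theorem freeEquiv_val (w : FW (theSys X)) : (freeEquiv G w).1 = w.1.map toLet := rfl

end

/-- transport of the quasi-identities along a bijection -/
theorem QuasiQ.transport {S : Type u} {T : Type v} [Semigroup S] [Semigroup T] (e : S ≃ T)
    (he : ∀ a b, e (a * b) = e a * e b) {l r : S → S} (h : QuasiQ S l r) {l' r' : T → T}
    (hl : ∀ a, l' (e a) = e (l a)) (hr : ∀ a, r' (e a) = e (r a)) : QuasiQ T l' r' := by
  have sur : ∀ t : T, ∃ s, e s = t := e.surjective
  constructor
  · intro x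
    obtain ⟨x, rfl⟩ := sur x
    rw [hl, ← he, h.l_idem]
  · intro x
    obtain ⟨x, rfl⟩ := sur x
    rw [hr, ← he, h.r_idem]
  · intro x
    obtain ⟨x, rfl⟩ := sur x
    rw [hl, ← he, h.mul_l]
  · intro x
    obtain ⟨x, rfl⟩ := sur x
    rw [hr, ← he, h.r_mul]
  · intro x y z hxyz
    obtain ⟨x, rfl⟩ := sur x
    obtain ⟨y, rfl⟩ := sur y
    obtain ⟨z, rfl⟩ := sur z
    rw [← he, ← he] at hxyz
    rw [hl, ← he, ← he, h.lc x y z (e.injective hxyz)]
  · intro x y z hxyz
    obtain ⟨x, rfl⟩ := sur x
    obtain ⟨y, rfl⟩ := sur y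
    obtain ⟨z, rfl⟩ := sur z
    rw [← he, ← he] at hxyz
    rw [hr, ← he, ← he, h.rc x y z (e.injective hxyz)]
  · intro x y h1 h2 h3 h4
    obtain ⟨x, rfl⟩ := sur x
    obtain ⟨y, rfl⟩ := sur y
    rw [← he] at h1 h2 h3 h4
    rw [h.uniq1 x y (e.injective h1) (e.injective h2) (e.injective h3) (e.injective h4)]
  · intro x y h1 h2 h3 h4
    obtain ⟨x, rfl⟩ := sur x
    obtain ⟨y, rfl⟩ := sur y
    rw [← he] at h1 h2 h3 h4
    rw [h.uniq2 x y (e.injective h1) (e.injective h2) (e.injective h3) (e.injective h4)]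
  · intro x y h1 h2 h3
    obtain ⟨x, rfl⟩ := sur x
    obtain ⟨y, rfl⟩ := sur y
    rw [← he] at h1 h2 h3
    rw [← he] at h3
    rw [← he, ← he, h.av1 x y (e.injective h1) (e.injective h2) (e.injective h3)]
  · intro x y h1 h2 h3
    obtain ⟨x, rfl⟩ := sur x
    obtain ⟨y, rfl⟩ := sur y
    rw [← he] at h1 h2
    rw [← he, ← he, ← he] at h3
    rw [← he, ← he, h.av2 x y (e.injective h1) (e.injective h2) (e.injective h3)]

/-- algebra homomorphisms of type `(2,1,1)` that extend a map of the generators -/
structure IsExt {X : Type u} {F : Type u} {A : Type v} [Semigroup F] [Semigroup A]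
    (l r : F → F) (ι : X → F) (l' r' : A → A) (φ : X → A) (f : F → A) : Prop where
  gen : ∀ x, f (ι x) = φ x
  mul : ∀ a b, f (a * b) = f a * f b
  map_l : ∀ a, f (l a) = l' (f a)
  map_r : ∀ a, f (r a) = r' (f a)

/-- closed under all operations and containing the generators -/
structure ClosedUnder {X F : Type u} [Semigroup F] (l r : F → F) (ι : X → F) (T : Set F) : Prop where
  gen : ∀ x, ι x ∈ T
  mul : ∀ a b, a ∈ T → b ∈ T → a * b ∈ T
  map_l : ∀ a, a ∈ T → l a ∈ T
  map_r : ∀ a, a ∈ T → r a ∈ T

/-- the explicit free algebra: transport from the abstract one -/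
theorem final_transport (G : ∀ n, (theSys X).Good n) [inst : Semigroup (FW (theSys X))]
    (l r : FW (theSys X) → FW (theSys X)) (ι : X → FW (theSys X))
    (hmul : ∀ a b : FW (theSys X), (a * b).1 = (theSys X).nf (a.1 ++ b.1))
    (hl : ∀ a : FW (theSys X), (l a).1 = (theSys X).o2l ((theSys X).L true a.1))
    (hr : ∀ a : FW (theSys X), (r a).1 = (theSys X).o2l ((theSys X).Rt true a.1))
    (hι : ∀ x, (ι x).1 = [Sum.inl x])
    (hQ : QuasiQ (FW (theSys X)) l r)
    (hgen : ∀ T : Set (FW (theSys X)), ClosedUnder l r ι T → ∀ a, a ∈ T)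
    (hext : ∀ (A : Type v) [Semigroup A] (l' r' : A → A), InQ A l' r' → ∀ φ : X → A,
      ∃ f : FW (theSys X) → A, IsExt l r ι l' r' φ f) :
    ∃ (_ : Semigroup (FreeQ X)) (l r : FreeQ X → FreeQ X) (ι : X → FreeQ X),
      (∀ a b : FreeQ X, (a * b).1 = nfw (a.1 ++ b.1)) ∧
      (∀ a : FreeQ X, (l a).1 = (Lw true a.1).toList) ∧
      (∀ a : FreeQ X, (r a).1 = (Lw false a.1.reverse).toList) ∧
      (∀ x, (ι x).1 = [Let.gen x]) ∧
      InQ (FreeQ X) l r ∧
      (∀ T : Set (FreeQ X), ClosedUnder l r ι T → ∀ a, a ∈ T) ∧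
      (∀ (A : Type v) [Semigroup A] (l' r' : A → A), InQ A l' r' → ∀ φ : X → A,
        ∃! f : FreeQ X → A, IsExt l r ι l' r' φ f) := by
  let e := freeEquiv G
  let instT : Semigroup (FreeQ X) :=
    { mul := fun a b => e (e.symm a * e.symm b)
      mul_assoc := by
        intro a b c
        show e (e.symm (e (e.symm a * e.symm b)) * e.symm c) =
          e (e.symm a * e.symm (e (e.symm b * e.symm c)))
        rw [Equiv.symm_apply_apply, Equiv.symm_apply_apply, mul_assoc] }
  have he : ∀ a b, e (a * b) = e a * e b := by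
    intro a b
    show e (a * b) = e (e.symm (e a) * e.symm (e b))
    rw [Equiv.symm_apply_apply, Equiv.symm_apply_apply]
  have sur : ∀ t : FreeQ X, ∃ s, e s = t := e.surjective
  have val : ∀ w, (e w).1 = w.1.map toLet := fun w => rfl
  have hl' : ∀ a, e (l (e.symm (e a))) = e (l a) := fun a => by rw [Equiv.symm_apply_apply]
  have hr' : ∀ a, e (r (e.symm (e a))) = e (r a) := fun a => by rw [Equiv.symm_apply_apply]
  have hgen' : ∀ T : Set (FreeQ X), ClosedUnder (fun a => e (l (e.symm a)))
      (fun a => e (r (e.symm a))) (fun x => e (ι x)) T → ∀ a, a ∈ T := by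
    intro T hT a
    have h1 : ClosedUnder l r ι (e ⁻¹' T) := by
      refine ⟨fun x => hT.gen x, ?_, ?_, ?_⟩
      · intro a b ha hb
        show e (a * b) ∈ T
        rw [he]
        exact hT.mul _ _ ha hb
      · intro a ha
        have := hT.map_l (e a) ha
        simp only [Equiv.symm_apply_apply] at this
        exact this
      · intro a ha
        have := hT.map_r (e a) ha
        simp only [Equiv.symm_apply_apply] at this
        exact this
    obtain ⟨b, rfl⟩ := sur a
    exact hgen _ h1 b
  refine ⟨instT, fun a => e (l (e.symm a)), fun a => e (r (e.symm a)), fun x => e (ι x),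
    ?_, ?_, ?_, ?_, ?_, hgen', ?_⟩
  · intro a b
    obtain ⟨a, rfl⟩ := sur a
    obtain ⟨b, rfl⟩ := sur b
    rw [← he, val, val, val, hmul, ← nfw_toW G]
    exact congrArg nfw List.map_append
  · intro a
    obtain ⟨a, rfl⟩ := sur a
    show (e (l (e.symm (e a)))).1 = _
    rw [hl', val, val, hl, ← theSys_L]
    cases (theSys X).L true a.1 <;> rfl
  · intro a
    obtain ⟨a, rfl⟩ := sur a
    show (e (r (e.symm (e a)))).1 = _
    rw [hr', val, val, hr, Pre.Rt]
    have h1 : (a.1.map toLet).reverse = a.1.reverse.map toLet := List.map_reverse.symm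
    rw [h1, ← theSys_L]
    show _ = (Option.map Subtype.val ((theSys X).L (!true) a.1.reverse)).toList
    cases (theSys X).L (!true) a.1.reverse <;> rfl
  · intro x
    show (e (ι x)).1 = _
    rw [val, hι]
    rfl
  · exact (QuasiQ.transport e he hQ hl' hr').inQ
  · intro A _ l' r' hA φ
    obtain ⟨f, hf⟩ := hext A l' r' hA φ
    refine ⟨fun a => f (e.symm a), ⟨?_, ?_, ?_, ?_⟩, ?_⟩
    · intro x
      show f (e.symm (e (ι x))) = φ x
      rw [Equiv.symm_apply_apply]
      exact hf.gen x
    · intro a b
      obtain ⟨a, rfl⟩ := sur a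
      obtain ⟨b, rfl⟩ := sur b
      rw [← he]
      simp only [Equiv.symm_apply_apply]
      exact hf.mul a b
    · intro a
      obtain ⟨a, rfl⟩ := sur a
      simp only [Equiv.symm_apply_apply]
      exact hf.map_l a
    · intro a
      obtain ⟨a, rfl⟩ := sur a
      simp only [Equiv.symm_apply_apply]
      exact hf.map_r a
    · intro g hg
      funext a
      have hT : ClosedUnder (fun a => e (l (e.symm a))) (fun a => e (r (e.symm a)))
          (fun x => e (ι x)) {a | g a = f (e.symm a)} := by
        refine ⟨?_, ?_, ?_, ?_⟩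
        · intro x
          show g (e (ι x)) = f (e.symm (e (ι x)))
          rw [Equiv.symm_apply_apply, hf.gen x]
          exact hg.gen x
        · intro a b ha hb
          obtain ⟨a, rfl⟩ := sur a
          obtain ⟨b, rfl⟩ := sur b
          simp only [Set.mem_ofPred_eq, Equiv.symm_apply_apply] at ha hb
          show g (e a * e b) = f (e.symm (e a * e b))
          rw [hg.mul, ha, hb, ← he, Equiv.symm_apply_apply, hf.mul]
        · intro a ha
          obtain ⟨a, rfl⟩ := sur a
          simp only [Set.mem_ofPred_eq, Equiv.symm_apply_apply] at ha ⊢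
          have := hg.map_l (e a)
          simp only [Equiv.symm_apply_apply] at this
          rw [this, ha, hf.map_l]
        · intro a ha
          obtain ⟨a, rfl⟩ := sur a
          simp only [Set.mem_ofPred_eq, Equiv.symm_apply_apply] at ha ⊢
          have := hg.map_r (e a)
          simp only [Equiv.symm_apply_apply] at this
          rw [this, ha, hf.map_r]
      exact hgen' _ hT a

end Pool.Agent.LibQF
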