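import Pool.Agent.LibQF.DS

/-!
# `Fix` for words of size `n`
-/

namespace Pool.Agent.LibQF

universe u

namespace Sys

variable {X : Type u} {S : Sys X} {n : ℕ}

lemma L_gen_ne_fx (s : Bool) (x : X) : S.L s [Sum.inl x] ≠ none := by
  obtain ⟨k, _, _, _, h4⟩ := S.L_top s (.inl x) [] (S.Red_gen s x) trivial (by
    rintro ⟨u, v, g, h1, h2, h3, _⟩
    rcases u with _ | ⟨a, u⟩
    · exact h2 rfl
    · simp at h1
      exact h3 h1.2.2) (by simp)
  rw [h4]
  simp

lemma L_letter_ne_fx (s : Bool) (z : S.A) : S.L s [z] ≠ none := by
  cases z with
  | inl x => exact L_gen_ne_fx s x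
  | inr e => rw [S.L_single]; simp

lemma L_ne_none_fx (hg : S.Good n) {s : Bool} {w : List S.A} (hw : S.wt w < n) (h : w ≠ []) :
    S.L s w ≠ none := by
  rcases List.eq_nil_or_concat' w with rfl | ⟨u, z, rfl⟩
  · exact absurd rfl h
  · intro h1
    have h2 := p5L hg (s := s) (u := u) (v := [z]) hw
    rw [h1] at h2
    exact L_letter_ne_fx s z (none_le h2)

lemma le_upL_fx (hg : S.Good n) {s : Bool} {a : S.A} {Z : List S.A} (hw : S.wt (a :: Z) < n) :
    S.le (S.L s (a :: Z)) (S.L s (S.up a ++ Z)) := by
  rcases mfL hg (s := s) hw with h | ⟨κ, h1, h2, _⟩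
  · rw [h]; exact S.le_refl _
  · rw [h1, ← h2]; exact le_par κ

lemma NS_append_fx {s : Bool} {u v : List S.A} (hu : u ≠ []) (h : S.NS s u) : S.NS s (u ++ v) := by
  rcases u with _ | ⟨a, u⟩
  · exact absurd rfl hu
  · cases a with
    | inl x => trivial
    | inr e => exact h

lemma fix_nonred (hg : S.Good n) {s : Bool} {u : List S.A} {g : S.E}
    (hw : S.wt (u ++ [.inr g]) ≤ n) (h : S.le (some g) (S.L s (u ++ S.o2l (S.par g))))
    (hr : ¬ S.Red s (u ++ [.inr g])) : S.L s (u ++ [Sum.inr g]) = some g := by
  have hi := inv_succ hg
  have hgp := S.wt_par g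
  simp at hw
  by_cases hR1 : S.IsR1 s u g
  · have h1 : S.Step s (u ++ .inr g :: []) (u ++ (S.o2l (S.par g) ++ [])) :=
      Pre.Step.mk u g [] (Or.inl hR1)
    have h2 := hi s _ _ (by simp; omega) h1
    simp at h2
    unfold Pre.IsR1 at hR1
    rw [h2]
    exact le_antisymm hR1 h
  by_cases hu : S.Red s u
  swap
  · unfold Pre.Red at hu
    push Not at hu
    obtain ⟨u', hu'⟩ := hu
    have e1 := Step_wt S hu'
    have h1 := step_append_right hg [.inr g] hu' (by simp; omega)
    have h2 := step_append_right hg (S.o2l (S.par g)) hu' (by simp; omega)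
    rw [hi s _ _ (by simp; omega) h1]
    apply fixL hg (by simp; omega)
    rw [← L_step1 hg.inv (by simp; omega) h2]
    exact h
  -- the last redex
  have hex : ∃ l : ℕ, ∃ (a : List S.A) (c : S.E) (d : List S.A), d.length = l ∧
      u = a ++ .inr c :: d ∧ S.IsR2 s c (d ++ [.inr g]) := by
    obtain ⟨a, c, b, h1, h2⟩ := step_of_not_red hr
    rw [red_iff] at hu
    rcases List.append_eq_append_iff.1 h1 with ⟨d, hd1, hd2⟩ | ⟨d, hd1, hd2⟩
    · exfalso
      rcases d with _ | ⟨d0, d⟩
      · simp at hd1 hd2
        obtain ⟨rfl, rfl⟩ := hd2
        subst hd1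
        rcases h2 with h2 | h2
        · exact hR1 h2
        · unfold Pre.IsR2 at h2
          simp at h2
          exact not_par_le g h2
      · simp at hd2
    · rcases d with _ | ⟨d0, d⟩
      · exfalso
        simp at hd1 hd2
        obtain ⟨rfl, rfl⟩ := hd2
        subst hd1
        rcases h2 with h2 | h2
        · exact hR1 h2
        · unfold Pre.IsR2 at h2
          simp at h2
          exact not_par_le c h2
      · simp at hd2
        obtain ⟨rfl, rfl⟩ := hd2
        rcases h2 with h2 | h2
        · exact absurd h2 (hu a c d hd1).1
        · exact ⟨_, a, c, d, rfl, hd1, h2⟩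
  classical
  obtain ⟨a, c, d, hl, h1, h2⟩ := Nat.find_spec hex
  have hmin : ∀ (a' : List S.A) (c' : S.E) (d' : List S.A), u = a' ++ .inr c' :: d' →
      S.IsR2 s c' (d' ++ [.inr g]) → d.length ≤ d'.length := by
    intro a' c' d' h3 h4
    rw [hl]
    exact Nat.find_min' hex ⟨a', c', d', rfl, h3, h4⟩
  subst h1
  simp at hw
  have hcp := S.wt_par c
  have hcpos := S.sz_pos c
  have hno : S.NoRed s [.inr c] d [.inr g] := by
    intro m1 k m2 hd
    have hk := S.wt_par k
    rw [hd] at hw
    simp at hw
    constructor
    · intro h3
      apply (red_iff.1 hu (a ++ .inr c :: m1) k m2 (by simp [hd])).1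
      unfold Pre.IsR1 at h3 ⊢
      refine le_trans ?_ h3
      have := p5L hg (s := s) (u := a) (v := .inr c :: (m1 ++ S.o2l (S.par k))) (by simp; omega)
      simpa using this
    · intro h3
      have := hmin (a ++ .inr c :: m1) k m2 (by simp [hd]) h3
      rw [hd] at this
      simp at this
      omega
  have hstep : S.L s (a ++ .inr c :: (d ++ [.inr g])) =
      S.L s (a ++ (S.o2l (S.par c) ++ (d ++ [.inr g]))) :=
    hi s _ _ (by simp; omega) (Pre.Step.mk a c _ (Or.inr h2))
  by_cases h5 : S.IsR2 s c (d ++ S.o2l (S.par g))
  · have h6 : S.L s (a ++ .inr c :: (d ++ S.o2l (S.par g))) =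
      S.L s (a ++ (S.o2l (S.par c) ++ (d ++ S.o2l (S.par g)))) :=
      L_step1 hg.inv (by simp; omega) (Pre.Step.mk a c _ (Or.inr h5))
    have h7 := fixL hg (s := s) (u := a ++ (S.o2l (S.par c) ++ d)) (g := g) (by simp; omega) (by
      simp at h h6 ⊢
      rw [← h6]
      exact h)
    simp at hstep h7 ⊢
    rw [hstep]
    exact h7
  -- the bad case
  exfalso
  unfold Pre.IsR2 at h2 h5
  obtain ⟨k, h6, h7, h8, h9, h10, _⟩ := crossR hg (s := s) (e := some g) (P := S.par g)
    (Z := S.o2l (S.par c) ++ d) (q := c) (le_par g) (by simp; omega) (by simpa using h2)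
    (by simpa using h5)
  have hkg : k = g := by
    rcases le_cases h6 with h11 | h11
    · simpa using h11
    · exact absurd (le_trans h7 h11) (not_par_le k)
  subst hkg
  by_cases hsc : S.side c = s
  · have h11 : S.le (S.Rt s (d ++ [.inr k])) (some c) := by
      cases hpc : S.par c with
      | none => rw [hpc] at h2; simpa using h2
      | some p0 =>
        rw [hpc] at h2 hcp
        simp at hcp
        obtain ⟨e, _, _, h12⟩ := ttR hg (s := s) (y := d ++ [.inr k]) (z := .inr p0) (q := c)
          (by simp; omega) hsc (by simpa using h2) (by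
            intro e he h12
            simp at he
            subst he
            rw [← hpc] at h12
            exact not_par_le c h12)
        exact h12
    rcases d with _ | ⟨z, d'⟩
    · simp at h11 h8
      have h12 := absorbR hg (s := s) (v := [.inr k]) (f := S.par c)
        (by simpa using le_trans h11 (le_par c)) (by simp at hw ⊢; omega)
      rw [h12] at h8
      simp at h8
      subst h8
      apply hR1
      unfold Pre.IsR1
      have h13 := p5L hg (s := s) (u := a) (v := [.inr k]) (by simp at hw ⊢; omega)
      simp only [L_single] at h13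
      have h14 := absorbL hg (s := s) (u := a ++ [.inr k]) (f := S.par k)
        (le_trans (by simpa using h13) (le_par k)) (by simp at hw ⊢; omega)
      rw [h14]
      simpa using h13
    · have hrd : S.Red s (z :: d' ++ [.inr k]) := by
        rw [red_iff]
        intro m1 f m2 hm
        have hf := S.wt_par f
        rcases List.append_eq_append_iff.1 hm with ⟨t, ht1, ht2⟩ | ⟨t, ht1, ht2⟩
        · rcases t with _ | ⟨t0, t⟩
          · simp at ht1 ht2
            obtain ⟨rfl, rfl⟩ := ht2
            constructor
            · intro h12
              apply hR1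
              unfold Pre.IsR1 at h12 ⊢
              refine le_trans ?_ h12
              have := p5L hg (s := s) (u := a ++ [.inr c]) (v := m1 ++ S.o2l (S.par k))
                (by rw [ht1]; simp at hw ⊢; omega)
              rw [ht1] at this ⊢
              simpa using this
            · intro h12
              unfold Pre.IsR2 at h12
              simp at h12
              exact not_par_le k h12
          · simp at ht2
        · rcases t with _ | ⟨t0, t⟩
          · simp at ht1 ht2
            obtain ⟨rfl, rfl⟩ := ht2
            constructor
            · intro h12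
              apply hR1
              unfold Pre.IsR1 at h12 ⊢
              refine le_trans ?_ h12
              have := p5L hg (s := s) (u := a ++ [.inr c]) (v := m1 ++ S.o2l (S.par f))
                (by rw [← ht1]; simp at hw ⊢; omega)
              rw [← ht1] at this ⊢
              simpa using this
            · intro h12
              unfold Pre.IsR2 at h12
              simp at h12
              exact not_par_le f h12
          · simp at ht2
            obtain ⟨rfl, rfl⟩ := ht2
            have h12 := hno m1 f t ht1
            refine ⟨?_, h12.2⟩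
            intro h13
            apply h12.1
            unfold Pre.IsR1 at h13 ⊢
            refine le_trans ?_ h13
            have := p5L hg (s := s) (u := [.inr c]) (v := m1 ++ S.o2l (S.par f))
              (by
                have := congrArg S.wt ht1
                simp at this hw ⊢
                omega)
            simpa using this
      obtain ⟨e, rfl, h12⟩ := firstT hg (s := s) (z := z) (y := d' ++ [.inr k]) (q := c)
        (by simpa using hrd) (by simp at hw ⊢; omega) hsc (by simpa using h11)
      apply h5
      have h13 := p5R hg (s := s) (u := [.inr e]) (v := d' ++ S.o2l (S.par k))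
        (by simp at hw ⊢; omega)
      simp at h13
      have h14 := absorbR hg (s := s) (v := .inr e :: (d' ++ S.o2l (S.par k))) (f := S.par c)
        (le_trans h13 (le_trans h12 (le_par c))) (by simp at hw ⊢; omega)
      simp only [List.cons_append]
      rw [h14]
      exact le_trans h13 h12
  · cases hpk : S.par k with
    | none =>
      rw [hpk] at h
      rcases le_cases h with h11 | h11
      · apply hR1
        unfold Pre.IsR1
        rw [hpk, h11]
        exact S.le_refl _
      · rw [hpk] at h11
        have h12 := none_le h11
        simp only [o2l_none, List.append_nil] at h12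
        exact L_ne_none_fx hg (w := a ++ .inr c :: d) (by simp; have := S.sz_pos k; omega) (by simp) h12
    | some Q =>
      have hkp := S.wt_par k
      rw [hpk] at hkp
      simp at hkp
      have h11 : S.L s ((a ++ .inr c :: d) ++ [.inr Q]) = some Q := by
        rcases le_cases h with h12 | h12
        · exfalso
          apply hR1
          unfold Pre.IsR1
          rw [h12]
          exact S.le_refl _
        · rw [hpk] at h12
          apply le_antisymm
          · have := p5L hg (s := s) (u := a ++ .inr c :: d) (v := [.inr Q])
              (by simp; omega)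
            simpa using this
          · simpa using h12
      apply lemDS hg (s := s) (b := c) (h := k) (Q := Q) (y := d) hsc (by simp; omega)
        (by simpa using h10) (by simpa using h9) hno (by rw [hpk]; exact S.le_refl _)
      apply le_antisymm
      · have := p5L hg (s := s) (u := .inr c :: d) (v := [.inr Q]) (by simp; omega)
        simpa using this
      · have := p5L hg (s := s) (u := a) (v := .inr c :: (d ++ [.inr Q])) (by simp; omega)
        simp at this h11
        rw [h11] at this
        exact this

lemma fix_red0 (hg : S.Good n) {s : Bool} {u : List S.A} {g : S.E} (hu : u ≠ [])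
    (hw : S.wt (u ++ [.inr g]) ≤ n) (h : S.le (some g) (S.L s (u ++ S.o2l (S.par g))))
    (hn : S.NS s u) (hr : S.Red s (u ++ [.inr g])) : S.L s (u ++ [Sum.inr g]) = some g := by
  have hgp := S.wt_par g
  rcases u with _ | ⟨a, u⟩
  · exact absurd rfl hu
  simp at hw
  have hau := S.wt_up a
  have h1 : S.Split s (a :: (u ++ [.inr g])) :=
    ⟨a :: u, [.inr g], g, by simp, by simp, by simp, by simp, h⟩
  have h2 := S.L_split s a (u ++ [.inr g]) (by simpa using hr)
    (by simpa using NS_append_fx (v := [.inr g]) hu hn) h1
  simp only [List.cons_append] at h ⊢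
  rw [h2]
  have h3 := fixL hg (s := s) (u := S.up a ++ u) (g := g) (by simp; omega) (by
    have := le_upL_fx hg (s := s) (a := a) (Z := u ++ S.o2l (S.par g)) (by simp; omega)
    simpa using le_trans h this)
  simpa using h3

lemma fix_succ (hg : S.Good n) : S.Fix (n + 1) := by
  intro s u g hw h
  have hw' : S.wt (u ++ [.inr g]) ≤ n := by omega
  by_cases hr : S.Red s (u ++ [.inr g])
  swap
  · exact fix_nonred hg hw' h hr
  rcases u with _ | ⟨a, u⟩
  · simp
  by_cases hn : S.NS s (a :: u)
  · exact fix_red0 hg (by simp) hw' h hn hr
  cases a with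
  | inl x => exact absurd trivial hn
  | inr c =>
    have hc : S.side c = s := by
      by_contra hc
      exact hn hc
    have hgp := S.wt_par g
    have hcs := S.sz_om c
    simp at hw'
    have h1 := S.L_open s c (u ++ [.inr g]) (by simpa using hr) hc (by simp)
    simp only [List.cons_append] at h ⊢
    rw [h1]
    have h2 : S.le (some g) (S.L s ((S.om c ++ u) ++ S.o2l (S.par g))) := by
      have h3 := p3L hg (s := s) (u := S.om c) (v := u ++ S.o2l (S.par g)) (by simp; omega)
      have h4 := S.L_om c
      rw [hc] at h4
      rw [h4] at h3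
      simp at h3 ⊢
      rw [h3]
      exact h
    have h5 : S.NS s (S.om c ++ u) := by
      have h6 := S.om_ns c
      rw [hc] at h6
      exact NS_append_fx (S.om_ne_nil c) h6
    have h7 : S.om c ++ u ≠ [] := by
      have := S.om_ne_nil c
      simp [this]
    have h8 : S.wt ((S.om c ++ u) ++ [.inr g]) ≤ n := by simp; omega
    by_cases hr2 : S.Red s ((S.om c ++ u) ++ [.inr g])
    · have := fix_red0 hg h7 h8 h2 h5 hr2
      simpa using this
    · have := fix_nonred hg h8 h2 hr2
      simpa using this

end Sys

end Pool.Agent.LibQF
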