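import Pool.Agent.LibQF.Good

/-!
# The monoid of reduced words of a good letter system
-/

namespace Pool.Agent.LibQF

universe u

namespace Sys

variable {X : Type u} (S : Sys X)

/-- the reduced form of a word -/
noncomputable def nf (w : List S.A) : List S.A := (S.exists_red true w).choose

lemma nf_steps (w : List S.A) : S.Steps true w (S.nf w) := (S.exists_red true w).choose_spec.1

lemma nf_red (w : List S.A) : S.Red true (S.nf w) := (S.exists_red true w).choose_spec.2

lemma step_ne_nil {s : Bool} {w w' : List S.A} (h : S.Step s w w') : w' ≠ [] := by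
  cases h with
  | mk u k v h =>
    intro h0
    have h1 : u = [] := by
      cases u with
      | nil => rfl
      | cons a u => simp at h0
    subst h1
    simp only [List.nil_append, List.append_eq_nil_iff] at h0
    obtain ⟨h2, rfl⟩ := h0
    have := Pre.Step.mk (S := S.toPre) (s := s) [] k [] h
    exact S.Red_single s k _ this

lemma steps_ne_nil {s : Bool} {w w' : List S.A} (h : S.Steps s w w') (hw : w ≠ []) : w' ≠ [] := by
  rcases Relation.ReflTransGen.cases_tail h with h1 | ⟨c, _, h1⟩
  · rw [h1]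
    exact hw
  · exact S.step_ne_nil h1

lemma nf_ne_nil {w : List S.A} (hw : w ≠ []) : S.nf w ≠ [] := S.steps_ne_nil (S.nf_steps w) hw

lemma Red_nil (s : Bool) : S.Red s [] := by
  rw [red_iff]
  intro u k v h
  simp at h

variable {S}

lemma nf_of_red {w : List S.A} (h : S.Red true w) : S.nf w = w := Red_Steps S h (S.nf_steps w)

@[simp] lemma nf_nil : S.nf [] = [] := nf_of_red (S.Red_nil true)

@[simp] lemma nf_single (e : S.E) : S.nf [Sum.inr e] = [Sum.inr e] := nf_of_red (S.Red_single true e)

@[simp] lemma nf_gen (x : X) : S.nf [Sum.inl x] = [Sum.inl x] := nf_of_red (S.Red_gen true x)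

lemma Red_o2l (s : Bool) (o : Option S.E) : S.Red s (S.o2l o) := by
  cases o with
  | none => exact S.Red_nil s
  | some e => exact S.Red_single s e

@[simp] lemma nf_o2l (o : Option S.E) : S.nf (S.o2l o) = S.o2l o := nf_of_red (Red_o2l true o)

section

variable (G : ∀ n, S.Good n)

include G

lemma nf_eq {w z : List S.A} (h : S.Steps true w z) (hz : S.Red true z) : S.nf w = z :=
  red_unique (G (S.wt w + 1)).conf (by omega) (S.nf_steps w) h (S.nf_red w) hz

lemma nf_congr {w w' : List S.A} (h : S.Steps true w w') : S.nf w = S.nf w' :=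
  nf_eq G (h.trans (S.nf_steps w')) (S.nf_red w')

lemma steps_nf_append (c w d : List S.A) : S.Steps true (c ++ w ++ d) (c ++ S.nf w ++ d) :=
  steps_append (G (S.wt (c ++ w ++ d))) c d (S.nf_steps w) le_rfl

lemma nf_mid (c w d : List S.A) : S.nf (c ++ S.nf w ++ d) = S.nf (c ++ w ++ d) :=
  (nf_congr G (steps_nf_append G c w d)).symm

lemma nf_left (u v : List S.A) : S.nf (S.nf u ++ v) = S.nf (u ++ v) := by
  have := nf_mid G [] u v
  simpa using this

lemma nf_right (u v : List S.A) : S.nf (u ++ S.nf v) = S.nf (u ++ v) := by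
  have := nf_mid G u v []
  simpa using this

lemma nf_both (u v : List S.A) : S.nf (S.nf u ++ S.nf v) = S.nf (u ++ v) := by
  rw [nf_left G, nf_right G]

/-- congruence of equality of reduced forms -/
lemma nf_append_congr {u u' v v' : List S.A} (h1 : S.nf u = S.nf u') (h2 : S.nf v = S.nf v') :
    S.nf (u ++ v) = S.nf (u' ++ v') := by
  rw [← nf_both G u v, h1, h2, nf_both G]

lemma L_nf (w : List S.A) : S.L true (S.nf w) = S.L true w :=
  (L_steps (G (S.wt w + 1)).inv (by omega) (S.nf_steps w)).symm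

lemma Rt_nf (w : List S.A) : S.Rt true (S.nf w) = S.Rt true w :=
  (Rt_steps (G (S.wt w + 1)).inv (by omega) (S.nf_steps w)).symm

lemma L_congr {w w' : List S.A} (h : S.nf w = S.nf w') : S.L true w = S.L true w' := by
  rw [← L_nf G w, h, L_nf G]

lemma Rt_congr {w w' : List S.A} (h : S.nf w = S.nf w') : S.Rt true w = S.Rt true w' := by
  rw [← Rt_nf G w, h, Rt_nf G]

/-- `w f = w` if `L(w) ≤ f` -/
lemma nf_mul_above {w : List S.A} {f : Option S.E} (h : S.le (S.L true w) f) :
    S.nf (w ++ S.o2l f) = S.nf w := by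
  have h1 := stepsR1 (G (S.wt (w ++ S.o2l f ++ []))) (s := true) (u := w) (z := [])
    (f0 := f) (G := none) (le_none f) (by simpa using h) le_rfl
  have h2 := nf_congr G h1
  simpa using h2

/-- `f w = w` if `R(w) ≤ f` -/
lemma nf_above_mul {w : List S.A} {f : Option S.E} (h : S.le (S.Rt true w) f) :
    S.nf (S.o2l f ++ w) = S.nf w := by
  have h1 := stepsR2 (G (S.wt ([] ++ S.o2l f ++ w))) (s := true) (u := []) (z := w)
    (f0 := f) (G := none) (le_none f) (by simpa using h) le_rfl
  have h2 := nf_congr G h1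
  simpa using h2

lemma nf_mul_L (w : List S.A) : S.nf (w ++ S.o2l (S.L true w)) = S.nf w :=
  nf_mul_above G (S.le_refl _)

lemma nf_Rt_mul (w : List S.A) : S.nf (S.o2l (S.Rt true w) ++ w) = S.nf w :=
  nf_above_mul G (S.le_refl _)

lemma L_le_of_mul {w : List S.A} {f : Option S.E} (h : S.nf (w ++ S.o2l f) = S.nf w) :
    S.le (S.L true w) f := by
  rw [← L_congr G h]
  have := p5L (G (S.wt (w ++ S.o2l f) + 1)) (s := true) (u := w) (v := S.o2l f) (by omega)
  simpa using this

lemma Rt_le_of_mul {w : List S.A} {f : Option S.E} (h : S.nf (S.o2l f ++ w) = S.nf w) :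
    S.le (S.Rt true w) f := by
  rw [← Rt_congr G h]
  have := p5R (G (S.wt (S.o2l f ++ w) + 1)) (s := true) (u := S.o2l f) (v := w) (by omega)
  simpa using this

lemma L_append (u v : List S.A) : S.L true (u ++ v) = S.L true (S.o2l (S.L true u) ++ v) :=
  p3L (G (S.wt (u ++ v) + 1)) (by omega)

lemma Rt_append (u v : List S.A) : S.Rt true (u ++ v) = S.Rt true (u ++ S.o2l (S.Rt true v)) :=
  p3R (G (S.wt (u ++ v) + 1)) (by omega)

lemma L_append_le (u v : List S.A) : S.le (S.L true (u ++ v)) (S.L true v) :=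
  p5L (G (S.wt (u ++ v) + 1)) (by omega)

lemma Rt_append_le (u v : List S.A) : S.le (S.Rt true (u ++ v)) (S.Rt true u) :=
  p5R (G (S.wt (u ++ v) + 1)) (by omega)

/-- product of two comparable idempotents -/
lemma nf_le {e f : S.E} (h : S.le (some e) (some f)) :
    S.nf [Sum.inr e, Sum.inr f] = [Sum.inr e] ∧ S.nf [Sum.inr f, Sum.inr e] = [Sum.inr e] := by
  have h1 := nf_mul_above G (w := [Sum.inr e]) (f := some f) (by simpa using h)
  have h2 := nf_above_mul G (w := [Sum.inr e]) (f := some f) (by simpa using h)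
  simp only [o2l_some, nf_single] at h1 h2
  exact ⟨h1, h2⟩

/-- two idempotents with `e f e = e f` commute -/
lemma comm_of_av1 {e f : S.E} (h : S.nf [Sum.inr e, Sum.inr f, Sum.inr e] =
    S.nf [Sum.inr e, Sum.inr f]) :
    S.nf [Sum.inr e, Sum.inr f] = S.nf [Sum.inr f, Sum.inr e] := by
  have h1 := L_congr G h
  have h2 := L_append_le G [Sum.inr e, Sum.inr f] [Sum.inr e]
  have h3 := L_append_le G [Sum.inr e] [Sum.inr f]
  simp only [List.cons_append, List.nil_append, L_single'] at h2 h3
  rw [h1] at h2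
  rcases le_total_above h2 h3 with h4 | h4
  · rw [(nf_le G h4).1, (nf_le G h4).2]
  · rw [(nf_le G h4).1, (nf_le G h4).2]

lemma comm_of_av2 {e f : S.E} (h : S.nf [Sum.inr e, Sum.inr f, Sum.inr e] =
    S.nf [Sum.inr f, Sum.inr e]) :
    S.nf [Sum.inr e, Sum.inr f] = S.nf [Sum.inr f, Sum.inr e] := by
  have h1 := Rt_congr G h
  have h2 := Rt_append_le G [Sum.inr e] [Sum.inr f, Sum.inr e]
  have h3 := Rt_append_le G [Sum.inr f] [Sum.inr e]
  simp only [List.cons_append, List.nil_append, Rt_single] at h2 h3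
  rw [h1] at h2
  rcases le_total_above h2 h3 with h4 | h4
  · rw [(nf_le G h4).1, (nf_le G h4).2]
  · rw [(nf_le G h4).1, (nf_le G h4).2]

end

end Sys

end Pool.Agent.LibQF
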