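import Pool.Agent.LibQF.All
import Pool.Agent.LibQF.FreeBase
import Pool.Agent.LibQF.Eval
import Pool.Agent.LibQF.FinalModel

/-!
# The free algebra of an abstract good letter system
-/

namespace Pool.Agent.LibQF

universe u v

namespace Sys

variable {X : Type u} (S : Sys X)

/-- the left condition (for both sides) -/
def LC : Prop := ∀ (s : Bool) (w u v : List S.A), S.Eqv s (w ++ u) (w ++ v) →
  S.Eqv s (S.o2l (S.L s w) ++ u) (S.o2l (S.L s w) ++ v)

/-- idempotents are single letters -/
def IdL : Prop := ∀ w : List S.A, S.Red true w → w ≠ [] → S.nf (w ++ w) = w →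
  ∃ e, w = [Sum.inr e]

variable {S}

section

variable (G : ∀ n, S.Good n)

include G

lemma eqv_iff {a b : List S.A} : S.Eqv true a b ↔ S.nf a = S.nf b := by
  constructor
  · rintro ⟨z, h1, h2⟩
    rw [nf_congr G h1, nf_congr G h2]
  · intro h
    exact ⟨S.nf a, S.nf_steps a, h ▸ S.nf_steps b⟩

/-- nonempty words have a value -/
lemma L_ne_none (s : Bool) {w : List S.A} (hw : w ≠ []) : S.L s w ≠ none := by
  induction h : S.wt w using Nat.strong_induction_on generalizing w with
  | _ n ih =>
    subst h
    obtain ⟨a, v, rfl⟩ := List.exists_cons_of_ne_nil hw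
    intro h0
    have h1 := monoL (G (S.wt (a :: v) + 1)) (s := s) (e := none) (f := none) (Z := a :: v)
      (S.le_refl _) (by simp)
    -- `L (a v) ≤ L v`, and `L (u a) ≤ L a`
    by_cases hv : v = []
    · subst hv
      cases a with
      | inl x =>
        have h2 : ∃ k, S.side k = s ∧ S.om k = [Sum.inl x] ∧
            S.par k = S.L s (S.up (Sum.inl x) ++ []) ∧ S.L s [Sum.inl x] = some k := by
          apply S.L_top s (Sum.inl x) [] (S.Red_gen s x)
          · trivial
          · rintro ⟨u, v, g, h3, h4, h5, _⟩
            have := congrArg List.length h3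
            rw [List.length_append] at this
            have h6 := List.length_pos_iff.2 h4
            have h7 := List.length_pos_iff.2 h5
            simp at this
            omega
          · intro e he
            simp at he
        obtain ⟨k, _, _, _, h2⟩ := h2
        rw [h2] at h0
        cases h0
      | inr e =>
        rw [S.L_single] at h0
        cases h0
    · have h2 := p5L (G (S.wt (a :: v) + 1)) (s := s) (u := [a]) (v := v) (by simp)
      have h3 : S.L s ([a] ++ v) = none := h0
      rw [h3] at h2
      have h4 := none_le h2
      exact ih (S.wt v) (by have := S.wtA_pos a; simp; omega) hv rfl h4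

/-- left condition, orientation `true` -/
lemma lc_true (hLC : S.LC) {w u v : List S.A} (h : S.nf (w ++ u) = S.nf (w ++ v)) :
    S.nf (S.o2l (S.L true w) ++ u) = S.nf (S.o2l (S.L true w) ++ v) :=
  (eqv_iff G).1 (hLC true w u v ((eqv_iff G).2 h))

/-- right condition, orientation `true` -/
lemma rc_true (hLC : S.LC) {w u v : List S.A} (h : S.nf (u ++ w) = S.nf (v ++ w)) :
    S.nf (u ++ S.o2l (S.Rt true w)) = S.nf (v ++ S.o2l (S.Rt true w)) := by
  have h1 := Eqv.rev ((eqv_iff G).2 h)
  rw [List.reverse_append, List.reverse_append] at h1
  have h2 := Eqv.rev (hLC (!true) w.reverse u.reverse v.reverse h1)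
  rw [List.reverse_append, List.reverse_append, List.reverse_reverse, List.reverse_reverse,
    o2l_reverse] at h2
  exact (eqv_iff G).1 h2

/-- the semigroup of nonempty reduced words -/
@[instance_reducible]
noncomputable def semi : Semigroup (FW S) where
  mul a b := ⟨S.nf (a.1 ++ b.1), S.nf_red _, S.nf_ne_nil (by
    intro h
    exact a.2.2 (List.append_eq_nil_iff.1 h).1)⟩
  mul_assoc a b c := by
    apply Subtype.ext
    show S.nf (S.nf (a.1 ++ b.1) ++ c.1) = S.nf (a.1 ++ S.nf (b.1 ++ c.1))
    rw [nf_left G, nf_right G, List.append_assoc]

/-- left idempotent -/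
noncomputable def lF (a : FW S) : FW S := ⟨S.o2l (S.L true a.1), Red_o2l true _, by
  cases h : S.L true a.1 with
  | none => exact absurd h (L_ne_none G true a.2.2)
  | some e => simp⟩

/-- right idempotent -/
noncomputable def rF (a : FW S) : FW S := ⟨S.o2l (S.Rt true a.1), Red_o2l true _, by
  cases h : S.Rt true a.1 with
  | none => exact absurd h (L_ne_none G (!true) (by simpa using a.2.2))
  | some e => simp⟩

omit G in
/-- generators -/
def ιF (x : X) : FW S := ⟨[Sum.inl x], S.Red_gen true x, by simp⟩

omit G in
lemma nf_val (a : FW S) : S.nf a.1 = a.1 := nf_of_red a.2.1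

/-- the quasi-identities hold -/
theorem quasiF (hLC : S.LC) (hId : S.IdL) : @QuasiQ (FW S) (semi G) (lF G) (rF G) := by
  let _ := semi G
  have hm : ∀ a b : FW S, (a * b).1 = S.nf (a.1 ++ b.1) := fun _ _ => rfl
  have hl : ∀ a : FW S, (lF G a).1 = S.o2l (S.L true a.1) := fun _ => rfl
  have hr : ∀ a : FW S, (rF G a).1 = S.o2l (S.Rt true a.1) := fun _ => rfl
  have ext : ∀ a b : FW S, a.1 = b.1 → a = b := fun a b h => Subtype.ext h
  have idem : ∀ o : Option S.E, S.nf (S.o2l o ++ S.o2l o) = S.o2l o := by
    intro o
    have := nf_mul_above G (w := S.o2l o) (f := o) (by rw [L_o2l]; exact S.le_refl _)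
    rw [this, nf_o2l]
  have hid : ∀ x : FW S, x * x = x → ∃ e, x.1 = [Sum.inr e] := by
    intro x hx
    apply hId x.1 x.2.1 x.2.2
    have := congrArg Subtype.val hx
    rwa [hm] at this
  constructor
  · intro x
    apply ext
    rw [hm, hl, idem]
  · intro x
    apply ext
    rw [hm, hr, idem]
  · intro x
    apply ext
    rw [hm, hl, nf_mul_L G, nf_val]
  · intro x
    apply ext
    rw [hm, hr, nf_Rt_mul G, nf_val]
  · intro x y z h
    have h1 := congrArg Subtype.val h
    rw [hm, hm] at h1
    apply ext
    rw [hm, hm, hl]
    exact lc_true G hLC h1
  · intro x y z h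
    have h1 := congrArg Subtype.val h
    rw [hm, hm] at h1
    apply ext
    rw [hm, hm, hr]
    exact rc_true G hLC h1
  · intro x y hx hy h1 h2
    obtain ⟨e, he⟩ := hid x hx
    obtain ⟨f, hf⟩ := hid y hy
    apply ext
    have h3 := congrArg Subtype.val h1
    have h4 := congrArg Subtype.val h2
    rw [hm, he, hf] at h3 h4
    have h5 : S.le (some e) (some f) := by
      have := L_le_of_mul G (w := [Sum.inr e]) (f := some f)
        (by rw [nf_single]; exact h3)
      simpa using this
    have h6 : S.le (some f) (some e) := by
      have := L_le_of_mul G (w := [Sum.inr f]) (f := some e)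
        (by rw [nf_single]; exact h4)
      simpa using this
    have h7 := le_antisymm h5 h6
    have h8 : e = f := by simpa using h7
    rw [he, hf, h8]
  · intro x y hx hy h1 h2
    obtain ⟨e, he⟩ := hid x hx
    obtain ⟨f, hf⟩ := hid y hy
    apply ext
    have h3 := congrArg Subtype.val h1
    have h4 := congrArg Subtype.val h2
    rw [hm, he, hf] at h3 h4
    have h5 : S.le (some f) (some e) := by
      have := Rt_le_of_mul G (w := [Sum.inr f]) (f := some e)
        (by rw [nf_single]; exact h3)
      simpa using this
    have h6 : S.le (some e) (some f) := by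
      have := Rt_le_of_mul G (w := [Sum.inr e]) (f := some f)
        (by rw [nf_single]; exact h4)
      simpa using this
    have h7 := le_antisymm h5 h6
    have h8 : f = e := by simpa using h7
    rw [he, hf, h8]
  · intro x y hx hy h1
    obtain ⟨e, he⟩ := hid x hx
    obtain ⟨f, hf⟩ := hid y hy
    apply ext
    have h3 := congrArg Subtype.val h1
    rw [hm, hm, he, hf, nf_left G] at h3
    rw [hm, hm, he, hf]
    exact comm_of_av1 G h3
  · intro x y hx hy h1
    obtain ⟨e, he⟩ := hid x hx
    obtain ⟨f, hf⟩ := hid y hy
    apply ext
    have h3 := congrArg Subtype.val h1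
    rw [hm, hm, hm, he, hf, nf_left G] at h3
    rw [hm, hm, he, hf]
    exact comm_of_av2 G h3

/-- generation -/
theorem genF (T : Set (FW S)) (hT : @ClosedUnder X (FW S) (semi G) (lF G) (rF G) ιF T) :
    ∀ a, a ∈ T := by
  let _ := semi G
  have hm : ∀ a b : FW S, (a * b).1 = S.nf (a.1 ++ b.1) := fun _ _ => rfl
  -- letters and words, by induction on the size
  have key : ∀ (n : ℕ) (w : List S.A) (h : S.Red true w ∧ w ≠ []), S.wt w < n →
      (⟨w, h⟩ : FW S) ∈ T := by
    intro n
    induction n with
    | zero =>
      intro w h hw
      omega
    | succ n ih =>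
      -- single letters
      have letter : ∀ (a : S.A) (h : S.Red true [a] ∧ [a] ≠ []), S.wtA a < n + 1 →
          (⟨[a], h⟩ : FW S) ∈ T := by
        intro a h ha
        cases a with
        | inl x => exact hT.gen x
        | inr e =>
          -- all reduced words made of the letters of `om e`
          have word : ∀ v : List S.A, v ≠ [] → (∀ b ∈ v, b ∈ S.om e) →
              ∃ h' : S.Red true (S.nf v) ∧ S.nf v ≠ [], (⟨S.nf v, h'⟩ : FW S) ∈ T := by
            intro v
            induction v with
            | nil =>
              intro h0
              exact absurd rfl h0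
            | cons b v ihv =>
              intro _ hb
              have hbm := hb b (by simp)
              have hbs : S.wtA b < S.sz e ∨ ∃ x, b = Sum.inl x := by
                cases b with
                | inl x => exact Or.inr ⟨x, rfl⟩
                | inr f => exact Or.inl (S.mem_om_lt hbm)
              have hb1 : S.Red true [b] ∧ [b] ≠ [] := by
                refine ⟨?_, by simp⟩
                cases b with
                | inl x => exact S.Red_gen true x
                | inr f => exact S.Red_single true f
              have hbT : (⟨[b], hb1⟩ : FW S) ∈ T := by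
                rcases hbs with hbs | ⟨x, rfl⟩
                · apply ih
                  have : S.wt [b] = S.wtA b := by simp
                  have h5 : S.wtA (Sum.inr e) = S.sz e := rfl
                  omega
                · exact hT.gen x
              by_cases hv : v = []
              · subst hv
                have hn : S.nf [b] = [b] := nf_of_red hb1.1
                refine ⟨by rw [hn]; exact hb1, ?_⟩
                have : (⟨S.nf [b], by rw [hn]; exact hb1⟩ : FW S) = ⟨[b], hb1⟩ :=
                  Subtype.ext hn
                rw [this]
                exact hbT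
              · obtain ⟨h', hv'⟩ := ihv hv (fun c hc => hb c (by simp [hc]))
                have h1 := hT.mul _ _ hbT hv'
                have h2 : S.nf ([b] ++ S.nf v) = S.nf (b :: v) := by
                  rw [nf_right G]
                  rfl
                refine ⟨⟨S.nf_red _, S.nf_ne_nil (by simp)⟩, ?_⟩
                have : (⟨S.nf (b :: v), ⟨S.nf_red _, S.nf_ne_nil (by simp)⟩⟩ : FW S) =
                    (⟨[b], hb1⟩ : FW S) * ⟨S.nf v, h'⟩ := by
                  apply Subtype.ext
                  rw [hm]
                  exact h2.symm
                rw [this]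
                exact h1
          cases hs : S.side e with
          | true =>
            obtain ⟨h', h1⟩ := word (S.om e) (S.om_ne_nil e) (fun b hb => hb)
            have h2 := hT.map_l _ h1
            have h3 : lF G (⟨S.nf (S.om e), h'⟩ : FW S) = ⟨[Sum.inr e], h⟩ := by
              apply Subtype.ext
              show S.o2l (S.L true (S.nf (S.om e))) = [Sum.inr e]
              have h4 := S.L_om e
              rw [hs] at h4
              rw [L_nf G, h4]
              rfl
            rw [← h3]
            exact h2
          | false =>
            obtain ⟨h', h1⟩ := word (S.om e).reverse (by simpa using S.om_ne_nil e)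
              (fun b hb => by simpa using hb)
            have h2 := hT.map_r _ h1
            have h3 : rF G (⟨S.nf (S.om e).reverse, h'⟩ : FW S) = ⟨[Sum.inr e], h⟩ := by
              apply Subtype.ext
              show S.o2l (S.Rt true (S.nf (S.om e).reverse)) = [Sum.inr e]
              have h4 := S.L_om e
              rw [hs] at h4
              rw [Rt_nf G, Pre.Rt, List.reverse_reverse]
              show S.o2l (S.L false (S.om e)) = [Sum.inr e]
              rw [h4]
              rfl
            rw [← h3]
            exact h2
      intro w
      induction w with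
      | nil =>
        intro h _
        exact absurd rfl h.2
      | cons a v ihv =>
        intro h hw
        by_cases hv : v = []
        · subst hv
          exact letter a h (by simpa using hw)
        · have ha1 : S.Red true [a] ∧ [a] ≠ [] := by
            refine ⟨?_, by simp⟩
            cases a with
            | inl x => exact S.Red_gen true x
            | inr f => exact S.Red_single true f
          have hv1 : S.Red true v :=
            red_right (G (S.wt (a :: v))) (c := [a]) (w := v) h.1 (by simp)
          have hw' : S.wtA a + S.wt v < n + 1 := by simpa using hw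
          have h1 := letter a ha1 (by omega)
          have h2 := ihv ⟨hv1, hv⟩ (by omega)
          have h3 := hT.mul _ _ h1 h2
          have h4 : (⟨[a], ha1⟩ : FW S) * ⟨v, ⟨hv1, hv⟩⟩ = ⟨a :: v, h⟩ := by
            apply Subtype.ext
            rw [hm]
            exact nf_of_red h.1
          rw [← h4]
          exact h3
  intro a
  exact key (S.wt a.1 + 1) a.1 a.2 (by omega)

end

end Sys

end Pool.Agent.LibQF
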