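import Pool.Agent.LibQF.Good

/-!
# Words that reduce to a single idempotent
-/

namespace Pool.Agent.LibQF

universe u

namespace Sys

variable {X : Type u} {S : Sys X}

/-- all letters are idempotents `≥ e` -/
def AllAbove (e : S.E) (w : List S.A) : Prop :=
  ∀ a ∈ w, ∃ k : S.E, a = .inr k ∧ S.le (some e) (some k)

lemma AllAbove.append {e : S.E} {u v : List S.A} :
    AllAbove e (u ++ v) ↔ AllAbove e u ∧ AllAbove e v := by
  simp only [AllAbove, List.mem_append]
  constructor
  · intro h
    exact ⟨fun a ha => h a (Or.inl ha), fun a ha => h a (Or.inr ha)⟩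
  · rintro ⟨h1, h2⟩ a (ha | ha)
    · exact h1 a ha
    · exact h2 a ha

lemma AllAbove.reverse {e : S.E} {u : List S.A} (h : AllAbove e u) : AllAbove e u.reverse := by
  intro a ha
  exact h a (by simpa using ha)

lemma AllAbove.o2l {e : S.E} {o : Option S.E} (h : S.le (some e) o) : AllAbove e (S.o2l o) := by
  cases o with
  | none => intro a ha; simp at ha
  | some k =>
    intro a ha
    simp at ha
    exact ⟨k, ha, h⟩

lemma le_L_of_allAbove (hg : ∀ n, S.Good n) (s : Bool) {e : S.E} {w : List S.A}
    (h : AllAbove e w) : S.le (some e) (S.L s w) := by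
  induction w using List.reverseRecOn with
  | nil => rw [S.L_nil]; exact le_none _
  | append_singleton y a ih =>
    have h1 := AllAbove.append.1 h
    obtain ⟨k, rfl, hk⟩ := h1.2 a (by simp)
    have h2 := ih h1.1
    rw [p3L (hg (S.wt (y ++ [Sum.inr k]) + 1)) (by omega)]
    rcases le_total_above h2 hk with h3 | h3
    · have h4 := absorbL (hg (S.wt (S.o2l (S.L s y) ++ S.o2l (some k)) + 1)) (s := s)
        (u := S.o2l (S.L s y)) (f := some k) (by rw [L_o2l]; exact h3) (by omega)
      simp only [o2l_some] at h4
      rw [h4, L_o2l]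
      exact h2
    · have h4 := L_above (hg (S.wt (S.o2l (S.L s y) ++ [Sum.inr k]) + 1)) (s := s) (e := k)
        (f := S.L s y) h3 (by omega)
      rw [h4]
      exact hk

lemma le_Rt_of_allAbove (hg : ∀ n, S.Good n) (s : Bool) {e : S.E} {w : List S.A}
    (h : AllAbove e w) : S.le (some e) (S.Rt s w) :=
  le_L_of_allAbove hg (!s) h.reverse

/-- a word that reduces to `e` has all letters `≥ e`, and `e` occurs -/
lemma con_step (hg : ∀ n, S.Good n) {s : Bool} {e : S.E} {w w' : List S.A} (h : S.Step s w w')
    (hw : AllAbove e w') (hm : Sum.inr e ∈ w') : AllAbove e w ∧ Sum.inr e ∈ w := by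
  cases h with
  | mk u k v h =>
    have h1 := AllAbove.append.1 hw
    have h2 := AllAbove.append.1 h1.2
    have hk : S.le (some e) (some k) := by
      rcases h with h | h
      · exact le_trans (le_L_of_allAbove hg s (AllAbove.append.2 ⟨h1.1, h2.1⟩)) h
      · exact le_trans (le_Rt_of_allAbove hg s (AllAbove.append.2 ⟨h2.1, h2.2⟩)) h
    constructor
    · intro a ha
      simp only [List.mem_append, List.mem_cons] at ha
      rcases ha with ha | rfl | ha
      · exact h1.1 a ha
      · exact ⟨k, rfl, hk⟩
      · exact h2.2 a ha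
    · simp only [List.mem_append, List.mem_cons] at hm ⊢
      rcases hm with hm | hm | hm
      · exact Or.inl hm
      · exfalso
        have h3 : S.par k = some e := by
          cases hp : S.par k with
          | none => rw [hp] at hm; simp at hm
          | some p =>
            rw [hp] at hm
            simp only [o2l_some, List.mem_singleton, Sum.inr.injEq] at hm
            rw [hm]
        apply not_par_le k
        rw [h3]
        exact hk
      · exact Or.inr (Or.inr hm)

lemma con_steps (hg : ∀ n, S.Good n) {s : Bool} {e : S.E} {w : List S.A}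
    (h : S.Steps s w [Sum.inr e]) : AllAbove e w ∧ Sum.inr e ∈ w := by
  induction h using Relation.ReflTransGen.head_induction_on with
  | refl =>
    refine ⟨?_, by simp⟩
    intro a ha
    simp at ha
    exact ⟨e, ha, S.le_refl _⟩
  | head h1 _ ih => exact con_step hg h1 ih.1 ih.2

/-- a reduced word with all letters above an idempotent has at most one letter -/
lemma red_allAbove (hg : ∀ n, S.Good n) {s : Bool} {e : S.E} {w : List S.A}
    (hr : S.Red s w) (hw : AllAbove e w) (h0 : w ≠ []) :
    ∃ k : S.E, w = [Sum.inr k] ∧ S.le (some e) (some k) := by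
  cases w with
  | nil => exact absurd rfl h0
  | cons a w =>
    obtain ⟨k, rfl, hk⟩ := hw a (by simp)
    cases w with
    | nil => exact ⟨k, rfl, hk⟩
    | cons b v =>
      exfalso
      obtain ⟨l, rfl, hl⟩ := hw b (by simp)
      have h1 : S.Red s [Sum.inr k, Sum.inr l] :=
        red_left (hg (S.wt ([Sum.inr k, Sum.inr l] ++ v) + 1)) (d := v) (by simpa using hr)
          (by omega)
      rcases le_total_above hk hl with h2 | h2
      · have h3 : S.Step s ([Sum.inr k] ++ Sum.inr l :: []) ([Sum.inr k] ++ (S.o2l (S.par l) ++ [])) := by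
          apply Pre.Step.mk
          left
          unfold Pre.IsR1
          rw [absorbL (hg (S.wt ([Sum.inr k] ++ S.o2l (S.par l)) + 1)) (s := s)
            (by rw [S.L_single]; exact le_trans h2 (le_par l)) (by omega), S.L_single]
          exact h2
        exact h1 _ h3
      · have h3 : S.Step s ([] ++ Sum.inr k :: [Sum.inr l]) ([] ++ (S.o2l (S.par k) ++ [Sum.inr l])) := by
          apply Pre.Step.mk
          right
          unfold Pre.IsR2
          rw [absorbR (hg (S.wt (S.o2l (S.par k) ++ [Sum.inr l]) + 1)) (s := s)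
            (by rw [S.Rt_single]; exact le_trans h2 (le_par k)) (by omega), S.Rt_single]
          exact h2
        exact h1 _ h3

/-- if `u v` reduces to an idempotent letter `e` then `u`, `v` are (reduced) idempotent letters -/
lemma con_append (hg : ∀ n, S.Good n) {s : Bool} {e : S.E} {u v : List S.A}
    (h : S.Steps s (u ++ v) [Sum.inr e]) (hu : S.Red s u) (hv : S.Red s v) (hu0 : u ≠ [])
    (hv0 : v ≠ []) : (∃ k : S.E, u = [Sum.inr k] ∧ S.le (some e) (some k)) ∧
      (∃ k : S.E, v = [Sum.inr k] ∧ S.le (some e) (some k)) := by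
  have h1 := AllAbove.append.1 (con_steps hg h).1
  exact ⟨red_allAbove hg hu h1.1 hu0, red_allAbove hg hv h1.2 hv0⟩

/-- if `L(w) w` reduces to `L(w)`, `w` reduced and not empty, then `w` is a letter;
this is the case for all idempotents `w`, by the left condition -/
lemma idem_letter (hg : ∀ n, S.Good n) {s : Bool} {w : List S.A} (hr : S.Red s w) (h0 : w ≠ [])
    (h : ∃ z, S.Steps s (S.o2l (S.L s w) ++ w) z ∧ S.Steps s (S.o2l (S.L s w)) z) :
    ∃ e : S.E, w = [Sum.inr e] := by
  obtain ⟨z, h1, h2⟩ := h
  cases hL : S.L s w with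
  | none =>
    rw [hL] at h1 h2
    simp only [o2l_none, List.nil_append] at h1 h2
    have h3 := Steps_wt S h2
    have h4 := Red_Steps S hr h1
    rw [h4] at h3
    have := S.wt_pos_of_ne h0
    simp at h3
    omega
  | some e =>
    rw [hL] at h1 h2
    have h3 : z = [Sum.inr e] := Red_Steps S (S.Red_single s e) h2
    rw [h3] at h1
    obtain ⟨k, hk, _⟩ := (con_append hg h1 (S.Red_single s e) hr (by simp) h0).2
    exact ⟨k, hk⟩

end Sys

end Pool.Agent.LibQF
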