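import Pool.Agent.LibQF.Free
import Pool.Agent.LibQF.IdL

/-!
# Existence of the homomorphism, and the final theorem modulo the theory of letter systems
-/

namespace Pool.Agent.LibQF

universe u v

section

variable {X : Type u} {A : Type v} [Semigroup A] {l r : A → A} (h : QuasiQ A l r)

theorem toQP_true (y : A) : h.toQP.P true (y : WithOne A) = ((l y : A) : WithOne A) := rfl

theorem toQP_false (y : A) : h.toQP.P false (y : WithOne A) = ((r y : A) : WithOne A) := rfl

theorem mulS_coe (s : Bool) (a b : A) :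
    ∃ y : A, mulS s (a : WithOne A) (b : WithOne A) = (y : WithOne A) := by
  cases s
  · exact ⟨b * a, rfl⟩
  · exact ⟨a * b, rfl⟩

variable (S : Sys X) (φ : X → A)

theorem eS_coe_of (s : Bool) : ∀ w : List S.A, w ≠ [] →
    (∀ a ∈ w, ∃ y : A, S.eA h.toQP (fun x => (φ x : WithOne A)) a = (y : WithOne A)) →
    ∃ y : A, S.eS h.toQP (fun x => (φ x : WithOne A)) s w = (y : WithOne A) := by
  intro w
  induction w with
  | nil =>
    intro h0
    exact absurd rfl h0
  | cons a v ih =>
    intro _ ha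
    obtain ⟨y, hy⟩ := ha a (by simp)
    by_cases hv : v = []
    · subst hv
      refine ⟨y, ?_⟩
      rw [Sys.eS_cons, hy, Sys.eS_nil, mulS_one]
    · obtain ⟨z, hz⟩ := ih hv (fun b hb => ha b (by simp [hb]))
      rw [Sys.eS_cons, hy, hz]
      exact mulS_coe s y z

theorem eA_coe (n : ℕ) : ∀ a : S.A, S.wtA a < n →
    ∃ y : A, S.eA h.toQP (fun x => (φ x : WithOne A)) a = (y : WithOne A) := by
  induction n with
  | zero =>
    intro a ha
    omega
  | succ n ih =>
    intro a ha
    cases a with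
    | inl x => exact ⟨φ x, rfl⟩
    | inr e =>
      have h1 : ∀ b ∈ S.om e,
          ∃ y : A, S.eA h.toQP (fun x => (φ x : WithOne A)) b = (y : WithOne A) := by
        intro b hb
        cases b with
        | inl x => exact ⟨φ x, rfl⟩
        | inr f =>
          have h2 := S.mem_om_lt hb
          apply ih
          rw [Sys.wtA_inr] at ha ⊢
          omega
      obtain ⟨y, hy⟩ := eS_coe_of h S φ (S.side e) (S.om e) (S.om_ne_nil e) h1
      rw [Sys.eA_inr, hy]
      cases S.side e
      · exact ⟨r y, rfl⟩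
      · exact ⟨l y, rfl⟩

theorem eS_coe (s : Bool) {w : List S.A} (hw : w ≠ []) :
    ∃ y : A, S.eS h.toQP (fun x => (φ x : WithOne A)) s w = (y : WithOne A) :=
  eS_coe_of h S φ s w hw (fun a _ => eA_coe h S φ (S.wtA a + 1) a (by omega))

end

namespace Sys

variable {X : Type u} {S : Sys X} (G : ∀ n, S.Good n)

/-- existence of the homomorphism -/
theorem extF {A : Type v} [Semigroup A] {l r : A → A} (hA : InQ A l r) (φ : X → A) :
    ∃ f : FW S → A, @IsExt X (FW S) A (semi G) _ (lF G) (rF G) ιF l r φ f := by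
  let _ := semi G
  have h := hA.quasi
  have hm : ∀ a b : FW S, (a * b).1 = S.nf (a.1 ++ b.1) := fun _ _ => rfl
  have hl : ∀ a : FW S, (lF G a).1 = S.o2l (S.L true a.1) := fun _ => rfl
  have hr : ∀ a : FW S, (rF G a).1 = S.o2l (S.Rt true a.1) := fun _ => rfl
  choose f hf using fun a : FW S => eS_coe h S φ true a.2.2
  have inj : ∀ {x y : A}, (x : WithOne A) = (y : WithOne A) → x = y := fun h => WithOne.coe_inj.1 h
  refine ⟨f, ?_, ?_, ?_, ?_⟩
  · intro x
    apply inj
    rw [← hf]
    show S.eS h.toQP (fun x => (φ x : WithOne A)) true [Sum.inl x] = _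
    rw [eS_cons, eS_nil, mulS_one]
    rfl
  · intro a b
    apply inj
    rw [WithOne.coe_mul, ← hf, ← hf, ← hf, hm, ← S.ev_Steps h.toQP _ (S.nf_steps (a.1 ++ b.1)),
      eS_append]
    rfl
  · intro a
    apply inj
    rw [← hf, hl, eS_o2l, S.ev_L, hf a]
    rfl
  · intro a
    apply inj
    rw [← hf, hr, eS_o2l, S.ev_Rt, hf a]
    rfl

end Sys

/-- idempotents are letters -/
theorem Sys.idL_of_LC {X : Type u} {S : Sys X} (G : ∀ n, S.Good n) (hLC : S.LC) : S.IdL := by
  intro w hr h0 hw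
  have h : S.Eqv true (w ++ w) (w ++ []) := by
    rw [Sys.eqv_iff G, hw, List.append_nil, Sys.nf_of_red hr]
  obtain ⟨z, h1, h2⟩ := hLC true w w [] h
  exact Sys.idem_letter G hr h0 ⟨z, h1, by simpa using h2⟩

/-- the final theorem modulo the theory of letter systems -/
theorem final_of (X : Type u) (G : ∀ n, (theSys X).Good n) (hLC : (theSys X).LC) :
    ∃ (_ : Semigroup (FreeQ X)) (l r : FreeQ X → FreeQ X) (ι : X → FreeQ X),
      (∀ a b : FreeQ X, (a * b).1 = nfw (a.1 ++ b.1)) ∧
      (∀ a : FreeQ X, (l a).1 = (Lw true a.1).toList) ∧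
      (∀ a : FreeQ X, (r a).1 = (Lw false a.1.reverse).toList) ∧
      (∀ x, (ι x).1 = [Let.gen x]) ∧
      InQ (FreeQ X) l r ∧
      (∀ T : Set (FreeQ X), ClosedUnder l r ι T → ∀ a, a ∈ T) ∧
      (∀ (A : Type v) [Semigroup A] (l' r' : A → A), InQ A l' r' → ∀ φ : X → A,
        ∃! f : FreeQ X → A, IsExt l r ι l' r' φ f) :=
  @final_transport X G (Sys.semi G) (Sys.lF G) (Sys.rF G) Sys.ιF
    (fun _ _ => rfl) (fun _ => rfl) (fun _ => rfl) (fun _ => rfl)
    (Sys.quasiF G hLC (Sys.idL_of_LC G hLC)) (Sys.genF G) (fun _ _ _ _ hA φ => Sys.extF G hA φ)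

end Pool.Agent.LibQF
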