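import Pool.Agent.LibQF.Basic

/-!
# The induction hypotheses for words of size `< n`, and the tools that follow from them
-/

namespace Pool.Agent.LibQF

universe u

namespace Sys

variable {X : Type u} (S : Sys X)

/-- local confluence -/
def Conf (n : ℕ) : Prop := ∀ (s : Bool) (w w1 w2 : List S.A), S.wt w < n → S.Step s w w1 →
  S.Step s w w2 → ∃ z, S.Steps s w1 z ∧ S.Steps s w2 z

/-- raises do not change `L` -/
def Inv (n : ℕ) : Prop := ∀ (s : Bool) (w w' : List S.A), S.wt w < n → S.Step s w w' →
  S.L s w = S.L s w'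

/-- `L (u g⁺) ≥ g` implies `L (u g) = g` -/
def Fix (n : ℕ) : Prop := ∀ (s : Bool) (u : List S.A) (g : S.E), S.wt (u ++ [.inr g]) < n →
  S.le (some g) (S.L s (u ++ S.o2l (S.par g))) → S.L s (u ++ [.inr g]) = some g

/-- `L (u R(v)) = R(v)` implies `L (u v) = L v` -/
def Spl (n : ℕ) : Prop := ∀ (s : Bool) (u v : List S.A) (g : S.E), S.wt (u ++ v) < n →
  S.Rt s v = some g → S.L s (u ++ [.inr g]) = some g → S.L s (u ++ v) = S.L s v

/-- `L (u v) = L (L(u) v)` -/
def P3 (n : ℕ) : Prop := ∀ (s : Bool) (u v : List S.A), S.wt (u ++ v) < n →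
  S.L s (u ++ v) = S.L s (S.o2l (S.L s u) ++ v)

/-- either `L (a Z) = L (a⁺ Z)`, or `κ = L (a Z)` is a child of `L (a⁺ Z)` and its word is the
reduced form of `op a · Z`, with the same first letter -/
def MF (n : ℕ) : Prop := ∀ (s : Bool) (a : S.A) (Z : List S.A), S.wt (a :: Z) < n →
  S.L s (a :: Z) = S.L s (S.up a ++ Z) ∨
  ∃ κ : S.E, S.L s (a :: Z) = some κ ∧ S.par κ = S.L s (S.up a ++ Z) ∧
    S.Steps s (S.op s a ++ Z) (S.op s (.inr κ)) ∧
    (S.op s (.inr κ)).head? = (S.op s a).head?

/-- last letters and elements of the other side -/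
def TT (n : ℕ) : Prop := ∀ (s : Bool) (y : List S.A) (z : S.A) (q : S.E), S.wt (y ++ [z]) < n →
  S.side q ≠ s → S.le (S.L s (y ++ [z])) (some q) →
  (∀ e, z = .inr e → ¬ S.le (some e) (some q)) →
  ∃ e, z = .inr e ∧ S.le (some q) (some e) ∧ S.le (S.L s y) (some q)

/-- all of them -/
structure Good (n : ℕ) : Prop where
  conf : S.Conf n
  inv : S.Inv n
  fix : S.Fix n
  spl : S.Spl n
  p3 : S.P3 n
  mf : S.MF n
  tt : S.TT n

variable {S} {n : ℕ}

/-! ## confluence -/

lemma church_rosser (hc : S.Conf n) {s : Bool} {w a b : List S.A} (hw : S.wt w < n)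
    (ha : S.Steps s w a) (hb : S.Steps s w b) : ∃ c, S.Steps s a c ∧ S.Steps s b c := by
  induction h : S.wt w using Nat.strong_induction_on generalizing w a b with
  | _ m ih =>
    subst h
    rcases Relation.ReflTransGen.cases_head ha with h1 | ⟨a1, h1, h2⟩
    · subst h1; exact ⟨b, hb, Relation.ReflTransGen.refl⟩
    rcases Relation.ReflTransGen.cases_head hb with h3 | ⟨b1, h3, h4⟩
    · subst h3; exact ⟨a, Relation.ReflTransGen.refl, ha⟩
    obtain ⟨z, hz1, hz2⟩ := hc s w a1 b1 hw h1 h3
    have e1 := Step_wt S h1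
    have e2 := Step_wt S h3
    obtain ⟨c1, h5, h6⟩ := ih _ e1 (by omega) h2 hz1 rfl
    have e3 := Steps_wt S hz2
    obtain ⟨c2, h7, h8⟩ := ih _ e2 (by omega) h4 (hz2.trans h6) rfl
    exact ⟨c2, h5.trans h8, h7⟩

/-- uniqueness of reduced forms -/
lemma red_unique (hc : S.Conf n) {s : Bool} {w a b : List S.A} (hw : S.wt w < n)
    (ha : S.Steps s w a) (hb : S.Steps s w b) (ra : S.Red s a) (rb : S.Red s b) : a = b := by
  obtain ⟨c, h1, h2⟩ := church_rosser hc hw ha hb
  rw [← Red_Steps S ra h1, ← Red_Steps S rb h2]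

/-- if `z` is the reduced form of `w` and `w` reduces to `w'` then `w'` reduces to `z` -/
lemma steps_of_red (hc : S.Conf n) {s : Bool} {w w' z : List S.A} (hw : S.wt w < n)
    (h1 : S.Steps s w w') (h2 : S.Steps s w z) (rz : S.Red s z) : S.Steps s w' z := by
  obtain ⟨c, h3, h4⟩ := church_rosser hc hw h1 h2
  rw [Red_Steps S rz h4] at h3
  exact h3

lemma Conf.mono {m : ℕ} (h : S.Conf n) (hm : m ≤ n) : S.Conf m :=
  fun s w w1 w2 hw => h s w w1 w2 (by omega)

lemma Inv.mono {m : ℕ} (h : S.Inv n) (hm : m ≤ n) : S.Inv m :=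
  fun s w w' hw => h s w w' (by omega)

/-! ## invariance -/

lemma L_steps (hi : S.Inv n) {s : Bool} {w w' : List S.A} (hw : S.wt w < n) (h : S.Steps s w w') :
    S.L s w = S.L s w' := by
  induction h with
  | refl => rfl
  | tail h1 h2 ih =>
    rw [ih]
    exact hi s _ _ (lt_of_le_of_lt (Steps_wt S h1) hw) h2

lemma Rt_steps (hi : S.Inv n) {s : Bool} {w w' : List S.A} (hw : S.wt w < n)
    (h : S.Steps s w w') : S.Rt s w = S.Rt s w' := by
  have := L_steps hi (s := !s) (w := w.reverse) (w' := w'.reverse) (by simpa using hw)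
    (Steps_rev S h)
  simpa [Pre.Rt] using this

lemma L_step1 (hi : S.Inv n) {s : Bool} {w w' : List S.A} (hw : S.wt w < n) (h : S.Step s w w') :
    S.L s w = S.L s w' := hi s w w' hw h

lemma Rt_step1 (hi : S.Inv n) {s : Bool} {w w' : List S.A} (hw : S.wt w < n)
    (h : S.Step s w w') : S.Rt s w = S.Rt s w' :=
  Rt_steps hi hw (Relation.ReflTransGen.single h)

/-! ## duals of the basic statements -/

lemma p3L (hg : S.Good n) {s : Bool} {u v : List S.A} (h : S.wt (u ++ v) < n) :
    S.L s (u ++ v) = S.L s (S.o2l (S.L s u) ++ v) := hg.p3 s u v h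

lemma p3R (hg : S.Good n) {s : Bool} {u v : List S.A} (h : S.wt (u ++ v) < n) :
    S.Rt s (u ++ v) = S.Rt s (u ++ S.o2l (S.Rt s v)) := by
  have := hg.p3 (!s) v.reverse u.reverse (by simp at h ⊢; omega)
  simpa [Pre.Rt] using this

lemma fixL (hg : S.Good n) {s : Bool} {u : List S.A} {g : S.E} (h : S.wt (u ++ [.inr g]) < n)
    (h1 : S.le (some g) (S.L s (u ++ S.o2l (S.par g)))) : S.L s (u ++ [.inr g]) = some g :=
  hg.fix s u g h h1

lemma fixR (hg : S.Good n) {s : Bool} {v : List S.A} {g : S.E} (h : S.wt (.inr g :: v) < n)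
    (h1 : S.le (some g) (S.Rt s (S.o2l (S.par g) ++ v))) : S.Rt s (.inr g :: v) = some g := by
  have := hg.fix (!s) v.reverse g (by simp at h ⊢; omega) (by simpa [Pre.Rt] using h1)
  simpa [Pre.Rt] using this

lemma splL (hg : S.Good n) {s : Bool} {u v : List S.A} {g : S.E} (h : S.wt (u ++ v) < n)
    (h1 : S.Rt s v = some g) (h2 : S.L s (u ++ [.inr g]) = some g) : S.L s (u ++ v) = S.L s v :=
  hg.spl s u v g h h1 h2

lemma splR (hg : S.Good n) {s : Bool} {u v : List S.A} {g : S.E} (h : S.wt (u ++ v) < n)
    (h1 : S.L s u = some g) (h2 : S.Rt s (.inr g :: v) = some g) : S.Rt s (u ++ v) = S.Rt s u := by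
  have := hg.spl (!s) v.reverse u.reverse g (by simp at h ⊢; omega) (by simpa [Pre.Rt] using h1)
    (by simpa [Pre.Rt] using h2)
  simpa [Pre.Rt] using this

lemma mfL (hg : S.Good n) {s : Bool} {a : S.A} {Z : List S.A} (h : S.wt (a :: Z) < n) :
    S.L s (a :: Z) = S.L s (S.up a ++ Z) ∨
    ∃ κ : S.E, S.L s (a :: Z) = some κ ∧ S.par κ = S.L s (S.up a ++ Z) ∧
      S.Steps s (S.op s a ++ Z) (S.op s (.inr κ)) ∧
      (S.op s (.inr κ)).head? = (S.op s a).head? := hg.mf s a Z h

lemma ttL (hg : S.Good n) {s : Bool} {y : List S.A} {z : S.A} {q : S.E} (h : S.wt (y ++ [z]) < n)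
    (hq : S.side q ≠ s) (h1 : S.le (S.L s (y ++ [z])) (some q))
    (h2 : ∀ e, z = .inr e → ¬ S.le (some e) (some q)) :
    ∃ e, z = .inr e ∧ S.le (some q) (some e) ∧ S.le (S.L s y) (some q) := hg.tt s y z q h hq h1 h2

lemma ttR (hg : S.Good n) {s : Bool} {y : List S.A} {z : S.A} {q : S.E} (h : S.wt (z :: y) < n)
    (hq : S.side q = s) (h1 : S.le (S.Rt s (z :: y)) (some q))
    (h2 : ∀ e, z = .inr e → ¬ S.le (some e) (some q)) :
    ∃ e, z = .inr e ∧ S.le (some q) (some e) ∧ S.le (S.Rt s y) (some q) := by
  have := hg.tt (!s) y.reverse z q (by simp at h ⊢; omega) (by cases s <;> simp [hq])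
    (by simpa [Pre.Rt] using h1) h2
  simpa [Pre.Rt] using this

/-! ## monotonicity -/

lemma monoL (hg : S.Good n) {s : Bool} {e f : Option S.E} {Z : List S.A} (hef : S.le e f)
    (h : S.wt (S.o2l e ++ Z) < n) : S.le (S.L s (S.o2l e ++ Z)) (S.L s (S.o2l f ++ Z)) := by
  induction hm : S.wt (S.o2l e) using Nat.strong_induction_on generalizing e with
  | _ m ih =>
    subst hm
    cases e with
    | none => rw [none_le hef]; exact S.le_refl _
    | some e0 =>
      rcases le_cases hef with h1 | h1
      · rw [h1]; exact S.le_refl _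
      · have h2 := S.wt_par e0
        have h3 := ih (S.wt (S.o2l (S.par e0))) (by simpa using h2) h1
          (by simp at h ⊢; omega) rfl
        refine le_trans ?_ h3
        rcases mfL hg (s := s) (a := .inr e0) (Z := Z) (by simpa using h) with h4 | ⟨κ, h4, h5, _, _⟩
        · simp only [up_inr] at h4
          simp only [o2l_some, List.singleton_append]
          rw [h4]
          exact S.le_refl _
        · simp only [up_inr] at h5
          simp only [o2l_some, List.singleton_append]
          rw [h4, ← h5]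
          exact le_par κ

lemma monoR (hg : S.Good n) {s : Bool} {e f : Option S.E} {Z : List S.A} (hef : S.le e f)
    (h : S.wt (Z ++ S.o2l e) < n) : S.le (S.Rt s (Z ++ S.o2l e)) (S.Rt s (Z ++ S.o2l f)) := by
  have := monoL hg (s := !s) (Z := Z.reverse) hef (by simp at h ⊢; omega)
  simpa [Pre.Rt] using this

lemma p5L (hg : S.Good n) {s : Bool} {u v : List S.A} (h : S.wt (u ++ v) < n) :
    S.le (S.L s (u ++ v)) (S.L s v) := by
  rw [p3L hg h]
  have h1 := S.wt_L s u
  have := monoL hg (s := s) (Z := v) (le_none (S.L s u)) (by simp at h ⊢; omega)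
  simpa using this

lemma p5R (hg : S.Good n) {s : Bool} {u v : List S.A} (h : S.wt (u ++ v) < n) :
    S.le (S.Rt s (u ++ v)) (S.Rt s u) := by
  have := p5L hg (s := !s) (u := v.reverse) (v := u.reverse) (by simp at h ⊢; omega)
  simpa [Pre.Rt] using this

/-! ## first crossing of a chain -/

lemma crossL (hg : S.Good n) {s : Bool} {e P : Option S.E} {Z : List S.A} {q : S.E}
    (heP : S.le e P) (h : S.wt (S.o2l e ++ Z) < n) (h1 : S.le (S.L s (S.o2l e ++ Z)) (some q))
    (h2 : ¬ S.le (S.L s (S.o2l P ++ Z)) (some q)) :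
    ∃ g : S.E, S.le e (some g) ∧ S.le (S.par g) P ∧ S.L s (.inr g :: Z) = some q ∧
      S.L s (S.o2l (S.par g) ++ Z) = S.par q ∧
      S.Steps s (S.op s (.inr g) ++ Z) (S.op s (.inr q)) ∧
      (S.op s (.inr q)).head? = (S.op s (.inr g)).head? := by
  induction hm : S.wt (S.o2l e) using Nat.strong_induction_on generalizing e with
  | _ m ih =>
    subst hm
    cases e with
    | none => rw [none_le heP] at h2; exact absurd h1 h2
    | some e0 =>
      have h3 := S.wt_par e0
      rcases le_cases heP with h4 | h4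
      · rw [h4] at h2; exact absurd h1 h2
      by_cases h5 : S.le (S.L s (S.o2l (S.par e0) ++ Z)) (some q)
      · obtain ⟨g, hg1, hg2⟩ := ih (S.wt (S.o2l (S.par e0))) (by simpa using h3) h4
          (by simp at h ⊢; omega) h5 rfl
        exact ⟨g, le_trans (le_par e0) hg1, hg2⟩
      · rcases mfL hg (s := s) (a := .inr e0) (Z := Z) (by simpa using h) with h6 | ⟨κ, h6, h7, h8, h9⟩
        · simp only [up_inr] at h6
          simp only [o2l_some, List.singleton_append] at h1
          rw [h6] at h1
          exact absurd h1 h5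
        · simp only [up_inr] at h7
          simp only [o2l_some, List.singleton_append] at h1
          rw [h6] at h1
          rw [← h7] at h5
          have h10 : some q = some κ := by
            rcases le_cases h1 with h10 | h10
            · exact h10
            · exact absurd h10 h5
          have h11 : q = κ := by simpa using h10
          subst h11
          exact ⟨e0, S.le_refl _, h4, h6, h7.symm, h8, h9⟩

lemma crossR (hg : S.Good n) {s : Bool} {e P : Option S.E} {Z : List S.A} {q : S.E}
    (heP : S.le e P) (h : S.wt (Z ++ S.o2l e) < n) (h1 : S.le (S.Rt s (Z ++ S.o2l e)) (some q))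
    (h2 : ¬ S.le (S.Rt s (Z ++ S.o2l P)) (some q)) :
    ∃ g : S.E, S.le e (some g) ∧ S.le (S.par g) P ∧ S.Rt s (Z ++ [.inr g]) = some q ∧
      S.Rt s (Z ++ S.o2l (S.par g)) = S.par q ∧
      S.Steps s (Z ++ S.opr s (.inr g)) (S.opr s (.inr q)) ∧
      (S.opr s (.inr q)).getLast? = (S.opr s (.inr g)).getLast? := by
  obtain ⟨g, h3, h4, h5, h6, h7, h8⟩ := crossL hg (s := !s) (Z := Z.reverse) heP
    (by simp at h ⊢; omega) (by simpa [Pre.Rt] using h1) (by simpa [Pre.Rt] using h2)
  refine ⟨g, h3, h4, by simpa [Pre.Rt] using h5, by simpa [Pre.Rt] using h6, ?_, ?_⟩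
  · have := Steps_rev S h7
    simpa [Pre.opr] using this
  · simpa [Pre.opr] using h8

/-! ## absorbing elements above -/

lemma absorbL_aux (hi : S.Inv n) (s : Bool) (e : S.E) (f : Option S.E) (hef : S.le (some e) f)
    (h : S.sz e + S.wt (S.o2l f) < n) : S.L s (.inr e :: S.o2l f) = some e := by
  induction hm : S.wt (S.o2l f) using Nat.strong_induction_on generalizing f with
  | _ m ih =>
    subst hm
    cases f with
    | none => simp
    | some f0 =>
      have h1 := S.wt_par f0
      have h2 := ih (S.wt (S.o2l (S.par f0))) (by simpa using h1) (S.par f0)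
        (le_trans hef (le_par f0)) (by simp at h; omega) rfl
      have h3 : S.Step s ([.inr e] ++ .inr f0 :: []) ([.inr e] ++ (S.o2l (S.par f0) ++ [])) := by
        apply Pre.Step.mk
        left
        unfold Pre.IsR1
        simp only [List.singleton_append]
        rw [h2]
        exact hef
      have h4 := L_step1 hi (by simp at h ⊢; omega) h3
      simp only [List.singleton_append, List.append_nil] at h4
      simp only [o2l_some]
      rw [h4, h2]

/-- `L (u f) = L u` if `L u ≤ f` -/
lemma absorbL (hg : S.Good n) {s : Bool} {u : List S.A} {f : Option S.E} (h1 : S.le (S.L s u) f)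
    (h : S.wt (u ++ S.o2l f) < n) : S.L s (u ++ S.o2l f) = S.L s u := by
  rw [p3L hg h]
  cases hu : S.L s u with
  | none =>
    rw [hu] at h1
    rw [none_le h1]
    simp
  | some e =>
    rw [hu] at h1
    have h2 := S.L_size s u e hu
    change S.sz e ≤ S.wt u at h2
    simp only [o2l_some, List.singleton_append]
    exact absorbL_aux hg.inv s e f h1 (by simp at h; omega)

lemma absorbR (hg : S.Good n) {s : Bool} {v : List S.A} {f : Option S.E} (h1 : S.le (S.Rt s v) f)
    (h : S.wt (S.o2l f ++ v) < n) : S.Rt s (S.o2l f ++ v) = S.Rt s v := by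
  have := absorbL hg (s := !s) (u := v.reverse) (f := f) (by simpa [Pre.Rt] using h1)
    (by simp at h ⊢; omega)
  simpa [Pre.Rt] using this

/-- `L (f e) = e` for `e ≤ f` -/
lemma L_above (hg : S.Good n) {s : Bool} {e : S.E} {f : Option S.E} (hef : S.le (some e) f)
    (h : S.wt (S.o2l f ++ [.inr e]) < n) : S.L s (S.o2l f ++ [.inr e]) = some e := by
  induction hm : S.sz e using Nat.strong_induction_on generalizing e with
  | _ m ih =>
    subst hm
    rcases le_cases hef with h1 | h1
    · rw [h1]
      have := absorbL hg (s := s) (u := [.inr e]) (f := some e) (by simpa using S.le_refl _)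
        (by rw [h1] at h; simpa using h)
      simpa using this
    · apply fixL hg h
      have h3 := S.wt_par e
      cases hp : S.par e with
      | none =>
        rw [hp] at h1
        rw [none_le h1]
        simpa using le_none _
      | some p =>
        rw [hp] at h1 h3
        simp at h3
        have h2 := ih (S.sz p) h3 h1 (by simp at h ⊢; omega) rfl
        simp only [o2l_some]
        rw [h2, ← hp]
        exact le_par e

lemma R_above (hg : S.Good n) {s : Bool} {e : S.E} {f : Option S.E} (hef : S.le (some e) f)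
    (h : S.wt (.inr e :: S.o2l f) < n) : S.Rt s (.inr e :: S.o2l f) = some e := by
  have := L_above hg (s := !s) (e := e) (f := f) hef (by simp at h ⊢; omega)
  simpa [Pre.Rt] using this

/-! ## reducible and irreducible letters in context -/

/-- raising in a longer word on the left -/
lemma step_append_left (hg : S.Good n) {s : Bool} {w w' : List S.A} (c : List S.A)
    (h : S.Step s w w') (hw : S.wt (c ++ w) ≤ n) : S.Step s (c ++ w) (c ++ w') := by
  cases h with
  | mk u k v h =>
    have h1 := Pre.Step.mk (S := S.toPre) (s := s) (c ++ u) k v (by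
      rcases h with h | h
      · left
        unfold Pre.IsR1 at h ⊢
        refine le_trans ?_ h
        have h2 := S.wt_par k
        rw [List.append_assoc]
        apply p5L hg
        simp at hw ⊢
        omega
      · right; exact h)
    simpa using h1

lemma step_append_right (hg : S.Good n) {s : Bool} {w w' : List S.A} (d : List S.A)
    (h : S.Step s w w') (hw : S.wt (w ++ d) ≤ n) : S.Step s (w ++ d) (w' ++ d) := by
  have h1 := step_append_left hg (s := !s) (w := w.reverse) (w' := w'.reverse) d.reverse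
    (Step_rev S h) (by simp at hw ⊢; omega)
  have h2 := Step_rev S h1
  simpa using h2

lemma step_append (hg : S.Good n) {s : Bool} {w w' : List S.A} (c d : List S.A)
    (h : S.Step s w w') (hw : S.wt (c ++ w ++ d) ≤ n) : S.Step s (c ++ w ++ d) (c ++ w' ++ d) := by
  apply step_append_right hg d _ hw
  apply step_append_left hg c h
  simp at hw ⊢
  omega

lemma steps_append (hg : S.Good n) {s : Bool} {w w' : List S.A} (c d : List S.A)
    (h : S.Steps s w w') (hw : S.wt (c ++ w ++ d) ≤ n) :
    S.Steps s (c ++ w ++ d) (c ++ w' ++ d) := by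
  induction h with
  | refl => exact Relation.ReflTransGen.refl
  | tail h1 h2 ih =>
    refine ih.tail (step_append hg c d h2 ?_)
    have := Steps_wt S h1
    simp at hw ⊢
    omega

lemma steps_append_left (hg : S.Good n) {s : Bool} {w w' : List S.A} (c : List S.A)
    (h : S.Steps s w w') (hw : S.wt (c ++ w) ≤ n) : S.Steps s (c ++ w) (c ++ w') := by
  have := steps_append hg c [] h (by simpa using hw)
  simpa using this

lemma steps_append_right (hg : S.Good n) {s : Bool} {w w' : List S.A} (d : List S.A)
    (h : S.Steps s w w') (hw : S.wt (w ++ d) ≤ n) : S.Steps s (w ++ d) (w' ++ d) := by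
  have := steps_append hg [] d h (by simpa using hw)
  simpa using this

/-- factors of reduced words are reduced -/
lemma red_infix (hg : S.Good n) {s : Bool} {c w d : List S.A} (h : S.Red s (c ++ w ++ d))
    (hw : S.wt (c ++ w ++ d) ≤ n) : S.Red s w := by
  intro w' hw'
  exact h _ (step_append hg c d hw' hw)

lemma red_left (hg : S.Good n) {s : Bool} {w d : List S.A} (h : S.Red s (w ++ d))
    (hw : S.wt (w ++ d) ≤ n) : S.Red s w :=
  red_infix hg (c := []) (d := d) (by simpa using h) (by simpa using hw)

lemma red_right (hg : S.Good n) {s : Bool} {c w : List S.A} (h : S.Red s (c ++ w))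
    (hw : S.wt (c ++ w) ≤ n) : S.Red s w :=
  red_infix hg (c := c) (d := []) (by simpa using h) (by simpa using hw)

/-- reducedness, letter by letter -/
lemma red_iff {s : Bool} {w : List S.A} : S.Red s w ↔ ∀ (u : List S.A) (k : S.E) (v : List S.A),
    w = u ++ .inr k :: v → ¬ S.IsR1 s u k ∧ ¬ S.IsR2 s k v := by
  constructor
  · intro h u k v hw
    constructor
    · intro h1
      exact h _ (hw ▸ Pre.Step.mk u k v (Or.inl h1))
    · intro h1
      exact h _ (hw ▸ Pre.Step.mk u k v (Or.inr h1))
  · intro h w' hw'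
    cases hw' with
    | mk u k v h1 =>
      have := h u k v rfl
      tauto

lemma step_of_not_red {s : Bool} {w : List S.A} (h : ¬ S.Red s w) :
    ∃ (u : List S.A) (k : S.E) (v : List S.A), w = u ++ .inr k :: v ∧
      (S.IsR1 s u k ∨ S.IsR2 s k v) := by
  rw [red_iff] at h
  push Not at h
  obtain ⟨u, k, v, h1, h2⟩ := h
  refine ⟨u, k, v, h1, ?_⟩
  by_cases h3 : S.IsR1 s u k
  · exact Or.inl h3
  · exact Or.inr (h2 h3)

/-! ## raising a letter to a given level -/

lemma raise_aux {f0 G : Option S.E} (h : S.le f0 G) (hne : f0 ≠ G) :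
    ∃ c : S.E, S.le f0 (some c) ∧ S.par c = G := by
  obtain ⟨m, rfl⟩ := h
  induction m generalizing f0 with
  | zero => exact absurd rfl hne
  | succ m ih =>
    cases f0 with
    | none =>
      exfalso
      exact hne (none_le ⟨m + 1, rfl⟩).symm
    | some c =>
      rw [Function.iterate_succ_apply]
      by_cases h1 : S.parO (some c) = S.parO^[m] (S.parO (some c))
      · refine ⟨c, S.le_refl _, ?_⟩
        rw [← h1]
        rfl
      · obtain ⟨c', h2, h3⟩ := ih h1
        exact ⟨c', le_trans (le_par c) h2, h3⟩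

/-- raise `f0` to `G` after `u` -/
lemma stepsR1 (hg : S.Good n) {s : Bool} {u z : List S.A} {f0 G : Option S.E} (h : S.le f0 G)
    (h1 : S.le (S.L s (u ++ S.o2l G)) f0) (hw : S.wt (u ++ S.o2l f0 ++ z) ≤ n) :
    S.Steps s (u ++ S.o2l f0 ++ z) (u ++ S.o2l G ++ z) := by
  induction hm : S.wt (S.o2l f0) - S.wt (S.o2l G) using Nat.strong_induction_on generalizing G with
  | _ m ih =>
    subst hm
    by_cases hne : f0 = G
    · subst hne; exact Relation.ReflTransGen.refl
    · obtain ⟨c, h2, h3⟩ := raise_aux h hne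
      have h4 : S.IsR1 s u c := by
        unfold Pre.IsR1
        rw [h3]
        exact le_trans h1 h2
      have h5 : S.Step s (u ++ .inr c :: z) (u ++ (S.o2l (S.par c) ++ z)) :=
        Pre.Step.mk u c z (Or.inl h4)
      have h7 := le_wt h2
      have h8 := S.wt_par c
      rw [h3] at h8
      simp at h7
      rw [h3] at h5
      have h5' : S.Steps s (u ++ S.o2l (some c) ++ z) (u ++ S.o2l G ++ z) := by
        have := Relation.ReflTransGen.single h5
        simpa using this
      by_cases h9 : f0 = some c
      · rw [h9]; exact h5'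
      · have h10 := le_wt_lt h2 h9
        simp at h10
        have h11 : S.L s (u ++ S.o2l (some c)) = S.L s (u ++ S.o2l G) := by
          have h6 : S.Step s (u ++ .inr c :: []) (u ++ (S.o2l (S.par c) ++ [])) :=
            Pre.Step.mk u c [] (Or.inl h4)
          rw [h3] at h6
          have := L_step1 hg.inv (by simp at hw ⊢; omega) h6
          simpa using this
        have h12 := ih (S.wt (S.o2l f0) - S.wt (S.o2l (some c))) (by simp; omega) h2
          (by rw [h11]; exact h1) rfl
        exact h12.trans h5'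

lemma stepsR2 (hg : S.Good n) {s : Bool} {u z : List S.A} {f0 G : Option S.E} (h : S.le f0 G)
    (h1 : S.le (S.Rt s (S.o2l G ++ z)) f0) (hw : S.wt (u ++ S.o2l f0 ++ z) ≤ n) :
    S.Steps s (u ++ S.o2l f0 ++ z) (u ++ S.o2l G ++ z) := by
  have h2 := stepsR1 hg (s := !s) (u := z.reverse) (z := u.reverse) h
    (by simpa [Pre.Rt] using h1) (by simp at hw ⊢; omega)
  have h3 := Steps_rev S h2
  simpa using h3

/-- if `g ≤ q` and `g ≤ L (u q)` then `L (u g) = g` -/
lemma fixdownL (hg : S.Good n) {s : Bool} {u : List S.A} {g : S.E} {q : Option S.E}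
    (h : S.le (some g) q) (h1 : S.le (some g) (S.L s (u ++ S.o2l q)))
    (hw : S.wt (u ++ [.inr g]) < n) : S.L s (u ++ [.inr g]) = some g := by
  induction hm : S.sz g - S.wt (S.o2l q) using Nat.strong_induction_on generalizing q with
  | _ m ih =>
    subst hm
    by_cases hne : some g = q
    · subst hne
      refine le_antisymm ?_ (by simpa using h1)
      have := p5L hg (s := s) (u := u) (v := [.inr g]) hw
      simpa using this
    · obtain ⟨c, h2, h3⟩ := raise_aux h hne
      have h4 := le_wt h2
      simp at h4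
      have h5 := S.wt_par c
      rw [h3] at h5
      have hw2 : S.wt (u ++ [.inr c]) < n := by simp at hw ⊢; omega
      have h6 : S.le (some g) (S.L s (u ++ [.inr c])) := by
        by_cases h7 : S.le (S.L s (u ++ S.o2l q)) (some c)
        · have h8 : S.Step s (u ++ .inr c :: []) (u ++ (S.o2l (S.par c) ++ [])) :=
            Pre.Step.mk u c [] (Or.inl (by unfold Pre.IsR1; rw [h3]; exact h7))
          have h9 := L_step1 hg.inv (by simpa using hw2) h8
          rw [h3] at h9
          simp at h9
          rw [h9]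
          exact h1
        · obtain ⟨h8, _⟩ := lt_of_not_le h2 h1 h7
          have h9 := fixL hg (s := s) (u := u) (g := c) hw2 (by rw [h3]; exact h8)
          rw [h9]
          exact h2
      by_cases h7 : g = c
      · subst h7
        refine le_antisymm ?_ h6
        have := p5L hg (s := s) (u := u) (v := [.inr g]) hw
        simpa using this
      · have h8 := le_sz_lt h2 h7
        exact ih (S.sz g - S.wt (S.o2l (some c))) (by simp; omega) h2 (by simpa using h6) rfl

lemma fixdownR (hg : S.Good n) {s : Bool} {v : List S.A} {g : S.E} {q : Option S.E}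
    (h : S.le (some g) q) (h1 : S.le (some g) (S.Rt s (S.o2l q ++ v)))
    (hw : S.wt (.inr g :: v) < n) : S.Rt s (.inr g :: v) = some g := by
  have := fixdownL hg (s := !s) (u := v.reverse) h (by simpa [Pre.Rt] using h1)
    (by simp at hw ⊢; omega)
  simpa [Pre.Rt] using this

/-! ## last letters -/

/-- the elements of the other side above `L w` are above the last letter of the reduced word `w` -/
lemma lastT (hg : S.Good n) {s : Bool} {y : List S.A} {z : S.A} {q : S.E}
    (hr : S.Red s (y ++ [z])) (hw : S.wt (y ++ [z]) < n) (hq : S.side q ≠ s)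
    (h : S.le (S.L s (y ++ [z])) (some q)) : ∃ e, z = .inr e ∧ S.le (some e) (some q) := by
  by_contra hcon
  push Not at hcon
  obtain ⟨e, rfl, h1, h2⟩ := ttL hg hw hq h hcon
  have h5 := S.wt_par e
  have h3 : S.L s (y ++ S.o2l (S.par e)) = S.L s y :=
    absorbL hg (le_trans h2 (le_trans h1 (le_par e))) (by simp at hw ⊢; omega)
  have h4 : S.IsR1 s y e := by
    unfold Pre.IsR1
    rw [h3]
    exact le_trans h2 h1
  exact hr _ (Pre.Step.mk y e [] (Or.inl h4))

/-- dual: the elements of side `s` above `Rt w` are above the first letter of the reduced word `w` -/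
lemma firstT (hg : S.Good n) {s : Bool} {y : List S.A} {z : S.A} {q : S.E}
    (hr : S.Red s (z :: y)) (hw : S.wt (z :: y) < n) (hq : S.side q = s)
    (h : S.le (S.Rt s (z :: y)) (some q)) : ∃ e, z = .inr e ∧ S.le (some e) (some q) := by
  have h1 := Red_rev S hr
  have := lastT hg (s := !s) (y := y.reverse) (z := z) (q := q) (by simpa using h1)
    (by simp at hw ⊢; omega) (by cases s <;> simp [hq]) (by simpa [Pre.Rt] using h)
  exact this

/-- the first letter of `opr h` is `≤ k` if `h ≤ k`, `k` of side `s` -/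
lemma first_opr (hg : S.Good n) {s : Bool} {h k : S.E} (hk : S.side k = s)
    (hle : S.le (some h) (some k)) (hn : S.sz h < n) :
    ∃ (e : S.E) (V : List S.A), S.opr s (.inr h) = .inr e :: V ∧ S.le (some e) (some k) := by
  cases hV : S.opr s (.inr h) with
  | nil => exact absurd hV (S.opr_ne_nil s _)
  | cons z V =>
    have h1 := S.Red_opr s (.inr h)
    have h2 := S.Rt_opr s h
    have h3 := S.wt_opr s (.inr h)
    rw [hV] at h1 h2 h3
    obtain ⟨e, rfl, h4⟩ := firstT hg (s := s) h1 (by rw [h3]; simpa using hn) hk (by rw [h2]; exact hle)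
    exact ⟨e, V, rfl, h4⟩

/-- the last letter of `op g` is `≤ k` if `g ≤ k`, `k` not of side `s` -/
lemma last_op (hg : S.Good n) {s : Bool} {g k : S.E} (hk : S.side k ≠ s)
    (hle : S.le (some g) (some k)) (hn : S.sz g < n) :
    ∃ (e : S.E) (V : List S.A), S.op s (.inr g) = V ++ [.inr e] ∧ S.le (some e) (some k) := by
  obtain ⟨e, V, h1, h2⟩ := first_opr hg (s := !s) (h := g) (k := k)
    (by cases h : S.side k <;> cases s <;> simp_all) hle hn
  refine ⟨e, V.reverse, ?_, h2⟩
  have h3 := congrArg List.reverse h1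
  simpa [Pre.opr] using h3

end Sys

end Pool.Agent.LibQF
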