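import Pool.Agent.LibQF.Nrm
import Pool.Agent.LibQF.XX

/-!
# Lemma S
-/

namespace Pool.Agent.LibQF

universe u

namespace Sys

variable {X : Type u} {S : Sys X}

section

variable (H : ∀ n, S.Good n)
include H

/-- nonempty words have a value -/
lemma aL_ne_none (s : Bool) {w : List S.A} (hw : w ≠ []) : S.L s w ≠ none := by
  induction h : S.wt w using Nat.strong_induction_on generalizing w with
  | _ n ih =>
    subst h
    obtain ⟨a, v, rfl⟩ := List.exists_cons_of_ne_nil hw
    intro h0
    by_cases hv : v = []
    · subst hv
      cases a with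
      | inl x =>
        have h2 : ∃ k, S.side k = s ∧ S.om k = [Sum.inl x] ∧
            S.par k = S.L s (S.up (Sum.inl x) ++ []) ∧ S.L s [Sum.inl x] = some k := by
          apply S.L_top s (Sum.inl x) [] (S.Red_gen s x)
          · trivial
          · rintro ⟨u, v, g, h3, h4, h5, _⟩
            have := congrArg List.length h3
            rw [List.length_append] at this
            have h6 := List.length_pos_iff.2 h4
            have h7 := List.length_pos_iff.2 h5
            simp at this
            omega
          · intro e he
            simp at he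
        obtain ⟨k, _, _, _, h2⟩ := h2
        rw [h2] at h0
        cases h0
      | inr e =>
        rw [S.L_single] at h0
        cases h0
    · have h2 := aP5L H s [a] v
      have h3 : S.L s ([a] ++ v) = none := h0
      rw [h3] at h2
      have h4 := none_le h2
      exact ih (S.wt v) (by have := S.wtA_pos a; simp; omega) hv rfl h4

lemma aRt_ne_none (s : Bool) {w : List S.A} (hw : w ≠ []) : S.Rt s w ≠ none :=
  aL_ne_none H (!s) (by simpa using hw)

end

variable (H : ∀ n, S.Good n) (FS : S.FSall)
include H FS

/-- `b` not of side `s`, `l < p = par b`, `l ∥ b`, `t` normal behind `c = L (l b)`, `Rt (p t) ≤ b`: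
either `t` is normal behind `l` or the word of `b` ends with a prefix of `t` -/
lemma lemS {s : Bool} {l b c : S.E} {t : List S.A} (hb : S.side b ≠ s)
    (hl : S.le (some l) (S.par b)) (hlp : some l ≠ S.par b) (hlb : ¬ S.le (some l) (some b))
    (hbl : ¬ S.le (some b) (some l)) (hc : S.L s [Sum.inr l, Sum.inr b] = some c)
    (ht : S.Nrm s (some c) t) (hR : S.le (S.Rt s (S.o2l (S.par b) ++ t)) (some b)) :
    S.Nrm s (some l) t ∨
    ∃ (p : S.E) (m : List S.A) (q : S.E) (u : List S.A) (P : Option S.E), S.par b = some p ∧
      t = m ++ Sum.inr q :: u ∧ S.side q = s ∧ S.Rt s (Sum.inr p :: (m ++ [Sum.inr q])) = some b ∧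
      S.opr s (Sum.inr b) = S.o2l P ++ (m ++ [Sum.inr q]) ∧ S.le (some p) P ∧
      (∀ (a : S.E) (ρ : List S.A), t = Sum.inr a :: ρ → ¬ S.le (some a) (some p) ∧
        ¬ S.le (some p) (some a)) := by
  by_cases hnl : S.Nrm s (some l) t
  · exact Or.inl hnl
  right
  have hcb : S.le (some c) (some b) := by
    have := aP5L H s [Sum.inr l] [Sum.inr b]
    rw [← hc]
    simpa using this
  -- (1) the first redex behind `l`
  have htc := nrm_iff.1 ht
  have hex : ∃ n, ∃ (m : List S.A) (q : S.E) (u : List S.A), m.length = n ∧
      t = m ++ Sum.inr q :: u ∧ S.IsR1 s (S.o2l (some l) ++ m) q := by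
    by_contra hcon
    push Not at hcon
    apply hnl
    rw [nrm_iff]
    intro u k v huv
    exact ⟨hcon u.length u k v rfl huv, (htc u k v huv).2⟩
  classical
  obtain ⟨m, q, u, hml, htq, h1⟩ := Nat.find_spec hex
  have hmin : ∀ (m1 : List S.A) (k : S.E) (m2 : List S.A), m = m1 ++ Sum.inr k :: m2 →
      ¬ S.IsR1 s (S.o2l (some l) ++ m1) k := by
    intro m1 k m2 hm hk
    have h2 : m1.length < Nat.find hex := by
      rw [← hml, hm]
      simp
    exact Nat.find_min hex h2 ⟨m1, k, m2 ++ Sum.inr q :: u, rfl, by rw [htq, hm]; simp, hk⟩
  have hLl : S.le (S.L s (Sum.inr l :: (m ++ S.o2l (S.par q)))) (some q) := by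
    unfold Pre.IsR1 at h1
    simpa using h1
  -- (2)
  have h2 : ¬ S.le (S.L s (Sum.inr l :: Sum.inr b :: (m ++ S.o2l (S.par q)))) (some q) := by
    intro h3
    apply (htc m q u htq).1
    unfold Pre.IsR1
    have h4 := aP3L H s [Sum.inr l, Sum.inr b] (m ++ S.o2l (S.par q))
    rw [hc] at h4
    simp only [List.cons_append, List.nil_append, List.append_assoc] at h4 ⊢
    rw [← h4]
    exact h3
  -- (3)
  have h3a : ∀ (a : S.E) (ρ : List S.A), t = Sum.inr a :: ρ → ¬ S.le (some b) (some a) := by
    intro a ρ hta hba
    rw [hta] at ht
    exact Nrm.first H ht (le_trans hcb hba)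
  have h3 : ∀ (a : S.E) (ρ : List S.A), t = Sum.inr a :: ρ → ¬ S.le (some a) (S.par b) := by
    intro a ρ hta hap
    have hRta : S.le (S.Rt s t) (some a) := by
      rw [hta]
      have := aP5R H s [Sum.inr a] ρ
      simpa using this
    have hRt : S.le (S.Rt s t) (some b) := by
      rw [aAbsorbR H (le_trans hRta hap)] at hR
      exact hR
    have hab : S.le (some a) (some b) := by
      rcases le_total_above hRta hRt with h4 | h4
      · exact h4
      · exact absurd h4 (h3a a ρ hta)
    have hne : some b ≠ some a := by
      intro h4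
      apply h3a a ρ hta
      rw [h4]
      exact S.le_refl _
    apply h2
    have key : S.Eqv s (Sum.inr l :: Sum.inr b :: (m ++ S.o2l (S.par q)))
        (Sum.inr l :: (m ++ S.o2l (S.par q))) := by
      cases m with
      | nil =>
        have hqa : q = a := by
          rw [htq] at hta
          simp only [List.nil_append, List.cons.injEq, Sum.inr.injEq] at hta
          exact hta.1
        subst hqa
        have h5 := eqv_fe H (s := s) [Sum.inr l] [] (e := S.par q) (f := some b)
          (le_cases' hab hne)
        simpa using h5
      | cons a' m' =>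
        have haa : a' = Sum.inr a := by
          rw [htq] at hta
          simp only [List.cons_append, List.cons.injEq] at hta
          exact hta.1
        subst haa
        have h5 := eqv_fe H (s := s) [Sum.inr l] (m' ++ S.o2l (S.par q)) (e := some a)
          (f := some b) hab
        simpa using h5
    rw [eqvL H key]
    exact hLl
  have h3b : ∀ (a : S.E) (ρ : List S.A), t = Sum.inr a :: ρ → ¬ S.le (S.par b) (some a) := by
    intro a ρ hta hpa
    exact h3a a ρ hta (le_trans (le_par b) hpa)
  -- (4)
  have h4 : ¬ S.le (S.L s (S.o2l (S.par b) ++ (m ++ S.o2l (S.par q)))) (some q) := by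
    intro h5
    apply h2
    have h6 := aP5L H s [Sum.inr l] (Sum.inr b :: (m ++ S.o2l (S.par q)))
    have h7 := aMonoL H (s := s) (m ++ S.o2l (S.par q)) (le_par b)
    exact le_trans h6 (le_trans h7 h5)
  -- (5)
  obtain ⟨g, hg1, hg2, hg3, hg4, _, _⟩ := aCrossL H (s := s) (e := some l) (P := S.par b)
    (Z := m ++ S.o2l (S.par q)) (q := q) hl hLl h4
  -- (6)
  have h6 : S.L s (S.o2l (S.par b) ++ (m ++ S.o2l (S.par q))) = S.par q := by
    apply le_antisymm
    · have := aP5L H s (S.o2l (S.par b) ++ m) (S.o2l (S.par q))
      simpa using this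
    · have := aMonoL H (s := s) (m ++ S.o2l (S.par q)) hg2
      rw [hg4] at this
      exact this
  -- normality of `m`
  have hml' : S.Nrm s (some l) m := by
    rw [nrm_iff]
    intro m1 k m2 hm
    refine ⟨hmin m1 k m2 hm, ?_⟩
    have h5 : S.Nrm s (some c) m := by
      rw [htq] at ht
      exact Nrm.left H ht
    exact (nrm_iff.1 h5 m1 k m2 hm).2
  -- (7)
  have h7 : S.side q = s := by
    by_contra hqs
    have hgm : S.le (S.L s (Sum.inr g :: m)) (some q) := by
      cases hQ : S.par q with
      | none =>
        rw [hQ] at hg3
        simp only [o2l_none, List.append_nil] at hg3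
        rw [hg3]
        exact S.le_refl _
      | some Q0 =>
        rw [hQ] at hg3
        obtain ⟨e, _, _, h8⟩ := aTTL H (s := s) (y := Sum.inr g :: m) (z := Sum.inr Q0) (q := q) hqs
          (by
            have h9 : Sum.inr g :: m ++ [Sum.inr Q0] = Sum.inr g :: (m ++ S.o2l (some Q0)) := by
              simp
            rw [h9, hg3]
            exact S.le_refl _) (by
            intro e he h9
            simp only [Sum.inr.injEq] at he
            subst he
            rw [← hQ] at h9
            exact not_par_le q h9)
        exact h8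
    obtain ⟨P, _, hP2, hP3⟩ := nrm_top H (Nrm.mono H hg1 hml')
    have hLP : S.L s (S.o2l P ++ m) = S.L s (Sum.inr g :: m) := by
      rw [← eqvL H (Eqv.of_steps hP2)]
      rfl
    rcases List.eq_nil_or_concat' m with hm0 | ⟨m', z, hm0⟩
    · subst hm0
      rw [L_single'] at hgm
      have htq' : t = Sum.inr q :: u := htq
      have hgp : S.le (some g) (S.par b) := le_trans (le_par g) hg2
      rcases le_total_above hgm hgp with h8 | h8
      · exact h3 q u htq' h8
      · exact h3b q u htq' h8
    · subst hm0
      obtain ⟨e, rfl, he⟩ := aLastT H (s := s) (y := S.o2l P ++ m') (z := z) (q := q)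
        (by simpa using hP3) hqs (by
          have h8 : S.o2l P ++ m' ++ [z] = S.o2l P ++ (m' ++ [z]) := by simp
          rw [h8, hLP]
          exact hgm)
      apply (htc _ q u htq).1
      unfold Pre.IsR1
      have h8 : S.le (S.L s (S.o2l (some c) ++ (m' ++ [Sum.inr e]))) (some e) := by
        have := aP5L H s (S.o2l (some c) ++ m') [Sum.inr e]
        simpa using this
      rw [aAbsorbL H (le_trans h8 (le_trans he (le_par q)))]
      exact le_trans h8 he
  -- (8)
  have hRpt : S.le (S.Rt s (S.o2l (S.par b) ++ t))
      (S.Rt s (S.o2l (S.par b) ++ (m ++ S.o2l (S.par q)))) := by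
    have h8 := eqv_fe H (s := s) (S.o2l (S.par b) ++ m) u (e := some q) (f := S.par q) (le_par q)
    have h9 := eqvR H h8
    have h10 := aP5R H s (S.o2l (S.par b) ++ (m ++ S.o2l (S.par q))) (Sum.inr q :: u)
    have h11 : S.o2l (S.par b) ++ m ++ S.o2l (S.par q) ++ S.o2l (some q) ++ u =
        S.o2l (S.par b) ++ (m ++ S.o2l (S.par q)) ++ Sum.inr q :: u := by simp
    have h12 : S.o2l (S.par b) ++ m ++ S.o2l (some q) ++ u = S.o2l (S.par b) ++ t := by
      rw [htq]
      simp
    rw [h11, h12] at h9
    rw [← h9]
    exact h10
  have h8' : ¬ S.le (S.Rt s (S.o2l (S.par b) ++ (m ++ S.o2l (S.par q)))) (some b) := by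
    intro h8
    apply h2
    have h9 := aStepsR2 H (s := s) [Sum.inr l] (m ++ S.o2l (S.par q)) (f0 := some b)
      (G := S.par b) (le_par b) h8
    have h10 := eqv_ef H (s := s) [] (m ++ S.o2l (S.par q)) (e := some l) (f := S.par b) hl
    have h11 := eqvL H (Eqv.of_steps h9)
    have h12 := eqvL H h10
    simp only [o2l_some, List.cons_append, List.nil_append] at h11 h12
    rw [h11, h12]
    exact hLl
  have h8 : S.Rt s (S.o2l (S.par b) ++ (m ++ S.o2l (S.par q))) = S.par b := by
    apply le_antisymm
    · have := aP5R H s (S.o2l (S.par b)) (m ++ S.o2l (S.par q))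
      simpa using this
    · have h9 : S.le (some b) (S.Rt s (S.o2l (S.par b) ++ (m ++ S.o2l (S.par q)))) := by
        rcases le_total_above hRpt hR with h10 | h10
        · exact absurd h10 h8'
        · exact h10
      apply le_cases' h9
      intro h10
      apply h8'
      rw [h10]
      exact S.le_refl _
  -- (9)
  cases hp : S.par b with
  | none =>
    exfalso
    rw [hp] at h8
    have h9 : S.o2l (none : Option S.E) ++ (m ++ S.o2l (S.par q)) = [] := by
      by_contra h10
      exact aRt_ne_none H s h10 h8
    simp only [o2l_none, List.nil_append, List.append_eq_nil_iff] at h9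
    have htq' : t = Sum.inr q :: u := by rw [htq, h9.1]; rfl
    apply h3 q u htq'
    rw [hp]
    exact le_none _
  | some p =>
    rw [hp] at hl h3 h3b h4 h6 h8 hR hRpt hg2
    cases hQ : S.par q with
    | none =>
      exfalso
      rw [hQ] at h6
      exact aL_ne_none H s (by simp) h6
    | some Q =>
      rw [hQ] at h6 h8 hRpt
      simp only [o2l_some, List.cons_append, List.nil_append] at h6 h8 hR hRpt
      -- (10)
      have hcmq : S.Nrm s (some c) (m ++ [Sum.inr q]) := by
        have : t = (m ++ [Sum.inr q]) ++ u := by rw [htq]; simp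
        rw [this] at ht
        exact Nrm.left H ht
      have hpmq : S.Nrm s (some p) (m ++ [Sum.inr q]) := by
        rw [nrm_iff]
        intro m1 k m2 hm
        refine ⟨?_, (nrm_iff.1 hcmq m1 k m2 hm).2⟩
        rcases List.eq_nil_or_concat' m2 with hm2 | ⟨m2', z, hm2⟩
        · subst hm2
          have h9 : m = m1 ∧ q = k := by
            have h10 := List.append_inj' hm (by simp)
            refine ⟨h10.1, ?_⟩
            have h11 := h10.2
            simp only [List.cons.injEq, Sum.inr.injEq, and_true] at h11
            exact h11
          obtain ⟨rfl, rfl⟩ := h9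
          unfold Pre.IsR1
          rw [hQ]
          have h10 : S.o2l (some p) ++ m ++ S.o2l (some Q) = Sum.inr p :: (m ++ [Sum.inr Q]) := by
            simp
          rw [h10, h6, ← hQ]
          exact not_par_le q
        · subst hm2
          have h9 : m = m1 ++ Sum.inr k :: m2' := by
            have h10 : m ++ [Sum.inr q] = (m1 ++ Sum.inr k :: m2') ++ [z] := by
              rw [hm]; simp
            exact (List.append_inj' h10 (by simp)).1
          intro h10
          apply hmin m1 k m2' h9
          unfold Pre.IsR1 at h10 ⊢
          have h11 := aMonoL H (s := s) (m1 ++ S.o2l (S.par k)) hl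
          simp only [List.append_assoc] at h10 ⊢
          exact le_trans h11 h10
      obtain ⟨P1, hP1, hP2, hP3⟩ := nrm_top H hpmq
      -- (11)
      have h11 : S.L s ((S.o2l P1 ++ m) ++ [Sum.inr Q]) = some Q := by
        apply le_antisymm
        · have := aP5L H s (S.o2l P1 ++ m) [Sum.inr Q]
          simpa using this
        · have h12 := aMonoL H (s := s) (m ++ [Sum.inr Q]) hP1
          simp only [o2l_some, List.cons_append, List.nil_append] at h12
          rw [h6] at h12
          simpa using h12
      have hne : S.o2l P1 ++ m ≠ [] := by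
        intro h12
        obtain ⟨h13, h14⟩ := List.append_eq_nil_iff.1 h12
        subst h14
        apply h3 q u htq
        have h15 := eqvR H (Eqv.of_steps hP2)
        rw [h13] at h15
        simp only [List.nil_append, Rt_single] at h15
        rw [← h15]
        have := aP5R H s (S.o2l (some p)) [Sum.inr q]
        simpa using this
      obtain ⟨β, hβ1, hβ2, hβ3, hβ4⟩ := lemX' H FS (s := s) (w := S.o2l P1 ++ m) (q := q) (Q := Q)
        (by simpa using hP3) hne h7 hQ h11
      -- (12)
      have hRpmq : S.Rt s (Sum.inr p :: (m ++ [Sum.inr q])) = some β := by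
        have h12 := eqvR H (Eqv.of_steps hP2)
        simp only [o2l_some, List.cons_append, List.nil_append] at h12
        rw [h12, ← hβ4]
        simp
      have hβp : S.le (some β) (some p) := by
        rw [← hRpmq]
        have := aP5R H s [Sum.inr p] (m ++ [Sum.inr q])
        simpa using this
      have hβt : S.le (S.Rt s (Sum.inr p :: t)) (some β) := by
        rw [← hRpmq]
        have h12 := aP5R H s (Sum.inr p :: (m ++ [Sum.inr q])) u
        have h13 : Sum.inr p :: (m ++ [Sum.inr q]) ++ u = Sum.inr p :: t := by
          rw [htq]; simp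
        rw [h13] at h12
        exact h12
      have hβne : β ≠ p := by
        rintro rfl
        apply X0 H FS (s := s) (μ := β) (q := q) (Q := Q) (G := P1) (m := m) hβ1
          (by rw [hβ2]; simp) h7 hQ
        exact h6
      have hβb : β = b := by
        rcases le_total_above hβt hR with h12 | h12
        · by_contra hne'
          have h13 : S.le (S.par β) (some b) := by
            apply le_cases' h12
            intro h14
            apply hne'
            have h15 : b = β := by simpa using h14
            exact h15.symm
          have h14 : S.le (S.Rt s (S.o2l P1 ++ (m ++ [Sum.inr Q]))) (some p) := by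
            have h15 : S.o2l P1 ++ (m ++ [Sum.inr Q]) = S.o2l P1 ++ m ++ [Sum.inr Q] := by simp
            rw [h15, ← hβ3, ← hp]
            exact le_trans h13 (le_par b)
          have h15 := eqvR H (Eqv.of_steps (aStepsR2 H (s := s) [] (m ++ [Sum.inr Q])
            (f0 := some p) (G := P1) hP1 h14))
          simp only [o2l_some, List.cons_append, List.nil_append] at h15
          rw [h8] at h15
          have h16 : S.o2l P1 ++ (m ++ [Sum.inr Q]) = S.o2l P1 ++ m ++ [Sum.inr Q] := by simp
          rw [h16, ← hβ3] at h15
          rw [← h15, ← hp] at h13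
          exact not_par_le b h13
        · rcases le_cases h12 with h13 | h13
          · simpa using h13
          · rw [hp] at h13
            exfalso
            apply hβne
            have := le_antisymm hβp h13
            simpa using this
      subst hβb
      refine ⟨p, m, q, u, P1, rfl, htq, h7, hRpmq, by rw [hβ2]; simp, hP1, ?_⟩
      intro a ρ hta
      exact ⟨h3 a ρ hta, h3b a ρ hta⟩

end Sys

end Pool.Agent.LibQF
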