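import Mathlib

/-!
# The explicit model: letters, raising, the maps `L`

`s : Bool` is a side: `true` = left (`ℓ`), `false` = right (`r`).  A letter is a generator or a formal
idempotent `[c]_s` (`br s c p`), where the word `c` is written in the orientation of the side `s`
(for `s = false` it is the reversed word) and `p` is the parent, the next larger idempotent
(`none` = the adjoined identity).
-/

namespace Pool.Agent.LibQF

universe u

/-- letters: a generator, or a formal idempotent given by its side, the letters of its word and its
parent (`one`: the parent is the adjoined identity; `two`: the parent is the last argument) -/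
inductive Let (X : Type u) : Type u
  | gen : X → Let X
  | one : Bool → (n : ℕ) → (Fin n → Let X) → Let X
  | two : Bool → (n : ℕ) → (Fin n → Let X) → Let X → Let X

namespace Let

variable {X : Type u}

/-- the formal idempotent `[c]_s` with parent `p` -/
def br (s : Bool) (c : List (Let X)) : Option (Let X) → Let X
  | none => one s c.length c.get
  | some p => two s c.length c.get p

/-- side of a formal idempotent -/
def side : Let X → Bool
  | gen _ => true
  | one s _ _ => s
  | two s _ _ _ => s

/-- word of a formal idempotent -/
def word : Let X → List (Let X)
  | gen _ => []
  | one _ _ f => List.ofFn f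
  | two _ _ f _ => List.ofFn f

/-- parent -/
def par : Let X → Option (Let X)
  | gen _ => none
  | one _ _ _ => none
  | two _ _ _ p => some p

/-- number of generators of a letter, with multiplicity -/
def size : Let X → ℕ
  | gen _ => 1
  | one _ _ f => ∑ i, size (f i)
  | two _ _ f _ => ∑ i, size (f i)

/-- the letter is a formal idempotent -/
def IsBr : Let X → Prop
  | gen _ => False
  | one _ _ _ => True
  | two _ _ _ _ => True

/-- parent of a letter, as a word of length `0` or `1` -/
def up (a : Let X) : List (Let X) := a.par.toList

end Let

variable {X : Type u}

/-- size of a word -/
def wsize (w : List (Let X)) : ℕ := (w.map Let.size).sum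

/-- order on letters and the identity: `b` is `a` or an iterated parent of `a` -/
def LeO (a b : Option (Let X)) : Prop :=
  ∃ n : ℕ, (fun o : Option (Let X) => o.bind Let.par)^[n] a = b

section
variable (f : Bool → List (Let X) → Option (Let X))

/-- the letter `k` can be raised (replaced by its parent) in the word `u k v` -/
def CanRaise (s : Bool) (u : List (Let X)) (k : Let X) (v : List (Let X)) : Prop :=
  k.IsBr ∧ (LeO (f s (u ++ k.up)) (some k) ∨ LeO (f (!s) (k.up ++ v).reverse) (some k))

open Classical in
/-- raise the first letter that can be raised (`u` is the part already scanned) -/
noncomputable def scan (s : Bool) : List (Let X) → List (Let X) → Option (List (Let X))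
  | _, [] => none
  | u, k :: v => if CanRaise f s u k v then some (u ++ (k.up ++ v)) else scan s (u ++ [k]) v

/-- `w = u v`, where `u` does not change the idempotent in front of `v` -/
def SplitT (s : Bool) (w : List (Let X)) : Prop :=
  ∃ (u v : List (Let X)) (g : Let X), w = u ++ v ∧ u ≠ [] ∧ v ≠ [] ∧ f (!s) v.reverse = some g ∧
    LeO (some g) (f s (u ++ g.up))

open Classical in
/-- replace the first letter by its word if it is a formal idempotent of side `s` -/
noncomputable def opn (s : Bool) : List (Let X) → List (Let X)
  | [] => []
  | a :: v => if a.IsBr ∧ a.side = s then a.word ++ v else a :: v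

open Classical in
/-- the value on a reduced word whose first letter is not a formal idempotent of side `s` -/
noncomputable def topF (s : Bool) : List (Let X) → Option (Let X)
  | [] => none
  | a :: v => if SplitT f s (a :: v) then f s (a.up ++ v)
      else some (.br s (a :: v) (f s (a.up ++ v)))

open Classical in
/-- one unfolding of the recursion for `L` -/
noncomputable def stepF (s : Bool) (w : List (Let X)) : Option (Let X) :=
  if w = [] ∨ ∃ a : Let X, a.IsBr ∧ w = [a] then w.head?
  else
    match scan f s [] w with
    | some w' => f s w'
    | none =>
      match scan f s [] (opn s w) with
      | some w' => f s w'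
      | none => topF f s (opn s w)

end

/-- the recursion with bounded depth -/
noncomputable def Lf : ℕ → Bool → List (Let X) → Option (Let X)
  | 0 => fun _ _ => none
  | n + 1 => stepF (Lf n)

/-- `L s w`: the idempotent of side `s` of the word `w` -/
noncomputable def Lw (s : Bool) (w : List (Let X)) : Option (Let X) := Lf (wsize w + 1) s w

/-- canonical letters: `[c]_s` with `L_s(c) = [c]_s`, all letters of `c` canonical -/
inductive Can : Let X → Prop
  | gen (x : X) : Can (.gen x)
  | br (s : Bool) (c : List (Let X)) (p : Option (Let X)) (hc : ∀ a ∈ c, Can a)
      (h : Lw s c = some (.br s c p)) : Can (.br s c p)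

open Classical in
/-- raise letters as long as possible (at most `n` times) -/
noncomputable def nfF : ℕ → List (Let X) → List (Let X)
  | 0, w => w
  | n + 1, w => match scan Lw true [] w with
    | some w' => nfF n w'
    | none => w

/-- the reduced form of a word -/
noncomputable def nfw (w : List (Let X)) : List (Let X) := nfF (wsize w) w

end Pool.Agent.LibQF
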