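import Pool.Agent.LibQF.Model

/-!
# Facts on the recursion `Lw`

The recursion `Lf` is stable on words of canonical letters, the value is a canonical bracket of
bounded size, and `Lw` satisfies the fixed point equation `Lw s w = stepF Lw s w`.
-/

namespace Pool.Agent.LibQF

universe u

variable {X : Type u}

/-! ### the constructor `br` -/

theorem one_congr {s : Bool} {n m : ℕ} {f : Fin n → Let X} {g : Fin m → Let X} (h : n = m)
    (hfg : ∀ i : Fin n, f i = g (Fin.cast h i)) : Let.one s n f = Let.one s m g := by
  subst h
  have : f = g := funext hfg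
  rw [this]

theorem two_congr {s : Bool} {n m : ℕ} {f : Fin n → Let X} {g : Fin m → Let X} {p : Let X}
    (h : n = m) (hfg : ∀ i : Fin n, f i = g (Fin.cast h i)) :
    Let.two s n f p = Let.two s m g p := by
  subst h
  have : f = g := funext hfg
  rw [this]

theorem one_eq (s : Bool) (n : ℕ) (f : Fin n → Let X) :
    Let.one s n f = Let.br s (List.ofFn f) none := by
  apply one_congr (List.length_ofFn (f := f)).symm
  intro i
  simp

theorem two_eq (s : Bool) (n : ℕ) (f : Fin n → Let X) (p : Let X) :
    Let.two s n f p = Let.br s (List.ofFn f) (some p) := by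
  apply two_congr (List.length_ofFn (f := f)).symm
  intro i
  simp

/-- case distinction -/
theorem casesBr {motive : Let X → Prop} (gen : ∀ x, motive (.gen x))
    (br : ∀ s c p, motive (.br s c p)) (a : Let X) : motive a := by
  cases a with
  | gen x => exact gen x
  | one s n f =>
    rw [one_eq]
    exact br _ _ _
  | two s n f p =>
    rw [two_eq]
    exact br _ _ _

@[simp] theorem side_br (s : Bool) (c : List (Let X)) (p : Option (Let X)) :
    (Let.br s c p).side = s := by
  cases p <;> rfl

@[simp] theorem word_br0 (s : Bool) (c : List (Let X)) (p : Option (Let X)) :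
    (Let.br s c p).word = c := by
  cases p with
  | none => exact List.ofFn_get c
  | some p => exact List.ofFn_get c

@[simp] theorem par_br (s : Bool) (c : List (Let X)) (p : Option (Let X)) :
    (Let.br s c p).par = p := by
  cases p <;> rfl

@[simp] theorem isBr_br (s : Bool) (c : List (Let X)) (p : Option (Let X)) :
    (Let.br s c p).IsBr := by
  cases p <;> trivial

@[simp] theorem not_isBr_gen (x : X) : ¬ (Let.gen x).IsBr := fun h => h

@[simp] theorem br_inj {s s' : Bool} {c c' : List (Let X)} {p p' : Option (Let X)} :
    Let.br s c p = Let.br s' c' p' ↔ s = s' ∧ c = c' ∧ p = p' := by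
  constructor
  · intro h
    refine ⟨?_, ?_, ?_⟩
    · have := congrArg Let.side h
      simpa using this
    · have := congrArg Let.word h
      simpa using this
    · have := congrArg Let.par h
      simpa using this
  · rintro ⟨rfl, rfl, rfl⟩
    rfl

@[simp] theorem gen_ne_br {x : X} {s : Bool} {c : List (Let X)} {p : Option (Let X)} :
    Let.gen x ≠ Let.br s c p := by
  intro h
  have h1 := isBr_br s c p
  rw [← h] at h1
  exact h1

@[simp] theorem br_ne_gen {x : X} {s : Bool} {c : List (Let X)} {p : Option (Let X)} :
    Let.br s c p ≠ Let.gen x := fun h => gen_ne_br h.symm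

/-- number of nodes -/
def Let.dep : Let X → ℕ
  | .gen _ => 0
  | .one _ _ f => 1 + ∑ i, dep (f i)
  | .two _ _ f _ => 1 + ∑ i, dep (f i)

theorem dep_br (s : Bool) (c : List (Let X)) (p : Option (Let X)) :
    (Let.br s c p).dep = 1 + (c.map Let.dep).sum := by
  have h : ∑ i : Fin c.length, (c.get i).dep = (c.map Let.dep).sum := by
    rw [← List.sum_ofFn]
    have h1 : (fun i : Fin c.length => (c.get i).dep) = Let.dep ∘ c.get := rfl
    rw [h1, ← List.map_ofFn, List.ofFn_get]
  cases p with
  | none =>
    rw [← h]
    rfl
  | some p =>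
    rw [← h]
    rfl

theorem br_not_mem {t : Bool} {c : List (Let X)} {p : Option (Let X)} : Let.br t c p ∉ c := by
  intro h
  have h1 : (Let.br t c p).dep ≤ (c.map Let.dep).sum :=
    List.single_le_sum (fun _ _ => Nat.zero_le _) _ (List.mem_map.2 ⟨_, h, rfl⟩)
  rw [dep_br] at h1
  omega

/-! ### sizes -/

theorem size_gen (x : X) : (Let.gen x).size = 1 := rfl

theorem size_br (s : Bool) (c : List (Let X)) (p : Option (Let X)) :
    (Let.br s c p).size = wsize c := by
  have h : ∑ i : Fin c.length, (c.get i).size = wsize c := by
    unfold wsize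
    rw [← List.sum_ofFn]
    have h1 : (fun i : Fin c.length => (c.get i).size) = Let.size ∘ c.get := rfl
    rw [h1, ← List.map_ofFn, List.ofFn_get]
  cases p with
  | none =>
    rw [← h]
    rfl
  | some p =>
    rw [← h]
    rfl

theorem wsize_nil : wsize ([] : List (Let X)) = 0 := by
  simp [wsize]

theorem wsize_cons (a : Let X) (w : List (Let X)) : wsize (a :: w) = a.size + wsize w := by
  simp [wsize]

theorem wsize_append (u v : List (Let X)) : wsize (u ++ v) = wsize u + wsize v := by
  simp [wsize]

theorem wsize_reverse (u : List (Let X)) : wsize u.reverse = wsize u := by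
  simp [wsize, List.sum_reverse]

/-- all letters canonical -/
def CanW (w : List (Let X)) : Prop := ∀ a ∈ w, Can a

theorem canW_nil : CanW ([] : List (Let X)) := by
  intro a ha
  simp at ha

theorem canW_cons {a : Let X} {w : List (Let X)} : CanW (a :: w) ↔ Can a ∧ CanW w := by
  simp [CanW]

theorem canW_append {u v : List (Let X)} : CanW (u ++ v) ↔ CanW u ∧ CanW v := by
  constructor
  · intro h
    exact ⟨fun a ha => h a (List.mem_append_left _ ha), fun a ha => h a (List.mem_append_right _ ha)⟩
  · rintro ⟨h1, h2⟩ a ha
    rcases List.mem_append.1 ha with h | h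
    · exact h1 a h
    · exact h2 a h

theorem canW_reverse {u : List (Let X)} : CanW u.reverse ↔ CanW u := by
  simp [CanW]

/-! ### the recursion -/

theorem Lf_succ (n : ℕ) (s : Bool) (w : List (Let X)) : Lf (n + 1) s w = stepF (Lf n) s w := rfl

theorem Lf_nil (n : ℕ) (s : Bool) : Lf n s ([] : List (Let X)) = none := by
  cases n with
  | zero => rfl
  | succ n =>
    rw [Lf_succ]
    unfold stepF
    rw [if_pos (Or.inl rfl)]
    rfl

theorem Lw_nil (s : Bool) : Lw s ([] : List (Let X)) = none := Lf_nil _ _

theorem stepF_single (f : Bool → List (Let X) → Option (Let X)) (s t : Bool) (c : List (Let X))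
    (p : Option (Let X)) : stepF f s [Let.br t c p] = some (.br t c p) := by
  unfold stepF
  rw [if_pos (Or.inr ⟨_, isBr_br t c p, rfl⟩)]
  rfl

theorem stepF_nil (f : Bool → List (Let X) → Option (Let X)) (s : Bool) : stepF f s [] = none := by
  unfold stepF
  rw [if_pos (Or.inl rfl)]
  rfl

theorem Lw_single (s t : Bool) (c : List (Let X)) (p : Option (Let X)) :
    Lw s [Let.br t c p] = some (.br t c p) := stepF_single _ _ _ _ _

theorem scan_eq_none {f : Bool → List (Let X) → Option (Let X)} {s : Bool} :
    ∀ {w u : List (Let X)}, scan f s u w = none ↔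
      ∀ (w1 : List (Let X)) (k : Let X) (w2 : List (Let X)), w = w1 ++ k :: w2 →
        ¬ CanRaise f s (u ++ w1) k w2 := by
  intro w
  induction w with
  | nil =>
    intro u
    simp [scan]
  | cons a w ih =>
    intro u
    rw [scan]
    by_cases h : CanRaise f s u a w
    · rw [if_pos h]
      constructor
      · intro h1
        cases h1
      · intro h1
        exact absurd (by simpa using h) (h1 [] a w rfl)
    · rw [if_neg h, ih]
      constructor
      · intro h1 w1 k w2 hw
        cases w1 with
        | nil =>
          simp only [List.nil_append, List.cons.injEq] at hw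
          obtain ⟨rfl, rfl⟩ := hw
          simpa using h
        | cons b w1 =>
          simp only [List.cons_append, List.cons.injEq] at hw
          obtain ⟨rfl, hw⟩ := hw
          have := h1 w1 k w2 hw
          simpa using this
      · intro h1 w1 k w2 hw
        have := h1 (a :: w1) k w2 (by simp [hw])
        simpa using this

theorem scan_eq_some {f : Bool → List (Let X) → Option (Let X)} {s : Bool} :
    ∀ {w u z : List (Let X)}, scan f s u w = some z →
      ∃ (w1 : List (Let X)) (k : Let X) (w2 : List (Let X)), w = w1 ++ k :: w2 ∧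
        CanRaise f s (u ++ w1) k w2 ∧ z = u ++ w1 ++ (k.up ++ w2) := by
  intro w
  induction w with
  | nil =>
    intro u z h
    simp [scan] at h
  | cons a w ih =>
    intro u z h
    rw [scan] at h
    by_cases hc : CanRaise f s u a w
    · rw [if_pos hc] at h
      refine ⟨[], a, w, rfl, by simpa using hc, ?_⟩
      simpa using h.symm
    · rw [if_neg hc] at h
      obtain ⟨w1, k, w2, rfl, h1, h2⟩ := ih h
      refine ⟨a :: w1, k, w2, rfl, by simpa using h1, ?_⟩
      rw [h2]
      simp

/-! ### agreement of two functions on small words -/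

/-- `f` and `g` agree on canonical words of size less than `N` -/
def Agree (f g : Bool → List (Let X) → Option (Let X)) (N : ℕ) : Prop :=
  ∀ s w, CanW w → wsize w < N → f s w = g s w

/-- the parents of the canonical bracket `a` are canonical and smaller -/
def ParOK (a : Let X) : Prop := ∀ q, a.par = some q → Can q ∧ q.IsBr ∧ q.size < a.size

theorem size_pos_of_can {a : Let X} (h : Can a) : 0 < a.size := by
  induction h with
  | gen x =>
    rw [size_gen]
    exact Nat.one_pos
  | br s c p hc h ih =>
    rw [size_br]
    cases c with
    | nil =>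
      rw [Lw_nil] at h
      cases h
    | cons a c =>
      rw [wsize_cons]
      have := ih a (by simp)
      omega

theorem parOK_gen (x : X) : ParOK (Let.gen x) := by
  intro q hq
  simp [Let.par] at hq

theorem up_gen (x : X) : (Let.gen x).up = [] := rfl

theorem up_br (s : Bool) (c : List (Let X)) (p : Option (Let X)) :
    (Let.br s c p).up = p.toList := by
  simp [Let.up]

theorem ParOK.canW_up {a : Let X} (h : ParOK a) : CanW a.up := by
  intro q hq
  have : a.par = some q := by
    simpa [Let.up] using hq
  exact (h q this).1

theorem ParOK.wsize_up {a : Let X} (h : ParOK a) (hp : 0 < a.size) : wsize a.up < a.size := by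
  unfold Let.up
  cases ha : a.par with
  | none => simpa [wsize] using hp
  | some q =>
    have := (h q ha).2.2
    simpa [wsize] using this

/-- all letters of the word have good parents -/
def ParW (w : List (Let X)) : Prop := ∀ a ∈ w, ParOK a

theorem canRaise_congr {f g : Bool → List (Let X) → Option (Let X)} {N : ℕ} (hfg : Agree f g N)
    {s : Bool} {u v : List (Let X)} {k : Let X} (hw : CanW (u ++ k :: v))
    (hp : ParOK k) (hN : wsize (u ++ k :: v) ≤ N) :
    CanRaise f s u k v ↔ CanRaise g s u k v := by
  have hu := (canW_append.1 hw).1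
  have hkv := canW_cons.1 (canW_append.1 hw).2
  have hk := size_pos_of_can hkv.1
  have hup := hp.wsize_up hk
  rw [wsize_append, wsize_cons] at hN
  have h1 : f s (u ++ k.up) = g s (u ++ k.up) := by
    apply hfg
    · exact canW_append.2 ⟨hu, hp.canW_up⟩
    · rw [wsize_append]
      omega
  have h2 : f (!s) (k.up ++ v).reverse = g (!s) (k.up ++ v).reverse := by
    apply hfg
    · exact canW_reverse.2 (canW_append.2 ⟨hp.canW_up, hkv.2⟩)
    · rw [wsize_reverse, wsize_append]
      omega
  unfold CanRaise
  rw [h1, h2]

theorem scan_congr {f g : Bool → List (Let X) → Option (Let X)} {N : ℕ} (hfg : Agree f g N)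
    {s : Bool} : ∀ {w u : List (Let X)}, CanW (u ++ w) → ParW w → wsize (u ++ w) ≤ N →
      scan f s u w = scan g s u w := by
  intro w
  induction w with
  | nil =>
    intro u _ _ _
    rfl
  | cons a w ih =>
    intro u hw hp hN
    rw [scan, scan]
    have hc := canRaise_congr hfg (s := s) hw (hp a (by simp)) hN
    by_cases h : CanRaise f s u a w
    · rw [if_pos h, if_pos (hc.1 h)]
    · rw [if_neg h, if_neg (fun h' => h (hc.2 h'))]
      apply ih
      · simpa using hw
      · exact fun b hb => hp b (by simp [hb])
      · simpa using hN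

/-- raising one letter gives a smaller canonical word -/
theorem raise_ok {u v : List (Let X)} {k : Let X} (hw : CanW (u ++ k :: v)) (hp : ParOK k) :
    CanW (u ++ (k.up ++ v)) ∧ wsize (u ++ (k.up ++ v)) < wsize (u ++ k :: v) := by
  have hu := (canW_append.1 hw).1
  have hkv := canW_cons.1 (canW_append.1 hw).2
  have hk := size_pos_of_can hkv.1
  have hup := hp.wsize_up hk
  refine ⟨canW_append.2 ⟨hu, canW_append.2 ⟨hp.canW_up, hkv.2⟩⟩, ?_⟩
  rw [wsize_append, wsize_append, wsize_append, wsize_cons]
  omega

theorem scan_ok {f : Bool → List (Let X) → Option (Let X)} {s : Bool} {w z : List (Let X)}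
    (hw : CanW w) (hp : ParW w) (h : scan f s [] w = some z) : CanW z ∧ wsize z < wsize w := by
  obtain ⟨w1, k, w2, rfl, _, h2⟩ := scan_eq_some h
  have := raise_ok hw (hp k (by simp))
  rw [h2]
  simpa using this

/-- the values of `f` on small canonical words are small canonical brackets -/
def Vals (f : Bool → List (Let X) → Option (Let X)) (N : ℕ) : Prop :=
  ∀ s w k, CanW w → wsize w < N → f s w = some k → Can k ∧ k.IsBr ∧ ParOK k ∧ k.size ≤ wsize w

theorem splitT_congr {f g : Bool → List (Let X) → Option (Let X)} {N : ℕ} (hfg : Agree f g N)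
    (hv : Vals f N) {s : Bool} {w : List (Let X)} (hw : CanW w) (hN : wsize w ≤ N) :
    SplitT f s w ↔ SplitT g s w := by
  have key : ∀ (u v : List (Let X)) (k : Let X), w = u ++ v → u ≠ [] → v ≠ [] →
      f (!s) v.reverse = some k →
      f (!s) v.reverse = g (!s) v.reverse ∧ f s (u ++ k.up) = g s (u ++ k.up) := by
    intro u v k hwuv hu hv' hk
    subst hwuv
    have hcu := (canW_append.1 hw).1
    have hcv := (canW_append.1 hw).2
    have hup : 0 < wsize u := by
      cases u with
      | nil => exact absurd rfl hu
      | cons a u =>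
        rw [wsize_cons]
        have := size_pos_of_can (canW_cons.1 hcu).1
        omega
    rw [wsize_append] at hN
    have hvr : wsize v.reverse < N := by
      rw [wsize_reverse]
      omega
    obtain ⟨h1, h2, h3, h4⟩ := hv (!s) v.reverse k (canW_reverse.2 hcv) hvr hk
    refine ⟨hfg _ _ (canW_reverse.2 hcv) hvr, hfg _ _ (canW_append.2 ⟨hcu, h3.canW_up⟩) ?_⟩
    have := h3.wsize_up (size_pos_of_can h1)
    rw [wsize_reverse] at h4
    rw [wsize_append]
    omega
  have key2 : ∀ (u v : List (Let X)), w = u ++ v → u ≠ [] →
      f (!s) v.reverse = g (!s) v.reverse := by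
    intro u v hwuv hu
    subst hwuv
    have hcu := (canW_append.1 hw).1
    have hcv := (canW_append.1 hw).2
    have hup : 0 < wsize u := by
      cases u with
      | nil => exact absurd rfl hu
      | cons a u =>
        rw [wsize_cons]
        have := size_pos_of_can (canW_cons.1 hcu).1
        omega
    rw [wsize_append] at hN
    apply hfg _ _ (canW_reverse.2 hcv)
    rw [wsize_reverse]
    omega
  constructor
  · rintro ⟨u, v, k, h1, h2, h3, h4, h5⟩
    obtain ⟨e1, e2⟩ := key u v k h1 h2 h3 h4
    exact ⟨u, v, k, h1, h2, h3, by rw [← e1]; exact h4, by rw [← e2]; exact h5⟩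
  · rintro ⟨u, v, k, h1, h2, h3, h4, h5⟩
    have e0 := key2 u v h1 h2
    have h4' : f (!s) v.reverse = some k := by rw [e0]; exact h4
    obtain ⟨e1, e2⟩ := key u v k h1 h2 h3 h4'
    exact ⟨u, v, k, h1, h2, h3, h4', by rw [e2]; exact h5⟩

theorem topF_cons_split {f : Bool → List (Let X) → Option (Let X)} {s : Bool} {a : Let X}
    {v : List (Let X)} (h : SplitT f s (a :: v)) : topF f s (a :: v) = f s (a.up ++ v) := by
  simp only [topF]
  rw [if_pos h]

theorem topF_cons_top {f : Bool → List (Let X) → Option (Let X)} {s : Bool} {a : Let X}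
    {v : List (Let X)} (h : ¬ SplitT f s (a :: v)) :
    topF f s (a :: v) = some (.br s (a :: v) (f s (a.up ++ v))) := by
  simp only [topF]
  rw [if_neg h]

theorem topF_congr {f g : Bool → List (Let X) → Option (Let X)} {N : ℕ} (hfg : Agree f g N)
    (hv : Vals f N) {s : Bool} {w : List (Let X)} (hw : CanW w) (hp : ParW w) (hN : wsize w ≤ N) :
    topF f s w = topF g s w := by
  cases w with
  | nil => rfl
  | cons a v =>
    have hc := splitT_congr hfg hv (s := s) hw hN
    have h1 := raise_ok (u := []) (v := v) (k := a) (by simpa using hw) (hp a (by simp))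
    have e : f s (a.up ++ v) = g s (a.up ++ v) := by
      apply hfg
      · simpa using h1.1
      · have := h1.2
        simp only [List.nil_append] at this
        omega
    by_cases h : SplitT f s (a :: v)
    · rw [topF_cons_split h, topF_cons_split (hc.1 h), e]
    · rw [topF_cons_top h, topF_cons_top (fun h' => h (hc.2 h')), e]

/-- the opened word is canonical, of the same size -/
theorem opn_br_eq (s : Bool) (c : List (Let X)) (p : Option (Let X)) (v : List (Let X)) :
    opn s (.br s c p :: v) = c ++ v := by
  simp [opn]

theorem opn_br_ne {s t : Bool} (h : t ≠ s) (c : List (Let X)) (p : Option (Let X))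
    (v : List (Let X)) : opn s (.br t c p :: v) = .br t c p :: v := by
  simp [opn, h]

theorem opn_gen (s : Bool) (x : X) (v : List (Let X)) : opn s (.gen x :: v) = .gen x :: v := by
  simp [opn]

theorem can_br_inv {s : Bool} {c : List (Let X)} {p : Option (Let X)} (h : Can (.br s c p)) :
    CanW c ∧ Lw s c = some (.br s c p) := by
  generalize hk : Let.br s c p = k at h
  cases h with
  | gen x => exact absurd hk br_ne_gen
  | br s' c' p' h1 h2 =>
    obtain ⟨rfl, rfl, rfl⟩ := br_inj.1 hk
    exact ⟨h1, h2⟩

theorem opn_ok (s : Bool) {w : List (Let X)} (hw : CanW w) :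
    CanW (opn s w) ∧ wsize (opn s w) = wsize w := by
  cases w with
  | nil => simpa [opn] using hw
  | cons a v =>
    cases a using casesBr with
    | gen x => simpa [opn_gen] using hw
    | br t c p =>
      by_cases h : t = s
      · subst h
        rw [opn_br_eq]
        have h1 := canW_cons.1 hw
        have h2 := can_br_inv h1.1
        refine ⟨canW_append.2 ⟨h2.1, h1.2⟩, ?_⟩
        rw [wsize_append, wsize_cons, size_br]
      · rw [opn_br_ne h]
        exact ⟨hw, rfl⟩

/-- not a single bracket and not empty -/
def Long (w : List (Let X)) : Prop := w ≠ [] ∧ ∀ t c p, w ≠ [Let.br t c p]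

/-- third branch of the recursion -/
noncomputable def stepL (f : Bool → List (Let X) → Option (Let X)) (s : Bool)
    (w : List (Let X)) : Option (Let X) :=
  match scan f s [] w with
  | some w' => f s w'
  | none =>
    match scan f s [] (opn s w) with
    | some w' => f s w'
    | none => topF f s (opn s w)

theorem stepF_long (f : Bool → List (Let X) → Option (Let X)) (s : Bool) {w : List (Let X)}
    (h : Long w) : stepF f s w = stepL f s w := by
  have hn : ¬ (w = [] ∨ ∃ a : Let X, a.IsBr ∧ w = [a]) := by
    rintro (h0 | ⟨a, ha, hw⟩)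
    · exact h.1 h0
    · cases a using casesBr with
      | gen x => exact ha
      | br t c p => exact h.2 t c p hw
  unfold stepF stepL
  rw [if_neg hn]
  rfl

theorem stepF_congr {f g : Bool → List (Let X) → Option (Let X)} {N : ℕ} (hfg : Agree f g N)
    (hv : Vals f N) {s : Bool} {w : List (Let X)} (hw : CanW w) (hp : ParW w)
    (hp' : ParW (opn s w)) (hN : wsize w ≤ N) :
    stepF f s w = stepF g s w := by
  by_cases hL : Long w
  · rw [stepF_long f s hL, stepF_long g s hL]
    unfold stepL
    have ho := opn_ok s hw
    rw [← scan_congr hfg (s := s) (u := []) (w := w) (by simpa using hw) hp (by simpa using hN)]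
    rw [← scan_congr hfg (s := s) (u := []) (w := opn s w) (by simpa using ho.1) hp'
      (by simpa [ho.2] using hN)]
    rw [← topF_congr hfg hv (s := s) ho.1 hp' (by rw [ho.2]; exact hN)]
    cases h1 : scan f s [] w with
    | some z =>
      have := scan_ok hw hp h1
      exact hfg s z this.1 (by omega)
    | none =>
      dsimp only
      cases h2 : scan f s [] (opn s w) with
      | some z =>
        have := scan_ok ho.1 hp' h2
        exact hfg s z this.1 (by omega)
      | none => rfl
  · unfold Long at hL
    push Not at hL
    by_cases h0 : w = []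
    · subst h0
      rw [stepF_nil, stepF_nil]
    · obtain ⟨t, c, p, rfl⟩ := hL h0
      rw [stepF_single, stepF_single]

end Pool.Agent.LibQF
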