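import Pool.Agent.LibQF.Final
import Pool.Agent.LibQF.AllGood

/-!
# Normal forms: the end point of raising does not depend on the order
-/

namespace Pool.Agent.LibQF

universe u v

variable {X : Type u}

/-- one raise: a letter that can be raised is replaced by its parent (or deleted, if the parent is
the adjoined identity) -/
def RaiseStep (w w' : List (Let X)) : Prop :=
  ∃ (u : List (Let X)) (k : Let X) (v : List (Let X)),
    w = u ++ k :: v ∧ CanRaise Lw true u k v ∧ w' = u ++ (k.up ++ v)

theorem RaiseStep.canW {w w' : List (Let X)} (h : RaiseStep w w') (hw : ∀ a ∈ w, Can a) :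
    ∀ a ∈ w', Can a := by
  obtain ⟨u, k, v, rfl, -, rfl⟩ := h
  have hk : Can k := hw k (by simp)
  intro a ha
  rcases List.mem_append.1 ha with h1 | h1
  · exact hw a (by simp [h1])
  · rcases List.mem_append.1 h1 with h2 | h2
    · exact up_canW hk a h2
    · exact hw a (by simp [h2])

theorem raise_lift (w : List (theSys X).A) {w' : List (Let X)}
    (h : Relation.ReflTransGen RaiseStep (w.map toLet) w') :
    ∃ z : List (theSys X).A, z.map toLet = w' ∧ (theSys X).Steps true w z := by
  induction h with
  | refl => exact ⟨w, rfl, Relation.ReflTransGen.refl⟩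
  | tail _ h2 ih =>
    obtain ⟨z, rfl, hz⟩ := ih
    have h3 := h2.canW (theSys_canW z)
    obtain ⟨y, hy⟩ := theSys_exists h3
    refine ⟨y, hy, hz.tail ?_⟩
    rw [theSys_step, hy]
    exact h2

theorem red_of_no_raise (w : List (theSys X).A) (h : ∀ w'', ¬ RaiseStep (w.map toLet) w'') :
    (theSys X).Red true w := by
  rw [theSys_red]
  intro u k v h1 h2
  exact h _ ⟨u, k, v, h1, h2, rfl⟩

theorem no_raise_of_red (w : List (theSys X).A) (h : (theSys X).Red true w) :
    ∀ w'', ¬ RaiseStep (w.map toLet) w'' := by
  rw [theSys_red] at h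
  rintro w'' ⟨u, k, v, h1, h2, -⟩
  exact h u k v h1 h2

theorem steps_down {w z : List (theSys X).A} (h : (theSys X).Steps true w z) :
    Relation.ReflTransGen RaiseStep (w.map toLet) (z.map toLet) := by
  induction h with
  | refl => exact Relation.ReflTransGen.refl
  | tail _ h2 ih =>
    refine ih.tail ?_
    rw [theSys_step] at h2
    exact h2

/-- the reduced form is the only end point of raising -/
theorem raise_end (w w' : List (Let X)) (hw : ∀ a ∈ w, Can a) :
    (Relation.ReflTransGen RaiseStep w w' ∧ ∀ w'', ¬ RaiseStep w' w'') ↔ w' = nfw w := by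
  obtain ⟨w, rfl⟩ := theSys_exists hw
  constructor
  · rintro ⟨h1, h2⟩
    obtain ⟨z, rfl, hz⟩ := raise_lift w h1
    rw [nfw_toW (Sys.good_all (theSys X)), Sys.nf_eq (Sys.good_all (theSys X)) hz
      (red_of_no_raise z h2)]
  · rintro rfl
    rw [nfw_toW (Sys.good_all (theSys X))]
    exact ⟨steps_down ((theSys X).nf_steps w), no_raise_of_red _ ((theSys X).nf_red w)⟩

end Pool.Agent.LibQF
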