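import Pool.Agent.LibQF.All

/-!
# Words that are normal in a context
-/

namespace Pool.Agent.LibQF

universe u

namespace Sys

variable {X : Type u} {S : Sys X}

/-- raising a letter of `v` behind the context `e` -/
inductive VStep (S : Sys X) (s : Bool) (e : Option S.E) : List S.A → List S.A → Prop
  | mk (u : List S.A) (k : S.E) (v : List S.A)
      (h : S.IsR1 s (S.o2l e ++ u) k ∨ S.IsR2 s k v) :
      VStep S s e (u ++ Sum.inr k :: v) (u ++ (S.o2l (S.par k) ++ v))

/-- `v` is normal behind the context `e` -/
def Nrm (S : Sys X) (s : Bool) (e : Option S.E) (v : List S.A) : Prop := ∀ v', ¬ S.VStep s e v v'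

lemma nrm_iff {s : Bool} {e : Option S.E} {w : List S.A} : S.Nrm s e w ↔
    ∀ (u : List S.A) (k : S.E) (v : List S.A), w = u ++ Sum.inr k :: v →
      ¬ S.IsR1 s (S.o2l e ++ u) k ∧ ¬ S.IsR2 s k v := by
  constructor
  · intro h u k v hw
    constructor
    · intro h1
      exact h _ (hw ▸ VStep.mk u k v (Or.inl h1))
    · intro h1
      exact h _ (hw ▸ VStep.mk u k v (Or.inr h1))
  · intro h w' hw'
    cases hw' with
    | mk u k v h1 =>
      have := h u k v rfl
      tauto

lemma VStep_wt {s : Bool} {e : Option S.E} {v v' : List S.A} (h : S.VStep s e v v') :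
    S.wt v' < S.wt v := by
  cases h with
  | mk u k v h =>
    have := S.wt_par k
    simp
    omega

section
variable (H : ∀ n, S.Good n)
include H

lemma vstep_app {s : Bool} {e : Option S.E} {v v' : List S.A} (h : S.VStep s e v v')
    (w : List S.A) (hw : S.le (S.L s w) e) : S.Step s (w ++ v) (w ++ v') := by
  cases h with
  | mk u k v h =>
    have h1 := Pre.Step.mk (S := S.toPre) (s := s) (w ++ u) k v (by
      rcases h with h | h
      · left
        unfold Pre.IsR1 at h ⊢
        refine le_trans ?_ h
        rw [List.append_assoc, List.append_assoc, aP3L H]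
        exact aMonoL H _ hw
      · right; exact h)
    simpa using h1

lemma exists_nrm (s : Bool) (e : Option S.E) (v : List S.A) : ∃ v', S.Nrm s e v' ∧
    (v' = v ∨ S.wt v' < S.wt v) ∧
    ∀ w, S.le (S.L s w) e → S.Eqv s (w ++ v) (w ++ v') := by
  induction hm : S.wt v using Nat.strong_induction_on generalizing v with
  | _ m ih =>
    subst hm
    by_cases hn : S.Nrm s e v
    · exact ⟨v, hn, Or.inl rfl, fun w _ => Eqv.refl _⟩
    · unfold Nrm at hn
      push Not at hn
      obtain ⟨v1, hv1⟩ := hn
      have h1 := VStep_wt hv1
      obtain ⟨v', h2, h3, h4⟩ := ih _ h1 v1 rfl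
      refine ⟨v', h2, Or.inr ?_, ?_⟩
      · rcases h3 with h3 | h3
        · rw [h3]; exact h1
        · exact h3.trans h1
      · intro w hw
        exact Eqv.trans H (Eqv.of_step (vstep_app H hv1 w hw)) (h4 w hw)

lemma Nrm.red {s : Bool} {e : Option S.E} {v : List S.A} (h : S.Nrm s e v) : S.Red s v := by
  rw [red_iff]
  rw [nrm_iff] at h
  intro u k v2 hv
  obtain ⟨h1, h2⟩ := h u k v2 hv
  refine ⟨?_, h2⟩
  intro h3
  apply h1
  unfold Pre.IsR1 at h3 ⊢
  refine le_trans ?_ h3
  rw [List.append_assoc]
  exact aP5L H _ _ _

lemma Nrm.mono {s : Bool} {e f : Option S.E} {v : List S.A} (hef : S.le e f)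
    (h : S.Nrm s e v) : S.Nrm s f v := by
  rw [nrm_iff] at h ⊢
  intro u k v2 hv
  obtain ⟨h1, h2⟩ := h u k v2 hv
  refine ⟨?_, h2⟩
  intro h3
  apply h1
  unfold Pre.IsR1 at h3 ⊢
  refine le_trans ?_ h3
  rw [List.append_assoc, List.append_assoc]
  exact aMonoL H _ hef

lemma Nrm.left {s : Bool} {e : Option S.E} {u v : List S.A} (h : S.Nrm s e (u ++ v)) :
    S.Nrm s e u := by
  rw [nrm_iff] at h ⊢
  intro a k b hu
  obtain ⟨h1, h2⟩ := h a k (b ++ v) (by rw [hu]; simp)
  refine ⟨h1, ?_⟩
  intro h3
  apply h2
  unfold Pre.IsR2 at h3 ⊢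
  refine le_trans ?_ h3
  rw [← List.append_assoc]
  exact aP5R H _ _ _

lemma Nrm.first {s : Bool} {e : Option S.E} {a : S.E} {v : List S.A}
    (h : S.Nrm s e (Sum.inr a :: v)) : ¬ S.le e (some a) := by
  intro h0
  rw [nrm_iff] at h
  obtain ⟨h1, _⟩ := h [] a v (by simp)
  apply h1
  unfold Pre.IsR1
  have h2 := aAbsorbL H (s := s) (u := S.o2l e) (f := S.par a)
    (by rw [L_o2l]; exact le_trans h0 (le_par a))
  rw [List.append_nil, h2, L_o2l]
  exact h0

lemma nrm_top {s : Bool} {e : Option S.E} {v : List S.A} (h : S.Nrm s e v) :
    ∃ P, S.le e P ∧ S.Steps s (S.o2l e ++ v) (S.o2l P ++ v) ∧ S.Red s (S.o2l P ++ v) := by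
  induction hm : S.wt (S.o2l e) using Nat.strong_induction_on generalizing e with
  | _ m ih =>
    subst hm
    by_cases hr : S.Red s (S.o2l e ++ v)
    · exact ⟨e, S.le_refl _, Relation.ReflTransGen.refl, hr⟩
    · obtain ⟨a, k, b, h1, h2⟩ := step_of_not_red hr
      have hn := h
      rw [nrm_iff] at h
      cases e with
      | none =>
        simp at h1
        have h3 := h a k b h1
        simp at h3
        rcases h2 with h2 | h2
        · exact absurd h2 h3.1
        · exact absurd h2 h3.2
      | some p =>
        simp only [o2l_some, List.singleton_append] at h1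
        rcases a with _ | ⟨a0, a⟩
        · simp at h1
          obtain ⟨rfl, rfl⟩ := h1
          have h3 : S.IsR2 s p v := by
            rcases h2 with h2 | h2
            · exfalso
              unfold Pre.IsR1 at h2
              simp at h2
              exact not_par_le p h2
            · exact h2
          have h4 : S.Step s ([] ++ .inr p :: v) ([] ++ (S.o2l (S.par p) ++ v)) :=
            Pre.Step.mk [] p v (Or.inr h3)
          have h5 := S.wt_par p
          obtain ⟨P1, h6, h7, h8⟩ := ih (S.wt (S.o2l (S.par p))) (by simpa using h5)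
            (e := S.par p) (Nrm.mono H (le_par p) hn) rfl
          refine ⟨P1, le_trans (le_par p) h6, ?_, h8⟩
          refine Relation.ReflTransGen.head ?_ h7
          simpa using h4
        · simp at h1
          obtain ⟨h3, h4⟩ := h1
          have h5 := h a k b h4
          subst h3
          rcases h2 with h2 | h2
          · exact absurd (by simpa using h2) h5.1
          · exact absurd h2 h5.2

lemma nrm_unique {s : Bool} {e : Option S.E} {v v' : List S.A} (h : S.Nrm s e v)
    (h' : S.Nrm s e v') (he : S.Eqv s (S.o2l e ++ v) (S.o2l e ++ v')) : v = v' := by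
  obtain ⟨P, h1, h2, h3⟩ := nrm_top H h
  obtain ⟨P', h1', h2', h3'⟩ := nrm_top H h'
  have h4 : S.Eqv s (S.o2l P ++ v) (S.o2l P' ++ v') :=
    Eqv.trans H (Eqv.symm (Eqv.of_steps h2)) (Eqv.trans H he (Eqv.of_steps h2'))
  have h5 := eqv_red h4 h3 h3'
  cases P with
  | none =>
    cases P' with
    | none => simpa using h5
    | some p' =>
      simp only [o2l_none, List.nil_append, o2l_some, List.singleton_append] at h5
      rw [h5] at h
      exact absurd h1' (Nrm.first H h)
  | some p =>
    cases P' with
    | none =>
      simp only [o2l_none, List.nil_append, o2l_some, List.singleton_append] at h5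
      rw [← h5] at h'
      exact absurd h1 (Nrm.first H h')
    | some p' =>
      simp only [o2l_some, List.singleton_append, List.cons.injEq] at h5
      exact h5.2

/-- behind `L (l f)` and behind `l`: the same normal words with first letter `< f` -/
lemma nrm_ctx {s : Bool} {l f : Option S.E} {w1 : S.E} {w : List S.A} (h1 : S.le (some w1) f)
    (h2 : some w1 ≠ f) :
    S.Nrm s (S.L s (S.o2l l ++ S.o2l f)) (Sum.inr w1 :: w) ↔ S.Nrm s l (Sum.inr w1 :: w) := by
  rw [nrm_iff, nrm_iff]
  have key : ∀ (u : List S.A) (k : S.E) (v : List S.A), Sum.inr w1 :: w = u ++ Sum.inr k :: v →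
      (S.IsR1 s (S.o2l (S.L s (S.o2l l ++ S.o2l f)) ++ u) k ↔ S.IsR1 s (S.o2l l ++ u) k) := by
    intro u k v hu
    unfold Pre.IsR1
    have h3 : S.L s (S.o2l (S.L s (S.o2l l ++ S.o2l f)) ++ u ++ S.o2l (S.par k)) =
        S.L s (S.o2l l ++ u ++ S.o2l (S.par k)) := by
      rw [List.append_assoc, ← aP3L H]
      apply eqvL H
      rcases u with _ | ⟨a, u⟩
      · simp at hu
        obtain ⟨rfl, rfl⟩ := hu
        have h4 := eqv_fe H (s := s) (S.o2l l) [] (e := S.par w1) (f := f)
          (le_cases' h1 (Ne.symm h2))
        simpa using h4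
      · simp at hu
        obtain ⟨rfl, _⟩ := hu
        have h4 := eqv_fe H (s := s) (S.o2l l) (u ++ S.o2l (S.par k)) (e := some w1) (f := f) h1
        simpa using h4
    rw [h3]
  constructor
  · intro h u k v hu
    obtain ⟨h3, h4⟩ := h u k v hu
    exact ⟨fun h5 => h3 ((key u k v hu).2 h5), h4⟩
  · intro h u k v hu
    obtain ⟨h3, h4⟩ := h u k v hu
    exact ⟨fun h5 => h3 ((key u k v hu).1 h5), h4⟩

/-- the first letter in `X` is not changed by normalisation -/
lemma first_X {s : Bool} {l : Option S.E} {x : X} {σ w : List S.A} (hw : S.Nrm s l w)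
    (h : S.Eqv s (S.o2l l ++ Sum.inl x :: σ) (S.o2l l ++ w)) : ∃ w', w = Sum.inl x :: w' := by
  induction hm : S.wt σ using Nat.strong_induction_on generalizing σ with
  | _ m ih =>
    subst hm
    by_cases hn : S.Nrm s l (Sum.inl x :: σ)
    · exact ⟨σ, (nrm_unique H hn hw h).symm⟩
    · rw [nrm_iff] at hn
      push Not at hn
      obtain ⟨u, k, v, h1, h2⟩ := hn
      have h3 : S.IsR1 s (S.o2l l ++ u) k ∨ S.IsR2 s k v := by
        by_cases h4 : S.IsR1 s (S.o2l l ++ u) k
        · exact Or.inl h4
        · exact Or.inr (h2 h4)
      rcases u with _ | ⟨a, u⟩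
      · simp at h1
      · simp at h1
        obtain ⟨rfl, rfl⟩ := h1
        have h4 := vstep_app H (VStep.mk (S := S) (s := s) (e := l) (Sum.inl x :: u) k v h3)
          (S.o2l l) (by rw [L_o2l]; exact S.le_refl _)
        have h5 : S.Eqv s (S.o2l l ++ Sum.inl x :: (u ++ (S.o2l (S.par k) ++ v)))
            (S.o2l l ++ w) := by
          have h6 := Eqv.symm (Eqv.of_step h4)
          have h7 := Eqv.trans H h6 (by simpa using h)
          simpa using h7
        exact ih _ (by have := S.wt_par k; simp; omega) h5 rfl

/-- the first letter of any word `σ` with `l σ = l w` -/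
lemma Rstar {s : Bool} {l w1 : S.E} {f : Option S.E} {w σ : List S.A}
    (hl : S.le (some l) f) (hlf : some l ≠ f) (hw1 : S.le (some w1) f) (hwf : some w1 ≠ f)
    (hw : S.Nrm s (some l) (Sum.inr w1 :: w))
    (h : S.Eqv s (Sum.inr l :: σ) (Sum.inr l :: Sum.inr w1 :: w)) :
    ∃ (a : S.E) (ρ : List S.A), σ = Sum.inr a :: ρ ∧ (S.le f (some a) ∨
      ∃ g : S.E, S.par g = f ∧ S.le (some a) (some g) ∧
        (S.le (some w1) (some g) ∨ S.le (some l) (some g))) := by
  induction hm : S.wt σ using Nat.strong_induction_on generalizing σ with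
  | _ m ih =>
    subst hm
    by_cases hn : S.Nrm s (some l) σ
    · have h1 := nrm_unique H hn hw (by simpa using h)
      obtain ⟨c, hc1, hc2⟩ := raise_aux hw1 hwf
      exact ⟨w1, w, h1, Or.inr ⟨c, hc2, hc1, Or.inl hc1⟩⟩
    · rw [nrm_iff] at hn
      push Not at hn
      obtain ⟨u, k, v, h1, h2⟩ := hn
      have h3 : S.IsR1 s (S.o2l (some l) ++ u) k ∨ S.IsR2 s k v := by
        by_cases h4 : S.IsR1 s (S.o2l (some l) ++ u) k
        · exact Or.inl h4
        · exact Or.inr (h2 h4)
      have h4 := vstep_app H (VStep.mk (S := S) (s := s) (e := some l) u k v h3)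
        [Sum.inr l] (by rw [S.L_single]; exact S.le_refl _)
      have h5 : S.Eqv s (Sum.inr l :: (u ++ (S.o2l (S.par k) ++ v)))
          (Sum.inr l :: Sum.inr w1 :: w) := by
        have h6 := Eqv.symm (Eqv.of_step h4)
        have h7 := Eqv.trans H h6 (by rw [← h1]; simpa using h)
        simpa using h7
      have hpk := S.wt_par k
      rcases u with _ | ⟨a0, u⟩
      · simp only [List.nil_append] at h1 h5
        subst h1
        refine ⟨k, v, rfl, ?_⟩
        -- either done, or `f ≤ k⁺`
        have h6 : (∃ g : S.E, S.par g = f ∧ S.le (some k) (some g) ∧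
            (S.le (some w1) (some g) ∨ S.le (some l) (some g))) ∨ S.le f (S.par k) := by
          cases hp : S.par k with
          | none => exact Or.inr (le_none f)
          | some p =>
            rw [hp] at h5 hpk
            obtain ⟨a, ρ, h7, h8⟩ := ih _ (by simp at hpk ⊢; omega) h5 rfl
            simp only [o2l_some, List.singleton_append, List.cons.injEq, Sum.inr.injEq] at h7
            obtain ⟨rfl, rfl⟩ := h7
            rcases h8 with h8 | ⟨g, hg1, hg2, hg3⟩
            · exact Or.inr h8
            · left
              refine ⟨g, hg1, le_trans ?_ hg2, hg3⟩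
              rw [← hp]
              exact le_par k
        rcases h6 with h6 | h6
        · exact Or.inr h6
        · rcases h3 with h3 | h3
          · -- R1
            unfold Pre.IsR1 at h3
            have h7 := aAbsorbL H (s := s) (u := [Sum.inr l]) (f := S.par k)
              (by rw [S.L_single]; exact le_trans hl h6)
            simp only [o2l_some, List.append_nil] at h3
            rw [h7, S.L_single] at h3
            rcases le_total_above h3 hl with h8 | h8
            · by_cases h9 : some k = f
              · left
                rw [← h9]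
                exact S.le_refl _
              · obtain ⟨c, hc1, hc2⟩ := raise_aux h8 h9
                exact Or.inr ⟨c, hc2, hc1, Or.inr (le_trans h3 hc1)⟩
            · exact Or.inl h8
          · -- R2
            have strip : ∀ ρ : List S.A, S.wt ρ < S.wt (Sum.inr k :: v) →
                S.Eqv s (Sum.inr l :: ρ) (Sum.inr l :: Sum.inr w1 :: w) →
                ∃ (a2 g : S.E) (ρ2 : List S.A), S.par g = f ∧ S.le (some a2) (some g) ∧
                  (S.le (some w1) (some g) ∨ S.le (some l) (some g)) ∧
                  ∀ P : Option S.E, S.le f P → S.Eqv s (S.o2l P ++ ρ) (Sum.inr a2 :: ρ2) := by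
              intro ρ
              induction ρ with
              | nil =>
                intro hρ1 hρ2
                obtain ⟨a, ρ', h7, _⟩ := ih _ hρ1 hρ2 rfl
                simp at h7
              | cons a0 ρ' ihρ =>
                intro hρ1 hρ2
                obtain ⟨a, ρ'', h7, h8⟩ := ih _ hρ1 hρ2 rfl
                simp only [List.cons.injEq] at h7
                obtain ⟨rfl, rfl⟩ := h7
                rcases h8 with h8 | ⟨g, hg1, hg2, hg3⟩
                · have h9 := eqv_ef H (s := s) [] ρ' (e := some l) (f := some a) (le_trans hl h8)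
                  obtain ⟨a2, g, ρ2, h10, h11, h12, h13⟩ := ihρ
                    (by
                      have := S.sz_pos a
                      simp at hρ1 ⊢
                      omega)
                    (Eqv.trans H (Eqv.symm (by simpa using h9)) hρ2)
                  refine ⟨a2, g, ρ2, h10, h11, h12, ?_⟩
                  intro P hP
                  rcases le_total_above hP h8 with h14 | h14
                  · have h15 := eqv_ef H (s := s) [] ρ' (e := P) (f := some a) h14
                    exact Eqv.trans H (by simpa using h15) (h13 P hP)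
                  · have h15 := eqv_fe H (s := s) [] ρ' (e := some a) (f := P) h14
                    exact Eqv.trans H (by simpa using h15) (h13 (some a) h8)
                · refine ⟨a, g, ρ', hg1, hg2, hg3, ?_⟩
                  intro P hP
                  have h9 : S.le (some a) P :=
                    le_trans hg2 (le_trans (le_par g) (by rw [hg1]; exact hP))
                  have h15 := eqv_fe H (s := s) [] ρ' (e := some a) (f := P) h9
                  simpa using h15
            have h7 : S.Eqv s (Sum.inr l :: v) (Sum.inr l :: Sum.inr w1 :: w) := by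
              have h8 := eqv_ef H (s := s) [] v (e := some l) (f := S.par k) (le_trans hl h6)
              exact Eqv.trans H (Eqv.symm (by simpa using h8)) (by simpa using h5)
            obtain ⟨a2, g, ρ2, h10, h11, h12, h13⟩ := strip v
              (by have := S.sz_pos k; simp; omega) h7
            have h14 := eqvR H (h13 (S.par k) h6)
            unfold Pre.IsR2 at h3
            rw [h14] at h3
            have h15 : S.le (S.Rt s (Sum.inr a2 :: ρ2)) (some a2) := by
              have := aP5R H s [Sum.inr a2] ρ2
              simpa using this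
            have h16 : S.le (S.Rt s (Sum.inr a2 :: ρ2)) (some g) := le_trans h15 h11
            have h17 : S.le (some g) f := by
              rw [← h10]
              exact le_par g
            rcases le_total_above h3 h16 with h18 | h18
            · exact Or.inr ⟨g, h10, h18, h12⟩
            · rcases le_cases h18 with h19 | h19
              · exact Or.inr ⟨g, h10, by rw [h19]; exact S.le_refl _, h12⟩
              · left
                rw [← h10]
                exact h19
      · simp only [List.cons_append] at h1 h5
        obtain ⟨a, ρ, h7, h8⟩ := ih _ (by rw [h1]; simp; omega) h5 rfl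
        simp only [List.cons.injEq] at h7
        obtain ⟨h7, _⟩ := h7
        subst h7
        exact ⟨a, _, h1, h8⟩

end

end Sys

end Pool.Agent.LibQF
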