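import Pool.Agent.LibQF.LemS

/-!
# Proposition W and Lemma One
-/

namespace Pool.Agent.LibQF

universe u

namespace Sys

variable {X : Type u} {S : Sys X}

section
variable (H : ∀ n, S.Good n)
include H

/-- normality of a word with one more letter in front -/
lemma nrm_cons {s : Bool} {l : Option S.E} {b : S.E} {t : List S.A}
    (h1 : ¬ S.IsR1 s (S.o2l l) b) (h2 : ¬ S.IsR2 s b t)
    (h3 : S.Nrm s (S.L s (S.o2l l ++ [Sum.inr b])) t) : S.Nrm s l (Sum.inr b :: t) := by
  rw [nrm_iff]
  intro u k v h
  cases u with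
  | nil =>
    simp only [List.nil_append, List.cons.injEq, Sum.inr.injEq] at h
    obtain ⟨rfl, rfl⟩ := h
    exact ⟨by simpa using h1, h2⟩
  | cons a u =>
    simp only [List.cons_append, List.cons.injEq] at h
    obtain ⟨rfl, rfl⟩ := h
    have h4 := (nrm_iff.1 h3) u k v rfl
    refine ⟨?_, h4.2⟩
    intro h5
    apply h4.1
    unfold Pre.IsR1 at h5 ⊢
    have h6 := aP3L H s (S.o2l l ++ [Sum.inr b]) (u ++ S.o2l (S.par k))
    simp only [List.append_assoc, List.cons_append, List.nil_append] at h5 h6 ⊢
    rw [h6] at h5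
    exact h5

/-- `L(L(l p) b) = L(l b)` for `b ≤ p` -/
lemma L_ctx {s : Bool} (l : Option S.E) {p : Option S.E} {b : S.E} (hb : S.le (some b) p) :
    S.L s (S.o2l (S.L s (S.o2l l ++ S.o2l p)) ++ [Sum.inr b]) = S.L s (S.o2l l ++ [Sum.inr b]) := by
  rw [← aP3L H]
  have h1 := eqv_fe H (s := s) (S.o2l l) [] hb
  have h2 := eqvL H h1
  simpa using h2

/-- if `b` of side `s` can be raised before `t` then the first letter of `t` is `< b` -/
lemma first_lt {s : Bool} {b : S.E} {c : Option S.E} {t : List S.A} (hb : S.side b = s)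
    (hc : S.le c (some b)) (ht : S.Nrm s c t) (h : S.IsR2 s b t) :
    ∃ (a : S.E) (y : List S.A), t = Sum.inr a :: y ∧ S.le (some a) (some b) ∧ a ≠ b := by
  unfold Pre.IsR2 at h
  have h1 : S.le (S.Rt s t) (some b) := by
    cases hp : S.par b with
    | none =>
      rw [hp] at h
      simpa using h
    | some p =>
      rw [hp] at h
      obtain ⟨e, _, _, h3⟩ := aTTR H hb h (by
        intro e he
        simp only [Sum.inr.injEq] at he
        subst he
        rw [← hp]
        exact not_par_le b)
      exact h3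
  cases t with
  | nil =>
    rw [Rt_nil] at h1
    cases none_le h1
  | cons z y =>
    obtain ⟨a, rfl, h2⟩ := aFirstT H (Nrm.red H ht) hb h1
    refine ⟨a, y, rfl, h2, ?_⟩
    rintro rfl
    exact Nrm.first H ht hc

end

variable (H : ∀ n, S.Good n) (FS : S.FSall)
include H FS

/-- cancellation when the first letter of one normal side is below `b` -/
lemma propW {s : Bool} {l b : Option S.E} {w1 : S.E} {w σ : List S.A}
    (h1 : S.le (some w1) b) (h2 : some w1 ≠ b)
    (hw : S.Nrm s (S.L s (S.o2l l ++ S.o2l b)) (Sum.inr w1 :: w))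
    (h : S.Eqv s (S.o2l l ++ S.o2l b ++ σ) (S.o2l l ++ S.o2l b ++ Sum.inr w1 :: w)) :
    S.Eqv s (S.o2l (S.L s (S.o2l l ++ S.o2l b)) ++ σ)
      (S.o2l (S.L s (S.o2l l ++ S.o2l b)) ++ Sum.inr w1 :: w) := by
  induction hn : S.wt (S.o2l b) using Nat.strong_induction_on generalizing l b σ with
  | _ n ih =>
    subst hn
    -- the normal form of `σ`
    obtain ⟨t, ht, _, hσt⟩ := exists_nrm H s (S.L s (S.o2l l ++ S.o2l b)) σ
    have e1 := hσt (S.o2l l ++ S.o2l b) (S.le_refl _)
    have e2 := hσt (S.o2l (S.L s (S.o2l l ++ S.o2l b))) (by rw [L_o2l]; exact S.le_refl _)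
    have h' := Eqv.trans H e1.symm h
    suffices hs : t = Sum.inr w1 :: w by
      rw [← hs]
      exact e2
    -- comparable
    by_cases hlb : S.le l b
    · have e3 : S.L s (S.o2l l ++ S.o2l b) = l := by
        rw [aAbsorbL H (by rw [L_o2l]; exact hlb), L_o2l]
      rw [e3] at ht hw
      apply nrm_unique H ht hw
      exact Eqv.trans H (Eqv.trans H (eqv_absorbL H (S.o2l l) t (by rw [L_o2l]; exact hlb)).symm h')
        (eqv_absorbL H (S.o2l l) _ (by rw [L_o2l]; exact hlb))
    by_cases hbl : S.le b l
    · have e3 : S.L s (S.o2l l ++ S.o2l b) = b := by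
        have := eqvL H (eqv_fe H (s := s) [] [] hbl)
        simpa using this
      rw [e3] at ht hw
      apply nrm_unique H ht hw
      have e4 := eqv_fe H (s := s) [] t hbl
      have e5 := eqv_fe H (s := s) [] (Sum.inr w1 :: w) hbl
      simp only [List.nil_append] at e4 e5
      exact Eqv.trans H (Eqv.trans H e4.symm h') e5
    cases l with
    | none => exact absurd (le_none b) hbl
    | some l0 =>
    cases b with
    | none => exact absurd (le_none _) hlb
    | some b0 =>
    have hpar := S.wt_par b0
    -- `c ≤ b`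
    have hcb : S.le (S.L s (S.o2l (some l0) ++ S.o2l (some b0))) (some b0) := by
      have := aP5L H s (S.o2l (some l0)) (S.o2l (some b0))
      rwa [L_o2l] at this
    have w1p : S.le (some w1) (S.par b0) := le_trans h1 (le_par b0)
    have w1p' : some w1 ≠ S.par b0 := by
      intro h3
      rw [h3] at h1
      exact not_par_le b0 h1
    by_cases hR1 : S.IsR1 s [Sum.inr l0] b0
    · -- raise `b`
      have st : ∀ z : List S.A, S.Eqv s (S.o2l (some l0) ++ S.o2l (some b0) ++ z)
          (S.o2l (some l0) ++ S.o2l (S.par b0) ++ z) := by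
        intro z
        have h3 := Eqv.of_step (Pre.Step.mk (S := S.toPre) (s := s) [Sum.inr l0] b0 z (Or.inl hR1))
        simpa using h3
      have e3 : S.L s (S.o2l (some l0) ++ S.o2l (some b0)) =
          S.L s (S.o2l (some l0) ++ S.o2l (S.par b0)) := by
        have := eqvL H (st [])
        simpa using this
      rw [e3] at ht hw
      have h3 := ih _ (by simpa using hpar) (l := some l0) (b := S.par b0) (σ := t) w1p w1p' hw
        (Eqv.trans H (Eqv.trans H (st t).symm h') (st _)) rfl
      exact nrm_unique H ht hw h3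
    -- `b` is raised before `w`
    have hRw : S.le (S.Rt s (Sum.inr w1 :: w)) (some w1) := by
      have := aP5R H s [Sum.inr w1] w
      simpa using this
    have hR2w : S.IsR2 s b0 (Sum.inr w1 :: w) := by
      unfold Pre.IsR2
      rw [aAbsorbR H (le_trans hRw w1p)]
      exact le_trans hRw h1
    have hwl : S.Nrm s (some l0) (Sum.inr w1 :: w) := (nrm_ctx H h1 h2).1 hw
    by_cases hR2 : S.IsR2 s b0 t
    · -- both raised
      have st : ∀ z : List S.A, S.IsR2 s b0 z → S.Eqv s (S.o2l (some l0) ++ S.o2l (some b0) ++ z)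
          (S.o2l (some l0) ++ S.o2l (S.par b0) ++ z) := by
        intro z hz
        have h3 := Eqv.of_step (Pre.Step.mk (S := S.toPre) (s := s) [Sum.inr l0] b0 z (Or.inr hz))
        simpa using h3
      have h3 := Eqv.trans H (Eqv.trans H (st t hR2).symm h') (st _ hR2w)
      have hwl' := (nrm_ctx H (l := some l0) w1p w1p').2 hwl
      have h4 := ih _ (by simpa using hpar) (l := some l0) (b := S.par b0) (σ := t) w1p w1p' hwl'
        h3 rfl
      -- `l' = L (l p)`
      obtain ⟨l', hl'⟩ : ∃ l', l' = S.L s (S.o2l (some l0) ++ S.o2l (S.par b0)) := ⟨_, rfl⟩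
      have hLc := L_ctx H (s := s) (some l0) (le_par b0)
      rw [← hl'] at hLc h4 hwl'
      have hl'p : S.le l' (S.par b0) := by
        have := aP5L H s (S.o2l (some l0)) (S.o2l (S.par b0))
        rw [L_o2l] at this
        rwa [hl']
      have hc' : S.L s (S.o2l (some l0) ++ S.o2l (some b0)) = S.L s (S.o2l l' ++ [Sum.inr b0]) := by
        rw [hLc]
        rfl
      rw [hc'] at ht hw hcb
      by_cases c1 : l' = S.par b0
      · -- `l' = p`
        rw [c1] at h4 hLc ht hw
        have e3 : S.L s (S.o2l (S.par b0) ++ [Sum.inr b0]) = some b0 := by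
          have := eqvL H (eqv_fe H (s := s) [] [] (le_par b0))
          simpa using this
        rw [e3] at ht hw
        apply nrm_unique H ht hw
        have e4 : ∀ z : List S.A, S.Eqv s (S.o2l (some b0) ++ z)
            (S.o2l (some b0) ++ (S.o2l (S.par b0) ++ z)) := by
          intro z
          have := (eqv_ef H (s := s) [] z (le_par b0)).symm
          simpa using this
        exact Eqv.trans H (Eqv.trans H (e4 t) (Eqv.app_left H _ h4)) (e4 _).symm
      have c2 : ¬ S.le l' (some b0) := by
        intro h5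
        apply hR1
        unfold Pre.IsR1
        rw [hl'] at h5
        exact h5
      have c3 : ¬ S.le (some b0) l' := by
        intro h5
        rcases le_cases h5 with h6 | h6
        · exact c2 (h6 ▸ S.le_refl _)
        · exact c1 (le_antisymm hl'p h6)
      cases l' with
      | none => exact absurd (none_le hl'p).symm c1
      | some l1 =>
      by_cases hside : S.side b0 = s
      · obtain ⟨a, y, rfl, h5, h6⟩ := first_lt H hside hcb ht hR2
        have h7 : S.Nrm s (some l1) (Sum.inr a :: y) :=
          (nrm_ctx H (s := s) (l := some l1) (f := some b0) h5 (by simpa using h6)).1 ht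
        exact nrm_unique H h7 hwl' h4
      · obtain ⟨c, hc⟩ : ∃ c, S.L s (S.o2l (some l1) ++ [Sum.inr b0]) = some c := by
          cases hcc : S.L s (S.o2l (some l1) ++ [Sum.inr b0]) with
          | none =>
            rw [hcc] at hcb
            cases none_le hcb
          | some c => exact ⟨c, rfl⟩
        have ht' := ht
        rw [hc] at ht'
        rcases lemS H FS hside hl'p c1 c2 c3 hc ht' hR2 with h5 | ⟨p, m, q, u, P, h5, _, _, _, _, _, h6⟩
        · exact nrm_unique H h5 hwl' h4
        · exfalso
          rw [h5] at hl'p c1 w1p w1p'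
          obtain ⟨a, ρ, h7, h8⟩ := Rstar H (s := s) hl'p c1 w1p w1p' hwl' (by simpa using h4)
          have h9 := h6 a ρ h7
          rcases h8 with h8 | ⟨g, h8, h10, _⟩
          · exact h9.2 h8
          · apply h9.1
            rw [← h8]
            exact le_trans h10 (le_par g)
    · -- `b` not raised before `t`
      exfalso
      have h3 : S.Nrm s (some l0) (Sum.inr b0 :: t) := nrm_cons H hR1 hR2 ht
      have h4 : S.Eqv s (S.o2l (some l0) ++ Sum.inr b0 :: t)
          (S.o2l (some l0) ++ Sum.inr w1 :: w) := by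
        have h5 := eqv_absorbR H (s := s) (S.o2l (some l0)) (Sum.inr w1 :: w) (f := some b0)
          (le_trans hRw h1)
        have h6 := Eqv.trans H h' h5
        simpa using h6
      have h5 := nrm_unique H h3 hwl h4
      simp only [List.cons.injEq, Sum.inr.injEq] at h5
      exact h2 (by rw [h5.1])

/-- `b` cannot be raised before exactly one of `v`, `v'` -/
lemma lemOne {s : Bool} {l b c : S.E} {v v' : List S.A}
    (hlb : ¬ S.le (some l) (some b)) (hbl : ¬ S.le (some b) (some l))
    (hc : S.L s [Sum.inr l, Sum.inr b] = some c) (hR1 : ¬ S.IsR1 s [Sum.inr l] b)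
    (hv : S.Nrm s (some c) v) (hv' : S.Nrm s (some c) v')
    (h : S.Eqv s (Sum.inr l :: Sum.inr b :: v) (Sum.inr l :: Sum.inr b :: v'))
    (h1 : S.IsR2 s b v) (h2 : ¬ S.IsR2 s b v') : False := by
  have hcb : S.le (some c) (some b) := by
    have := aP5L H s [Sum.inr l] [Sum.inr b]
    rw [S.L_single] at this
    simp only [List.cons_append, List.nil_append] at this
    rwa [hc] at this
  -- `l p v ~ l p b v'`
  have h3 : S.Eqv s (S.o2l (some l) ++ S.o2l (S.par b) ++ v)
      (S.o2l (some l) ++ S.o2l (S.par b) ++ Sum.inr b :: v') := by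
    have e1 := Eqv.of_step (Pre.Step.mk (S := S.toPre) (s := s) [Sum.inr l] b v (Or.inr h1))
    have e2 := eqv_fe H (s := s) [Sum.inr l] v' (le_par b)
    have e3 := Eqv.trans H (Eqv.trans H e1.symm (by simpa using h)) (e2.symm)
    simpa using e3
  obtain ⟨l', hl'⟩ : ∃ l', l' = S.L s (S.o2l (some l) ++ S.o2l (S.par b)) := ⟨_, rfl⟩
  have hLc := L_ctx H (s := s) (some l) (le_par b)
  rw [← hl'] at hLc
  have hLc' : S.L s (S.o2l l' ++ [Sum.inr b]) = some c := by
    rw [hLc]
    exact hc
  have hl'p : S.le l' (S.par b) := by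
    have := aP5L H s (S.o2l (some l)) (S.o2l (S.par b))
    rw [L_o2l] at this
    rwa [hl']
  have c2 : ¬ S.le l' (some b) := by
    intro h5
    apply hR1
    unfold Pre.IsR1
    rw [hl'] at h5
    exact h5
  -- `b v'` is normal behind `l'`
  have hn : S.Nrm s l' (Sum.inr b :: v') := by
    apply nrm_cons H _ h2 (by rw [hLc']; exact hv')
    unfold Pre.IsR1
    rw [aAbsorbL H (by rw [L_o2l]; exact hl'p), L_o2l]
    exact c2
  have h4 : S.Eqv s (S.o2l l' ++ v) (S.o2l l' ++ Sum.inr b :: v') := by
    have := propW H FS (s := s) (l := some l) (b := S.par b) (w1 := b) (w := v') (σ := v)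
      (le_par b) (par_ne b).symm (by rw [← hl']; exact hn) h3
    rwa [← hl'] at this
  have nofirst : ∀ y, v ≠ Sum.inr b :: y := by
    rintro y rfl
    exact Nrm.first H hv hcb
  by_cases c1 : l' = S.par b
  · rw [c1] at h4 hLc'
    have e3 : S.L s (S.o2l (S.par b) ++ [Sum.inr b]) = some b := by
      have := eqvL H (eqv_fe H (s := s) [] [] (le_par b))
      simpa using this
    rw [e3] at hLc'
    have hbc : b = c := by simpa using hLc'
    have e4 : ∀ z : List S.A, S.Eqv s (S.o2l (some b) ++ z)
        (S.o2l (some b) ++ (S.o2l (S.par b) ++ z)) := by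
      intro z
      have := (eqv_ef H (s := s) [] z (le_par b)).symm
      simpa using this
    have e5 : S.Eqv s (S.o2l (some b) ++ (Sum.inr b :: v')) (S.o2l (some b) ++ v') := by
      have := eqv_ef H (s := s) [] v' (S.le_refl (some b))
      simpa using this
    have h5 := Eqv.trans H (Eqv.trans H (Eqv.trans H (e4 v) (Eqv.app_left H _ h4))
      (e4 _).symm) e5
    rw [hbc] at h5
    have h6 := nrm_unique H hv hv' h5
    rw [h6] at h1
    exact h2 h1
  have c3 : ¬ S.le (some b) l' := by
    intro h5
    rcases le_cases h5 with h6 | h6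
    · exact c2 (h6 ▸ S.le_refl _)
    · exact c1 (le_antisymm hl'p h6)
  cases l' with
  | none => exact c1 (none_le hl'p).symm
  | some l1 =>
  by_cases hside : S.side b = s
  · obtain ⟨a, y, rfl, h5, h6⟩ := first_lt H hside hcb hv h1
    have h7 : S.Nrm s (some l1) (Sum.inr a :: y) := by
      apply (nrm_ctx H (s := s) (l := some l1) (f := some b) h5 (by simpa using h6)).1
      change S.Nrm s (S.L s (S.o2l (some l1) ++ [Sum.inr b])) _
      rw [hLc']
      exact hv
    exact nofirst _ (nrm_unique H h7 hn h4)
  · rcases lemS H FS hside hl'p c1 c2 c3 hLc' hv h1 with h5 | ⟨p, m, q, u, P, h5, _, _, _, _, _, h6⟩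
    · exact nofirst _ (nrm_unique H h5 hn h4)
    · have hpb := le_par b
      have hpb' := (par_ne b).symm
      rw [h5] at hl'p c1 hpb hpb'
      obtain ⟨a, ρ, h7, h8⟩ := Rstar H (s := s) hl'p c1 hpb hpb' hn (by simpa using h4)
      have h9 := h6 a ρ h7
      rcases h8 with h8 | ⟨g, h8, h10, _⟩
      · exact h9.2 h8
      · apply h9.1
        rw [← h8]
        exact le_trans h10 (le_par g)

end Sys

end Pool.Agent.LibQF
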