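import Mathlib

/-!
# Abstract letter systems (working file for MP_f1bde6_al)

`s : Bool` is a side.  Words are written in the orientation of the side `s`; the same word in the
orientation of `!s` is the reversed list.  `L s w` is the idempotent in front (seen from the end of
the word), `Rt s w = L (!s) w.reverse` the one on the other side.
-/

namespace Pool.Agent.LibQF

universe u

/-- data of a letter system -/
structure Pre (X : Type u) where
  E : Type u
  side : E → Bool
  om : E → List (X ⊕ E)
  par : E → Option E
  sz : E → ℕ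
  L : Bool → List (X ⊕ E) → Option E

namespace Pre

variable {X : Type u} (S : Pre X)

/-- letters -/
abbrev A : Type u := X ⊕ S.E

/-- size of a letter -/
def wtA : S.A → ℕ
  | .inl _ => 1
  | .inr e => S.sz e

/-- size of a word -/
def wt (w : List S.A) : ℕ := (w.map S.wtA).sum

/-- the word of an element of `E ∪ {1}` -/
def o2l : Option S.E → List S.A
  | none => []
  | some e => [.inr e]

/-- parent of a letter, as a word -/
def up : S.A → List S.A
  | .inl _ => []
  | .inr e => S.o2l (S.par e)

/-- parent on `E ∪ {1}` -/
def parO (o : Option S.E) : Option S.E := o.bind S.par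

/-- order: `b` is an iterated parent of `a`; `none` is the top element -/
def le (a b : Option S.E) : Prop := ∃ n : ℕ, S.parO^[n] a = b

/-- the other side -/
def Rt (s : Bool) (w : List S.A) : Option S.E := S.L (!s) w.reverse

/-- `k` can be raised after `u` -/
def IsR1 (s : Bool) (u : List S.A) (k : S.E) : Prop :=
  S.le (S.L s (u ++ S.o2l (S.par k))) (some k)

/-- `k` can be raised before `v` -/
def IsR2 (s : Bool) (k : S.E) (v : List S.A) : Prop :=
  S.le (S.Rt s (S.o2l (S.par k) ++ v)) (some k)

/-- raising one letter -/
inductive Step (s : Bool) : List S.A → List S.A → Prop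
  | mk (u : List S.A) (k : S.E) (v : List S.A) (h : S.IsR1 s u k ∨ S.IsR2 s k v) :
      Step s (u ++ .inr k :: v) (u ++ (S.o2l (S.par k) ++ v))

/-- many raises -/
abbrev Steps (s : Bool) : List S.A → List S.A → Prop := Relation.ReflTransGen (S.Step s)

/-- reduced words -/
def Red (s : Bool) (w : List S.A) : Prop := ∀ w', ¬ S.Step s w w'

/-- split test -/
def Split (s : Bool) (w : List S.A) : Prop :=
  ∃ (u v : List S.A) (g : S.E), w = u ++ v ∧ u ≠ [] ∧ v ≠ [] ∧ S.Rt s v = some g ∧
    S.le (some g) (S.L s (u ++ S.o2l (S.par g)))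

/-- the first letter is not an idempotent of side `s` -/
def NS (s : Bool) : List S.A → Prop
  | .inr e :: _ => S.side e ≠ s
  | _ => True

/-- the word of a letter, opened if it is of side `s` -/
def op (s : Bool) : S.A → List S.A
  | .inl x => [.inl x]
  | .inr e => if S.side e = s then S.om e else [.inr e]

/-- the word of a letter, opened if it is of side `!s`, in the orientation of `s` -/
def opr (s : Bool) (a : S.A) : List S.A := (S.op (!s) a).reverse

end Pre

/-- letter systems -/
structure Sys (X : Type u) extends Pre X where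
  sz_pos : ∀ e, 0 < sz e
  sz_par : ∀ e p, par e = some p → sz p < sz e
  sz_om : ∀ e, sz e = toPre.wt (om e)
  ext : ∀ e f, side e = side f → om e = om f → e = f
  om_ns : ∀ e, toPre.NS (side e) (om e)
  om_single : ∀ e f, om e ≠ [Sum.inr f]
  om_red : ∀ e, toPre.Red (side e) (om e)
  om_split : ∀ e, ¬ toPre.Split (side e) (om e)
  L_size : ∀ s w e, L s w = some e → sz e ≤ toPre.wt w
  L_nil : ∀ s, L s [] = none
  L_single : ∀ s e, L s [Sum.inr e] = some e
  L_step : ∀ s w, ¬ toPre.Red s w → ∃ w', toPre.Step s w w' ∧ L s w = L s w'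
  L_open : ∀ s e v, toPre.Red s (Sum.inr e :: v) → side e = s → v ≠ [] →
    L s (Sum.inr e :: v) = L s (om e ++ v)
  L_split : ∀ s a v, toPre.Red s (a :: v) → toPre.NS s (a :: v) → toPre.Split s (a :: v) →
    L s (a :: v) = L s (toPre.up a ++ v)
  L_top : ∀ s a v, toPre.Red s (a :: v) → toPre.NS s (a :: v) → ¬ toPre.Split s (a :: v) →
    (∀ e, a :: v ≠ [Sum.inr e]) →
    ∃ k, side k = s ∧ om k = a :: v ∧ par k = L s (toPre.up a ++ v) ∧ L s (a :: v) = some k

end Pool.Agent.LibQF
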